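import Mathlib

set_option autoImplicit false

namespace Pool.Agent.Lib.MP_2cea55_ag

/-- k-points of the Gorenstein locus: ideals of colength d all of whose local rings have a
one-dimensional socle -/
def Gor (k : Type) [Field k] (d : ℕ) : Set (Ideal (MvPolynomial (Fin 4) k)) :=
  {I | Module.finrank k (MvPolynomial (Fin 4) k ⧸ I) = d ∧
    ∀ (m : Ideal (MvPolynomial (Fin 4) k ⧸ I)) [m.IsPrime],
      Module.finrank k (IsLocalRing.maximalIdeal (Localization.AtPrime m)).annihilator = 1}

/-- Zariski closed sets of k-points of the Hilbert scheme of d points: for every family over a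
finitely generated k-algebra B with free quotient of rank d, the k-points of Spec B whose fibre
lies in C form a zero locus -/
def ZClosed (k : Type) [Field k] (d : ℕ) (C : Set (Ideal (MvPolynomial (Fin 4) k))) : Prop :=
  ∀ (B : Type) [CommRing B] [Algebra k B] [Algebra.FiniteType k B]
    (J : Ideal (MvPolynomial (Fin 4) B)),
    Nonempty (Module.Basis (Fin d) B (MvPolynomial (Fin 4) B ⧸ J)) →
      ∃ S : Set B, ∀ φ : B →ₐ[k] k, J.map (MvPolynomial.map φ.toRingHom) ∈ C ↔ ∀ b ∈ S, φ b = 0

end Pool.Agent.Lib.MP_2cea55_ag
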