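import Pool.Agent.Lib.MP_2cea55_ag.Family

set_option autoImplicit false
set_option linter.unusedSectionVars false
set_option linter.style.haveILetI false

open MvPolynomial Module

namespace Pool.Agent.Lib.MP_2cea55_ag

abbrev T := ℕ × ℕ × ℕ × ℕ

def dg (t : T) : ℕ := t.1 + t.2.1 + t.2.2.1 + t.2.2.2

def inE (t : T) : Prop := (dg t = 9 ∧ (6 ≤ t.1 ∨ (t.1 = 5 ∧ 3 ≤ t.2.1))) ∨ t = (8, 0, 0, 0)

instance : DecidablePred inE := fun t => by unfold inE; infer_instance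

def Sl : List T :=
  [(0, 0, 0, 5), (0, 0, 1, 4), (0, 0, 2, 3), (0, 0, 3, 2), (0, 0, 4, 1), (0, 0, 5, 0), (0, 1,
    0, 4), (0, 1, 1, 3), (0, 1, 2, 2), (0, 1, 3, 1), (0, 1, 4, 0), (0, 2, 0, 3), (0, 2, 1, 2),
    (0, 2, 2, 1), (0, 2, 3, 0), (0, 3, 0, 2), (0, 3, 1, 1), (0, 3, 2, 0), (0, 4, 0, 1), (0, 4,
    1, 0), (0, 5, 0, 0), (1, 0, 0, 4), (1, 0, 1, 3), (1, 0, 2, 2), (1, 0, 3, 1), (1, 0, 4, 0),
    (1, 1, 0, 3), (1, 1, 1, 2), (1, 1, 2, 1), (1, 1, 3, 0), (1, 2, 0, 2), (1, 2, 1, 1), (1, 2,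
    2, 0)]

def Bl : List T :=
  [(0, 0, 0, 4), (0, 0, 1, 3), (0, 0, 2, 2), (0, 0, 3, 1), (0, 0, 4, 0), (0, 1, 0, 3), (0, 1,
    1, 2), (0, 1, 2, 1), (0, 1, 3, 0), (0, 2, 1, 1), (0, 2, 2, 0), (0, 3, 0, 1), (0, 3, 1, 0),
    (0, 4, 0, 0), (1, 0, 0, 3), (1, 0, 1, 2), (1, 0, 2, 1), (1, 0, 3, 0), (1, 1, 0, 2), (1, 1,
    1, 1), (1, 1, 2, 0), (1, 2, 0, 1), (1, 2, 1, 0), (1, 3, 0, 0), (2, 0, 0, 2), (2, 0, 1, 1),
    (2, 0, 2, 0), (2, 1, 0, 1), (2, 1, 1, 0), (2, 2, 0, 0), (3, 0, 0, 1), (3, 0, 1, 0), (3, 1,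
    0, 0)]

def Yl : List T :=
  [(0, 0, 9, 0), (0, 1, 8, 0), (0, 2, 1, 6), (0, 2, 5, 2), (0, 4, 4, 1), (0, 7, 0, 2), (1, 0,
    7, 1), (1, 0, 8, 0), (1, 5, 1, 2), (2, 0, 1, 6), (2, 2, 0, 5), (2, 2, 5, 0), (2, 3, 2, 2),
    (2, 4, 3, 0), (2, 5, 2, 0), (2, 6, 0, 1), (3, 1, 2, 3), (3, 6, 0, 0), (4, 2, 3, 0)]

def Il : List (List ℤ) :=
  [[0, 0, 0, -1, 0, 0, 0, 0, 0, 0, 0, 0, 1, 1, 0, 0, 0, 0, 0, -1, 0, 0, 0, -1, -1, 0, 1, 0, 0,
    0, 0, 0, 0], [0, -1, 0, 0, 0, 0, 0, 0, 0, 0, 0, 1, 0, 0, 0, 0, 0, 0, 0, 0, 0, 0, 0, 0, 0, 0,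
    0, 0, 0, 0, 0, 0, 0], [-1, 0, 0, 0, 0, 0, 0, 0, 0, 0, 0, 0, 0, 0, 1, -1, 0, 0, 0, 0, 0, 0,
    0, 0, 0, 0, 0, 1, 0, 0, 0, 0, 0], [0, 1, -1, -1, 0, 0, 0, 0, 0, 1, 0, 0, 0, 1, 0, 0, 0, -1,
    1, 0, 0, 0, 1, -1, -1, 0, 0, 0, 0, 1, -1, -1, 0], [0, 0, 0, 0, 0, 0, 0, 0, 0, 0, 0, 0, 0, 0,
    0, 0, 0, 0, 0, 0, 0, 0, 0, 0, 1, 0, 0, 0, 0, 0, 0, 0, 0], [-1, -1, -1, 2, 1, 0, 0, 1, 0, 0,
    0, 0, 0, -2, 0, -2, 0, 0, 1, 0, 1, -1, 0, 1, -3, 2, 1, 1, 1, 0, 0, -1, -1], [0, 1, -1, 0, 0,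
    0, 1, 0, 0, 1, 0, 0, 0, 0, 0, 0, 0, -1, 1, 0, 0, 0, 1, -1, -1, 0, 0, 0, 0, 1, -1, -1, 0],
    [0, 0, -1, -1, 0, 0, 0, 0, 0, 1, 0, 0, 0, 1, 0, 0, 0, 0, 0, -1, 0, 0, 1, -1, 0, 0, 1, 0, 0,
    1, -1, 0, 0], [0, 1, 2, 0, 0, 0, 0, 0, 0, -1, 0, 0, 0, 0, 0, 1, 1, 1, -1, 0, -1, 1, -1, 1,
    1, 0, 0, -1, -2, -1, 1, 1, 0], [1, 0, 2, 0, 0, 0, 0, 0, 0, -1, 0, 0, 0, 0, 0, 1, 0, 1, -2,
    0, -1, 1, -1, 1, 2, 0, 0, -1, -1, -1, 1, 2, 0], [0, 0, 0, 1, 0, 0, 0, 0, 0, 0, 0, 0, 0, 0,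
    0, 0, 0, 0, 0, 0, 0, 0, 0, 0, 0, 0, 0, 0, 0, 0, 0, 0, 0], [0, 0, 0, -1, 0, 0, -1, 0, 0, 0,
    1, 0, 0, 1, 0, 0, 0, 0, 0, -1, 0, 0, 0, 0, -1, 0, 1, 0, 0, 0, 0, 0, 0], [0, 0, 1, 1, 0, 0,
    0, 0, 0, 0, 0, 0, 0, -1, 0, 0, 0, 0, 0, 1, 0, 0, -1, 1, 0, 0, -1, 0, 0, -1, 1, 0, 0], [0, 1,
    1, -1, 0, 0, 0, 0, 0, 0, 0, 0, 0, 1, 0, 1, 0, 0, 0, 0, -1, 1, 0, 0, 1, -1, 0, 0, -1, 0, 0,
    0, 0], [0, 1, -1, -1, 0, 0, 0, 0, 0, 1, 0, 0, 0, 1, 0, 0, 0, -1, 1, -1, 0, 0, 2, -1, -1, 0,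
    1, 0, 0, 1, -1, -1, 0], [0, 1, 0, 0, 0, 0, 0, 0, 0, 0, 0, 0, 0, 0, 0, 0, 0, 0, 0, 0, 0, 1,
    0, 0, 0, 0, 0, 0, -1, 0, 0, 0, 0], [1, 0, 1, -1, -1, 1, 0, 0, 0, 0, 0, 0, 0, 1, 0, 1, -1, 0,
    -2, 0, -1, 1, 0, 0, 2, -1, 0, 0, 0, 0, 0, 2, 0], [-1, -1, -3, 1, 1, 0, 0, 0, 0, 1, 0, 0, 0,
    -1, 0, -2, 0, -1, 2, 0, 2, -2, 1, -1, -3, 1, 0, 1, 2, 1, -1, -2, 0], [0, 0, 2, 0, 0, 0, 0,
    0, 0, -1, 0, 0, 0, 0, 0, 0, 0, 1, -1, 0, -1, 1, -1, 1, 1, 0, 1, 0, -1, -1, 1, 1, 0], [0, 0,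
    0, 1, 0, 0, 1, 0, 0, 0, -1, 0, 0, -1, 0, 0, 0, 0, 0, 1, 0, 0, 0, 0, 1, 0, -1, 0, 0, 0, 0, 1,
    0], [0, -1, 0, 0, 0, 0, 0, 0, 0, -1, 0, 0, 0, 0, 0, 0, 0, 1, -1, 0, 0, 0, -1, 0, 1, 0, 0, 0,
    0, 0, 1, 1, 0], [0, -1, 0, 0, 0, 0, 0, 0, 0, 0, 0, 0, 0, 0, 0, 0, 0, 0, 0, 0, 0, 0, 0, 0, 0,
    0, 0, 0, 1, 0, 0, 0, 0], [0, -1, 1, 1, 0, 0, 0, 0, 0, -1, 0, 0, 0, -1, 0, 0, 0, 1, -1, 0, 0,
    0, -1, 1, 0, 1, 0, 0, 0, -1, 1, 1, 0], [0, 1, -1, 0, 0, 0, 0, 0, 0, 1, 0, 0, 0, 0, 0, 0, 0,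
    -1, 1, 0, 0, 0, 1, 0, -1, 0, 0, 0, 0, 1, -1, -1, 0], [0, 1, 0, 0, 0, 0, 0, 0, 0, 0, 0, 0, 0,
    0, 0, 0, 0, 0, 0, 0, 0, 0, 0, 0, 0, 0, 0, 0, 0, 0, 0, 0, 0], [0, 0, -2, 0, 0, 0, 0, 0, 0, 1,
    0, 0, 0, 0, 0, -1, 0, -1, 1, 0, 1, -1, 1, -1, -1, 0, 0, 1, 1, 1, -1, -1, 0], [0, 0, -2, 0,
    0, 0, 0, 0, 0, 1, 0, 0, 0, 0, 0, 0, 0, -1, 1, 0, 1, -1, 1, -1, -1, 0, 0, 0, 1, 1, -1, -1,
    0], [0, -1, 1, 0, 0, 0, 0, 0, 0, -1, 0, 0, 0, 0, 0, 0, 0, 1, -1, 0, 0, 0, -1, 1, 1, 0, 0, 0,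
    0, -1, 1, 1, 0], [0, -1, 1, 1, 0, 0, 0, 0, 0, -1, 0, 0, 0, -1, 0, 0, 0, 1, -1, 1, 0, 0, -1,
    1, 1, 0, -1, 0, 0, -1, 1, 1, 0], [0, 0, 0, 0, 0, 0, 0, 0, 0, 0, 0, 0, 0, 0, 0, 0, 0, 0, 1,
    0, 0, 0, 0, 0, -1, 0, 0, 0, 0, 0, 0, -1, 0], [0, -1, -2, 0, 0, 0, 0, 0, 1, 1, 0, 0, 0, 0, 0,
    -1, -1, -1, 0, 0, 1, -1, 1, -1, 0, 0, 0, 1, 2, 1, -1, 0, 0], [1, 1, 1, -2, -1, 0, 0, 0, 0,
    0, 0, 0, 0, 2, 0, 2, 0, 0, -1, 0, -1, 1, 0, -1, 3, -2, -1, -1, -1, 0, 0, 1, 1], [0, 0, 1, 0,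
    0, 0, 0, 0, 0, 0, 0, 0, 0, 0, 0, 0, 0, 0, 0, 0, 0, 0, 0, 0, 0, 0, 0, 0, 0, 0, 0, 0, 0]]

def Sx (i : Fin 33) : T := Sl.getD i (0, 0, 0, 0)
def Bx (i : Fin 33) : T := Bl.getD i (0, 0, 0, 0)
def y0 (t : T) : ℤ := if t ∈ Yl then 1 else 0
def N0 : Matrix (Fin 33) (Fin 33) ℤ := Matrix.of fun i l => y0 (Sx i + Bx l)
def N1 : Matrix (Fin 33) (Fin 33) ℤ := Matrix.of fun i l => (Il.getD i []).getD l 0

lemma N01 : N0 * N1 = 1 := by
  have : ∀ i j : Fin 33, ∑ l, y0 (Sx i + Bx l) * (Il.getD l []).getD j 0 =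
      if i = j then 1 else 0 := by decide +kernel
  ext i j
  rw [Matrix.mul_apply, Matrix.one_apply, ← this]; rfl

lemma f1 : ∀ l, dg (Bx l) = 4 ∧ (Bx l).1 ≤ 3 := by decide +kernel
lemma f2 : ∀ i l, ¬inE (Sx i + Bx l) ∧ dg (Sx i + Bx l) ≤ 9 := by decide +kernel
lemma f3 : ∀ i, ¬inE (Sx i + (4, 0, 0, 0)) ∧ dg (Sx i + (4, 0, 0, 0)) ≤ 9 := by decide +kernel

def box (n : ℕ) : Finset T := Finset.range n ×ˢ Finset.range n ×ˢ Finset.range n ×ˢ Finset.range n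

lemma mem_box {n : ℕ} {t : T} (h : dg t < n) : t ∈ box n := by
  unfold dg at h
  simp only [box, Finset.mem_product, Finset.mem_range]
  omega

lemma f4 : ∀ t ∈ box 6, dg t = 5 → (∃ i, Sx i = t) ∨ inE (t + (4, 0, 0, 0)) := by decide +kernel

def Mf : Finset T := (box 10).filter fun t => dg t ≤ 9 ∧ ¬inE t
def Wf : Finset T := (box 5).filter fun t => dg t ≤ 4 ∧ t ≠ (4, 0, 0, 0)
def Ef : Finset T := (box 10).filter inE

lemma card_Mf : Mf.card = 691 := by decide +kernel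
lemma card_Wf : Wf.card = 69 := by decide +kernel

lemma mem_Ef {t : T} : t ∈ Ef ↔ inE t := by
  simp only [Ef, Finset.mem_filter, and_iff_right_iff_imp]
  rintro (h | rfl)
  · exact mem_box (by omega)
  · exact mem_box (by decide)

lemma dg_add (s t : T) : dg (s + t) = dg s + dg t := by
  simp only [dg, Prod.fst_add, Prod.snd_add]; omega

noncomputable def toM (t : T) : Fin 4 →₀ ℕ :=
  Finsupp.equivFunOnFinite.symm ![t.1, t.2.1, t.2.2.1, t.2.2.2]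

def ofM (s : Fin 4 →₀ ℕ) : T := (s 0, s 1, s 2, s 3)

lemma ofM_toM (t : T) : ofM (toM t) = t := rfl

lemma toM_ofM (s : Fin 4 →₀ ℕ) : toM (ofM s) = s := by
  ext i; fin_cases i <;> rfl

lemma toM_add (s t : T) : toM (s + t) = toM s + toM t := by
  ext i; fin_cases i <;> rfl

variable {k : Type} [Field k]

noncomputable def xm (t : T) : R k := monomial (toM t) 1

lemma xm_mul (s t : T) : (xm s : R k) * xm t = xm (s + t) := by
  simp [xm, monomial_mul, toM_add]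

noncomputable def lin (L : T → k) : R k →ₗ[k] k :=
  (basisMonomials (Fin 4) k).constr k fun s => L (ofM s)

lemma lin_xm (L : T → k) (t : T) : lin L (xm t) = L t := by
  have := (basisMonomials (Fin 4) k).constr_basis k (fun s => L (ofM s)) (toM t)
  rwa [coe_basisMonomials, ofM_toM] at this

lemma tri (E : Finset T) (h : T → (T → k) → k)
    (hh : ∀ e ∈ E, ∀ L L' : T → k, (∀ s, s.1 < e.1 → L s = L' s) → h e L = h e L') (y : T → k) :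
    ∃ L : T → k, (∀ s ∉ E, L s = y s) ∧ ∀ e ∈ E, L e + h e L = 0 := by
  induction E using Finset.induction_on_max_value (fun t : T => t.1) with
  | empty => exact ⟨y, fun _ _ => rfl, by simp⟩
  | insert a E ha hmax ih =>
    obtain ⟨L, h1, h2⟩ := ih fun e he => hh e (Finset.mem_insert_of_mem he)
    have k1 : ∀ e ∈ insert a E, h e (Function.update L a (-h a L)) = h e L := fun e he =>
      hh e he _ _ fun s hs => Function.update_of_ne (by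
        rintro rfl
        rcases Finset.mem_insert.1 he with rfl | he
        · omega
        · have := hmax e he; omega) _ _
    refine ⟨Function.update L a (-h a L), fun s hs => ?_, fun e he => ?_⟩
    · rw [Finset.mem_insert, not_or] at hs
      rw [Function.update_of_ne hs.1, h1 s hs.2]
    · rw [k1 e he]
      rcases Finset.mem_insert.1 he with rfl | he'
      · simp
      · rw [Function.update_of_ne (by rintro rfl; exact ha he'), h2 e he']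

theorem dense [Infinite k] (P : MvPolynomial Mf k) (hP : P ≠ 0) : ∃ l : R k →ₗ[k] k,
    FiniteDimensional k (R k ⧸ Id l) ∧ finrank k (R k ⧸ Id l) ≤ 138 ∧
    eval (fun j : Mf => l (monomial (toM j) 1)) P ≠ 0 ∧
    ∀ t, 10 ≤ dg t → l (monomial (toM t) 1) = 0 := by
  classical
  let D : MvPolynomial T k := (Matrix.of fun i l => X (Sx i + Bx l)).det
  have hD : ∀ y : T → k, eval y D = (Matrix.of fun i l => y (Sx i + Bx l)).det := fun y => by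
    simp only [D]
    rw [RingHom.map_det]; congr 1; ext i l; simp
  have hD0 : D ≠ 0 := fun h => by
    have h1 := hD fun t => (y0 t : k)
    rw [h, map_zero] at h1
    have h2 := congrArg (fun A : Matrix (Fin 33) (Fin 33) ℤ => ((A.det : ℤ) : k)) N01
    simp only [Matrix.det_mul, Int.cast_mul, Matrix.det_one, Int.cast_one] at h2
    rw [Int.cast_det N0] at h2
    have h3 : (N0.map fun x => (x : k)) = Matrix.of fun i l => (y0 (Sx i + Bx l) : k) := rfl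
    rw [h3, ← h1] at h2
    simp at h2
  have hP' : rename (Subtype.val : Mf → T) P ≠ 0 := fun h =>
    hP (rename_injective _ Subtype.val_injective (by rw [h, map_zero]))
  obtain ⟨y, hy⟩ : ∃ y : T → k, eval y (rename (Subtype.val : Mf → T) P * D) ≠ 0 := by
    by_contra h
    push Not at h
    exact mul_ne_zero hP' hD0 (MvPolynomial.funext fun y => by rw [h y, map_zero])
  rw [map_mul, mul_ne_zero_iff, hD, eval_rename] at hy
  obtain ⟨c, hc⟩ : ∃ c : Fin 33 → k, (Matrix.of fun i l => y (Sx i + Bx l)).mulVec c =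
      fun i => -y (Sx i + (4, 0, 0, 0)) :=
    Matrix.mulVec_surjective_iff_isUnit.2
      ((Matrix.isUnit_iff_isUnit_det _).2 (isUnit_iff_ne_zero.2 hy.2)) _
  let g : (T → k) → T → k := fun L m => ∑ l, c l * L (m + Bx l)
  obtain ⟨L, L1, L2⟩ := tri Ef (fun e L => if e = (8, 0, 0, 0) then
      g L (4, 0, 0, 0) + ∑ j, c j * (L (Bx j + (4, 0, 0, 0)) + g L (Bx j))
      else g L (e.1 - 4, e.2)) (by
    intro e he L L' h
    have h4 : 5 ≤ e.1 := by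
      rcases mem_Ef.1 he with h | rfl
      · omega
      · norm_num
    split_ifs with h8
    · subst h8
      have a : ∀ m : T, m.1 ≤ 4 → g L m = g L' m := fun m hm =>
        Finset.sum_congr rfl fun l _ => by
          rw [h]; have := (f1 l).2; simp only [Prod.fst_add]; omega
      rw [a _ le_rfl]
      congr 1
      refine Finset.sum_congr rfl fun j _ => ?_
      have := (f1 j).2
      rw [a _ (by omega), h _ (by simp only [Prod.fst_add]; omega)]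
    · refine Finset.sum_congr rfl fun l _ => ?_
      rw [h]; have := (f1 l).2; simp only [Prod.fst_add]; omega)
    fun t => if dg t ≤ 9 then y t else 0
  have L3 : ∀ t, ¬inE t → dg t ≤ 9 → L t = y t := fun t h1 h2 => by
    rw [L1 t (mt mem_Ef.1 h1), if_pos h2]
  have L4 : ∀ t, 10 ≤ dg t → L t = 0 := fun t h => by
    rw [L1 t, if_neg (by omega)]
    rw [mem_Ef]
    rintro (h' | rfl)
    · omega
    · exact absurd h (by decide)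
  let q : R k := xm (4, 0, 0, 0) + ∑ l, c l • xm (Bx l)
  have hq : ∀ m, lin L (xm m * q) = L (m + (4, 0, 0, 0)) + g L m := fun m => by
    simp only [q, g, mul_add, Finset.mul_sum, mul_smul_comm, xm_mul, map_add, map_sum, map_smul,
      lin_xm, smul_eq_mul]
  have hq5 : ∀ m, 5 ≤ dg m → lin L (xm m * q) = 0 := by
    intro m hm
    rw [hq]
    rcases hm.eq_or_lt with h5 | h5
    · obtain ⟨a, b, c', d⟩ := m
      have h6 := f4 _ (mem_box (by omega)) h5.symm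
      simp only [dg] at h5
      rcases h6 with ⟨i, hi⟩ | h
      · rw [← hi, L3 _ (f3 i).1 (f3 i).2]
        have := congrFun hc i
        simp only [Matrix.mulVec, dotProduct, Matrix.of_apply] at this
        simp only [g]
        rw [Finset.sum_congr rfl fun l _ => by rw [L3 _ (f2 i l).1 (f2 i l).2, mul_comm], this]
        ring
      · have := L2 _ (mem_Ef.2 h)
        rw [if_neg (by simp only [Prod.mk_add_mk, Prod.mk.injEq]; omega)] at this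
        simpa using this
    · rw [L4 _ (by rw [dg_add]; change 10 ≤ dg m + 4; omega), zero_add]
      exact Finset.sum_eq_zero fun l _ => by
        rw [L4 _ (by rw [dg_add, (f1 l).1]; omega), mul_zero]
  have hqq : lin L (q * q) = 0 := by
    have := L2 (8, 0, 0, 0) (mem_Ef.2 (Or.inr rfl))
    rw [if_pos rfl] at this
    nth_rewrite 1 [show q = xm (4, 0, 0, 0) + ∑ l, c l • xm (Bx l) from rfl]
    simp only [add_mul, Finset.sum_mul, smul_mul_assoc, map_add, map_sum, map_smul, hq, smul_eq_mul]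
    rw [← this, add_assoc]; rfl
  let W : Submodule k (R k) := Submodule.span k (Wf.image (xm (k := k)) : Set (R k))
  let G : Set (R k) := insert q (xm '' {m | 5 ≤ dg m})
  have hW : finrank k W ≤ 69 :=
    (finrank_span_finset_le_card _).trans (Finset.card_image_le.trans card_Wf.le)
  have hWm : ∀ t, dg t ≤ 4 → t ≠ (4, 0, 0, 0) → xm t ∈ W := fun t h1 h2 =>
    Submodule.subset_span (Finset.mem_coe.2 (Finset.mem_image_of_mem _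
      (Finset.mem_filter.2 ⟨mem_box (by omega), h1, h2⟩)))
  obtain ⟨r1, r2⟩ := rank_le (lin L) W (Submodule.span k G) (by
    rw [eq_top_iff, ← (basisMonomials (Fin 4) k).span_eq, Submodule.span_le]
    rintro _ ⟨s, rfl⟩
    rw [coe_basisMonomials, ← toM_ofM s]
    change xm (ofM s) ∈ W ⊔ Submodule.span k G
    generalize ofM s = t
    by_cases h5 : 5 ≤ dg t
    · exact Submodule.mem_sup_right (Submodule.subset_span (Or.inr ⟨t, h5, rfl⟩))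
    by_cases h4 : t = (4, 0, 0, 0)
    · have : (xm t : R k) = -(∑ l, c l • xm (Bx l)) + q := by simp [q, h4]
      rw [this]
      refine Submodule.add_mem_sup (W.neg_mem (W.sum_mem fun l _ => W.smul_mem _
        (hWm _ (f1 l).1.le fun e => ?_))) (Submodule.subset_span (Or.inl rfl))
      have := (f1 l).2
      rw [e] at this; omega
    · exact Submodule.mem_sup_left (hWm t (by omega) h4)) (by
    intro a ha b hb
    refine Submodule.span_induction₂ (p := fun a b _ _ => lin L (a * b) = 0) ?_ (by simp) (by simp)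
      (fun x y z _ _ _ h1 h2 => by rw [add_mul, map_add, h1, h2, add_zero])
      (fun x y z _ _ _ h1 h2 => by rw [mul_add, map_add, h1, h2, add_zero])
      (fun r x y _ _ h => by rw [smul_mul_assoc, map_smul, h, smul_zero])
      (fun r x y _ _ h => by rw [mul_smul_comm, map_smul, h, smul_zero]) ha hb
    rintro _ _ (rfl | ⟨m, hm, rfl⟩) (rfl | ⟨m', hm', rfl⟩)
    · exact hqq
    · rw [mul_comm]; exact hq5 m' hm'
    · exact hq5 m hm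
    · rw [xm_mul, lin_xm, L4 _ (by rw [dg_add]; exact Nat.add_le_add hm hm')])
  refine ⟨lin L, r1, by omega, ?_, fun t ht => (lin_xm L t).trans (L4 t ht)⟩
  have : (fun j : Mf => lin L (monomial (toM j) 1)) = y ∘ Subtype.val := by
    ext j
    have := (Finset.mem_filter.1 j.2).2
    exact (lin_xm L j).trans (L3 _ this.2 this.1)
  rw [this]; exact hy.1

end Pool.Agent.Lib.MP_2cea55_ag
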