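import Pool.Agent.Lib.MP_2cea55_ag.Frob

set_option autoImplicit false
set_option linter.unusedSectionVars false
set_option linter.style.haveILetI false

open MvPolynomial Module

namespace Pool.Agent.Lib.MP_2cea55_ag

variable {k : Type} [Field k]

lemma fibre {d : ℕ} {B : Type} [CommRing B] [Algebra k B] (J : Ideal (MvPolynomial (Fin 4) B))
    (b : Basis (Fin d) B (MvPolynomial (Fin 4) B ⧸ J)) :
    ∃ (c : (Fin 4 →₀ ℕ) → Fin d → B) (M : Matrix (Fin d) (Fin d) B), ∀ φ : B →ₐ[k] k,
      ∃ π : R k →ₗ[k] Fin d → k, (∀ f, π f = 0 ↔ f ∈ J.map (MvPolynomial.map φ.toRingHom)) ∧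
        Function.Surjective π ∧ (∀ s i, π (monomial s 1) i = φ (c s i)) ∧
        ∀ f, π (X 0 * f) = (M.map φ).mulVec (π f) := by
  classical
  let ρ : MvPolynomial (Fin 4) B →ₗ[B] Fin d → B := b.equivFun.toLinearMap ∘ₗ
    (Ideal.Quotient.mkₐ B J).toLinearMap
  have hρ : ∀ g, ρ g = 0 ↔ g ∈ J := fun g => by
    simp [ρ, Ideal.Quotient.eq_zero_iff_mem]
  have hs : Function.Surjective ρ :=
    b.equivFun.surjective.comp (Ideal.Quotient.mkₐ_surjective B J)
  choose e he using fun j : Fin d => hs (Pi.single j 1)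
  have dec : ∀ g, g - ∑ j, ρ g j • e j ∈ J := fun g => by
    rw [← hρ, map_sub, map_sum]
    simp only [map_smul, he]
    ext i
    simp [Pi.single_apply]
  refine ⟨fun s => ρ (monomial s 1), Matrix.of fun i j => ρ (X 0 * e j) i, fun φ => ?_⟩
  let ι : R k →ₐ[k] MvPolynomial (Fin 4) B := MvPolynomial.mapAlgHom (Algebra.ofId k B)
  have hι : ∀ f, MvPolynomial.map φ.toRingHom (ι f) = f := fun f => by
    change MvPolynomial.map φ.toRingHom (MvPolynomial.map (algebraMap k B) f) = f
    rw [map_map]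
    have : φ.toRingHom.comp (algebraMap k B) = RingHom.id k := by ext x; simp
    rw [this, map_id]
  let π : R k →ₗ[k] Fin d → k := (φ.toLinearMap.compLeft (Fin d)) ∘ₗ (ρ.restrictScalars k) ∘ₗ
    ι.toLinearMap
  have hπ : ∀ f i, π f i = φ (ρ (ι f) i) := fun f i => rfl
  have hm : ∀ s, ι (monomial s 1) = monomial s 1 := fun s => by
    change MvPolynomial.map (algebraMap k B) _ = _
    rw [map_monomial, map_one]
  have key : ∀ g i, π (MvPolynomial.map φ.toRingHom g) i = φ (ρ g i) := by
    intro g i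
    induction g using MvPolynomial.induction_on' with
    | monomial s a =>
      have e1 : monomial s a = a • (monomial s 1 : MvPolynomial (Fin 4) B) := by
        rw [smul_monomial, smul_eq_mul, mul_one]
      have e2 : MvPolynomial.map φ.toRingHom (monomial s a) = φ a • (monomial s 1 : R k) := by
        rw [map_monomial, smul_monomial, smul_eq_mul, mul_one]; rfl
      rw [e2, e1, map_smul, map_smul, Pi.smul_apply, Pi.smul_apply, hπ, hm, smul_eq_mul,
        smul_eq_mul, map_mul]
    | add p q hp hq => rw [map_add, map_add, map_add, Pi.add_apply, Pi.add_apply, hp, hq, map_add]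
  refine ⟨π, fun f => ⟨fun h => ?_, fun h => ?_⟩, fun v => ?_, fun s i => by rw [hπ, hm],
    fun f => ?_⟩
  · have := Ideal.mem_map_of_mem (MvPolynomial.map φ.toRingHom) (dec (ι f))
    rw [map_sub, hι, map_sum, Finset.sum_eq_zero, sub_zero] at this
    · exact this
    · intro j _
      have : φ (ρ (ι f) j) = 0 := by rw [← hπ, h]; rfl
      rw [smul_eq_C_mul, map_mul, map_C]
      change C (φ _) * _ = 0
      rw [this]; simp
  · obtain ⟨g, hg, rfl⟩ := (Ideal.mem_map_iff_of_surjective _ fun f => ⟨ι f, hι f⟩).1 h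
    ext i
    rw [key, (hρ g).2 hg]; simp
  · refine ⟨∑ j, v j • MvPolynomial.map φ.toRingHom (e j), ?_⟩
    ext i
    simp [key, he, Pi.single_apply, apply_ite φ, -AlgHom.toRingHom_eq_coe]
  · ext i
    have h1 := (hρ _).2 (J.mul_mem_left (X 0) (dec (ι f)))
    rw [mul_sub, map_sub, sub_eq_zero, Finset.mul_sum, map_sum] at h1
    have h2 : ι (X 0) = X 0 := by simp [ι]
    rw [hπ, map_mul, h2, h1]
    simp [Matrix.mulVec, dotProduct, hπ, mul_comm]

def C1 {M : Type} (μ : M → Fin 4 →₀ ℕ) (P : MvPolynomial M k) : Set (Ideal (R k)) :=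
  {I | ∀ l : R k →ₗ[k] k, (∀ f ∈ I, l f = 0) → eval (fun j => l (monomial (μ j) 1)) P = 0}

def C2 (k : Type) [Field k] (d : ℕ) : Set (Ideal (R k)) :=
  {I | ¬∃ p : Fin d → Fin 4 → k, (Function.Injective fun i => p i 0) ∧
    ∀ i, ∀ f ∈ I, eval (p i) f = 0}

lemma closed_C1 (d : ℕ) {M : Type} (μ : M → Fin 4 →₀ ℕ) (P : MvPolynomial M k) :
    ZClosed k d (C1 μ P) := by
  rintro B _ _ _ J ⟨b⟩
  obtain ⟨c, _, H⟩ := fibre (k := k) J b
  refine ⟨Set.range fun w : Fin d → k => aeval (fun j => ∑ i, w i • c (μ j) i) P, fun φ => ?_⟩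
  obtain ⟨π, h1, -, h3, -⟩ := H φ
  have e : ∀ w : Fin d → k, φ (aeval (fun j => ∑ i, w i • c (μ j) i) P) =
      eval (fun j => ∑ i, w i * π (monomial (μ j) 1) i) P := fun w => by
    rw [← AlgHom.comp_apply, comp_aeval]
    simp [h3]
  simp only [Set.forall_mem_range, e]
  constructor
  · intro h w
    have := h (∑ i, w i • (LinearMap.proj i ∘ₗ π)) fun f hf => by simp [(h1 f).2 hf]
    simpa using this
  · intro h l hl
    obtain ⟨w, hw⟩ := factor π l fun f hf => hl f ((h1 f).1 hf)
    simpa only [hw] using h w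

lemma closed_C2 [IsAlgClosed k] [CharZero k] (d : ℕ) : ZClosed k d (C2 k d) := by
  classical
  rintro B _ _ _ J ⟨b⟩
  obtain ⟨_, M, H⟩ := fibre (k := k) J b
  refine ⟨{M.charpoly.resultant M.charpoly.derivative d (d - 1)}, fun φ => ?_⟩
  obtain ⟨π, h1, h2, -, h4⟩ := H φ
  set χ := (M.map φ).charpoly with hχ
  have hd : χ.natDegree = d := by simp [hχ]
  have hmon : χ.Monic := Matrix.charpoly_monic _
  have e : φ (M.charpoly.resultant M.charpoly.derivative d (d - 1)) = χ.resultant χ.derivative := by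
    rw [Polynomial.natDegree_derivative, hd]
    have := Matrix.charpoly_map M φ.toRingHom
    change χ = _ at this
    rw [this, Polynomial.derivative_map, Polynomial.resultant_map_map]; rfl
  have root : ∀ c, χ.IsRoot c ↔ ∃ p : Fin 4 → k, p 0 = c ∧
      ∀ f ∈ J.map (MvPolynomial.map φ.toRingHom), eval p f = 0 := by
    intro c
    rw [Polynomial.IsRoot, hχ, Matrix.eval_charpoly, ← Matrix.exists_vecMul_eq_zero_iff]
    have mv : ∀ f, π ((C c - X 0) * f) = (Matrix.scalar (Fin d) c - M.map φ).mulVec (π f) :=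
      fun f => by
        rw [sub_mul, map_sub, h4, Matrix.sub_mulVec, C_mul', map_smul]
        simp
    constructor
    · rintro ⟨w, w0, hw⟩
      have hne : J.map (MvPolynomial.map φ.toRingHom) ⊔ Ideal.span {C c - X 0} ≠ ⊤ := by
        intro h
        refine w0 (dotProduct_eq_zero w fun v => ?_)
        obtain ⟨f, rfl⟩ := h2 v
        obtain ⟨a, ha, u, hu, rfl⟩ := Submodule.mem_sup.1 (h ▸ Submodule.mem_top (x := f))
        obtain ⟨g, rfl⟩ := Ideal.mem_span_singleton.1 hu
        rw [map_add, (h1 a).2 ha, zero_add, mv, Matrix.dotProduct_mulVec, hw, zero_dotProduct]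
      obtain ⟨m, hm, hle⟩ := Ideal.exists_le_maximal _ hne
      obtain ⟨p, rfl⟩ := isMaximal_iff_eq_vanishingIdeal_singleton.1 hm
      refine ⟨p, ?_, fun f hf =>
        (mem_vanishingIdeal_singleton_iff p f).1 (hle (Ideal.mem_sup_left hf))⟩
      have := (mem_vanishingIdeal_singleton_iff p _).1
        (hle (Ideal.mem_sup_right (Ideal.mem_span_singleton_self _)))
      simp only [map_sub, aeval_C, aeval_X, Algebra.algebraMap_self, RingHom.id_apply] at this
      exact (sub_eq_zero.1 this).symm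
    · rintro ⟨p, rfl, hp⟩
      obtain ⟨w, hw⟩ := factor π (evp p) fun f hf => hp f ((h1 f).1 hf)
      refine ⟨w, fun w0 => by simpa [w0] using hw 1, dotProduct_eq_zero _ fun v => ?_⟩
      obtain ⟨f, rfl⟩ := h2 v
      rw [← Matrix.dotProduct_mulVec, ← mv, dotProduct, ← hw]
      simp
  simp only [Set.mem_singleton_iff, forall_eq, e, Polynomial.resultant_eq_zero_iff, C2,
    Set.mem_ofPred_eq, hmon.ne_zero, ne_eq, not_false_eq_true, true_or, true_and]
  rw [not_iff_not, ← Polynomial.separable_def,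
    ← Polynomial.nodup_roots_iff_of_splits hmon.ne_zero (IsAlgClosed.splits χ)]
  have hc : χ.roots.card = d := by rw [IsAlgClosed.card_roots_eq_natDegree, hd]
  constructor
  · rintro ⟨p, hp, hv⟩
    rw [← Multiset.toFinset_card_eq_card_iff_nodup]
    refine le_antisymm (Multiset.toFinset_card_le _) ?_
    rw [hc]
    calc d = (Finset.univ.image fun i => p i 0).card := by
          rw [Finset.card_image_of_injective _ hp]; simp
      _ ≤ _ := Finset.card_le_card fun x hx => by
          obtain ⟨i, -, rfl⟩ := Finset.mem_image.1 hx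
          rw [Multiset.mem_toFinset, Polynomial.mem_roots hmon.ne_zero, root]
          exact ⟨p i, rfl, hv i⟩
  · intro h
    rw [← Multiset.toFinset_card_eq_card_iff_nodup, hc] at h
    let E := (χ.roots.toFinset.equivFinOfCardEq h).symm
    have : ∀ i, χ.IsRoot (E i) := fun i =>
      (Polynomial.mem_roots hmon.ne_zero).1 (Multiset.mem_toFinset.1 (E i).2)
    choose p hp hv using fun i => (root _).1 (this i)
    refine ⟨p, fun i j hij => E.injective (Subtype.ext ?_), hv⟩
    rw [← hp, ← hp]; exact hij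

theorem reducible [IsAlgClosed k] [CharZero k] {d : ℕ} (hd : 0 < d) {M : Type} [Fintype M]
    (μ : M → Fin 4 →₀ ℕ) (hM : 5 * d < Fintype.card M)
    (hdense : ∀ P : MvPolynomial M k, P ≠ 0 → ∃ l : R k →ₗ[k] k,
      FiniteDimensional k (R k ⧸ Id l) ∧ finrank k (R k ⧸ Id l) ≤ d ∧
      eval (fun j => l (monomial (μ j) 1)) P ≠ 0) :
    ∃ A B : Set (Ideal (R k)), ZClosed k d A ∧ ZClosed k d B ∧ Gor k d ⊆ A ∪ B ∧
      ¬Gor k d ⊆ A ∧ ¬Gor k d ⊆ B := by
  let U : M → MvPolynomial (Fin d × Option (Fin 4)) k := fun j =>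
    ∑ i, X (i, none) * ∏ s, X (i, some s) ^ μ j s
  have hU : ¬AlgebraicIndependent k U := fun h => by
    have := h.cardinalMk_le_trdeg
    rw [MvPolynomial.trdeg_of_isDomain] at this
    simp only [Cardinal.mk_fintype, Cardinal.lift_natCast, Nat.cast_le, Fintype.card_prod,
      Fintype.card_fin, Fintype.card_option] at this
    omega
  rw [algebraicIndependent_iff] at hU
  push Not at hU
  obtain ⟨P, hP, hP0⟩ := hU
  refine ⟨C1 μ P, C2 k d, closed_C1 d μ P, closed_C2 d, fun I hI => ?_, fun h => ?_, fun h => ?_⟩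
  · by_cases h : I ∈ C2 k d
    · exact Or.inr h
    · left
      simp only [C2, Set.mem_ofPred_eq, not_not] at h
      obtain ⟨p, hp, hv⟩ := h
      intro l hl
      obtain ⟨w, hw⟩ := points hd I hI.1 p hp hv l hl
      have := congrArg (aeval fun x : Fin d × Option (Fin 4) => x.2.elim (w x.1) (p x.1)) hP
      rw [← AlgHom.comp_apply, comp_aeval, map_zero] at this
      rw [← this]
      change aeval _ P = _
      congr 2
      ext j
      simp [U, hw, eval_monomial, Finsupp.prod_fintype]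
  · obtain ⟨l, h1, h2, h3⟩ := hdense P hP0
    obtain ⟨l', -, g1, -, -, g4, g5⟩ := add_points l (d - finrank k (R k ⧸ Id l))
    have := Id_gor l'
    rw [g5, Nat.add_sub_cancel' h2] at this
    exact h3 (h this l fun f hf => by simpa using g1 hf 1)
  · have h0 : Id (0 : R k →ₗ[k] k) = ⊤ := eq_top_iff.2 fun f _ g => rfl
    haveI : Subsingleton (R k ⧸ Id (0 : R k →ₗ[k] k)) := Ideal.Quotient.subsingleton_iff.2 h0
    obtain ⟨l', p, -, g2, g3, g4, g5⟩ := add_points (0 : R k →ₗ[k] k) d
    have := Id_gor l'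
    rw [g5, finrank_zero_of_subsingleton, zero_add] at this
    exact h this ⟨p, g2, g3⟩

end Pool.Agent.Lib.MP_2cea55_ag
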