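import Pool.Agent.Lib.MP_2cea55_ag.Defs

set_option autoImplicit false
set_option linter.unusedSectionVars false
set_option linter.style.haveILetI false

open MvPolynomial Module

namespace Pool.Agent.Lib.MP_2cea55_ag

variable {k : Type} [Field k]

abbrev R (k : Type) [Field k] := MvPolynomial (Fin 4) k

/-- largest ideal in the kernel -/
def Id (l : R k →ₗ[k] k) : Ideal (R k) where
  carrier := {f | ∀ g, l (f * g) = 0}
  add_mem' := fun {a b} ha hb g => by rw [add_mul, map_add, ha g, hb g, add_zero]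
  zero_mem' := fun g => by simp
  smul_mem' := fun c f hf g => by rw [smul_eq_mul, mul_comm c, mul_assoc]; exact hf _

lemma mem_Id {l : R k →ₗ[k] k} {f : R k} : f ∈ Id l ↔ ∀ g, l (f * g) = 0 := Iff.rfl

noncomputable def evp (p : Fin 4 → k) : R k →ₗ[k] k := (aeval p : R k →ₐ[k] k).toLinearMap

@[simp] lemma evp_apply (p : Fin 4 → k) (f : R k) : evp p f = eval p f := rfl

lemma ev_poly (p : Fin 4 → k) (g : Polynomial k) :
    eval p (Polynomial.aeval (X 0 : R k) g) = g.eval (p 0) := by
  change aeval p (Polynomial.aeval (X 0 : R k) g) = _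
  rw [← Polynomial.aeval_algHom_apply, aeval_X, Polynomial.coe_aeval_eq_eval]

noncomputable def quotEquiv {V : Type} [AddCommGroup V] [Module k V] (I : Ideal (R k))
    (π : R k →ₗ[k] V) (h : ∀ f, π f = 0 ↔ f ∈ I) : (R k ⧸ I) ≃ₗ[k] LinearMap.range π :=
  ((Submodule.Quotient.restrictScalarsEquiv k I).symm.trans
    (Submodule.quotEquivOfEq _ _ (by ext f; simp [h]))).trans π.quotKerEquivRange

lemma socle {A : Type} [CommRing A] [Algebra k A] [IsAlgClosed k] [FiniteDimensional k A]
    (l : A →ₗ[k] k) (hl : ∀ a, (∀ b, l (a * b) = 0) → a = 0) (m : Ideal A) [m.IsPrime] :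
    finrank k (IsLocalRing.maximalIdeal (Localization.AtPrime m)).annihilator = 1 := by
  haveI : IsArtinianRing A := IsArtinianRing.of_finite k A
  have hm : m.IsMaximal := IsArtinianRing.isMaximal_of_isPrime m
  let B : LinearMap.BilinForm k A := (LinearMap.mul k A).compr₂ l
  have hB : B.Nondegenerate := ⟨fun a h => hl a h, fun a h => hl a fun b => by
    rw [mul_comm]; exact h b⟩
  have h1 : finrank k (B.orthogonal (m.restrictScalars k)) = 1 := by
    rw [LinearMap.BilinForm.finrank_orthogonal hB, ← Submodule.finrank_quotient_add_finrank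
      (m.restrictScalars k), Nat.add_sub_cancel,
      (Submodule.Quotient.restrictScalarsEquiv k m).finrank_eq]
    letI := Ideal.Quotient.field m
    have := IsAlgClosed.algebraMap_bijective_of_isIntegral (k := k) (K := A ⧸ m)
    rw [← (LinearEquiv.ofBijective (Algebra.linearMap k (A ⧸ m)) this).finrank_eq, finrank_self]
  have key : ∀ a : A, a ∈ B.orthogonal (m.restrictScalars k) ↔ ∀ b ∈ m, a * b = 0 := by
    intro a
    constructor
    · intro h b hb
      refine hl _ fun c => ?_
      have := h (b * c) (m.mul_mem_right c hb)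
      rw [mul_assoc, mul_comm]; exact this
    · intro h b hb
      change l (b * a) = 0
      rw [mul_comm, h b hb, map_zero]
  rw [← h1]
  symm
  let θ : B.orthogonal (m.restrictScalars k) →ₗ[k]
      (IsLocalRing.maximalIdeal (Localization.AtPrime m)).annihilator :=
    { toFun := fun a => ⟨algebraMap A _ a, by
        rw [Submodule.mem_annihilator]
        intro x hx
        rw [← Localization.AtPrime.map_eq_maximalIdeal] at hx
        refine Submodule.span_induction (fun y hy => ?_) (by simp) (fun y z _ _ a b => ?_)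
          (fun c y _ h => ?_) hx
        · obtain ⟨b, hb, rfl⟩ := hy
          rw [smul_eq_mul, ← map_mul, (key a).1 a.2 b hb, map_zero]
        · rw [smul_add, a, b, add_zero]
        · rw [smul_comm, h, smul_zero]⟩
      map_add' := fun a b => by ext; simp
      map_smul' := fun c a => by
        ext
        exact (IsScalarTower.toAlgHom k A (Localization.AtPrime m)).toLinearMap.map_smul c a }
  refine (LinearEquiv.ofBijective θ ⟨?_, ?_⟩).finrank_eq
  · rw [injective_iff_map_eq_zero]
    intro a ha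
    have h0 : algebraMap A (Localization.AtPrime m) a = 0 := congrArg Subtype.val ha
    obtain ⟨s, hs⟩ := (IsLocalization.map_eq_zero_iff m.primeCompl _ _).1 h0
    obtain ⟨t, i, hi, e⟩ := hm.exists_inv s.2
    ext
    calc (a : A) = (t * s + i) * a := by rw [e, one_mul]
      _ = 0 := by rw [add_mul, mul_assoc, hs, mul_comm i, (key a).1 a.2 i hi]; simp
  · rintro ⟨x, hx⟩
    obtain ⟨a, rfl⟩ := IsArtinianRing.localization_surjective m.primeCompl _ x
    rw [Submodule.mem_annihilator] at hx
    obtain ⟨G, hG⟩ := (IsNoetherian.noetherian m : m.FG)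
    have : ∀ g ∈ G, ∃ s : m.primeCompl, (s : A) * (a * g) = 0 := fun g hg => by
      refine (IsLocalization.map_eq_zero_iff m.primeCompl (Localization.AtPrime m) _).1 ?_
      rw [map_mul]
      refine hx _ ?_
      rw [← Localization.AtPrime.map_eq_maximalIdeal]
      exact Ideal.mem_map_of_mem _ (hG ▸ Submodule.subset_span hg)
    choose! s hs using this
    obtain ⟨t, i, hi, e⟩ := hm.exists_inv (∏ g ∈ G, s g).2
    refine ⟨⟨t * (∏ g ∈ G, s g : m.primeCompl) * a, (key _).2 fun b hb => ?_⟩, ?_⟩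
    · rw [← hG] at hb
      refine Submodule.span_induction (fun y hy => ?_) (by simp) (fun y z _ _ a b => ?_)
        (fun c y _ h => ?_) hb
      · classical
        rw [← Finset.prod_erase_mul G s hy, Submonoid.coe_mul]
        linear_combination (t * (∏ g ∈ G.erase y, s g : m.primeCompl)) * hs y hy
      · rw [mul_add, a, b, add_zero]
      · rw [smul_eq_mul, mul_left_comm, h, mul_zero]
    · ext
      change algebraMap A (Localization.AtPrime m) _ = algebraMap A _ a
      have e2 : t * (∏ g ∈ G, s g : m.primeCompl) * a = a - a * i := by linear_combination a * e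
      simp only []
      rw [e2, map_sub, map_mul, sub_eq_self]
      refine hx _ ?_
      rw [← Localization.AtPrime.map_eq_maximalIdeal]
      exact Ideal.mem_map_of_mem _ hi

lemma Id_gor [IsAlgClosed k] (l : R k →ₗ[k] k) [FiniteDimensional k (R k ⧸ Id l)] :
    Id l ∈ Gor k (finrank k (R k ⧸ Id l)) := by
  refine ⟨rfl, fun m _ => ?_⟩
  let l' : (R k ⧸ Id l) →ₗ[k] k := ((Id l).restrictScalars k).liftQ l (fun f hf => by
    simpa using hf 1) ∘ₗ (Submodule.Quotient.restrictScalarsEquiv k (Id l)).symm.toLinearMap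
  have e : ∀ f, l' (Ideal.Quotient.mk _ f) = l f := fun f => rfl
  refine socle l' (fun a h => ?_) m
  obtain ⟨f, rfl⟩ := Ideal.Quotient.mk_surjective a
  refine Ideal.Quotient.eq_zero_iff_mem.2 fun g => ?_
  rw [← e, map_mul]; exact h _

lemma add_point [Infinite k] (l : R k →ₗ[k] k) [FiniteDimensional k (R k ⧸ Id l)] :
    ∃ p : Fin 4 → k, (∀ f, f ∈ Id (l + evp p) ↔ f ∈ Id l ∧ eval p f = 0) ∧
      (∀ p' : Fin 4 → k, (∀ f ∈ Id l, eval p' f = 0) → p' 0 ≠ p 0) ∧
      FiniteDimensional k (R k ⧸ Id (l + evp p)) ∧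
      finrank k (R k ⧸ Id (l + evp p)) = finrank k (R k ⧸ Id l) + 1 := by
  obtain ⟨g, hg, hg0⟩ : IsIntegral k (Ideal.Quotient.mk (Id l) (X 0)) :=
    Algebra.IsIntegral.isIntegral _
  have hgI : Polynomial.aeval (X 0 : R k) g ∈ Id l := by
    rw [← Ideal.Quotient.eq_zero_iff_mem, ← Ideal.Quotient.mkₐ_eq_mk k,
      ← Polynomial.aeval_algHom_apply]
    exact hg0
  obtain ⟨c, hc⟩ : ∃ c, g.eval c ≠ 0 := by
    by_contra h
    push Not at h
    exact hg.ne_zero (Polynomial.funext (by simpa using h))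
  set p : Fin 4 → k := fun _ => c
  obtain ⟨e, he, he1⟩ : ∃ e ∈ Id l, eval p e = 1 :=
    ⟨(g.eval c)⁻¹ • Polynomial.aeval (X 0 : R k) g, Submodule.smul_of_tower_mem _ _ hgI, by
      rw [smul_eval, ev_poly, inv_mul_cancel₀ hc]⟩
  have hI : ∀ f, f ∈ Id (l + evp p) ↔ f ∈ Id l ∧ eval p f = 0 := by
    intro f
    constructor
    · intro h
      have h1 : eval p f = 0 := by
        have := h e
        rwa [LinearMap.add_apply, mul_comm, he f, zero_add, evp_apply, map_mul, he1,
          one_mul] at this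
      refine ⟨fun u => ?_, h1⟩
      have := h u
      rwa [LinearMap.add_apply, evp_apply, map_mul (eval p), h1, zero_mul, add_zero] at this
    · rintro ⟨h1, h2⟩ u
      rw [LinearMap.add_apply, h1 u, evp_apply, map_mul, h2, zero_mul, add_zero]
  let π : R k →ₗ[k] (R k ⧸ Id l) × k := (Ideal.Quotient.mkₐ k (Id l)).toLinearMap.prod (evp p)
  have hπ : LinearMap.range π = ⊤ := by
    rw [LinearMap.range_eq_top]
    rintro ⟨a, b⟩
    obtain ⟨f, rfl⟩ := Ideal.Quotient.mk_surjective a
    refine ⟨f + (b - eval p f) • e, ?_⟩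
    simp [π, he1, ← Ideal.Quotient.mkₐ_eq_mk k, -Ideal.Quotient.mkₐ_eq_mk,
      show Ideal.Quotient.mkₐ k (Id l) e = 0 from Ideal.Quotient.eq_zero_iff_mem.2 he]
  have E := (quotEquiv (Id (l + evp p)) π (fun f => by
    simp [π, hI, Ideal.Quotient.eq_zero_iff_mem])).trans (LinearEquiv.ofTop _ hπ)
  refine ⟨p, hI, fun p' h e' => hc ?_, E.symm.finiteDimensional, ?_⟩
  · have := h _ hgI
    rwa [ev_poly, e'] at this
  · rw [E.finrank_eq, finrank_prod, finrank_self]

lemma add_points [Infinite k] (l : R k →ₗ[k] k) [FiniteDimensional k (R k ⧸ Id l)] (r : ℕ) :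
    ∃ (l' : R k →ₗ[k] k) (p : Fin r → Fin 4 → k), Id l' ≤ Id l ∧
      (Function.Injective fun i => p i 0) ∧ (∀ i, ∀ f ∈ Id l', eval (p i) f = 0) ∧
      FiniteDimensional k (R k ⧸ Id l') ∧
      finrank k (R k ⧸ Id l') = finrank k (R k ⧸ Id l) + r := by
  induction r with
  | zero => exact ⟨l, Fin.elim0, le_rfl, fun i => i.elim0, fun i => i.elim0, inferInstance, rfl⟩
  | succ r ih =>
    obtain ⟨l', p, h1, h2, h3, h4, h5⟩ := ih
    obtain ⟨q, g1, g2, g3, g4⟩ := add_point l'
    refine ⟨l' + evp q, Fin.cons q p, fun f hf => h1 ((g1 f).1 hf).1, ?_, ?_, g3, by omega⟩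
    · have : (fun i : Fin (r + 1) => (Fin.cons q p : Fin (r + 1) → Fin 4 → k) i 0) =
          Fin.cons (q 0) fun i => p i 0 := by
        ext i; refine Fin.cases ?_ (fun i => ?_) i <;> simp
      rw [this, Fin.cons_injective_iff]
      exact ⟨fun ⟨i, hi⟩ => g2 (p i) (h3 i) hi, h2⟩
    · intro i f hf
      refine Fin.cases ?_ (fun i => ?_) i
      · exact ((g1 f).1 hf).2
      · exact h3 i f ((g1 f).1 hf).1

lemma rank_le (l : R k →ₗ[k] k) (W U : Submodule k (R k)) [FiniteDimensional k W]
    (hWU : W ⊔ U = ⊤) (hU : ∀ a ∈ U, ∀ b ∈ U, l (a * b) = 0) :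
    FiniteDimensional k (R k ⧸ Id l) ∧ finrank k (R k ⧸ Id l) ≤ 2 * finrank k W := by
  let β : R k →ₗ[k] Dual k (R k) := (LinearMap.mul k (R k)).compr₂ l
  have E := quotEquiv (Id l) β fun f => by
    rw [mem_Id, LinearMap.ext_iff]; rfl
  have hs : Function.Surjective (U.mkQ ∘ₗ W.subtype) := by
    intro x
    obtain ⟨f, rfl⟩ := U.mkQ_surjective x
    obtain ⟨w, hw, u, hu, rfl⟩ := Submodule.mem_sup.1 (hWU ▸ Submodule.mem_top (x := f))
    exact ⟨⟨w, hw⟩, by simp [(Submodule.Quotient.mk_eq_zero U).2 hu]⟩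
  haveI : FiniteDimensional k (R k ⧸ U) := Module.Finite.of_surjective _ hs
  have h1 : finrank k (R k ⧸ U) ≤ finrank k W := LinearMap.finrank_le_finrank_of_surjective hs
  have E2 := U.dualQuotEquivDualAnnihilator
  haveI : FiniteDimensional k U.dualAnnihilator := E2.finiteDimensional
  have h2 : finrank k U.dualAnnihilator ≤ finrank k W := by
    rw [← E2.finrank_eq, Subspace.dual_finrank_eq]; exact h1
  have h3 : LinearMap.range β ≤ W.map β ⊔ U.dualAnnihilator := by
    rintro _ ⟨f, rfl⟩
    obtain ⟨w, hw, u, hu, rfl⟩ := Submodule.mem_sup.1 (hWU ▸ Submodule.mem_top (x := f))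
    rw [map_add]
    exact Submodule.add_mem_sup (Submodule.mem_map_of_mem hw)
      ((Submodule.mem_dualAnnihilator _).2 fun b hb => hU u hu b hb)
  haveI : FiniteDimensional k (LinearMap.range β) := Submodule.finiteDimensional_of_le h3
  refine ⟨Module.Finite.equiv E.symm, ?_⟩
  rw [E.finrank_eq]
  have h4 := Submodule.finrank_mono h3
  have h5 := Submodule.finrank_add_le_finrank_add_finrank (W.map β) U.dualAnnihilator
  have h6 := Submodule.finrank_map_le β W
  omega

lemma factor {d : ℕ} (π : R k →ₗ[k] Fin d → k) (l : R k →ₗ[k] k) (h : ∀ f, π f = 0 → l f = 0) :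
    ∃ w : Fin d → k, ∀ f, l f = ∑ i, w i * π f i := by
  have : l ∈ (LinearMap.ker π).dualAnnihilator := (Submodule.mem_dualAnnihilator _).2 h
  rw [← LinearMap.range_dualMap_eq_dualAnnihilator_ker] at this
  obtain ⟨w, rfl⟩ := this
  refine ⟨fun i => w fun j => if i = j then 1 else 0, fun f => ?_⟩
  rw [LinearMap.dualMap_apply, LinearMap.pi_apply_eq_sum_univ]
  simp [mul_comm]

lemma points {d : ℕ} (hd : 0 < d) (I : Ideal (R k)) (hI : finrank k (R k ⧸ I) = d)
    (p : Fin d → Fin 4 → k) (hp : Function.Injective fun i => p i 0)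
    (hv : ∀ i, ∀ f ∈ I, eval (p i) f = 0) (l : R k →ₗ[k] k) (hl : ∀ f ∈ I, l f = 0) :
    ∃ w : Fin d → k, ∀ f, l f = ∑ i, w i * eval (p i) f := by
  classical
  haveI : FiniteDimensional k (R k ⧸ I) := Module.finite_of_finrank_pos (by omega)
  let π : R k →ₗ[k] Fin d → k := LinearMap.pi fun i => evp (p i)
  let π' : (R k ⧸ I) →ₗ[k] Fin d → k := (I.restrictScalars k).liftQ π (fun f hf => by
    ext i; exact hv i f hf) ∘ₗ (Submodule.Quotient.restrictScalarsEquiv k I).symm.toLinearMap
  have e : ∀ f, π' (Ideal.Quotient.mk _ f) = π f := fun f => rfl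
  have hs : Function.Surjective π' := by
    intro r
    refine ⟨Ideal.Quotient.mk _ (Polynomial.aeval (X 0 : R k)
      (Lagrange.interpolate Finset.univ (fun i => p i 0) r)), ?_⟩
    ext i
    rw [e]
    simp only [π, LinearMap.pi_apply, evp_apply]
    rw [ev_poly]
    exact Lagrange.eval_interpolate_at_node r hp.injOn (Finset.mem_univ i)
  have hi := (LinearMap.injective_iff_surjective_of_finrank_eq_finrank (f := π')
    (by rw [hI]; simp)).2 hs
  exact factor π l fun f hf => hl f (Ideal.Quotient.eq_zero_iff_mem.1 (hi (by rw [e, hf, map_zero])))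

end Pool.Agent.Lib.MP_2cea55_ag
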