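import Pool.Agent.Lib.MP_02ae3d_ag.H11D

set_option autoImplicit false
set_option linter.unusedSectionVars false

namespace Pool.Agent.Lib.MP_2cea55_ag.Gs
open Module LinearMap Matrix
open Pool.Agent.Lib.MP_02ae3d_ag (IsP cl Pol phi)
open scoped PowerSeries TensorProduct

/-- polynomial ring in `n` variables -/
abbrev P (n : ℕ) (k : Type) [Field k] := MvPolynomial (Fin n) k

/-- the ideal of the origin -/
noncomputable def M0 (n : ℕ) (k : Type) [Field k] : Ideal (P n k) :=
  Ideal.span (Set.range MvPolynomial.X)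

/-- an algebraic closure of the field of Laurent series -/
abbrev KK (k : Type) [Field k] := AlgebraicClosure (FractionRing k⟦X⟧)

section
variable {k : Type} [Field k] {V : Type} [AddCommGroup V] [Module k V] {ι : Type}

/-- simultaneously diagonalisable families -/
def Dg (k V ι : Type) [Field k] [AddCommGroup V] [Module k V] : Set (ι → End k V) :=
  {T | Submodule.span k {v | ∀ i, ∃ a : k, T i v = a • v} = ⊤}

/-- limits of simultaneously diagonalisable families -/
def Sm (T : ι → End k V) : Prop := T ∈ cl k (Dg k V ι)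

/-- a cyclic module with an invariant nondegenerate symmetric form -/
structure Fm {n : ℕ} (B : LinearMap.BilinForm k V) (π : P n k →ₐ[k] End k V) (v : V) : Prop where
  symm : ∀ u w, B u w = B w u
  nd : ∀ u, (∀ w, B u w = 0) → u = 0
  adj : ∀ g u w, B (π g u) w = B u (π g w)
  cyc : ∀ u, ∃ g, π g v = u

/-- the curl of a triple of vectors -/
def cu (T : Fin 3 → End k V) (u : Fin 3 → V) : Fin 3 → V :=
  ![T 1 (u 2) - T 2 (u 1), T 2 (u 0) - T 0 (u 2), T 0 (u 1) - T 1 (u 0)]

/-- the alternating form of a direction -/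
def om (B : LinearMap.BilinForm k V) (p : Fin 3 → k) (u u' : Fin 3 → V) : k :=
  ∑ i, B (cu (fun j => p j • (1 : End k V)) u i) (u' i)

variable {A : Type} [CommRing A] [Algebra k A]

/-- a Frobenius functional -/
def Nd (φ : A →ₗ[k] k) : Prop := ∀ a, (∀ b, φ (a * b) = 0) → a = 0

/-- Frobenius algebras -/
def Frob (k A : Type) [Field k] [CommRing A] [Algebra k A] : Prop := ∃ φ : A →ₗ[k] k, Nd φ

/-- smoothable algebras -/
def SmA (k A : Type) [Field k] [CommRing A] [Algebra k A] : Prop :=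
  ∀ (n : ℕ) (a : Fin n → A), Sm fun i => Algebra.lmul k A (a i)

/-- generating families -/
def Gn (k : Type) [Field k] [Algebra k A] (a : ι → A) : Prop := Algebra.adjoin k (Set.range a) = ⊤

/-- rank over the ground field of a matrix over `A` -/
noncomputable def rk (k : Type) [Field k] [Algebra k A] [Fintype ι] [DecidableEq ι]
    (N : Matrix ι ι A) : ℕ := finrank k (range (N.toLin'.restrictScalars k))

/-- the matrix of the cross product with `a` -/
def Cu (a : Fin 3 → A) : Matrix (Fin 3) (Fin 3) A := !![0, -a 2, a 1; a 2, 0, -a 0; -a 1, a 0, 0]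

/-- a flat formal deformation of `A` -/
structure Df (k : Type) [Field k] [Algebra k A] {E : Type} [CommRing E] [Algebra k⟦X⟧ E]
    (ρ : E →+* A) : Prop where
  free : Module.Free k⟦X⟧ E
  fin : Module.Finite k⟦X⟧ E
  smul : ∀ (r : k⟦X⟧) a, ρ (r • a) = PowerSeries.constantCoeff r • ρ a
  surj : Function.Surjective ρ
  ker : ∀ a, ρ a = 0 → ∃ b, a = (PowerSeries.X : k⟦X⟧) • b

/-- gradient at the origin -/
noncomputable def gr {n : ℕ} (g : P n k) (i : Fin n) : k :=
  MvPolynomial.constantCoeff (MvPolynomial.pderiv i g)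

/-- Hessian at the origin -/
noncomputable def he {n : ℕ} (g : P n k) : Matrix (Fin n) (Fin n) k :=
  Matrix.of fun i j => MvPolynomial.constantCoeff (MvPolynomial.pderiv i (MvPolynomial.pderiv j g))

/-- the quadratic form `H` evaluated on `a` -/
def qf {n : ℕ} (H : Matrix (Fin n) (Fin n) k) (a : Fin n → A) : A := ∑ i, ∑ j, H i j • (a i * a j)

/-- an orthonormal basis for the Frobenius pairing -/
def On {d : ℕ} (φ : A →ₗ[k] k) (b : Basis (Fin d) k A) : Prop :=
  ∀ i j, φ (b i * b j) = if i = j then 1 else 0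

variable {d n : ℕ} (b : Basis (Fin d) k A) (S : Type) [CommRing S] [Algebra k S]

/-- multiplication matrix with entries in `S` -/
noncomputable def Lm (a : A) : Matrix (Fin d) (Fin d) S :=
  (Algebra.leftMulMatrix b a).map (algebraMap k S)

/-- coordinates of `a` in `S` -/
noncomputable def cv (a : A) : Fin d → S := fun j => algebraMap k S (b.repr a j)

variable {S}

/-- the Koszul operators -/
noncomputable def Ym (π : S →ₐ[k] A) (x : S) : Matrix (Fin d) (Fin d) S :=
  x • (1 : Matrix (Fin d) (Fin d) S) - Lm b S (π x)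

/-- Taylor division and exactness of the Koszul complex in degree one -/
structure Kz (π : S →ₐ[k] A) (x : Fin n → S) : Prop where
  surj : Function.Surjective π
  h1 : ∀ g : S, ∃ w : Fin n → Fin d → S, g • cv b S 1 - cv b S (π g) = ∑ i, Ym b π (x i) *ᵥ w i
  h2 : ∀ o : Fin n → Fin d → S, ∑ i, Ym b π (x i) *ᵥ o i = 0 →
    ∃ a : Fin n → Fin n → Fin d → S, (∀ i j, a j i = -a i j) ∧
      ∀ i, o i = ∑ j, Ym b π (x j) *ᵥ a i j

/-- the splitting of the Koszul complex -/
structure Km (π : S →ₐ[k] A) (x : Fin n → S) (σ : Fin d → S)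
    (s : Fin n → Matrix (Fin d) (Fin d) S) : Prop where
  surj : Function.Surjective π
  symm : ∀ a, (Lm b S a)ᵀ = Lm b S a
  spl : ∑ i, Ym b π (x i) * s i = 1 - vecMulVec (cv b S 1) σ
  sv : ∀ i, s i *ᵥ cv b S 1 = 0
  one : σ ⬝ᵥ cv b S 1 = 1
  ker : ∀ g, π g = 0 ↔ ∃ w : Fin n → Fin d → S, g = ∑ i, (Ym b π (x i) *ᵥ σ) ⬝ᵥ w i
  ex : ∀ o : Fin n → Fin d → S, ∑ i, (Ym b π (x i) *ᵥ σ) ⬝ᵥ o i = 0 →
    ∃ (c : Fin d → S) (a : Fin n → Fin n → Fin d → S), (∀ i j, a j i = -a i j) ∧
      ∀ i, o i = s i *ᵥ c + ∑ j, Ym b π (x j) *ᵥ a i j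

/-- the odd part of the Koszul complex -/
abbrev Qm (n d : ℕ) (S : Type) := (Fin n → Fin d → S) × (Fin n → Fin d → S)

/-- the hyperbolic form -/
def Jm (o r : Qm n d S) : S := ∑ i, (o.1 i ⬝ᵥ r.2 i + o.2 i ⬝ᵥ r.1 i)

end

section
variable {S : Type} [CommRing S] (t : S) (M : Type) [AddCommGroup M] [Module S M]

/-- series in `t` converge -/
def Cpl : Prop := ∀ g : ℕ → M, ∃ G, ∀ N, ∃ r, G = ∑ n ∈ Finset.range N, t ^ n • g n + t ^ N • r

/-- `t`-adically separated -/
def Sep : Prop := ∀ g : M, (∀ N, ∃ r, g = t ^ N • r) → g = 0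

end

end Pool.Agent.Lib.MP_2cea55_ag.Gs
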