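import Pool.Agent.Lib.MP_2cea55_ag.G0

set_option autoImplicit false
set_option linter.unusedSectionVars false

namespace Pool.Agent.Lib.MP_2cea55_ag.Gs
open Module LinearMap Matrix
open Pool.Agent.Lib.MP_02ae3d_ag (IsP cl Pol phi)
open scoped PowerSeries TensorProduct

open MvPolynomial (X C aeval constantCoeff)
open Filter (cofinite)
open Pool.Agent.Lib.MP_02ae3d_ag (subset_cl)
open Pool.Agent.Lib.MP_02ae3d_ag.H11 (sm mp p1 dn d1)

variable {k : Type} [Field k] [IsAlgClosed k] [CharZero k]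
  {V V' : Type} [AddCommGroup V] [Module k V] [FiniteDimensional k V] [AddCommGroup V']
  [Module k V'] [FiniteDimensional k V'] {ι κ : Type} [Fintype ι] [Fintype κ]
  {A : Type} [CommRing A] [Algebra k A] [FiniteDimensional k A] {n : ℕ}

theorem Sm.equiv (e : V ≃ₗ[k] V') {T : ι → End k V} {T' : ι → End k V'}
    (h : ∀ i v, e (T i v) = T' i (e v)) (s : Sm T) : Sm T' := by
  let c := e.conj.toLinearMap
  have hc : ∀ S v, c S (e v) = e (S v) := by simp [c, LinearEquiv.conj_apply]
  have : T' = fun i => c (T i) := funext fun i => LinearMap.ext fun v => by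
    obtain ⟨v, rfl⟩ := e.surjective v
    rw [hc, h]
  rw [this]
  refine IsP.map_cl (Φ := fun (T : ι → End k V) i => c (T i))
    (IsP.pi fun i => (IsP.id.ap i).lin c) (fun T hT => subset_cl (top_unique ?_)) s
  rw [← e.range, range_eq_map, ← show _ = ⊤ from hT, Submodule.map_span]
  refine Submodule.span_mono ?_
  rintro _ ⟨v, hv, rfl⟩ i
  obtain ⟨a, ha⟩ := hv i
  exact ⟨a, by simp [hc, ha]⟩

theorem Sm.adj {T : ι → End k V} {T' : κ → End k V} (s : Sm T)
    (h : ∀ j, T' j ∈ Algebra.adjoin k (Set.range T)) : Sm T' := by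
  have : ∀ w ∈ Algebra.adjoin k (Set.range T), ∃ Φ : (ι → End k V) → End k V, (IsP k Φ ∧
      ∀ S v, (∀ i, ∃ a : k, S i v = a • v) → ∃ a : k, Φ S v = a • v) ∧ Φ T = w := by
    intro w hw
    induction hw using Algebra.adjoin_induction with
    | mem w hw =>
      obtain ⟨i, rfl⟩ := hw
      exact ⟨fun S => S i, ⟨IsP.id.ap i, fun S v h => h i⟩, rfl⟩
    | algebraMap c => exact ⟨fun _ => algebraMap _ _ c, ⟨.const _, fun S v _ => ⟨c, rfl⟩⟩, rfl⟩
    | add x y _ _ a b =>
      obtain ⟨Φ, ⟨a1, a2⟩, rfl⟩ := a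
      obtain ⟨Ψ, ⟨b1, b2⟩, rfl⟩ := b
      refine ⟨fun S => Φ S + Ψ S, ⟨a1.add b1, fun S v h => ?_⟩, rfl⟩
      obtain ⟨a, e⟩ := a2 S v h
      obtain ⟨b, e'⟩ := b2 S v h
      exact ⟨a + b, by simp [e, e', add_smul]⟩
    | mul x y _ _ a b =>
      obtain ⟨Φ, ⟨a1, a2⟩, rfl⟩ := a
      obtain ⟨Ψ, ⟨b1, b2⟩, rfl⟩ := b
      refine ⟨fun S => Φ S * Ψ S, ⟨a1.mul b1, fun S v h => ?_⟩, rfl⟩
      obtain ⟨a, e⟩ := a2 S v h
      obtain ⟨b, e'⟩ := b2 S v h
      exact ⟨b * a, by simp [e, e', smul_smul]⟩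
  choose Φ p e using fun j => this _ (h j)
  rw [← funext e]
  exact IsP.map_cl (Φ := fun S j => Φ j S) (IsP.pi fun j => (p j).1) (fun S hS => subset_cl
    (top_unique (hS.ge.trans (Submodule.span_mono fun v hv j => (p j).2 S v hv)))) s

theorem Sm.curve {T : k → ι → End k V} (p : IsP k T) (h : {t | Sm (T t)}.Infinite) : Sm (T 0) :=
  p.curve h

theorem Sm.small (h : finrank k V ≤ 1) (T : ι → End k V) : Sm T := by
  have : ∀ (A : End k V) v, ∃ a : k, A v = a • v := fun A v => by
    obtain ⟨w, hw⟩ := finrank_le_one_iff.1 h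
    obtain ⟨a, rfl⟩ := hw v
    obtain ⟨b, e⟩ := hw (A w)
    exact ⟨b, by rw [map_smul, ← e, smul_comm]⟩
  exact subset_cl (top_unique fun v _ => Submodule.subset_span fun i => this _ v)

theorem Sm.prod {T : ι → End k V} {T' : ι → End k V'} (s : Sm T) (s' : Sm T') :
    Sm fun i => (T i).prodMap (T' i) := by
  let L := prodMapLinear k V V' V V' k
  let F : (ι → End k V) → (ι → End k V') → ι → End k (V × V') := fun S S' i => L (S i, S' i)
  refine IsP.map_cl (Φ := F T) (IsP.pi fun i => ((IsP.const _).mk (IsP.id.ap i)).lin L)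
    (fun S' hS' => IsP.map_cl (Φ := (F · S')) (IsP.pi fun i =>
      ((IsP.id.ap i).mk (IsP.const _)).lin L) (fun S hS => subset_cl (top_unique ?_)) s) s'
  rw [← sup_range_inl_inr, range_eq_map, range_eq_map, ← show _ = ⊤ from hS,
    ← show _ = ⊤ from hS', Submodule.map_span, Submodule.map_span]
  refine sup_le (Submodule.span_mono ?_) (Submodule.span_mono ?_) <;>
    rintro _ ⟨v, hv, rfl⟩ i <;> obtain ⟨a, ha⟩ := hv i <;> exact ⟨a, by simp [F, L, ha]⟩

theorem Gn.sm {a : ι → A} (g : Gn k a) (s : Sm fun i => Algebra.lmul k A (a i)) : SmA k A := by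
  refine fun n b => s.adj fun j => ?_
  have : Algebra.lmul k A (b j) ∈ (Algebra.adjoin k (Set.range a)).map (Algebra.lmul k A) :=
    ⟨b j, g.ge trivial, rfl⟩
  rwa [AlgHom.map_adjoin, ← Set.range_comp] at this

theorem Gn.surj {a : ι → A} (g : Gn k a) :
    Function.Surjective (aeval a : MvPolynomial ι k →ₐ[k] A) := by
  rwa [← AlgHom.range_eq_top, ← Algebra.adjoin_range_eq_range_aeval]

theorem Gn.map {B : Type} [CommRing B] [Algebra k B] {a : ι → A} (g : Gn k a) (π : A →ₐ[k] B)
    (h : Function.Surjective π) : Gn k fun i => π (a i) := by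
  have := AlgHom.map_adjoin π (Set.range a)
  rw [g, Algebra.map_top, (AlgHom.range_eq_top π).2 h, ← Set.range_comp] at this
  exact this.symm

theorem Gn.shift {a : ι → A} (g : Gn k a) (p : ι → k) :
    Gn k fun i => a i - algebraMap k A (p i) := by
  refine top_unique (g.ge.trans (Algebra.adjoin_le ?_))
  rintro _ ⟨i, rfl⟩
  simpa using add_mem (Algebra.subset_adjoin (R := k) (s := Set.range fun i =>
    a i - algebraMap k A (p i)) ⟨i, rfl⟩) (Subalgebra.algebraMap_mem _ (p i))

theorem g1_loc {a : ι → A} (g : Gn k a) (w : A) :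
    ∃ α : k, w - algebraMap k A α ∈ Ideal.span (Set.range a) := by
  have hw : w ∈ Algebra.adjoin k (Set.range a) := g.ge trivial
  induction hw using Algebra.adjoin_induction with
  | mem w hw => exact ⟨0, by simpa using Ideal.subset_span hw⟩
  | algebraMap c => exact ⟨c, by simp⟩
  | add x y _ _ a b =>
    obtain ⟨α, a⟩ := a
    obtain ⟨β, b⟩ := b
    exact ⟨α + β, by convert add_mem a b using 1; rw [map_add]; ring⟩
  | mul x y _ _ a b =>
    obtain ⟨α, a⟩ := a
    obtain ⟨β, b⟩ := b
    exact ⟨α * β, by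
      convert add_mem (Ideal.mul_mem_right y _ a) (Ideal.mul_mem_left _ (algebraMap k A α) b)
        using 1
      rw [map_mul]; ring⟩

theorem g1_nil {a : ι → A} (g : Gn k a) (hn : ∀ i, IsNilpotent (a i)) :
    Ideal.span (Set.range a) = nilradical A := by
  have l : Ideal.span (Set.range a) ≤ nilradical A := Ideal.span_le.2 (by
    rintro _ ⟨i, rfl⟩; exact hn i)
  refine l.antisymm fun w hw => ?_
  obtain ⟨α, e⟩ := g1_loc g w
  by_cases h : α = 0
  · simpa [h] using e
  · rcases subsingleton_or_nontrivial A with _ | _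
    · exact Subsingleton.elim 0 w ▸ zero_mem _
    · exact absurd ((IsUnit.mk0 _ h).map (algebraMap k A))
        (mem_nilradical.1 (by simpa using sub_mem hw (l e))).not_isUnit

theorem g1_nak {m : Ideal A} (L : ∀ w, ∃ α : k, w - algebraMap k A α ∈ m) (N : IsNilpotent m)
    (S : Subalgebra k A) (h : ∀ w ∈ m, ∃ u ∈ S, u ∈ m ∧ w - u ∈ m ^ 2) : S = ⊤ := by
  have key : ∀ j, ∀ w ∈ m ^ j, ∃ u ∈ S, u ∈ m ^ j ∧ w - u ∈ m ^ (j + 1) := by
    intro j
    induction j with
    | zero =>
      intro w _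
      obtain ⟨α, e⟩ := L w
      exact ⟨_, S.algebraMap_mem α, by simp, by simpa using e⟩
    | succ j ih =>
      intro w hw
      rw [pow_succ] at hw
      induction hw using Submodule.mul_induction_on' with
      | mem_mul_mem x hx y hy =>
        obtain ⟨u, u1, u2, u3⟩ := ih x hx
        obtain ⟨v, v1, v2, e⟩ := h y hy
        refine ⟨u * v, mul_mem u1 v1, mp _ u2 (p1 v2) (by omega), ?_⟩
        convert add_mem (mp (j + 1 + 1) u3 (p1 hy) (by omega)) (mp _ u2 e (by omega)) using 1
        ring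
      | add x _ y _ hx hy =>
        obtain ⟨u, u1, u2, u3⟩ := hx
        obtain ⟨v, v1, v2, v3⟩ := hy
        exact ⟨u + v, add_mem u1 v1, add_mem u2 v2, by convert add_mem u3 v3 using 1; ring⟩
  refine top_unique fun w _ => ?_
  have : ∀ j, ∃ u ∈ S, w - u ∈ m ^ j := fun j => by
    induction j with
    | zero => exact ⟨0, zero_mem _, by simp⟩
    | succ j ih =>
      obtain ⟨u, u1, u2⟩ := ih
      obtain ⟨v, v1, -, v2⟩ := key j _ u2
      exact ⟨u + v, add_mem u1 v1, by convert v2 using 1; ring⟩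
  obtain ⟨K, hK⟩ := N
  obtain ⟨u, u1, u2⟩ := this K
  rw [hK, Ideal.zero_eq_bot, Ideal.mem_bot, sub_eq_zero] at u2
  exact u2 ▸ u1

/-- Nakayama -/
theorem Gn.pert {a : ι → A} (g : Gn k a) (hn : ∀ i, IsNilpotent (a i)) {a' : κ → A}
    (hn' : ∀ j, IsNilpotent (a' j))
    (h : ∀ i, ∃ w ∈ Submodule.span k (Set.range a'), a i - w ∈ nilradical A ^ 2) : Gn k a' := by
  have := IsNoetherianRing.of_finite k A
  have L := g1_loc g
  have e := g1_nil g hn
  rw [e] at L
  refine g1_nak L (IsNoetherianRing.isNilpotent_nilradical A) _ fun w hw => ?_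
  rw [← e] at hw
  induction hw using Submodule.span_induction with
  | mem w hw =>
    obtain ⟨i, rfl⟩ := hw
    obtain ⟨w, w1, w2⟩ := h i
    refine ⟨w, Algebra.span_le_adjoin k _ w1, ?_, w2⟩
    simpa using sub_mem (show a i ∈ nilradical A from hn i) (d1 w2 (by omega))
  | zero => exact ⟨0, zero_mem _, zero_mem _, by simp⟩
  | add x y _ _ hx hy =>
    obtain ⟨u, u1, u2, u3⟩ := hx
    obtain ⟨v, v1, v2, v3⟩ := hy
    exact ⟨u + v, add_mem u1 v1, add_mem u2 v2, by convert add_mem u3 v3 using 1; ring⟩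
  | smul r x hx ih =>
    obtain ⟨u, u1, u2, u3⟩ := ih
    obtain ⟨α, f⟩ := L r
    refine ⟨α • u, Subalgebra.smul_mem _ u1 α, Submodule.smul_of_tower_mem _ α u2, ?_⟩
    convert add_mem (Submodule.smul_of_tower_mem _ α u3) (mp 2 (p1 f) (p1 (e.le hx)) (by omega))
      using 1
    rw [smul_eq_mul, Algebra.smul_def, Algebra.smul_def]
    ring

theorem Gn.map_M0 {a : Fin n → A} (g : Gn k a) (hn : ∀ i, IsNilpotent (a i)) :
    (M0 n k).map (aeval a : P n k →ₐ[k] A) = nilradical A := by
  rw [← g1_nil g hn, M0, Ideal.map_span, ← Set.range_comp]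
  congr 2
  funext i
  simp

theorem taylor (g : P n k) : g - (C (constantCoeff g) + ∑ i, gr g i • X i +
    (2 : k)⁻¹ • qf (he g) X) ∈ M0 n k ^ 3 := by
  have h : ∀ i, (X i : P n k) ∈ M0 n k := fun i => Ideal.subset_span ⟨i, rfl⟩
  induction g using MvPolynomial.induction_on with
  | C c => simp [gr, he, qf]
  | add F G a b =>
    convert add_mem a b using 1
    simp only [gr, he, qf, of_apply, map_add, add_smul, Finset.sum_add_distrib, smul_add]
    ring
  | mul_X F l a =>
    have e1 : ∀ i, gr (F * X l) i = if l = i then constantCoeff F else 0 := fun i => by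
      simp [gr, MvPolynomial.pderiv_X, Pi.single_apply, apply_ite constantCoeff]
    have e2 : ∀ i j, he (F * X l) i j =
        (if l = i then gr F j else 0) + if l = j then gr F i else 0 := fun i j => by
      simp [he, gr, MvPolynomial.pderiv_X, Pi.single_apply, apply_ite constantCoeff,
        apply_ite (MvPolynomial.pderiv i), add_comm]
    have e3 : qf (he (F * X l)) (X : Fin n → P n k) = (2 : k) • ((∑ i, gr F i • X i) * X l) := by
      simp only [qf, e2, add_smul, ite_smul, zero_smul, Finset.sum_add_distrib, Finset.sum_ite_eq,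
        Finset.mem_univ, if_true, Finset.sum_mul, smul_mul_assoc, two_smul]
      rw [Finset.sum_comm]
      simp [mul_comm]
    convert add_mem (Ideal.mul_mem_right (X l) _ a) (mp 3 (sm (2 : k)⁻¹ (Ideal.sum_mem _ fun i
      (_ : i ∈ Finset.univ) => Ideal.sum_mem _ fun j (_ : j ∈ Finset.univ) => sm
        (he F i j) (mp 2 (p1 (h i)) (p1 (h j)) (by omega)))) (p1 (h l)) (by omega)) using 1
    rw [e3, smul_smul, inv_mul_cancel₀ two_ne_zero, one_smul]
    simp [e1, qf, MvPolynomial.smul_eq_C_mul]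
    ring

theorem he_symm (g : P n k) : (he g).IsSymm := by
  have : ∀ (F : P n k) i j, MvPolynomial.pderiv i (MvPolynomial.pderiv j F) =
      MvPolynomial.pderiv j (MvPolynomial.pderiv i F) := fun F i j => by
    induction F using MvPolynomial.induction_on with
    | C c => simp
    | add F G a b => simp [a, b]
    | mul_X F l a =>
      simp [MvPolynomial.pderiv_X, Pi.single_apply, apply_ite (MvPolynomial.pderiv _), a]
      ring
  exact IsSymm.ext fun i j => by simp [he, this g i j]

/-- two generators -/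
theorem g2 {x y : A} (g : Gn k ![x, y]) : SmA k A := by
  refine g.sm ?_
  have := IsP.map_cl (Φ := fun T : MP_02ae3d_ag.T3 k A => ![T.1, T.2.1]) (B := Dg k A (Fin 2))
    (IsP.pi fun i => by fin_cases i; exacts [IsP.id.fst, IsP.id.snd.fst])
    (fun T hT => subset_cl (top_unique (hT.ge.trans (Submodule.span_mono fun v hv i => by
      fin_cases i; exacts [hv.1, hv.2.1]))))
    (MP_02ae3d_ag.H88.cyc0 (Algebra.lmul k A) (x := x) (y := y) one_pos (pow_one _).symm)
  rwa [show (fun i => Algebra.lmul k A (![x, y] i)) = ![Algebra.lmul k A x, Algebra.lmul k A y]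
    from funext fun i => by fin_cases i <;> rfl]

/-- reduction to the local case -/
theorem SmA.loc (F : Frob k A) (a : ι → A)
    (H : ∀ (B : Type) [CommRing B] [Algebra k B] [FiniteDimensional k B] (π : A →ₐ[k] B),
      Function.Surjective π → Frob k B → finrank k B < finrank k A → SmA k B)
    (L : ∀ p : ι → k, Nontrivial A → (∀ i, IsNilpotent (a i - algebraMap k A (p i))) → SmA k A) :
    SmA k A := by
  rcases subsingleton_or_nontrivial A with _ | nt
  · exact fun n b => Sm.small (by simp [finrank_zero_of_subsingleton]) _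
  by_cases t : ∃ f, MP_02ae3d_ag.Two (Algebra.lmul k A f)
  swap
  · have : ∀ i, ∃ c : k, IsNilpotent (a i - algebraMap k A c) := fun i => by
      obtain ⟨c, v, hv⟩ := (End.exists_eigenvalue (Algebra.lmul k A (a i))).imp
        fun _ h => h.exists_hasEigenvector
      refine ⟨c, by_contra fun h => t ⟨_, fun z => h ((IsNilpotent.map_iff
        (Algebra.lmul_injective (R := k))).1 z), fun u => hv.2 ?_⟩⟩
      exact ker_eq_bot'.1 ((isUnit_iff_ker_eq_bot _).1 u) v (by
        rw [map_sub, LinearMap.sub_apply, hv.apply_eq_smul, AlgHom.commutes]; simp)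
    choose p hp using this
    exact L p nt hp
  obtain ⟨f, t⟩ := t
  obtain ⟨E, E2, E0, E1, Ec⟩ := t.idem
  have Ee : ∀ c, E c = c * E 1 := fun c => by
    simpa using congr($((Ec _ ((Commute.all f c).map (Algebra.lmul k A))).eq) 1)
  have he : IsIdempotentElem (E 1) := (Ee _).symm.trans congr($(E2.eq) 1)
  have key : ∀ e : A, IsIdempotentElem e → e ≠ 0 → SmA k (A ⧸ Ideal.span {e}) := fun e he e0 => by
    obtain ⟨φ, hφ⟩ := F
    let I : Ideal A := Ideal.span {e}
    have s := Ideal.Quotient.mkₐ_surjective k I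
    refine H _ (Ideal.Quotient.mkₐ k I) s ?_ ?_
    · obtain ⟨ψ, hψ⟩ : ∃ ψ : (A ⧸ I) →ₗ[k] k, ∀ x, ψ (Ideal.Quotient.mk I x) = φ ((1 - e) * x) :=
        ⟨(I.restrictScalars k).liftQ (φ ∘ₗ mulLeft k (1 - e)) fun x hx => by
          obtain ⟨y, rfl⟩ := Ideal.mem_span_singleton'.1 hx
          simp [mul_left_comm (1 - e), sub_mul, he.eq], fun _ => rfl⟩
      refine ⟨ψ, fun x hx => ?_⟩
      obtain ⟨x, rfl⟩ := Ideal.Quotient.mk_surjective x
      have := hφ ((1 - e) * x) fun y => by rw [mul_assoc, ← hψ, map_mul, hx]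
      exact Ideal.Quotient.eq_zero_iff_mem.2 (Ideal.mem_span_singleton'.2
        ⟨x, by linear_combination -this⟩)
    · have := (Ideal.Quotient.mkₐ k I).toLinearMap.finrank_range_add_finrank_ker
      rw [range_eq_top.2 s, finrank_top] at this
      refine lt_of_lt_of_eq (Nat.lt_add_of_pos_right (Nat.pos_of_ne_zero fun z => e0 ?_)) this
      exact ker_eq_bot'.1 (Submodule.finrank_eq_zero.1 z) e
        (Ideal.Quotient.eq_zero_iff_mem.2 (Ideal.mem_span_singleton_self e))
  let c := AlgEquiv.prodQuotientOfIsIdempotentElem k he he.one_sub (by simp) (by simp [he])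
  refine fun n b => Sm.equiv c.symm.toLinearEquiv (fun i v => ?_)
    ((key _ he (fun z => E0 (LinearMap.ext fun c => by simp [Ee c, z])) n fun i => (c (b i)).1).prod
      (key _ he.one_sub (fun z => E1 (LinearMap.ext fun c => by
        simp [Ee c, ← sub_eq_zero.1 z])) n fun i => (c (b i)).2))
  change c.symm (c (b i) * v) = b i * c.symm v
  rw [map_mul, c.symm_apply_apply]

variable {B : LinearMap.BilinForm k V} {π : P n k →ₐ[k] End k V} {v : V}

theorem Fm.ann (F : Fm B π v) {g : P n k} (h : π g v = 0) : π g = 0 := by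
  ext u
  obtain ⟨f, rfl⟩ := F.cyc u
  rw [← End.mul_apply, ← map_mul, mul_comm, map_mul, End.mul_apply, h, map_zero,
    LinearMap.zero_apply]

theorem Fm.alg (F : Fm B π v) (H : ∀ [FiniteDimensional k (P n k ⧸ RingHom.ker π)],
    Frob k (P n k ⧸ RingHom.ker π) → finrank k (P n k ⧸ RingHom.ker π) = finrank k V →
      SmA k (P n k ⧸ RingHom.ker π)) : Sm fun i => π (X i) := by
  let e := LinearEquiv.ofBijective (applyₗ v ∘ₗ (Ideal.kerLiftAlg π).toLinearMap)
    ⟨(injective_iff_map_eq_zero _).2 fun a e => by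
      obtain ⟨g, rfl⟩ := Ideal.Quotient.mk_surjective a
      exact Ideal.Quotient.eq_zero_iff_mem.2 (F.ann e), fun u => by
      obtain ⟨g, e⟩ := F.cyc u
      exact ⟨Ideal.Quotient.mk _ g, e⟩⟩
  have := e.symm.finiteDimensional
  have c : ∀ g a, e (Ideal.Quotient.mk _ g * a) = π g (e a) := fun g a =>
    congr($(map_mul (Ideal.kerLiftAlg π) (Ideal.Quotient.mk _ g) a) v)
  refine Sm.equiv e (fun i => c (X i)) (H ⟨B v ∘ₗ e.toLinearMap, fun a h => e.injective ?_⟩
    e.finrank_eq n fun i => Ideal.Quotient.mk _ (X i))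
  rw [map_zero]
  refine F.nd _ fun w => ?_
  obtain ⟨g, rfl⟩ := F.cyc w
  rw [F.symm, F.adj, ← c, mul_comm]
  exact h _

theorem Nd.fm {φ : A →ₗ[k] k} (h : Nd φ) {a : Fin n → A} (g : Gn k a) :
    Fm ((LinearMap.mul k A).compr₂ φ) ((Algebra.lmul k A).comp (aeval a)) 1 :=
  ⟨fun u w => by simp [mul_comm], h, fun g u w => by simp [mul_comm, mul_left_comm], fun u => by
    simpa using g.surj u⟩

theorem g1_phi (N : ι → End k V) (h : ∀ i j, Commute (N i) (N j)) :
    ∃ φ : MvPolynomial ι k →ₐ[k] End k V, ∀ i, φ (X i) = N i := by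
  have := Algebra.isMulCommutative_adjoin k (s := Set.range N) (by
    rintro _ ⟨i, rfl⟩ _ ⟨j, rfl⟩; exact h i j)
  let _ : CommRing (Algebra.adjoin k (Set.range N)) := { mul_comm := mul_comm' }
  exact ⟨(Algebra.adjoin k (Set.range N)).val.comp
    (aeval fun i => ⟨N i, Algebra.subset_adjoin ⟨i, rfl⟩⟩), by simp⟩

/-- one parameter families of self adjoint operators -/
theorem Fm.fam (F : Fm B π v) (E : Fin n → End k V) (a : ∀ i u w, B (E i u) w = B u (E i w))
    (c : ∀ (t : k) i j, Commute (π (X i) + t • E i) (π (X j) + t • E j))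
    (s : ¬ Sm fun i => π (X i)) : ∀ᶠ t : k in cofinite, ∃ π' : P n k →ₐ[k] End k V,
      (∀ i, π' (X i) = π (X i) + t • E i) ∧ Fm B π' v ∧ ¬ Sm fun i => π' (X i) := by
  choose ρ hρ using fun t => g1_phi _ (c t)
  have p : ∀ g, IsP k fun t => ρ t g := fun g => by
    induction g using MvPolynomial.induction_on with
    | C c => simpa using IsP.const _
    | add f g a b => simpa using a.add b
    | mul_X f i a =>
      simpa only [map_mul, hρ] using a.mul ((IsP.const _).add (IsP.id.smul (IsP.const _)))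
  have z : ρ 0 = π := MvPolynomial.algHom_ext fun i => by simp [hρ]
  let b := finBasis k V
  choose g hg using fun j => F.cyc (b j)
  let L : k → End k V := fun t => b.constr k fun j => ρ t (g j) v
  have pL : IsP k L := IsP.lin (b.constr k).toLinearMap (IsP.pi fun j => (p (g j)).lin (applyₗ v))
  have L0 : L 0 = 1 := b.ext fun j => by simp [L, z, hg]
  have q : ∀ᶠ t in cofinite, ¬ Sm fun i => ρ t (X i) := by
    simp only [Filter.eventually_cofinite, not_not]
    exact Set.not_infinite.1 fun h => s (z ▸ Sm.curve (T := fun t i => ρ t (X i))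
      (IsP.pi fun i => p (X i)) h)
  filter_upwards [q, pL.det.cof (a := 0) (by simp [L0])] with t t1 t2
  refine ⟨ρ t, hρ t, ⟨F.symm, F.nd, fun g => ?_, fun u => ?_⟩, t1⟩
  · induction g using MvPolynomial.induction_on with
    | C c => simp
    | add f g a b => simp [a, b]
    | mul_X f i ih =>
      intro u w
      rw [map_mul, End.mul_apply, ih, ← map_mul, mul_comm, map_mul, End.mul_apply, hρ]
      simp [F.adj, a]
  · obtain ⟨w, rfl⟩ := range_eq_top.1 ((isUnit_iff_range_eq_top _).1
      ((LinearMap.isUnit_iff_isUnit_det _).2 (IsUnit.mk0 _ t2))) u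
    exact ⟨∑ j, b.repr w j • g j, by simp [L, Basis.constr_apply_fintype]⟩

end Pool.Agent.Lib.MP_2cea55_ag.Gs
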