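import Pool.Agent.Lib.MP_2cea55_ag.G0

set_option autoImplicit false
set_option linter.unusedSectionVars false

namespace Pool.Agent.Lib.MP_2cea55_ag.Gs
open Module LinearMap Matrix
open Pool.Agent.Lib.MP_02ae3d_ag (IsP cl Pol phi)
open scoped PowerSeries TensorProduct

theorem g1k_fin {B : Type} [CommRing B] {n : ℕ} (s : Finset (Fin n)) :
    ∀ o : Fin n → MvPolynomial (Fin n) B, ∑ i ∈ s, MvPolynomial.X i * o i = 0 →
      ∃ a : Fin n → Fin n → MvPolynomial (Fin n) B,
        (∀ i j, a j i = -a i j) ∧ ∀ i ∈ s, o i = ∑ j ∈ s, MvPolynomial.X j * a i j := by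
  classical
  induction s using Finset.induction_on with
  | empty => exact fun o _ => ⟨0, by simp, by simp⟩
  | insert r s hr ih =>
    intro o h
    rw [Finset.sum_insert hr] at h
    have h1 : MvPolynomial.X r * o r ∈
        Ideal.span ((MvPolynomial.X : Fin n → MvPolynomial (Fin n) B) '' (s : Set (Fin n))) := by
      rw [eq_neg_of_add_eq_zero_left h]
      exact neg_mem (Ideal.sum_mem _ fun i hi =>
        Ideal.mul_mem_right _ _ (Ideal.subset_span ⟨i, hi, rfl⟩))
    have h2 : o r ∈
        Ideal.span ((MvPolynomial.X : Fin n → MvPolynomial (Fin n) B) '' (s : Set (Fin n))) := by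
      rw [MvPolynomial.mem_ideal_span_X_image] at h1 ⊢
      intro m hm
      obtain ⟨i, hi, hne⟩ := h1 (Finsupp.single r 1 + m) (by
        rw [MvPolynomial.mem_support_iff, MvPolynomial.coeff_X_mul]
        exact MvPolynomial.mem_support_iff.mp hm)
      refine ⟨i, hi, ?_⟩
      have : i ≠ r := fun e => hr (e ▸ hi)
      simpa [Finsupp.single_eq_of_ne this] using hne
    obtain ⟨w, hw⟩ := (Submodule.mem_span_image_finset_iff_exists_fun' _).mp h2
    have hw' : o r = ∑ j ∈ s, MvPolynomial.X j * w j := by
      rw [← hw]; exact Finset.sum_congr rfl fun j _ => by rw [smul_eq_mul, mul_comm]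
    obtain ⟨a, ha, ho⟩ := ih (fun i => o i + MvPolynomial.X r * w i) (by
      rw [← h, hw', Finset.mul_sum, ← Finset.sum_add_distrib]
      exact Finset.sum_congr rfl fun j _ => by ring)
    refine ⟨fun i j => if i = r then (if j = r then 0 else w j) else if j = r then -w i else a i j,
      fun i j => ?_, fun i hi => ?_⟩
    · by_cases h1 : i = r <;> by_cases h2 : j = r <;> simp [h1, h2, ha i j]
    · rw [Finset.sum_insert hr]
      have hs : ∀ j ∈ s, j ≠ r := fun j hj e => hr (e ▸ hj)
      rcases Finset.mem_insert.mp hi with rfl | hi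
      · rw [hw']
        simp only [if_true, mul_zero, zero_add]
        exact Finset.sum_congr rfl fun j hj => by rw [if_neg (hs j hj)]
      · simp only [if_neg (hs i hi), if_true]
        rw [Finset.sum_congr rfl fun j hj => by rw [if_neg (hs j hj)], ← ho i hi]
        ring

/-- the Koszul complex of the variables is exact in degree one -/
theorem kos_poly {B : Type} [CommRing B] {n : ℕ} (o : Fin n → MvPolynomial (Fin n) B)
    (h : ∑ i, MvPolynomial.X i * o i = 0) : ∃ a : Fin n → Fin n → MvPolynomial (Fin n) B,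
      (∀ i j, a j i = -a i j) ∧ ∀ i, o i = ∑ j, MvPolynomial.X j * a i j := by
  obtain ⟨a, h1, h2⟩ := g1k_fin Finset.univ o h
  exact ⟨a, h1, fun i => h2 i (Finset.mem_univ i)⟩

end Pool.Agent.Lib.MP_2cea55_ag.Gs
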