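import Pool.Agent.Lib.MP_2cea55_ag.G1

set_option autoImplicit false
set_option linter.unusedSectionVars false

namespace Pool.Agent.Lib.MP_2cea55_ag.Gs
open Module LinearMap Matrix
open Pool.Agent.Lib.MP_02ae3d_ag (IsP cl Pol phi)
open scoped PowerSeries TensorProduct

section
variable {R F E A : Type} [CommRing R] [CommRing F] [CommRing E] [CommRing A] [Algebra R E]
  [Algebra F A] {d : ℕ}

/-- compatible bases -/
def G2c (e : Basis (Fin d) R E) (b : Basis (Fin d) F A) (c : R →+* F) (σ : E →+* A) : Prop :=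
  ∀ x i, b.repr (σ x) i = c (e.repr x i)

variable {e : Basis (Fin d) R E} {b : Basis (Fin d) F A} {c : R →+* F} {σ : E →+* A}

theorem G2c.bas (h : G2c e b c σ) (i : Fin d) : σ (e i) = b i :=
  b.ext_elem fun j => by
    rw [h, e.repr_self, b.repr_self, Finsupp.single_apply, Finsupp.single_apply]
    split_ifs <;> simp

theorem G2c.mat (h : G2c e b c σ) (x : E) :
    Algebra.leftMulMatrix b (σ x) = (Algebra.leftMulMatrix e x).map c := by
  ext i j
  rw [map_apply, Algebra.leftMulMatrix_eq_repr_mul, Algebra.leftMulMatrix_eq_repr_mul, ← h.bas,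
    ← map_mul, h]

theorem G2c.tr (h : G2c e b c σ) (x : E) :
    Algebra.trace F A (σ x) = c (Algebra.trace R E x) := by
  rw [Algebra.trace_eq_matrix_trace b, Algebra.trace_eq_matrix_trace e, h.mat,
    AddMonoidHom.map_trace]

theorem G2c.fn (h : G2c e b c σ) (w : Fin d → R) (x : E) :
    b.constr F (fun i => c (w i)) (σ x) = c (e.constr R w x) := by
  simp [Basis.constr_apply_fintype, h x, map_sum]

theorem G2c.gram (h : G2c e b c σ) (w : Fin d → R) :
    (Matrix.of fun i j => b.constr F (fun i => c (w i)) (b i * b j)).det =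
      c (Matrix.of fun i j => e.constr R w (e i * e j)).det := by
  rw [RingHom.map_det]
  congr 1
  ext i j
  rw [RingHom.mapMatrix_apply, map_apply, of_apply, of_apply, ← h.fn, map_mul σ, h.bas, h.bas]

end

section
variable {F V : Type} [Field F] [AddCommGroup V] [Module F V] {d n : ℕ}

theorem g2_nd {A : Type} [CommRing A] [Algebra F A] (b : Basis (Fin d) F A) (φ : A →ₗ[F] F) :
    Nd φ ↔ (Matrix.of fun i j => φ (b i * b j)).det ≠ 0 := by
  have := LinearMap.separatingLeft_iff_det_ne_zero (B := (LinearMap.mul F A).compr₂ φ) b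
  refine Iff.trans (by rfl) (this.trans ?_)
  congr! 2
  ext i j
  simp

theorem g2_dg (b : Basis (Fin d) F V) (T : Fin n → End F V) : T ∈ Dg F V (Fin n) ↔
    ∃ (P : Matrix (Fin d) (Fin d) F) (D : Fin n → Fin d → F), P.det ≠ 0 ∧
      ∀ i, toMatrix b b (T i) = P * diagonal (D i) * P.adjugate := by
  constructor
  · intro h
    obtain ⟨s, hs, h1, h2⟩ := exists_linearIndependent F {v | ∀ i, ∃ a : F, T i v = a • v}
    let c0 := Basis.mk h2 (by rw [Subtype.range_coe, h1]; exact h.ge)
    let c := c0.reindex (c0.indexEquiv b)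
    have hc : ∀ j i, ∃ a : F, T i (c j) = a • c j := fun j => by
      simpa [c, c0] using hs ((c0.indexEquiv b).symm j).2
    choose a ha using hc
    have h3 := b.toMatrix_mul_toMatrix_flip c
    have h4 : (b.toMatrix c).det ≠ 0 := (isUnit_det_of_right_inverse h3).ne_zero
    refine ⟨b.toMatrix c, fun i j => a j i * (b.toMatrix c).det⁻¹, h4, fun i => ?_⟩
    have h5 : toMatrix c c (T i) = diagonal fun j => a j i := by
      ext j l
      rw [toMatrix_apply, ha, map_smul, c.repr_self, diagonal_apply, Finsupp.smul_apply,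
        Finsupp.single_apply]
      by_cases h : j = l
      · simp [h]
      · simp [h, Ne.symm h]
    rw [← basis_toMatrix_mul_linearMap_toMatrix_mul_basis_toMatrix b c b c, h5,
      ← inv_eq_right_inv h3, inv_def, Ring.inverse_eq_inv, Matrix.mul_smul, ← Matrix.smul_mul,
      ← Matrix.mul_smul, ← diagonal_smul]
    congr 3
    ext j
    simp [mul_comm]
  · rintro ⟨P, D, h, e⟩
    refine top_unique fun u _ => ?_
    have : u = ∑ j, (P⁻¹ *ᵥ b.repr u) j • b.equivFun.symm (Pᵀ j) := by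
      simp only [← map_smul, ← map_sum]
      rw [← vecMul_eq_sum, vecMul_transpose, mulVec_mulVec, mul_nonsing_inv _ h.isUnit, one_mulVec]
      exact (b.equivFun.symm_apply_apply u).symm
    rw [this]
    refine Submodule.sum_mem _ fun j _ => Submodule.smul_mem _ _ (Submodule.subset_span fun i =>
      ⟨D i j * P.det, b.equivFun.injective ?_⟩)
    have h1 : toMatrix b b (T i) * P = P.det • (P * diagonal (D i)) := by
      rw [e, Matrix.mul_assoc, adjugate_mul, Matrix.mul_smul, Matrix.mul_one]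
    rw [map_smul, LinearEquiv.apply_symm_apply, Basis.equivFun_apply, ← toMatrix_mulVec_repr b b,
      ← Basis.equivFun_apply, LinearEquiv.apply_symm_apply]
    ext l
    have := congrFun (congrFun h1 l) j
    rw [Matrix.smul_apply, smul_eq_mul, mul_diagonal] at this
    simp only [Pi.smul_apply, smul_eq_mul, transpose_apply]
    refine Eq.trans ?_ (this.trans (by ring))
    rfl

theorem g2_pol {σ : Type} [Fintype σ] {f : (σ → F) → F} (h : f ∈ Pol F (σ → F)) :
    ∃ G : MvPolynomial σ F, ∀ m, f m = MvPolynomial.eval m G := by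
  classical
  induction h using Algebra.adjoin_induction with
  | mem f hf =>
    obtain ⟨φ, rfl⟩ := hf
    exact ⟨∑ s, MvPolynomial.X s * MvPolynomial.C (φ fun j => if s = j then 1 else 0),
      fun m => by simp [φ.pi_apply_eq_sum_univ m]⟩
  | algebraMap c => exact ⟨MvPolynomial.C c, by simp⟩
  | add f g _ _ a b => obtain ⟨p, a⟩ := a; obtain ⟨q, b⟩ := b; exact ⟨p + q, by simp [a, b]⟩
  | mul f g _ _ a b => obtain ⟨p, a⟩ := a; obtain ⟨q, b⟩ := b; exact ⟨p * q, by simp [a, b]⟩

theorem g2_ev {k σ : Type} [CommRing k] (ι : k →+* F) (L : σ → V →ₗ[F] F) (G : MvPolynomial σ k) :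
    (fun v => MvPolynomial.eval₂ ι (fun s => L s v) G) ∈ Pol F V := by
  induction G using MvPolynomial.induction_on with
  | C a => simp only [MvPolynomial.eval₂_C]; exact Subalgebra.algebraMap_mem (Pol F V) (ι a)
  | add p q a b => simp only [MvPolynomial.eval₂_add]; exact add_mem a b
  | mul_X p s a =>
    simp only [MvPolynomial.eval₂_mul, MvPolynomial.eval₂_X]
    exact mul_mem a (Algebra.subset_adjoin ⟨L s, rfl⟩)

theorem g2_gen {k : Type} [Field k] [Infinite k] (G : MvPolynomial (Fin n × Fin d × Fin d) k)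
    (h : ∀ (P : Matrix (Fin d) (Fin d) k) (D : Fin n → Fin d → k), P.det ≠ 0 → MvPolynomial.eval
      (fun s => (P * diagonal (D s.1) * P.adjugate) s.2.1 s.2.2) G = 0) (ι : k →+* F)
    (P : Matrix (Fin d) (Fin d) F) (D : Fin n → Fin d → F) (hP : P.det ≠ 0) :
    MvPolynomial.eval₂ ι (fun s => (P * diagonal (D s.1) * P.adjugate) s.2.1 s.2.2) G = 0 := by
  let Q := MvPolynomial ((Fin d × Fin d) ⊕ (Fin n × Fin d)) k
  let P0 : Matrix (Fin d) (Fin d) Q := Matrix.of fun j l => MvPolynomial.X (.inl (j, l))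
  let D0 : Fin n → Fin d → Q := fun i j => MvPolynomial.X (.inr (i, j))
  let G0 : Q := P0.det * MvPolynomial.eval₂ MvPolynomial.C
    (fun s => (P0 * diagonal (D0 s.1) * P0.adjugate) s.2.1 s.2.2) G
  have key : ∀ (S : Type) [CommRing S] (g : Q →+* S), g G0 = (P0.map g).det *
      MvPolynomial.eval₂ (g.comp MvPolynomial.C) (fun s => (P0.map g *
        diagonal (fun j => g (D0 s.1 j)) * (P0.map g).adjugate) s.2.1 s.2.2) G := fun S _ g => by
    rw [map_mul, RingHom.map_det, MvPolynomial.hom_eval₂]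
    congr 2
    ext s
    rw [← map_apply (f := g), Matrix.map_mul, Matrix.map_mul, diagonal_map (map_zero g),
      ← RingHom.mapMatrix_apply g P0.adjugate, RingHom.map_adjugate]
    rfl
  have h0 : G0 = 0 := MvPolynomial.funext fun z => by
    rw [key, map_zero, mul_eq_zero, or_iff_not_imp_left]
    intro hz
    convert h _ (fun i j => MvPolynomial.eval z (D0 i j)) hz using 1
    rw [show (MvPolynomial.eval z).comp MvPolynomial.C = .id k from RingHom.ext (by simp)]
    rfl
  obtain ⟨g, g1, g2, g3⟩ : ∃ g : Q →+* F, g.comp MvPolynomial.C = ι ∧ P0.map g = P ∧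
      ∀ i, (fun j => g (D0 i j)) = D i :=
    ⟨MvPolynomial.eval₂Hom ι (Sum.elim (fun s => P s.1 s.2) fun s => D s.1 s.2),
      MvPolynomial.eval₂Hom_comp_C .., Matrix.ext fun _ _ => MvPolynomial.eval₂Hom_X' ..,
      fun _ => funext fun _ => MvPolynomial.eval₂Hom_X' ..⟩
  have := key F g
  rw [h0, map_zero, g1, g2] at this
  simpa only [g3] using (mul_eq_zero.1 this.symm).resolve_left hP

end

variable {k : Type} [Field k] [IsAlgClosed k] [CharZero k]
  {A : Type} [CommRing A] [Algebra k A] [FiniteDimensional k A]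
  {E : Type} [CommRing E] [Algebra k⟦X⟧ E] {ρ : E →+* A} {n : ℕ}

theorem g2_inj : Function.Injective (algebraMap k⟦X⟧ (KK k)) :=
  (algebraMap (FractionRing k⟦X⟧) (KK k)).injective.comp (IsFractionRing.injective k⟦X⟧ _)

theorem kk_char : CharZero (KK k) :=
  charZero_of_injective_ringHom (f := (algebraMap k⟦X⟧ (KK k)).comp PowerSeries.C)
    (RingHom.injective _)

theorem g2_bas (D : Df k ρ) : ∃ (d : ℕ) (e : Basis (Fin d) k⟦X⟧ E) (b : Basis (Fin d) k A),
    G2c e b PowerSeries.constantCoeff ρ := by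
  have := D.free
  have := D.fin
  let e := finBasis k⟦X⟧ E
  have h1 : ∀ x, ρ x = ∑ i, PowerSeries.constantCoeff (e.repr x i) • ρ (e i) := fun x => by
    conv_lhs => rw [← e.sum_repr x, map_sum]
    simp only [D.smul]
  have h2 : LinearIndependent k fun i => ρ (e i) := Fintype.linearIndependent_iff.2 fun g hg i => by
    obtain ⟨y, hy⟩ := D.ker (∑ i, PowerSeries.C (g i) • e i) (by simpa [D.smul] using hg)
    have := congrArg (fun x => PowerSeries.constantCoeff (e.equivFun x i)) hy
    rw [← e.equivFun_symm_apply, LinearEquiv.apply_symm_apply] at this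
    simpa using this
  obtain ⟨b, hb⟩ : ∃ b : Basis _ k A, ∀ i, ρ (e i) = b i :=
    ⟨.mk h2 fun a _ => by
      obtain ⟨x, rfl⟩ := D.surj a
      rw [h1]
      exact Submodule.sum_mem _ fun i _ => Submodule.smul_mem _ _ (Submodule.subset_span ⟨i, rfl⟩),
      fun i => (Basis.mk_apply h2 _ i).symm⟩
  refine ⟨_, e, b, fun x i => ?_⟩
  rw [h1]
  simp only [hb]
  exact congrFun (b.repr_sum_self _) i

theorem g2_k {d : ℕ} (e : Basis (Fin d) k⟦X⟧ E) : G2c e (Algebra.TensorProduct.basis (KK k) e)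
    (algebraMap _ _) (Algebra.TensorProduct.includeRight (R := k⟦X⟧)).toRingHom := fun x i => by
  simp

theorem Df.fd (D : Df k ρ) : FiniteDimensional (KK k) (KK k ⊗[k⟦X⟧] E) := by
  have := D.fin
  infer_instance

theorem Df.finrank (D : Df k ρ) : finrank (KK k) (KK k ⊗[k⟦X⟧] E) = finrank k A := by
  obtain ⟨d, e, b, -⟩ := g2_bas D
  rw [finrank_eq_card_basis b, finrank_eq_card_basis (Algebra.TensorProduct.basis (KK k) e)]

theorem Df.frob (D : Df k ρ) (F : Frob k A) : Frob (KK k) (KK k ⊗[k⟦X⟧] E) := by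
  obtain ⟨d, e, b, h⟩ := g2_bas D
  obtain ⟨φ, hφ⟩ := F
  refine ⟨_, (g2_nd _ _).2 (((g2_k e).gram fun i => PowerSeries.C (φ (b i))).trans_ne
    ((map_ne_zero_iff _ g2_inj).2 fun z => (g2_nd b φ).1 hφ ?_))⟩
  have := h.gram fun i => PowerSeries.C (φ (b i))
  rw [z, map_zero] at this
  simpa only [PowerSeries.constantCoeff_C, b.constr_self] using this

theorem Df.gn (D : Df k ρ) {x : Fin n → E} (g : Gn k fun i => ρ (x i)) :
    Gn (KK k) fun i => (1 : KK k) ⊗ₜ[k⟦X⟧] x i := by
  have := D.fin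
  have h1 : ∀ a, ∃ s ∈ Algebra.adjoin k⟦X⟧ (Set.range x), ρ s = a := fun a => by
    induction (g.ge trivial : a ∈ _) using Algebra.adjoin_induction with
    | mem a ha => obtain ⟨i, rfl⟩ := ha; exact ⟨_, Algebra.subset_adjoin ⟨i, rfl⟩, rfl⟩
    | algebraMap c => exact ⟨PowerSeries.C c • 1, Subalgebra.smul_mem _ (one_mem _) _, by
        simp [D.smul, Algebra.algebraMap_eq_smul_one]⟩
    | add _ _ _ _ a b =>
      obtain ⟨p, p1, rfl⟩ := a; obtain ⟨q, q1, rfl⟩ := b; exact ⟨_, add_mem p1 q1, map_add ..⟩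
    | mul _ _ _ _ a b =>
      obtain ⟨p, p1, rfl⟩ := a; obtain ⟨q, q1, rfl⟩ := b; exact ⟨_, mul_mem p1 q1, map_mul ..⟩
  have h2 : ⊤ ≤ Subalgebra.toSubmodule (Algebra.adjoin k⟦X⟧ (Set.range x)) :=
    Submodule.le_of_le_smul_of_le_jacobson_bot Module.Finite.fg_top
      (IsLocalRing.maximalIdeal_le_jacobson ⊥) fun y _ => by
        obtain ⟨s, s1, s2⟩ := h1 (ρ y)
        obtain ⟨z, hz⟩ := D.ker (y - s) (by rw [map_sub, s2, sub_self])
        rw [← add_sub_cancel s y, hz]
        exact Submodule.add_mem_sup s1 (Submodule.smul_mem_smul (by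
          simp [PowerSeries.isUnit_iff_constantCoeff]) trivial)
  refine top_unique fun z hz => ?_
  clear hz
  induction z with
  | zero => exact zero_mem _
  | add a b ha hb => exact add_mem ha hb
  | tmul a y =>
    rw [← mul_one a, ← smul_eq_mul, ← TensorProduct.smul_tmul']
    refine Subalgebra.smul_mem _ ?_ _
    induction (h2 trivial : y ∈ Algebra.adjoin _ _) using Algebra.adjoin_induction with
    | mem a ha => obtain ⟨i, rfl⟩ := ha; exact Algebra.subset_adjoin ⟨i, rfl⟩
    | algebraMap c =>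
      rw [← Algebra.TensorProduct.algebraMap_apply',
        IsScalarTower.algebraMap_apply k⟦X⟧ (KK k)]
      exact Subalgebra.algebraMap_mem _ _
    | add _ _ _ _ a b => rw [TensorProduct.tmul_add]; exact add_mem a b
    | mul _ _ _ _ a b => simpa using mul_mem a b

theorem Df.sm (D : Df k ρ) (s : SmA (KK k) (KK k ⊗[k⟦X⟧] E)) : SmA k A := by
  obtain ⟨d, e, b, h⟩ := g2_bas D
  intro n a f hf hz
  choose x hx using fun i => D.surj (a i)
  let L : (Fin n × Fin d × Fin d → k) →ₗ[k] Fin n → End k A := .pi fun i =>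
    (toLin b b).toLinearMap ∘ₗ (Matrix.ofLinearEquiv k).toLinearMap ∘ₗ .pi fun j => .pi fun l =>
      .proj (i, j, l)
  obtain ⟨G, hG⟩ := g2_pol ((MP_02ae3d_ag.IsP.id.lin L).mem hf)
  have h1 : ∀ T, f T = MvPolynomial.eval (fun s => toMatrix b b (T s.1) s.2.1 s.2.2) G :=
    fun T => (hG _).symm ▸ congrArg f (funext fun i => (toLin_toMatrix b b (T i)).symm)
  let e' := Algebra.TensorProduct.basis (KK k) e
  have h2 := s n (fun i => 1 ⊗ₜ x i) _ (g2_ev ((algebraMap k⟦X⟧ (KK k)).comp PowerSeries.C)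
    (fun s => entryLinearMap _ _ s.2.1 s.2.2 ∘ₗ (toMatrix e' e').toLinearMap ∘ₗ .proj s.1) G)
    fun T hT => by
      obtain ⟨P, D, p, q⟩ := (g2_dg e' T).1 hT
      refine Eq.trans ?_ (g2_gen G (fun P D p => ?_)
        ((algebraMap k⟦X⟧ (KK k)).comp PowerSeries.C) P D p)
      · simp only [← q]
        rfl
      · have := hz (fun i => toLin b b (P * diagonal (D i) * P.adjugate))
          ((g2_dg b _).2 ⟨P, D, p, fun i => toMatrix_toLin ..⟩)
        simpa only [h1, toMatrix_toLin] using this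
  have h3 : MvPolynomial.eval₂ PowerSeries.C
      (fun s => Algebra.leftMulMatrix e (x s.1) s.2.1 s.2.2) G = 0 := g2_inj <| by
    rw [MvPolynomial.hom_eval₂, map_zero, ← h2]
    congr 1
    ext s
    exact (congrFun (congrFun ((g2_k e).mat (x s.1)) _) _).symm
  have h4 := congrArg PowerSeries.constantCoeff h3
  rw [MvPolynomial.hom_eval₂, map_zero, PowerSeries.constantCoeff_comp_C] at h4
  rw [h1, ← h4]
  refine congrArg (MvPolynomial.eval₂ _ · G) (funext fun s => ?_)
  rw [← hx]
  exact congrFun (congrFun (h.mat (x s.1)) _) _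

theorem g2_li {κ σ : Type} [Fintype κ] {u : κ → σ → k⟦X⟧}
    (h : LinearIndependent k fun s i => PowerSeries.constantCoeff (u s i)) :
    LinearIndependent k⟦X⟧ u := by
  rw [Fintype.linearIndependent_iff] at h ⊢
  have h0 : ∀ g : κ → k⟦X⟧, ∑ s, g s • u s = 0 → ∀ s, PowerSeries.constantCoeff (g s) = 0 :=
    fun g hg => h _ (funext fun i => by
      simpa using congrArg PowerSeries.constantCoeff (congrFun hg i))
  have : ∀ (m : ℕ) (g : κ → k⟦X⟧), ∑ s, g s • u s = 0 → ∀ s, PowerSeries.coeff m (g s) = 0 := by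
    intro m
    induction m with
    | zero => simpa using h0
    | succ m ih =>
      intro g hg s
      choose w hw using fun s => PowerSeries.X_dvd_iff.2 (h0 g hg s)
      rw [hw, PowerSeries.coeff_succ_X_mul]
      refine ih w ((smul_eq_zero_iff_right (PowerSeries.X_ne_zero (R := k))).1 ?_) s
      simpa only [hw, mul_smul, Finset.smul_sum] using hg
  exact fun g hg s => PowerSeries.ext fun m => this m g hg s

theorem G2c.li {R F E A ι κ : Type} [CommRing R] [CommRing F] [CommRing E] [CommRing A]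
    [Algebra R E] [Algebra F A] {d : ℕ} {e : Basis (Fin d) R E} {b : Basis (Fin d) F A}
    {c : R →+* F} {σ : E →+* A} (h : G2c e b c σ) (u : κ → ι → E) :
    (LinearIndependent F fun s i => σ (u s i)) ↔
      LinearIndependent F fun s (i : ι × Fin d) => c (e.repr (u s i.1) i.2) := by
  simp only [← h _]
  exact (((LinearEquiv.piCongrRight fun _ : ι => b.equivFun).trans
    (LinearEquiv.curry F F ι (Fin d)).symm).toLinearMap.linearIndependent_iff
      (LinearEquiv.ker _)).symm

theorem g2_le {ι κ : Type} [Fintype ι] [DecidableEq ι] [Fintype κ] (N : Matrix ι ι A)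
    {v : κ → ι → A} (h : LinearIndependent k v) (e : ∀ s, ∃ c, N *ᵥ c = v s) :
    Fintype.card κ ≤ rk k N := by
  rw [← finrank_span_eq_card h]
  exact Submodule.finrank_mono (Submodule.span_le.2 (by rintro _ ⟨s, rfl⟩; exact e s))

theorem g2_opt {ι : Type} [Fintype ι] [DecidableEq ι] (N : Matrix ι ι A) {g : ι → A}
    (h : ∀ c, N *ᵥ c ≠ g) : ∃ y : Fin (rk k N) → ι → A,
      LinearIndependent k fun s : Option _ => s.elim g fun j => N *ᵥ y j := by
  let W := range (N.toLin'.restrictScalars k)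
  let w := finBasis k W
  choose y hy using fun j => (w j).2
  refine ⟨y, linearIndependent_option.2 ⟨?_, fun m => ?_⟩⟩
  · exact (funext hy).symm ▸ w.linearIndependent.map' W.subtype (Submodule.ker_subtype _)
  · obtain ⟨c, hc⟩ : _ ∈ W := Submodule.span_le.2 (by rintro _ ⟨j, rfl⟩; exact ⟨y j, rfl⟩) m
    exact h c hc

theorem Df.rk (D : Df k ρ) {ι : Type} [Fintype ι] [DecidableEq ι] (N : Matrix ι ι E) (c g : ι → E)
    (h : N *ᵥ c = (PowerSeries.X : k⟦X⟧) • g) (hg : ∀ c', N.map ρ *ᵥ c' ≠ fun i => ρ (g i)) :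
    rk k (N.map ρ) < rk (KK k) (N.map fun a => (1 : KK k) ⊗ₜ[k⟦X⟧] a) := by
  obtain ⟨d, e, b, hb⟩ := g2_bas D
  have := D.fd
  have := kk_char (k := k)
  obtain ⟨y, hy⟩ := g2_opt (k := k) _ hg
  choose z hz using fun j i => D.surj (y j i)
  let u : Option (Fin (Gs.rk k (N.map ρ))) → ι → E := fun s => s.elim g fun j => N *ᵥ z j
  have h1 : (fun s i => ρ (u s i)) = fun s : Option _ =>
      s.elim (fun i => ρ (g i)) fun j => N.map ρ *ᵥ y j := by
    ext (_ | j) i
    · rfl
    · exact (RingHom.map_mulVec ρ N (z j) i).trans (by rw [show ρ ∘ z j = y j from funext (hz j)]; rfl)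
  have := (faithfulSMul_iff_algebraMap_injective k⟦X⟧ (KK k)).2 g2_inj
  have h2 := ((g2_k e).li u).2
    (linearIndependent_algebraMap_comp_iff.2 (g2_li ((hb.li u).1 (h1 ▸ hy))))
  have h3 : ∀ z, (N.map fun a => (1 : KK k) ⊗ₜ[k⟦X⟧] a) *ᵥ (fun i => 1 ⊗ₜ z i) =
      fun i => 1 ⊗ₜ (N *ᵥ z) i := fun z => funext fun i =>
    (RingHom.map_mulVec (Algebra.TensorProduct.includeRight (A := KK k)).toRingHom N z i).symm
  have h5 := g2_le (N.map fun a => (1 : KK k) ⊗ₜ[k⟦X⟧] a) h2 (by
    rintro (_ | j)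
    · refine ⟨(algebraMap k⟦X⟧ (KK k) PowerSeries.X)⁻¹ • fun i => 1 ⊗ₜ c i, ?_⟩
      rw [mulVec_smul, h3, h, inv_smul_eq_iff₀
        ((map_ne_zero_iff _ g2_inj).2 PowerSeries.X_ne_zero)]
      ext i
      rw [Pi.smul_apply, Pi.smul_apply, TensorProduct.tmul_smul, algebraMap_smul]
      rfl
    · exact ⟨_, h3 _⟩)
  rwa [Fintype.card_option, Fintype.card_fin] at h5

theorem Df.inj [Nontrivial A] (D : Df k ρ) : Function.Injective (algebraMap k⟦X⟧ E) := by
  have := D.free
  have := ρ.domain_nontrivial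
  exact FaithfulSMul.algebraMap_injective _ _

theorem Df.nil [Nontrivial A] (D : Df k ρ) {x : E} (hx : IsNilpotent (ρ x)) {p : KK k}
    (hp : IsNilpotent ((1 : KK k) ⊗ₜ[k⟦X⟧] x - algebraMap (KK k) _ p)) :
    ∃ r : k⟦X⟧, PowerSeries.constantCoeff r = 0 ∧ algebraMap k⟦X⟧ (KK k) r = p ∧
      IsNilpotent (x - algebraMap k⟦X⟧ E r) := by
  obtain ⟨d, e, b, h⟩ := g2_bas D
  have h1 := (Algebra.isNilpotent_trace_of_isNilpotent (R := KK k) hp).eq_zero
  have h2 := (Algebra.isNilpotent_trace_of_isNilpotent (R := k) hx).eq_zero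
  rw [map_sub, Algebra.trace_algebraMap_of_basis (Algebra.TensorProduct.basis (KK k) e),
    sub_eq_zero, Fintype.card_fin] at h1
  have hd : (d : k) ≠ 0 := by
    rw [Nat.cast_ne_zero, ← Fintype.card_fin d, ← finrank_eq_card_basis b]
    exact finrank_pos.ne'
  have h3 : algebraMap k⟦X⟧ (KK k) (PowerSeries.C (d : k)⁻¹ * Algebra.trace _ E x) = p := by
    rw [map_mul, ← (g2_k e).tr x]
    refine (congrArg _ h1).trans ?_
    rw [nsmul_eq_mul, ← mul_assoc, ← map_natCast (algebraMap k⟦X⟧ (KK k)),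
      ← map_natCast (PowerSeries.C (R := k)), ← map_mul, ← map_mul, inv_mul_cancel₀ hd]
    simp
  refine ⟨_, by rw [map_mul, ← h.tr, h2, mul_zero], h3, ?_⟩
  rw [← h3, ← IsScalarTower.algebraMap_apply, Algebra.TensorProduct.algebraMap_apply',
    ← TensorProduct.tmul_sub] at hp
  refine (IsNilpotent.map_iff (f := (Algebra.TensorProduct.includeRight (R := k⟦X⟧)
    (A := KK k)).toRingHom) fun y z hyz => e.ext_elem fun i => g2_inj ?_).1 hp
  rw [← g2_k e y, ← g2_k e z, hyz]

end Pool.Agent.Lib.MP_2cea55_ag.Gs
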