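import Pool.Agent.Lib.MP_2cea55_ag.G1K

set_option autoImplicit false
set_option linter.unusedSectionVars false

namespace Pool.Agent.Lib.MP_2cea55_ag.Gs
open Module LinearMap Matrix
open Pool.Agent.Lib.MP_02ae3d_ag (IsP cl Pol phi)
open scoped PowerSeries TensorProduct

open PowerSeries (X C constantCoeff)

section
variable {S : Type} [CommRing S] {t q : S} {M M' Q : Type} [AddCommGroup M] [Module S M]
  [AddCommGroup M'] [Module S M'] [AddCommGroup Q] [Module S Q]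

theorem cpl_ps : Cpl (X : S⟦X⟧) S⟦X⟧ := by
  intro g
  refine ⟨PowerSeries.mk fun m => ∑ n ∈ Finset.range (m + 1), PowerSeries.coeff m (X ^ n * g n),
    fun N => ?_⟩
  obtain ⟨r, hr⟩ : (X : S⟦X⟧) ^ N ∣ (PowerSeries.mk fun m => ∑ n ∈ Finset.range (m + 1),
      PowerSeries.coeff m (X ^ n * g n)) - ∑ n ∈ Finset.range N, X ^ n * g n := by
    rw [PowerSeries.X_pow_dvd_iff]
    intro m hm
    rw [map_sub, PowerSeries.coeff_mk, map_sum, sub_eq_zero]
    refine Finset.sum_subset (Finset.range_subset_range.mpr hm) fun n _ hn => ?_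
    rw [PowerSeries.coeff_X_pow_mul', if_neg]
    simpa [Nat.lt_succ_iff] using hn
  exact ⟨r, by simp only [smul_eq_mul]; rw [← hr]; ring⟩

theorem sep_ps : Sep (X : S⟦X⟧) S⟦X⟧ := by
  intro g h
  ext m
  obtain ⟨r, hr⟩ := h (m + 1)
  exact PowerSeries.X_pow_dvd_iff.mp ⟨r, hr⟩ m (Nat.lt_succ_self m)

theorem Cpl.pi (ι : Type) (h : Cpl t M) : Cpl t (ι → M) := by
  intro g
  choose G hG using fun i => h fun n => g n i
  choose r hr using hG
  exact ⟨G, fun N => ⟨fun i => r i N, funext fun i => by simpa [Finset.sum_apply] using hr i N⟩⟩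

theorem Sep.pi (ι : Type) (h : Sep t M) : Sep t (ι → M) := fun _ hg =>
  funext fun i => h _ fun N => (hg N).imp' (fun r => r i) fun _ hr => congrFun hr i

theorem Cpl.prod (h : Cpl t M) (h' : Cpl t M') : Cpl t (M × M') := by
  intro g
  obtain ⟨G, hG⟩ := h fun n => (g n).1
  obtain ⟨G', hG'⟩ := h' fun n => (g n).2
  refine ⟨(G, G'), fun N => ?_⟩
  obtain ⟨r, hr⟩ := hG N
  obtain ⟨r', hr'⟩ := hG' N
  exact ⟨(r, r'), Prod.ext (by simpa [Prod.fst_sum] using hr) (by simpa [Prod.snd_sum] using hr')⟩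

theorem Sep.prod (h : Sep t M) (h' : Sep t M') : Sep t (M × M') := fun _ hg =>
  Prod.ext (h _ fun N => (hg N).imp' (fun r => r.1) fun _ hr => congrArg Prod.fst hr)
    (h' _ fun N => (hg N).imp' (fun r => r.2) fun _ hr => congrArg Prod.snd hr)

/-- successive approximation -/
theorem approx (c : Cpl t M) (s : Sep t Q) (f : M →ₗ[S] Q) (Z : Set Q)
    (h : ∀ z ∈ Z, ∃ a, ∃ z' ∈ Z, z = f a + t • z') {z : Q} (hz : z ∈ Z) : ∃ a, z = f a := by
  choose! a w hw he using h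
  have h1 : ∀ N, w^[N] z ∈ Z := fun N => by
    induction N with
    | zero => exact hz
    | succ N ih => rw [Function.iterate_succ_apply']; exact hw _ ih
  have h2 : ∀ N, z = f (∑ n ∈ Finset.range N, t ^ n • a (w^[n] z)) + t ^ N • w^[N] z := fun N => by
    induction N with
    | zero => simp
    | succ N ih =>
      rw [Finset.sum_range_succ, map_add, map_smul, Function.iterate_succ_apply', pow_succ, mul_smul,
        add_assoc, ← smul_add, ← he _ (h1 N)]
      exact ih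
  obtain ⟨G, hG⟩ := c fun n => a (w^[n] z)
  refine ⟨G, sub_eq_zero.mp (s _ fun N => ?_)⟩
  obtain ⟨r, hr⟩ := hG N
  refine ⟨w^[N] z - f r, ?_⟩
  rw [hr, map_add, map_smul, smul_sub]
  nth_rewrite 1 [h2 N]
  abel

/-- intersections of two isotropic submodules deform -/
theorem lift (ht : ∀ g, t * g = 0 → g = 0) (h2 : IsUnit (2 : S))
    (hq : ∀ g h, q * g = t * h → ∃ g', h = q * g') (c : Cpl t M) (c' : Cpl t M') (s : Sep t Q)
    (Θ : M →ₗ[S] Q) (Λ : M' →ₗ[S] Q) (J : Q →ₗ[S] Q →ₗ[S] S) (sy : ∀ o r, J o r = J r o)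
    (i1 : ∀ a b, ∃ g, J (Θ a) (Θ b) = q * g) (i2 : ∀ a b, J (Λ a) (Λ b) = 0)
    {a0 : M} {b0 : M'} {o0 : Q} (h0 : Θ a0 = Λ b0 + t • o0)
    (E : ∀ o c g, J (Λ b0) o = c * q + t * g → ∃ a b o', o = Θ a + Λ b + t • o') :
    ∃ a b r, Θ a = Λ b ∧ b = b0 + t • r ∧
      ∀ g c o, t * g = c * q + J (Λ b) o → ∃ c' o', g = c' * q + J (Λ b) o' := by
  have hp : ∀ (N : ℕ) g h, q * g = t ^ N * h → ∃ g', h = q * g' := fun N => by
    induction N with
    | zero => exact fun g h e => ⟨g, by simpa using e.symm⟩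
    | succ N ih =>
      intro g h e
      obtain ⟨g1, e1⟩ := hq g (t ^ N * h) (by rw [e]; ring)
      exact ih g1 h e1.symm
  obtain ⟨u, hu⟩ := h2.exists_left_inv
  have key : ∀ (N : ℕ) (x : M × M' × Q), Θ x.1 = Λ (b0 + t • x.2.1) + t ^ (N + 1) • x.2.2 →
      ∃ y : M × M' × Q, x.2.2 = Θ y.1 + Λ y.2.1 + t • y.2.2 := by
    rintro N ⟨a, r, o⟩ e
    dsimp only at e ⊢
    obtain ⟨g, hg⟩ := i1 a a
    obtain ⟨g', hg'⟩ := hp (N + 1) g (2 * J (Λ (b0 + t • r)) o + t ^ (N + 1) * J o o) (by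
      rw [← hg, e]
      simp only [map_add (J _), LinearMap.map_add₂, map_smul, LinearMap.smul_apply, smul_eq_mul, i2,
        sy o (Λ _)]
      ring)
    obtain ⟨a', b', o', h'⟩ := E o (u * g') (-J (Λ r) o - u * t ^ N * J o o) (by
      simp only [map_add, map_smul, LinearMap.add_apply, LinearMap.smul_apply, smul_eq_mul] at hg'
      linear_combination u * hg' - (J (Λ b0) o + t * J (Λ r) o) * hu)
    exact ⟨(a', b', o'), h'⟩
  choose! y hy using key
  let z : ℕ → M × M' × Q := fun N => Nat.rec (a0, 0, o0)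
    (fun N x => (x.1 - t ^ (N + 1) • (y N x).1, x.2.1 + t ^ N • (y N x).2.1, (y N x).2.2)) N
  have z1 : ∀ N, z (N + 1) = ((z N).1 - t ^ (N + 1) • (y N (z N)).1,
      (z N).2.1 + t ^ N • (y N (z N)).2.1, (y N (z N)).2.2) := fun N => rfl
  have inv : ∀ N, Θ (z N).1 = Λ (b0 + t • (z N).2.1) + t ^ (N + 1) • (z N).2.2 := fun N => by
    induction N with
    | zero => simpa [z] using h0
    | succ N ih =>
      have := hy N _ ih
      rw [z1]
      dsimp only
      rw [map_sub, ih, this]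
      simp only [map_add, map_smul]
      module
  have za : ∀ N, (z N).1 = a0 - t • ∑ n ∈ Finset.range N, t ^ n • (y n (z n)).1 := fun N => by
    induction N with
    | zero => simp [z]
    | succ N ih => rw [z1, Finset.sum_range_succ]; dsimp only; rw [ih]; module
  have zb : ∀ N, (z N).2.1 = ∑ n ∈ Finset.range N, t ^ n • (y n (z n)).2.1 := fun N => by
    induction N with
    | zero => simp [z]
    | succ N ih => rw [z1, Finset.sum_range_succ]; dsimp only; rw [ih]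
  obtain ⟨G, hG⟩ := c fun n => (y n (z n)).1
  obtain ⟨G', hG'⟩ := c' fun n => (y n (z n)).2.1
  have main : Θ (a0 - t • G) = Λ (b0 + t • G') := by
    refine sub_eq_zero.mp (s _ fun N => ?_)
    obtain ⟨r, hr⟩ := hG N
    obtain ⟨r', hr'⟩ := hG' N
    refine ⟨t • ((z N).2.2 - Θ r - Λ r'), ?_⟩
    have e1 : a0 - t • G = (z N).1 - t ^ (N + 1) • r := by rw [za, hr]; module
    have e2 : b0 + t • G' = b0 + t • (z N).2.1 + t ^ (N + 1) • r' := by rw [zb, hr']; module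
    rw [e1, e2, map_sub, inv, map_add Λ (b0 + t • (z N).2.1), map_smul, map_smul]
    module
  refine ⟨_, _, G', main, rfl, fun g c o e => ?_⟩
  obtain ⟨a1, b1, o', h'⟩ := E o (-c) (g - J (Λ G') o) (by
    simp only [map_add, map_smul, LinearMap.add_apply, LinearMap.smul_apply, smul_eq_mul] at e
    linear_combination -e)
  obtain ⟨g1, hg1⟩ := i1 (a0 - t • G) a1
  rw [main] at hg1
  obtain ⟨g', hg'⟩ := hq (c + g1) (g - J (Λ (b0 + t • G')) o') (by
    rw [h', map_add, map_add, map_smul, i2, hg1, smul_eq_mul] at e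
    linear_combination -e)
  exact ⟨g', o', by linear_combination hg'⟩

end

variable {k : Type} [Field k] {A : Type} [CommRing A] [Algebra k A] [FiniteDimensional k A]
  {S : Type} [CommRing S] [Algebra k S] {n : ℕ}

theorem g3_smul (r : k⟦X⟧) (g : S⟦X⟧) : r • g = algebraMap k⟦X⟧ S⟦X⟧ r * g := Algebra.smul_def r g

theorem g3_X : algebraMap k⟦X⟧ S⟦X⟧ X = X := by
  rw [PowerSeries.algebraMap_apply'', PowerSeries.map_X]

theorem g3_cc (r : k⟦X⟧) :
    constantCoeff (algebraMap k⟦X⟧ S⟦X⟧ r) = algebraMap k S (constantCoeff r) := by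
  rw [PowerSeries.algebraMap_apply'', ← PowerSeries.coeff_zero_eq_constantCoeff_apply,
    PowerSeries.coeff_map, PowerSeries.coeff_zero_eq_constantCoeff_apply]

theorem g3_cpl : Cpl (X : k⟦X⟧) S⟦X⟧ := fun g => by
  simpa only [g3_smul, map_pow, g3_X, smul_eq_mul] using (cpl_ps (S := S)) g

theorem g3_sep : Sep (X : k⟦X⟧) S⟦X⟧ := fun g h =>
  (sep_ps (S := S)) g (by simpa only [g3_smul, map_pow, g3_X, smul_eq_mul] using h)

/-- saturated ideals give flat deformations -/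
theorem quot (π : S →ₐ[k] A) (hπ : Function.Surjective π) {M : Type} [AddCommGroup M]
    [Module S⟦X⟧ M] (c : Cpl (X : S⟦X⟧) M) (Ψ : M →ₗ[S⟦X⟧] S⟦X⟧) (I : Ideal S⟦X⟧)
    (hI : ∀ g, g ∈ I ↔ ∃ o, g = Ψ o) (sat : ∀ g, X * g ∈ I → g ∈ I)
    (hk : ∀ g : S⟦X⟧, π (constantCoeff g) = 0 ↔ ∃ h ∈ I, ∃ g', g = h + X * g') :
    ∃ ρ : S⟦X⟧ ⧸ I →+* A, Df k ρ ∧ ∀ g, ρ (Ideal.Quotient.mk I g) = π (constantCoeff g) := by
  let b := Module.finBasis k A
  choose m hm using fun i => hπ (b i)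
  let L : (Fin (finrank k A) → k⟦X⟧) →ₗ[k⟦X⟧] S⟦X⟧ := Fintype.linearCombination k⟦X⟧ fun i => C (m i)
  have hL : ∀ r, π (constantCoeff (L r)) = ∑ i, constantCoeff (r i) • b i := fun r => by
    simp only [L, Fintype.linearCombination_apply, map_sum, map_mul, g3_cc,
      PowerSeries.constantCoeff_C, hm, AlgHom.commutes, Algebra.smul_def]
  have h0 : ∀ g ∈ I, π (constantCoeff g) = 0 := fun g hg => (hk g).mpr ⟨g, hg, 0, by simp⟩
  have onto : ∀ g, ∃ r, ∃ h ∈ I, g = L r + h := by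
    intro g
    let _ : Module k⟦X⟧ M := Module.compHom M (algebraMap k⟦X⟧ S⟦X⟧)
    have sm : ∀ (r : k⟦X⟧) (o : M), r • o = algebraMap k⟦X⟧ S⟦X⟧ r • o := fun _ _ => rfl
    have c1 : Cpl (X : k⟦X⟧) M := fun g => by simpa only [sm, map_pow, g3_X] using c g
    let Ψ' : M →ₗ[k⟦X⟧] S⟦X⟧ := ⟨Ψ.toAddHom, fun r o => by
      show Ψ (algebraMap k⟦X⟧ S⟦X⟧ r • o) = r • Ψ o
      rw [map_smul, g3_smul, smul_eq_mul]⟩
    obtain ⟨a, ha⟩ := approx ((cpl_ps.pi _).prod c1) g3_sep (L.coprod Ψ') Set.univ (fun z _ => by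
      obtain ⟨h, hh, g', e⟩ := (hk (z - L fun i => C (b.repr (π (constantCoeff z)) i))).mp (by
        rw [map_sub, map_sub, hL]
        simp)
      obtain ⟨o, rfl⟩ := (hI h).mp hh
      refine ⟨(fun i => C (b.repr (π (constantCoeff z)) i), o), g', trivial, ?_⟩
      rw [LinearMap.coprod_apply, g3_smul, g3_X, add_assoc]
      exact (sub_eq_iff_eq_add'.mp e)) (Set.mem_univ g)
    exact ⟨a.1, Ψ a.2, (hI _).mpr ⟨_, rfl⟩, ha⟩
  have div : ∀ r, L r ∈ I → ∃ r', r = (X : k⟦X⟧) • r' ∧ L r' ∈ I := by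
    intro r hr
    have h1 := Fintype.linearIndependent_iff.mp b.linearIndependent _ ((hL r).symm.trans (h0 _ hr))
    choose r' hr' using fun i => PowerSeries.X_dvd_iff.mpr (h1 i)
    have e : r = (X : k⟦X⟧) • r' := funext hr'
    refine ⟨r', e, sat _ ?_⟩
    rwa [e, map_smul, g3_smul, g3_X] at hr
  have inj : ∀ r, L r ∈ I → r = 0 := by
    intro r hr
    refine (sep_ps.pi _) r fun N => ?_
    suffices h : ∃ r', r = (X : k⟦X⟧) ^ N • r' ∧ L r' ∈ I from h.imp fun _ h => h.1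
    induction N with
    | zero => exact ⟨r, by simp, hr⟩
    | succ N ih =>
      obtain ⟨r1, e1, h1⟩ := ih
      obtain ⟨r2, e2, h2⟩ := div r1 h1
      exact ⟨r2, by rw [e1, e2, pow_succ, mul_smul], h2⟩
  let F : (Fin (finrank k A) → k⟦X⟧) →ₗ[k⟦X⟧] S⟦X⟧ ⧸ I :=
    (Ideal.Quotient.mkₐ k⟦X⟧ I).toLinearMap ∘ₗ L
  have hF : Function.Bijective F := by
    refine ⟨(injective_iff_map_eq_zero F).mpr fun r hr =>
      inj r (Ideal.Quotient.eq_zero_iff_mem.mp hr), fun x => ?_⟩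
    obtain ⟨g, rfl⟩ := Ideal.Quotient.mk_surjective x
    obtain ⟨r, h, hh, e⟩ := onto g
    refine ⟨r, Ideal.Quotient.eq.mpr ?_⟩
    rw [e]
    simpa using hh
  let e := LinearEquiv.ofBijective F hF
  refine ⟨Ideal.Quotient.lift I (π.toRingHom.comp constantCoeff) h0,
    ⟨Module.Free.of_equiv e, Module.Finite.equiv e, fun r a => ?_, fun a => ?_, fun a ha => ?_⟩,
    fun g => rfl⟩
  · obtain ⟨g, rfl⟩ := Ideal.Quotient.mk_surjective a
    show π (constantCoeff (r • g)) = constantCoeff r • π (constantCoeff g)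
    rw [g3_smul, map_mul, map_mul, g3_cc, AlgHom.commutes, Algebra.smul_def]
  · obtain ⟨x, rfl⟩ := hπ a
    exact ⟨Ideal.Quotient.mk I (C x), by simp⟩
  · obtain ⟨g, rfl⟩ := Ideal.Quotient.mk_surjective a
    obtain ⟨h, hh, g', rfl⟩ := (hk g).mp ha
    refine ⟨Ideal.Quotient.mk I g', ?_⟩
    show _ = Ideal.Quotient.mk I ((X : k⟦X⟧) • g')
    rw [g3_smul, g3_X, map_add, Ideal.Quotient.eq_zero_iff_mem.mpr hh, zero_add]

/-- moving coordinates -/
noncomputable def yv (p : Fin n → k⟦X⟧) (i : Fin n) : (P n k)⟦X⟧ :=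
  C (MvPolynomial.X i) - algebraMap k⟦X⟧ _ (p i)

theorem g3_div (g : P n k) : ∃ (c : k) (w : Fin n → P n k),
    g = MvPolynomial.C c + ∑ i, MvPolynomial.X i * w i := by
  induction g using MvPolynomial.induction_on with
  | C a => exact ⟨a, 0, by simp⟩
  | add p q hp hq =>
    obtain ⟨c, w, rfl⟩ := hp
    obtain ⟨c', w', rfl⟩ := hq
    exact ⟨c + c', w + w', by simp only [map_add, Pi.add_apply, mul_add, Finset.sum_add_distrib]; ring⟩
  | mul_X p i _ => exact ⟨0, Pi.single i p, by simp [Pi.single_apply, mul_comm]⟩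

theorem g3_yv {p : Fin n → k⟦X⟧} (hp : ∀ i, constantCoeff (p i) = 0) (i : Fin n) :
    constantCoeff (yv p i) = MvPolynomial.X i := by
  rw [yv, map_sub, g3_cc, hp, map_zero, sub_zero, PowerSeries.constantCoeff_C]

theorem ydiv {p : Fin n → k⟦X⟧} (hp : ∀ i, constantCoeff (p i) = 0) (g : (P n k)⟦X⟧) :
    ∃ (r : k⟦X⟧) (w : Fin n → (P n k)⟦X⟧), g = algebraMap k⟦X⟧ _ r + ∑ i, yv p i * w i := by
  obtain ⟨a, ha⟩ := approx (cpl_ps.prod ((g3_cpl (k := k) (S := P n k)).pi (Fin n))) g3_sep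
    ((Algebra.linearMap k⟦X⟧ (P n k)⟦X⟧).coprod
      (∑ i, LinearMap.mulLeft k⟦X⟧ (yv p i) ∘ₗ LinearMap.proj i)) Set.univ (fun z _ => by
      obtain ⟨c, w, e⟩ := g3_div (constantCoeff z)
      obtain ⟨g', hg⟩ := PowerSeries.X_dvd_iff.mpr (show constantCoeff
          (z - (algebraMap k⟦X⟧ _ (C c) + ∑ i, yv p i * C (w i))) = 0 by
        simp only [map_sub, map_add, map_sum, map_mul, g3_cc, g3_yv hp, PowerSeries.constantCoeff_C,
          MvPolynomial.algebraMap_eq, ← e, sub_self])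
      refine ⟨(C c, fun i => C (w i)), g', trivial, ?_⟩
      rw [g3_smul, g3_X, ← hg]
      simp) (Set.mem_univ g)
  exact ⟨a.1, a.2, by simpa using ha⟩

theorem ykos [CharZero k] {p : Fin 3 → k⟦X⟧} (hp : ∀ i, constantCoeff (p i) = 0)
    {g : Fin 3 → (P 3 k)⟦X⟧} (h : ∑ i, yv p i * g i = 0) : ∃ c, g = Cu (yv p) *ᵥ c := by
  refine approx (cpl_ps.pi _) (sep_ps.pi _) (Cu (yv p)).mulVecLin {g | ∑ i, yv p i * g i = 0}
    (fun z hz => ?_) h
  obtain ⟨a, ha, ho⟩ := kos_poly (fun i => constantCoeff (z i)) (by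
    have := congrArg constantCoeff hz
    simpa only [map_sum, map_mul, g3_yv hp, map_zero] using this)
  have hd : ∀ i, a i i = 0 := fun i => by
    have : (2 : P 3 k) * a i i = 0 := by linear_combination ha i i
    exact (mul_eq_zero.mp this).resolve_left two_ne_zero
  have h1 : ∀ i, constantCoeff
      ((z - Cu (yv p) *ᵥ ![C (a 1 2), -C (a 0 2), C (a 0 1)]) i) = 0 := by
    intro i
    rw [Pi.sub_apply, map_sub, ho i, Fin.sum_univ_three]
    fin_cases i <;> simp [Cu, Matrix.mulVec, dotProduct, Fin.sum_univ_three, g3_yv hp, hd,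
      ha 0 1, ha 0 2, ha 1 2] <;> ring
  choose g' hg' using fun i => PowerSeries.X_dvd_iff.mpr (h1 i)
  have e : z = Cu (yv p) *ᵥ ![C (a 1 2), -C (a 0 2), C (a 0 1)] + (X : (P 3 k)⟦X⟧) • g' :=
    sub_eq_iff_eq_add'.mp (funext hg')
  refine ⟨_, g', ?_, e⟩
  apply PowerSeries.X_mul_cancel
  have hz' : ∑ i, yv p i * z i = 0 := hz
  rw [e] at hz'
  simp [Cu, Fin.sum_univ_three] at hz'
  rw [Fin.sum_univ_three]
  linear_combination hz'

end Pool.Agent.Lib.MP_2cea55_ag.Gs
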