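import Pool.Agent.Lib.MP_2cea55_ag.G1
import Pool.Agent.Lib.MP_2cea55_ag.G1K

set_option autoImplicit false
set_option linter.unusedSectionVars false

namespace Pool.Agent.Lib.MP_2cea55_ag.Gs
open Module LinearMap Matrix
open Pool.Agent.Lib.MP_02ae3d_ag (IsP cl Pol phi)
open scoped PowerSeries TensorProduct

variable {k : Type} [Field k] [IsAlgClosed k] [CharZero k]
  {A : Type} [CommRing A] [Algebra k A] [FiniteDimensional k A]
  {S : Type} [CommRing S] [Algebra k S] {n d : ℕ} {b : Basis (Fin d) k A}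

theorem Frob.on (F : Frob k A) :
    ∃ (φ : A →ₗ[k] k) (b : Basis (Fin (finrank k A)) k A), On φ b := by
  obtain ⟨φ, hφ⟩ := F
  have : Invertible (2 : k) := invertibleOfNonzero two_ne_zero
  obtain ⟨v, hv⟩ := LinearMap.BilinForm.exists_orthogonal_basis
    (B := (LinearMap.mul k A).compr₂ φ) ⟨fun x y => by simp [mul_comm]⟩
  have ho : ∀ i j, i ≠ j → φ (v i * v j) = 0 := fun i j h => by
    simpa using LinearMap.isOrthoᵢ_def.1 hv i j h
  have hn : ∀ i, φ (v i * v i) ≠ 0 := fun i h => v.ne_zero i <| hφ _ fun c => by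
    rw [← v.sum_repr c, Finset.mul_sum, map_sum]
    refine Finset.sum_eq_zero fun j _ => ?_
    rw [mul_smul_comm, map_smul]
    by_cases e : i = j
    · subst e; simp [h]
    · simp [ho i j e]
  choose s hs using fun i => IsAlgClosed.exists_eq_mul_self (φ (v i * v i))
  have s0 : ∀ i, s i ≠ 0 := fun i h => hn i (by rw [hs i, h, mul_zero])
  refine ⟨φ, v.unitsSMul fun i => (Units.mk0 (s i) (s0 i))⁻¹, fun i j => ?_⟩
  simp only [Basis.unitsSMul_apply, Units.smul_def, smul_mul_smul_comm, map_smul, smul_eq_mul]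
  split_ifs with e
  · subst e
    rw [hs i]
    have := s0 i
    simp only [Units.val_inv_eq_inv_val, Units.val_mk0]
    field_simp
  · rw [ho i j e, mul_zero]

theorem On.repr {φ : A →ₗ[k] k} (o : On φ b) (a : A) (i : Fin d) : b.repr a i = φ (a * b i) := by
  conv_rhs => rw [← b.sum_repr a, Finset.sum_mul, map_sum]
  simp [o _ i]

theorem On.symm {φ : A →ₗ[k] k} (o : On φ b) (a : A) : (Lm b S a)ᵀ = Lm b S a := by
  ext i j
  simp only [Lm, transpose_apply, map_apply, Algebra.leftMulMatrix_eq_repr_mul, o.repr]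
  rw [mul_right_comm]

theorem On.dot {φ : A →ₗ[k] k} (o : On φ b) (a a' : A) :
    cv b S a ⬝ᵥ cv b S a' = algebraMap k S (φ (a * a')) := by
  conv_rhs => rw [← b.sum_repr a', Finset.mul_sum, map_sum, map_sum]
  refine Finset.sum_congr rfl fun j _ => ?_
  simp only [cv, mul_smul_comm, map_smul, smul_eq_mul, ← o.repr, map_mul]
  rw [mul_comm]

theorem Lm_cv (a a' : A) : Lm b S a *ᵥ cv b S a' = cv b S (a * a') := by
  ext i
  simp only [cv, ← Algebra.leftMulMatrix_mulVec_repr]
  exact (RingHom.map_mulVec (algebraMap k S) _ _ i).symm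

theorem Lm_mul (a a' : A) : Lm b S a * Lm b S a' = Lm b S (a * a') := by
  simp only [Lm, map_mul, Matrix.map_mul]

theorem g4_cv_add (a a' : A) : cv b S (a + a') = cv b S a + cv b S a' := by
  ext i; simp [cv]

theorem g4_cv_smul (c : k) (a : A) : cv b S (c • a) = algebraMap k S c • cv b S a := by
  ext i; simp [cv]

theorem g4_cv_b (j : Fin d) : cv b S (b j) = Pi.single j 1 := by
  ext i
  by_cases e : i = j
  · subst e; simp [cv]
  · simp [cv, e]

theorem g4_Ym (π : S →ₐ[k] A) (x : S) (u : Fin d → S) :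
    Ym b π x *ᵥ u = x • u - Lm b S (π x) *ᵥ u := by
  simp [Ym, sub_mulVec, smul_mulVec]

theorem g4_comm (π : S →ₐ[k] A) (x : S) (a : A) (u : Fin d → S) :
    Lm b S a *ᵥ (Ym b π x *ᵥ u) = Ym b π x *ᵥ (Lm b S a *ᵥ u) := by
  rw [g4_Ym, g4_Ym, mulVec_sub, mulVec_smul, mulVec_mulVec, mulVec_mulVec, Lm_mul, Lm_mul, mul_comm a]

open MvPolynomial in
/-- the polynomial with coefficients in `A` given by coordinates -/
noncomputable def g4e (b : Basis (Fin d) k A) (u : Fin d → P n k) : MvPolynomial (Fin n) A :=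
  ∑ j, map (algebraMap k A) (u j) * C (b j)

open MvPolynomial in
theorem g4e_sub (u w : Fin d → P n k) : g4e b (u - w) = g4e b u - g4e b w := by
  simp [g4e, sub_mul]

open MvPolynomial in
theorem g4e_add (u w : Fin d → P n k) : g4e b (u + w) = g4e b u + g4e b w := by
  simp [g4e, add_mul, Finset.sum_add_distrib]

open MvPolynomial in
theorem g4e_smul (p : P n k) (u : Fin d → P n k) :
    g4e b (p • u) = map (algebraMap k A) p * g4e b u := by
  simp [g4e, Finset.mul_sum, mul_assoc]

open MvPolynomial in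
theorem g4e_cv (a : A) : g4e b (cv b (P n k) a) = C a := by
  conv_rhs => rw [← b.sum_repr a, map_sum]
  simp [g4e, cv, Algebra.smul_def]

open MvPolynomial in
theorem g4e_sum {ι : Type} (s : Finset ι) (u : ι → Fin d → P n k) :
    g4e b (∑ i ∈ s, u i) = ∑ i ∈ s, g4e b (u i) := by
  simp only [g4e, Finset.sum_apply, map_sum, Finset.sum_mul]
  exact Finset.sum_comm

open MvPolynomial in
theorem g4e_Lm (a : A) (u : Fin d → P n k) : g4e b (Lm b (P n k) a *ᵥ u) = C a * g4e b u := by
  have e : u = ∑ j, u j • cv b (P n k) (b j) := by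
    ext1 i
    simp [g4_cv_b, Pi.single_apply]
  conv_lhs => rw [e, mulVec_sum, g4e_sum]
  simp only [mulVec_smul, Lm_cv, g4e_smul, g4e_cv, map_mul]
  rw [g4e, Finset.mul_sum]
  exact Finset.sum_congr rfl fun j _ => by ring

open MvPolynomial in
theorem g4e_inj {u w : Fin d → P n k} (h : g4e b u = g4e b w) : u = w := by
  rw [← sub_eq_zero, ← g4e_sub] at h
  rw [← sub_eq_zero]
  generalize u - w = z at h
  ext j m
  have := congrArg (coeff m) h
  simp only [g4e, coeff_sum, mul_comm _ (C _), coeff_C_mul, coeff_map, coeff_zero] at this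
  refine Fintype.linearIndependent_iff.1 b.linearIndependent (fun j => coeff m (z j)) ?_ j
  simpa only [Algebra.smul_def, mul_comm] using this

open MvPolynomial in
theorem g4e_surj (q : MvPolynomial (Fin n) A) : ∃ u, g4e b u = q := by
  induction q using MvPolynomial.induction_on with
  | C a => exact ⟨_, g4e_cv a⟩
  | add p q hp hq =>
    obtain ⟨u, rfl⟩ := hp
    obtain ⟨w, rfl⟩ := hq
    exact ⟨_, g4e_add u w⟩
  | mul_X p i hp =>
    obtain ⟨u, rfl⟩ := hp
    exact ⟨(X i : P n k) • u, by rw [g4e_smul, map_X, mul_comm]⟩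

open MvPolynomial in
theorem kz_poly (b : Basis (Fin d) k A) {a : Fin n → A} (g : Gn k a) :
    Kz b (MvPolynomial.aeval a : P n k →ₐ[k] A) MvPolynomial.X := by
  refine ⟨g.surj, fun p => ?_, fun o h => ?_⟩
  · induction p using MvPolynomial.induction_on with
    | C c =>
      refine ⟨0, ?_⟩
      rw [aeval_C, Algebra.algebraMap_eq_smul_one c (A := A), g4_cv_smul]
      simp
    | add p q hp hq =>
      obtain ⟨u, hu⟩ := hp
      obtain ⟨w, hw⟩ := hq
      refine ⟨u + w, ?_⟩
      simp only [Pi.add_apply, mulVec_add, Finset.sum_add_distrib, ← hu, ← hw, map_add,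
        g4_cv_add, add_smul]
      abel
    | mul_X p i hp =>
      obtain ⟨u, hu⟩ := hp
      refine ⟨(X i : P n k) • u + Pi.single i (cv b (P n k) (aeval a p)), ?_⟩
      simp only [Pi.add_apply, mulVec_add, Finset.sum_add_distrib, Pi.smul_apply, mulVec_smul,
        ← Finset.smul_sum, ← hu]
      rw [Finset.sum_eq_single i (fun j _ e => by simp [e]) (by simp), Pi.single_eq_same, g4_Ym,
        Lm_cv, map_mul, mul_comm p, mul_smul, mul_comm (aeval a p), smul_sub]
      abel
  · have eY : ∀ i (u : Fin d → P n k), g4e b (Ym b (aeval a : P n k →ₐ[k] A) (X i) *ᵥ u) =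
        (X i - C (a i)) * g4e b u := fun i u => by
      rw [g4_Ym, g4e_sub, g4e_smul, g4e_Lm, map_X, aeval_X, sub_mul]
    let τ : MvPolynomial (Fin n) A →ₐ[A] MvPolynomial (Fin n) A := aeval fun i => X i + C (a i)
    let τ' : MvPolynomial (Fin n) A →ₐ[A] MvPolynomial (Fin n) A := aeval fun i => X i - C (a i)
    have tt : ∀ q, τ' (τ q) = q := fun q => by
      have : τ'.comp τ = AlgHom.id _ _ := by
        ext1 i
        simp [τ, τ']
      exact DFunLike.congr_fun this q
    have h0 : g4e b (0 : Fin d → P n k) = 0 := by simp [g4e]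
    have h1 := congrArg (fun u => τ (g4e b u)) h
    simp only [g4e_sum, eY, h0, map_sum, map_mul, map_zero] at h1
    obtain ⟨c, sk, hc⟩ := kos_poly (fun i => τ (g4e b (o i))) (by simpa [τ] using h1)
    choose G hG using g4e_surj (b := b) (n := n)
    refine ⟨fun i j => G (τ' (c i j)), fun i j => g4e_inj (b := b) ?_, fun i => g4e_inj (b := b) ?_⟩
    · rw [← zero_sub (G _), g4e_sub, hG, hG, h0, sk i j, map_neg, zero_sub]
    · rw [← tt (g4e b (o i)), hc i, g4e_sum, map_sum]
      refine Finset.sum_congr rfl fun j _ => ?_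
      rw [eY, hG, map_mul]
      simp [τ']

theorem Kz.h1a {π : S →ₐ[k] A} {x : Fin n → S} (K : Kz b π x) (g : S) (a : A) :
    ∃ w : Fin n → Fin d → S, g • cv b S a - cv b S (π g * a) = ∑ i, Ym b π (x i) *ᵥ w i := by
  obtain ⟨w, hw⟩ := K.h1 g
  refine ⟨fun i => Lm b S a *ᵥ w i, ?_⟩
  have := congrArg (Lm b S a *ᵥ ·) hw
  simpa only [mulVec_sub, mulVec_smul, Lm_cv, one_mul, mulVec_sum, g4_comm, mul_comm a] using this

theorem Kz.loc {π : S →ₐ[k] A} {x : Fin n → S} (K : Kz b π x) (M : Submonoid S) (S' : Type)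
    [CommRing S'] [Algebra k S'] [Algebra S S'] [IsScalarTower k S S'] [IsLocalization M S']
    (π' : S' →ₐ[k] A) (h : ∀ g, π' (algebraMap S S' g) = π g) :
    Kz b π' fun i => algebraMap S S' (x i) := by
  let F : (Fin d → S) →+ (Fin d → S') :=
    { toFun := fun u j => algebraMap S S' (u j)
      map_zero' := by ext; simp
      map_add' := fun u w => by ext; simp }
  have Fa : ∀ u j, F u j = algebraMap S S' (u j) := fun _ _ => rfl
  have Fs : ∀ (g : S) u, F (g • u) = algebraMap S S' g • F u := fun g u => by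
    ext j; simp [Fa]
  have Fc : ∀ a, F (cv b S a) = cv b S' a := fun a => by
    ext j; simp [Fa, cv, ← IsScalarTower.algebraMap_apply]
  have FY : ∀ g u, F (Ym b π g *ᵥ u) = Ym b π' (algebraMap S S' g) *ᵥ F u := fun g u => by
    rw [g4_Ym, g4_Ym, map_sub, Fs, h]
    congr 1
    ext j
    simp [Fa, Lm, mulVec, dotProduct, ← IsScalarTower.algebraMap_apply]
  refine ⟨fun a => ?_, fun g' => ?_, fun o' ho => ?_⟩
  · obtain ⟨g, rfl⟩ := K.surj a
    exact ⟨_, h g⟩
  · obtain ⟨⟨g, s⟩, e⟩ := IsLocalization.surj M g'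
    obtain ⟨t, ht⟩ := (IsLocalization.map_units S' s).exists_left_inv
    obtain ⟨w, hw⟩ := K.h1 g
    obtain ⟨u, hu⟩ := K.h1a s (π' g')
    have e' : π s * π' g' = π g := by rw [← h, ← h, ← map_mul, mul_comm, e]
    replace hw := congrArg F hw
    replace hu := congrArg F hu
    simp only [map_sub, Fs, Fc, map_sum, FY, e'] at hw hu
    refine ⟨fun i => t • (F (w i) - F (u i)), ?_⟩
    simp only [mulVec_smul, mulVec_sub, ← Finset.smul_sum, Finset.sum_sub_distrib, ← hw, ← hu]
    rw [sub_sub_sub_cancel_right, smul_sub, smul_smul, smul_smul, ht, one_smul, ← e,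
      mul_left_comm, ht, mul_one]
  · obtain ⟨s, hs⟩ := IsLocalization.exist_integer_multiples_of_finite M
      fun p : Fin n × Fin d => o' p.1 p.2
    choose o ho' using hs
    have Fo : ∀ i, F (fun j => o (i, j)) = algebraMap S S' s • o' i := fun i => by
      ext j
      rw [Fa, ho', Algebra.smul_def]
      rfl
    have z : F (∑ i, Ym b π (x i) *ᵥ fun j => o (i, j)) = 0 := by
      simp only [map_sum, FY, Fo, mulVec_smul, ← Finset.smul_sum, ho, smul_zero]
    choose m hm using fun j => (IsLocalization.map_eq_zero_iff M S' _).1 (congrFun z j)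
    obtain ⟨c, sk, hc⟩ := K.h2 (fun i => ((∏ j, m j : M) : S) • fun j => o (i, j)) (by
      simp only [mulVec_smul, ← Finset.smul_sum]
      ext j
      obtain ⟨r, hr⟩ := Finset.dvd_prod_of_mem m (Finset.mem_univ j)
      rw [Pi.smul_apply, smul_eq_mul, hr, Submonoid.coe_mul, mul_right_comm, hm j, zero_mul]
      rfl)
    obtain ⟨t, ht⟩ := (IsLocalization.map_units S' ((∏ j, m j) * s)).exists_left_inv
    refine ⟨fun i j => t • F (c i j), fun i j => by simp only [sk i j, map_neg, smul_neg],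
      fun i => ?_⟩
    have := congrArg F (hc i)
    simp only [Fs, Fo, map_sum, FY] at this
    simp only [mulVec_smul, ← Finset.smul_sum, ← this, smul_smul]
    rw [← map_mul, ← Submonoid.coe_mul, ht, one_smul]

theorem Kz.km [Nontrivial A] {π : S →ₐ[k] A} {x : Fin n → S} (K : Kz b π x) {φ : A →ₗ[k] k}
    (o : On φ b) : ∃ σ s, Km b π x σ s := by
  have pc : ∀ σ : Fin d → S, (∀ j, π (σ j) = b j) → ∀ a, π (σ ⬝ᵥ cv b S a) = a := fun σ h a => by
    conv_rhs => rw [← b.sum_repr a]
    simp [dotProduct, cv, h, Algebra.smul_def, mul_comm]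
  obtain ⟨σ, hσ, one⟩ : ∃ σ : Fin d → S, (∀ j, π (σ j) = b j) ∧ σ ⬝ᵥ cv b S 1 = 1 := by
    choose σ hσ using fun j => K.surj (b j)
    obtain ⟨l, hl⟩ : ∃ l, b.repr 1 l ≠ 0 := by
      by_contra! H
      exact one_ne_zero (b.repr.map_eq_zero_iff.1 (Finsupp.ext H))
    refine ⟨σ + Pi.single l ((1 - σ ⬝ᵥ cv b S 1) * algebraMap k S (b.repr 1 l)⁻¹), fun j => ?_, ?_⟩
    · by_cases e : j = l
      · subst e; simp [hσ, pc σ hσ]
      · simp [e, hσ]
    · rw [add_dotProduct, single_dotProduct, mul_assoc, cv, ← map_mul, inv_mul_cancel₀ hl]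
      simp
  have sy : ∀ g (u w : Fin d → S), (Ym b π g *ᵥ u) ⬝ᵥ w = u ⬝ᵥ Ym b π g *ᵥ w := fun g u w => by
    rw [dotProduct_mulVec, ← vecMul_transpose, Ym, transpose_sub, transpose_smul, transpose_one,
      o.symm]
  choose W hW using fun j => K.h1 (σ j)
  set v := cv b S (1 : A) with hv
  have Qv : ∀ c, (1 - vecMulVec v σ) *ᵥ c = c - (σ ⬝ᵥ c) • v := fun c => by
    rw [sub_mulVec, one_mulVec, vecMulVec_mulVec]
    simp
  have sp : ∑ i, Ym b π (x i) * (-of fun l j => W j i l) = 1 - vecMulVec v σ := by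
    ext l j
    have := congrFun (hW j) l
    simp only [hσ, g4_cv_b, Finset.sum_apply, Pi.sub_apply, Pi.smul_apply, smul_eq_mul] at this
    simp only [Matrix.mul_neg, Finset.sum_neg_distrib, Matrix.neg_apply, Matrix.sum_apply,
      Matrix.sub_apply, vecMulVec_apply]
    rw [← neg_sub, mul_comm, one_apply, ← Pi.single_apply j (1 : S) l, this]
    rfl
  have spl : ∑ i, Ym b π (x i) * ((-of fun l j => W j i l) * (1 - vecMulVec v σ)) =
      1 - vecMulVec v σ := by
    simp only [← Matrix.mul_assoc, ← Finset.sum_mul, sp]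
    refine Matrix.ext_iff_mulVec.2 fun c => ?_
    rw [← mulVec_mulVec, Qv, Qv, dotProduct_sub, dotProduct_smul, one]
    simp
  refine ⟨σ, _, K.surj, o.symm, spl, fun i => ?_, one, fun g => ⟨fun h => ?_, ?_⟩, fun p h => ?_⟩
  · rw [← mulVec_mulVec, ← hv, Qv, one]
    simp
  · obtain ⟨w, hw⟩ := K.h1 g
    refine ⟨w, ?_⟩
    have z : cv b S (0 : A) = 0 := by ext; simp [cv]
    simp only [sy, ← dotProduct_sum, ← hw, h, z, sub_zero, dotProduct_smul, ← hv, one]
    simp
  · rintro ⟨w, rfl⟩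
    rw [map_sum]
    refine Finset.sum_eq_zero fun i _ => ?_
    rw [dotProduct, map_sum]
    refine Finset.sum_eq_zero fun j _ => ?_
    have : (Ym b π (x i) *ᵥ σ) j = x i * σ j - σ ⬝ᵥ cv b S (π (x i) * b j) := by
      rw [← dotProduct_single_one (Ym b π (x i) *ᵥ σ), sy, g4_Ym, ← Lm_cv, g4_cv_b]
      simp
    rw [map_mul, this, map_sub, pc σ hσ, map_mul, hσ, sub_self, zero_mul]
  · simp only [sy, ← dotProduct_sum] at h
    obtain ⟨a, sk, ha⟩ := K.h2 (fun i => p i - ((-of fun l j => W j i l) * (1 - vecMulVec v σ)) *ᵥ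
      ∑ i, Ym b π (x i) *ᵥ p i) (by
        simp only [mulVec_sub, Finset.sum_sub_distrib, mulVec_mulVec _ (Ym b π _), ← sum_mulVec, spl]
        rw [Qv, h]
        simp)
    exact ⟨_, a, sk, fun i => by rw [← ha i, add_sub_cancel]⟩

end Pool.Agent.Lib.MP_2cea55_ag.Gs
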