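import Pool.Agent.Lib.MP_2cea55_ag.G3
import Pool.Agent.Lib.MP_2cea55_ag.G4

set_option autoImplicit false
set_option linter.unusedSectionVars false

namespace Pool.Agent.Lib.MP_2cea55_ag.Gs
open Module LinearMap Matrix
open Pool.Agent.Lib.MP_02ae3d_ag (IsP cl Pol phi)
open scoped PowerSeries TensorProduct

open PowerSeries (X C constantCoeff)

section
variable {R : Type} [CommRing R] {n d : ℕ}

/-- the hyperbolic form as a bilinear map -/
def Jl (n d : ℕ) (R : Type) [CommRing R] : Qm n d R →ₗ[R] Qm n d R →ₗ[R] R :=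
  LinearMap.mk₂ R Jm
    (fun _ _ _ => by simp [Jm, Finset.sum_add_distrib]; ring)
    (fun _ _ _ => by simp [Jm, Finset.mul_sum, mul_add])
    (fun _ _ _ => by simp [Jm, Finset.sum_add_distrib]; ring)
    (fun _ _ _ => by simp [Jm, Finset.mul_sum, mul_add])

theorem Jm_comm (o r : Qm n d R) : Jm o r = Jm r o :=
  Finset.sum_congr rfl fun i _ => by rw [add_comm, dotProduct_comm, dotProduct_comm (o.1 i)]

theorem df_abs {t q : R} (ht : ∀ g, t * g = 0 → g = 0) (h2 : IsUnit (2 : R)) (cp : Cpl t R)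
    (sp : Sep t R) {Y s : Fin n → Matrix (Fin d) (Fin d) R} {σ v : Fin d → R}
    (sy : ∀ i, (Y i)ᵀ = Y i) (spl : ∑ i, Y i * s i = 1 - vecMulVec v σ) (sv : ∀ i, s i *ᵥ v = 0)
    (one : σ ⬝ᵥ v = 1)
    (ex : ∀ (o : Fin n → Fin d → R) g, ∑ i, (Y i *ᵥ σ) ⬝ᵥ o i = t * g →
      ∃ (c : Fin d → R) (a : Fin n → Fin n → Fin d → R) (z : Fin n → Fin d → R),
        (∀ i j, a j i = -a i j) ∧ ∀ i, o i = s i *ᵥ c + ∑ j, Y j *ᵥ a i j + t • z i)
    {M : Type} [AddCommGroup M] [Module R M] (c : Cpl t M) (Θ : M →ₗ[R] Qm n d R)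
    (hq : ∀ g h, q * g = t * h → ∃ g', h = q * g') (iso : ∀ a a', ∃ g, Jm (Θ a) (Θ a') = q * g)
    (t1 : ∀ c : Fin d → R, ∃ a z, Θ a = (0, fun i => Y i *ᵥ c) + t • z)
    (t2 : ∀ a : Fin n → Fin n → Fin d → R, (∀ i j, a j i = -a i j) → ∃ p z,
      (Θ p).1 = (fun i => ∑ j, Y j *ᵥ a i j) + t • z)
    (t3 : ∃ p z, ∑ i, Y i *ᵥ (Θ p).1 i = q • v + t • z) :
    ∃ f : Qm n d R, (∃ a, Θ a = f) ∧
      (∀ u : Fin n → Fin d → R, ∑ i, (s i)ᵀ *ᵥ u i = 0 → Jm f (0, u) = 0) ∧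
      (∃ z, f = (0, fun i => Y i *ᵥ σ) + t • z) ∧
      ∀ g c o, t * g = c * q + Jm f o → ∃ c' o', g = c' * q + Jm f o' := by
  have dm : ∀ (A : Matrix (Fin d) (Fin d) R) a b, (A *ᵥ a) ⬝ᵥ b = a ⬝ᵥ (Aᵀ *ᵥ b) := fun A a b => by
    rw [dotProduct_mulVec, vecMul_transpose]
  have st : ∀ w, ∑ i, (s i)ᵀ *ᵥ (Y i *ᵥ w) = w - (v ⬝ᵥ w) • σ := fun w => by
    have := congrArg (fun A => Aᵀ *ᵥ w) spl
    simp only [transpose_sum, transpose_mul, sy, sum_mulVec, ← mulVec_mulVec, transpose_sub,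
      transpose_one, sub_mulVec, one_mulVec, transpose_vecMulVec, vecMulVec_mulVec] at this
    simpa using this
  let Λ : (Fin d → R) × (Fin n → Fin d → R) →ₗ[R] Qm n d R :=
    { toFun := fun a => (fun i => s i *ᵥ a.1, fun i => a.2 i - Y i *ᵥ ∑ j, (s j)ᵀ *ᵥ a.2 j)
      map_add' := fun a b => by
        ext i : 2 <;> simp [mulVec_add, Finset.sum_add_distrib]
        abel
      map_smul' := fun a b => by
        ext i : 2 <;> simp [mulVec_smul, ← Finset.smul_sum, smul_sub] }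
  have key : ∀ (c : Fin d → R) (u : Fin n → Fin d → R),
      ∑ i, (s i *ᵥ c) ⬝ᵥ (u i - Y i *ᵥ ∑ j, (s j)ᵀ *ᵥ u j) = 0 := fun c u => by
    have : v ⬝ᵥ ∑ j, (s j)ᵀ *ᵥ u j = 0 := by simp [dotProduct_sum, ← dm, sv]
    simp only [dm, ← dotProduct_sum, mulVec_sub, Finset.sum_sub_distrib, st, this]
    simp
  have i2 : ∀ a b, Jl n d R (Λ a) (Λ b) = 0 := fun a b => by
    change ∑ i : Fin n, (_ + _) = 0
    rw [Finset.sum_add_distrib]
    exact (congrArg₂ _ (key a.1 b.2) ((Finset.sum_congr rfl fun i _ => dotProduct_comm _ _).trans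
      (key b.1 a.2))).trans (add_zero _)
  have l0 : Λ (0, fun i => Y i *ᵥ σ) = (0, fun i => Y i *ᵥ σ) := by
    ext i : 2 <;> simp [Λ, st, dotProduct_comm v, one, -mulVec_mulVec]
  obtain ⟨a0, o0, h0⟩ := t1 σ
  obtain ⟨p3, z3, h3⟩ := t3
  obtain ⟨a, b, r, e1, e2, e3⟩ := lift ht h2 hq c ((cp.pi _).prod ((cp.pi _).pi _))
    (((sp.pi _).pi _).prod ((sp.pi _).pi _)) Θ Λ (Jl n d R) Jm_comm iso i2 (l0.symm ▸ h0)
    fun o c g h => by
      rw [l0] at h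
      obtain ⟨c1, a1, z1, sk, e⟩ := ex (o.1 - c • (Θ p3).1) (g - c * σ ⬝ᵥ z3) (by
        have h' : ∑ i, (Y i *ᵥ σ) ⬝ᵥ o.1 i = c * q + t * g := by simpa [Jl, Jm] using h
        have : ∑ i, (Y i *ᵥ σ) ⬝ᵥ (Θ p3).1 i = q + t * σ ⬝ᵥ z3 := by
          simp only [dm, sy, ← dotProduct_sum, h3]
          simp [one]
        simp only [Pi.sub_apply, Pi.smul_apply, dotProduct_sub, dotProduct_smul, smul_eq_mul,
          Finset.sum_sub_distrib, ← Finset.mul_sum, h', this]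
        ring)
      obtain ⟨p2, z2, h2⟩ := t2 a1 sk
      obtain ⟨u, hu⟩ : ∃ u, u = o.2 - c • (Θ p3).2 - (Θ p2).2 := ⟨_, rfl⟩
      obtain ⟨p1, z0, h1⟩ := t1 (∑ j, (s j)ᵀ *ᵥ u j)
      refine ⟨c • p3 + p2 + p1, (c1, u), (z1 - z2, 0) - z0, ?_⟩
      rw [map_add, map_add, map_smul, h1]
      ext i : 2
      · have := e i
        simp only [Pi.sub_apply, Pi.smul_apply, sub_eq_iff_eq_add] at this
        simp [Λ, h2, this, smul_sub]
        abel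
      · simp [Λ, hu]
        abel
  refine ⟨Λ b, ⟨a, e1⟩, fun u hu => ?_, ⟨Λ r, by rw [e2, map_add, map_smul, l0]⟩, e3⟩
  convert i2 b (0, u) using 1
  change _ = Jm _ _
  congr 1
  ext i : 2 <;> simp [Λ, hu]

end

variable {k : Type} [Field k] [IsAlgClosed k] [CharZero k]
  {A : Type} [CommRing A] [Algebra k A] [FiniteDimensional k A]
  {S : Type} [CommRing S] [Algebra k S] {n d : ℕ} {b : Basis (Fin d) k A}
  {π : S →ₐ[k] A} {x : Fin n → S} {σ : Fin d → S} {s : Fin n → Matrix (Fin d) (Fin d) S}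

/-- the deformation theorem -/
theorem Km.df (K : Km b π x σ s) {M : Type} [AddCommGroup M] [Module S⟦X⟧ M]
    (c : Cpl (X : S⟦X⟧) M) (Θ : M →ₗ[S⟦X⟧] Qm n d S⟦X⟧) (q : S⟦X⟧)
    (hq : ∀ g h, q * g = X * h → ∃ g', h = q * g')
    (iso : ∀ a a', ∃ g, Jm (Θ a) (Θ a') = q * g) (q0 : π (constantCoeff q) = 0)
    (t1 : ∀ c : Fin d → S⟦X⟧, ∃ a z,
      Θ a = (0, fun i => (Ym b π (x i)).map C *ᵥ c) + (X : S⟦X⟧) • z)
    (t2 : ∀ a : Fin n → Fin n → Fin d → S⟦X⟧, (∀ i j, a j i = -a i j) → ∃ p z,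
      (Θ p).1 = (fun i => ∑ j, (Ym b π (x j)).map C *ᵥ a i j) + (X : S⟦X⟧) • z)
    (t3 : ∃ p z, ∑ i, (Ym b π (x i)).map C *ᵥ (Θ p).1 i =
      q • cv b S⟦X⟧ 1 + (X : S⟦X⟧) • z) :
    ∃ (I : Ideal S⟦X⟧) (ρ : S⟦X⟧ ⧸ I →+* A) (f : Qm n d S⟦X⟧), Df k ρ ∧
      (∀ g, ρ (Ideal.Quotient.mk I g) = π (constantCoeff g)) ∧
      (∀ g, g ∈ I ↔ ∃ c o, g = c * q + Jm f o) ∧ (∃ a, Θ a = f) ∧
      (∀ u : Fin n → Fin d → S⟦X⟧, ∑ i, ((s i).map C)ᵀ *ᵥ u i = 0 → Jm f (0, u) = 0) ∧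
      ∃ z, f = (0, fun i => (Ym b π (x i)).map C *ᵥ fun j => C (σ j)) + (X : S⟦X⟧) • z := by
  have cc : ∀ {ι : Type} (o : ι → S⟦X⟧), ∃ z, o = (fun i => C (constantCoeff (o i))) +
      (X : S⟦X⟧) • z := fun o => ⟨fun i => PowerSeries.mk fun m => PowerSeries.coeff (m + 1) (o i),
    funext fun i => by
      rw [Pi.add_apply, Pi.smul_apply, smul_eq_mul, add_comm]
      exact PowerSeries.eq_X_mul_shift_add_const _⟩
  have mv : ∀ (Z : Matrix (Fin d) (Fin d) S) (w : Fin d → S),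
      Z.map (C : S →+* S⟦X⟧) *ᵥ (fun j => C (w j)) = fun j => C ((Z *ᵥ w) j) := fun Z w =>
    funext fun j => (RingHom.map_mulVec C Z w j).symm
  have cd : ∀ (w : Fin d → S) (o : Fin d → S⟦X⟧), constantCoeff ((fun j => C (w j)) ⬝ᵥ o) =
      w ⬝ᵥ fun j => constantCoeff (o j) := fun w o => by simp [dotProduct]
  have dc : ∀ w o : Fin d → S, (fun j => (C (w j) : S⟦X⟧)) ⬝ᵥ (fun j => C (o j)) = C (w ⬝ᵥ o) :=
    fun w o => by simp [dotProduct]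
  have cvc : cv b S⟦X⟧ 1 = fun j => C (cv b S 1 j) := by
    ext1 j
    simp [cv, PowerSeries.algebraMap_apply]
  have ht : ∀ g : S⟦X⟧, X * g = 0 → g = 0 := fun g h =>
    PowerSeries.X_mul_injective (h.trans (mul_zero _).symm)
  obtain ⟨f, f1, f2, ⟨z, f3⟩, f4⟩ := df_abs (Y := fun i => (Ym b π (x i)).map C)
    (s := fun i => (s i).map C) (σ := fun j => C (σ j)) (v := cv b S⟦X⟧ 1) ht
    (map_ofNat (algebraMap k S⟦X⟧) 2 ▸ (IsUnit.mk0 (2 : k) two_ne_zero).map _) cpl_ps sep_ps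
    (fun i => by rw [← transpose_map, Ym, transpose_sub, K.symm, transpose_smul, transpose_one])
    (by
      have := congrArg (C : S →+* S⟦X⟧).mapMatrix K.spl
      simp only [map_sum, map_mul, map_sub, map_one, RingHom.mapMatrix_apply] at this
      rw [this]
      congr 1
      ext i j : 1
      simp [vecMulVec_apply, cvc])
    (fun i => by rw [cvc, mv, K.sv]; ext1; simp) (by rw [cvc, dc, K.one, map_one])
    (fun o g h => by
      obtain ⟨c, a, sk, e⟩ := K.ex (fun i j => constantCoeff (o i j)) (by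
        simpa [mv, cd] using congrArg constantCoeff h)
      choose z hz using fun i => cc (o i)
      refine ⟨fun j => C (c j), fun i j l => C (a i j l), z, fun i j => ?_, fun i => ?_⟩
      · ext1 l
        simp [sk i j]
      · rw [hz i]
        congr 1
        ext1 l
        have := congrFun (e i) l
        simp [this, mv, Finset.sum_apply]) c Θ hq iso t1 t2 t3
  let Ψ : S⟦X⟧ × Qm n d S⟦X⟧ →ₗ[S⟦X⟧] S⟦X⟧ := (LinearMap.toSpanSingleton _ _ q).coprod (Jl n d _ f)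
  have hI : ∀ g, g ∈ LinearMap.range Ψ ↔ ∃ c o, g = c * q + Jm f o := fun g =>
    ⟨fun ⟨a, e⟩ => ⟨a.1, a.2, e.symm⟩, fun ⟨c, o, e⟩ => ⟨(c, o), e.symm⟩⟩
  have jf : ∀ o, constantCoeff (Jm f o) =
      ∑ i, (Ym b π (x i) *ᵥ σ) ⬝ᵥ fun j => constantCoeff (o.1 i j) := fun o => by
    change constantCoeff (Jl n d _ f o) = _
    rw [f3, map_add, map_smul]
    simp [Jl, Jm, mv, cd]
  obtain ⟨ρ, D, e⟩ := quot π K.surj (cpl_ps.prod (((cpl_ps.pi _).pi _).prod ((cpl_ps.pi _).pi _)))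
    Ψ (LinearMap.range Ψ) (fun g => exists_congr fun _ => eq_comm)
    (fun g h => by
      obtain ⟨c, o, e⟩ := (hI _).1 h
      exact (hI _).2 (f4 g c o e))
    fun g => ⟨fun h => by
      obtain ⟨w, hw⟩ := (K.ker _).1 h
      obtain ⟨g', hg⟩ := PowerSeries.X_dvd_iff.2 (show constantCoeff
        (g - Jm f (fun i j => C (w i j), 0)) = 0 by simp [jf, hw])
      exact ⟨_, (hI _).2 ⟨0, _, by rw [zero_mul, zero_add]⟩, g', by rw [← hg]; abel⟩, by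
      rintro ⟨h, hh, g', rfl⟩
      obtain ⟨c, o, rfl⟩ := (hI _).1 hh
      simp [q0, jf, (K.ker _).2 ⟨_, rfl⟩]⟩
  exact ⟨_, ρ, f, D, e, hI, f1, f2, z, f3⟩

end Pool.Agent.Lib.MP_2cea55_ag.Gs
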