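import Pool.Agent.Lib.MP_2cea55_ag.G0

set_option autoImplicit false
set_option linter.unusedSectionVars false

namespace Pool.Agent.Lib.MP_2cea55_ag.Gs
open Module LinearMap Matrix
open Pool.Agent.Lib.MP_02ae3d_ag (IsP cl Pol phi)
open scoped PowerSeries TensorProduct

variable {k : Type} [Field k] [CharZero k] {V : Type} [AddCommGroup V] [Module k V]
  [FiniteDimensional k V] {B : LinearMap.BilinForm k V} {T : Fin 3 → End k V}

theorem g5_cm {x y : End k V} (c : Commute x y) (w : V) : x (y w) = y (x w) :=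
  congr($(c.eq) w)

theorem cu_grad (c : ∀ i j, Commute (T i) (T j)) (w : V) : cu T (fun i => T i w) = 0 := by
  funext i
  fin_cases i <;> simp [cu, g5_cm (c 1 2), g5_cm (c 2 0), g5_cm (c 0 1)]

theorem g5_om (p : Fin 3 → k) (u u' : Fin 3 → V) : om B p u u' =
    p 0 * (B (u 1) (u' 2) - B (u 2) (u' 1)) + p 1 * (B (u 2) (u' 0) - B (u 0) (u' 2)) +
      p 2 * (B (u 0) (u' 1) - B (u 1) (u' 0)) := by
  simp [om, cu, Fin.sum_univ_three]
  ring

theorem g5_cu (u : Fin 3 → V) : cu T u = 0 ↔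
    T 1 (u 2) = T 2 (u 1) ∧ T 2 (u 0) = T 0 (u 2) ∧ T 0 (u 1) = T 1 (u 0) := by
  simp [cu, funext_iff, Fin.forall_fin_succ, sub_eq_zero]

theorem om_alt (sy : ∀ u w, B u w = B w u) (p : Fin 3 → k) (u u' : Fin 3 → V) :
    om B p u' u = -om B p u u' := by
  rw [g5_om, g5_om, sy (u' 1) (u 2), sy (u' 2) (u 1), sy (u' 2) (u 0), sy (u' 0) (u 2),
    sy (u' 0) (u 1), sy (u' 1) (u 0)]
  ring

theorem om_grad (a : ∀ i u w, B (T i u) w = B u (T i w)) (p : Fin 3 → k) (w : V) {u : Fin 3 → V}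
    (h : cu T u = 0) : om B p (fun i => T i w) u = 0 := by
  obtain ⟨h0, h1, h2⟩ := (g5_cu u).1 h
  rw [g5_om]
  simp only [a, h0, h1, h2]
  ring

theorem g5_last {z : End k V} (nz : IsNilpotent z) (p : V → Prop) (p0 : p 0) {v : V}
    (hv : ¬ p v) : ∃ m, ¬ p ((z ^ m) v) ∧ p (z ((z ^ m) v)) := by
  obtain ⟨n, hn⟩ := nz
  obtain ⟨m, h1, h2⟩ := Nat.exists_not_and_succ_of_not_zero_of_exists
    (p := fun m => p ((z ^ m) v)) (by simpa using hv) ⟨n, by simpa [hn] using p0⟩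
  exact ⟨m, h1, by simpa [pow_succ'] using h2⟩

/-- triples in the kernel of the curl, independent modulo gradients -/
def g5_Ind (m : ℕ) (x y z : End k V) : Prop := ∃ a b c : Fin m → V,
  (∀ j, y (c j) = z (b j) ∧ z (a j) = x (c j) ∧ x (b j) = y (a j)) ∧
    ∀ (t : Fin m → k) w, ∑ j, t j • a j = x w → ∑ j, t j • b j = y w → ∑ j, t j • c j = z w →
      t = 0

theorem g5_rot {m : ℕ} {x y z : End k V} (h : g5_Ind m x y z) : g5_Ind m y z x := by
  obtain ⟨a, b, c, h1, h2⟩ := h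
  exact ⟨b, c, a, fun j => ⟨(h1 j).2.1, (h1 j).2.2, (h1 j).1⟩, fun t w e1 e2 e3 => h2 t w e3 e1 e2⟩

section
variable {x y z : End k V}

theorem g5_w1 (nx : IsNilpotent x) (ny : IsNilpotent y) (cxy : Commute x y)
    (h : finrank k ↥(range x ⊔ range y) + 2 ≤ finrank k V) : ∃ w, w ≠ 0 ∧ x w = 0 ∧ y w = 0 := by
  have : Nontrivial V := Module.nontrivial_of_finrank_pos (R := k) (by omega)
  obtain ⟨v, hv⟩ := exists_ne (0 : V)
  obtain ⟨m, h1, h2⟩ := g5_last nx (· = 0) rfl hv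
  obtain ⟨m', h3, h4⟩ := g5_last ny (· = 0) rfl h1
  exact ⟨_, h3, by rw [g5_cm (cxy.pow_right m'), h2, map_zero], h4⟩

theorem g5_w0 (nx : IsNilpotent x) (ny : IsNilpotent y) (nz : IsNilpotent z) (cxy : Commute x y)
    (h : finrank k ↥(range x ⊔ range y) + 2 ≤ finrank k V) :
    ∃ w0, x w0 = 0 ∧ y w0 = 0 ∧ ∀ w, x w = 0 → y w = 0 → z w ≠ w0 := by
  by_contra H
  push Not at H
  have I : ∀ n : ℕ, ∀ w0, x w0 = 0 → y w0 = 0 → ∃ w, x w = 0 ∧ y w = 0 ∧ (z ^ n) w = w0 := by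
    intro n
    induction n with
    | zero => exact fun w0 a b => ⟨w0, a, b, rfl⟩
    | succ n ih =>
      intro w0 a b
      obtain ⟨w, a', b', e⟩ := ih w0 a b
      obtain ⟨w', a'', b'', e'⟩ := H w a' b'
      exact ⟨w', a'', b'', by rw [pow_succ, End.mul_apply, e', e]⟩
  obtain ⟨w, h0, h1, h2⟩ := g5_w1 nx ny cxy h
  obtain ⟨n, hn⟩ := nz
  obtain ⟨w', -, -, e⟩ := I n w h1 h2
  exact h0 (by simpa [hn] using e.symm)

theorem g5_v (nx : IsNilpotent x) (ny : IsNilpotent y) (cxy : Commute x y)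
    (h : finrank k ↥(range x ⊔ range y) + 2 ≤ finrank k V) (a b a' b' : V) :
    ∃ v v' : V, x v' = y v ∧ ∀ w (s t : k), v = x w + s • a + t • a' →
      v' ≠ y w + s • b + t • b' := by
  by_contra H
  push Not at H
  let φ : V × V →ₗ[k] V := (-y).coprod x
  let Ψ : V × (k × k) →ₗ[k] V × V := (x.prod y).coprod
    ((toSpanSingleton k _ (a, b)).coprod (toSpanSingleton k _ (a', b')))
  have l1 : ker φ ≤ range Ψ := by
    rintro ⟨v, v'⟩ hv
    obtain ⟨w, s, t, e1, e2⟩ := H v v' (by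
      simpa [φ, neg_add_eq_zero, eq_comm (a := y v)] using hv)
    exact ⟨(w, s, t), by simp [Ψ, e1, e2, add_assoc]⟩
  have l2 : range φ ≤ range x ⊔ range y := by
    rintro _ ⟨⟨v, v'⟩, rfl⟩
    simp only [φ, coprod_apply, LinearMap.neg_apply]
    exact add_mem (neg_mem (Submodule.mem_sup_right ⟨v, rfl⟩)) (Submodule.mem_sup_left ⟨v', rfl⟩)
  obtain ⟨w, h0, h1, h2⟩ := g5_w1 nx ny cxy h
  have l3 : 0 < finrank k (ker Ψ) := by
    rw [Module.finrank_pos_iff_exists_ne_zero]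
    exact ⟨⟨(w, 0), by simp [Ψ, h1, h2]⟩, by simp [h0]⟩
  have e1 := φ.finrank_range_add_finrank_ker
  have e2 := Ψ.finrank_range_add_finrank_ker
  have e3 := Submodule.finrank_mono l1
  have e4 := Submodule.finrank_mono l2
  simp only [finrank_prod, finrank_self] at e1 e2
  omega

theorem g5_lift (ax : ∀ u w, B (x u) w = B u (x w)) (ay : ∀ u w, B (y u) w = B u (y w))
    (az : ∀ u w, B (z u) w = B u (z w)) (nz : IsNilpotent z) (cxz : Commute x z)
    (cyz : Commute y z) {v v' : V} (hv : x v' = y v) (hD : ∀ w, v = x w → v' ≠ y w) :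
    ∃ a b c, (y c = z b ∧ z a = x c ∧ x b = y a) ∧ (∀ w, a = x w → b ≠ y w) ∧
      ∀ a' b' c', y c' = z b' → z a' = x c' → B v b' = B v' a' → B a b' = B b a' := by
  obtain ⟨n, hn⟩ := nz
  obtain ⟨m, h1, c, h2, h3⟩ := Nat.exists_not_and_succ_of_not_zero_of_exists
    (p := fun m => ∃ w, (z ^ m) v = x w ∧ (z ^ m) v' = y w)
    (by rintro ⟨w, e1, e2⟩; exact hD w e1 e2) ⟨n, 0, by simp [hn], by simp [hn]⟩
  have hm : ∀ m, x ((z ^ m) v') = y ((z ^ m) v) := fun m => by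
    rw [g5_cm (cxz.pow_right m), g5_cm (cyz.pow_right m), hv]
  rw [pow_succ', End.mul_apply] at h2 h3
  refine ⟨(z ^ m) v, (z ^ m) v', c, ⟨h3.symm, h2, hm m⟩, fun w e1 e2 => h1 ⟨w, e1, e2⟩, ?_⟩
  intro a' b' c' e1 e2 e3
  cases m with
  | zero => simpa using e3
  | succ m =>
    rw [pow_succ', End.mul_apply, End.mul_apply, az, az, ← e1, e2, ← ay, ← ax, hm]

theorem g5_two (ax : ∀ u w, B (x u) w = B u (x w)) (ay : ∀ u w, B (y u) w = B u (y w))
    (az : ∀ u w, B (z u) w = B u (z w)) (nx : IsNilpotent x) (ny : IsNilpotent y)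
    (nz : IsNilpotent z) (cxy : Commute x y) (cxz : Commute x z) (cyz : Commute y z)
    (h : finrank k ↥(range x ⊔ range y) + 2 ≤ finrank k V) : g5_Ind 2 x y z := by
  obtain ⟨w0, e0, e1, e2⟩ := g5_w0 nx ny nz cxy h
  obtain ⟨v, v', hv, hD⟩ := g5_v nx ny cxy h 0 0 0 0
  obtain ⟨a, b, c, h1, h2, -⟩ := g5_lift ax ay az nz cxz cyz hv
    (fun w e => by simpa using hD w 0 0 (by simpa using e))
  refine ⟨![a, 0], ![b, 0], ![c, w0], fun j => ?_, fun t w f0 f1 f2 => ?_⟩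
  · fin_cases j
    · exact h1
    · simp [e0, e1]
  simp only [Fin.sum_univ_two, cons_val_zero, cons_val_one, smul_zero, add_zero] at f0 f1 f2
  have t0 : t 0 = 0 := by
    by_contra t0
    exact h2 ((t 0)⁻¹ • w) (by rw [map_smul, ← f0, inv_smul_smul₀ t0])
      (by rw [map_smul, ← f1, inv_smul_smul₀ t0])
  simp only [t0, zero_smul, zero_add] at f0 f1 f2
  have t1 : t 1 = 0 := by
    by_contra t1
    exact e2 ((t 1)⁻¹ • w) (by simp [← f0]) (by simp [← f1])
      (by rw [map_smul, ← f2, inv_smul_smul₀ t1])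
  funext j
  fin_cases j <;> simp [t0, t1]

theorem g5_four (sy : ∀ u w, B u w = B w u) (ax : ∀ u w, B (x u) w = B u (x w))
    (ay : ∀ u w, B (y u) w = B u (y w))
    (az : ∀ u w, B (z u) w = B u (z w)) (nx : IsNilpotent x) (ny : IsNilpotent y)
    (nz : IsNilpotent z) (cxy : Commute x y) (cxz : Commute x z) (cyz : Commute y z)
    (h : finrank k ↥(range x ⊔ range y) + 2 ≤ finrank k V) (H : ¬ g5_Ind 4 x y z)
    {a b c a' b' c' : V} (u : y c = z b ∧ z a = x c ∧ x b = y a)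
    (u' : y c' = z b' ∧ z a' = x c' ∧ x b' = y a') : B a b' - B b a' = 0 := by
  by_contra o
  apply H
  obtain ⟨w0, e0, e1, e2⟩ := g5_w0 nx ny nz cxy h
  obtain ⟨v, v', hv, hD⟩ := g5_v nx ny cxy h a b a' b'
  set s := (B v b' - B v' a') / (B a b' - B b a') with hs
  set r := (B v' a - B v b) / (B a b' - B b a') with hr
  obtain ⟨d, e, f, h1, h2, h3⟩ := g5_lift (v := v - s • a - r • a') (v' := v' - s • b - r • b')
    ax ay az nz cxz cyz (by simp [hv, u.2.2, u'.2.2])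
    (fun w p q => hD w s r (by rw [← p]; abel) (by rw [← q]; abel))
  have o1 := h3 a b c u.1 u.2.1 (by
    simp only [map_sub, map_smul, LinearMap.sub_apply, LinearMap.smul_apply, smul_eq_mul]
    rw [sy b a, sy a' b, sy b' a, hr]
    field_simp
    ring)
  have o2 := h3 a' b' c' u'.1 u'.2.1 (by
    simp only [map_sub, map_smul, LinearMap.sub_apply, LinearMap.smul_apply, smul_eq_mul]
    rw [sy b' a', hs]
    field_simp
    ring)
  refine ⟨![a, a', d, 0], ![b, b', e, 0], ![c, c', f, w0], fun j => ?_, fun t w f0 f1 f2 => ?_⟩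
  · fin_cases j
    · exact u
    · exact u'
    · exact h1
    · simp [e0, e1]
  simp only [Fin.sum_univ_four, cons_val_zero, cons_val_one, cons_val, smul_zero,
    add_zero] at f0 f1 f2
  have t0 : t 0 = 0 := by
    have q : B (x w) b' = B (y w) a' := by rw [ax, ay, u'.2.2]
    rw [← f0, ← f1] at q
    simp only [map_add, map_smul, LinearMap.add_apply, LinearMap.smul_apply, smul_eq_mul, o2,
      sy b' a'] at q
    exact (mul_eq_zero.1 (show t 0 * (B a b' - B b a') = 0 by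
      linear_combination q)).resolve_right o
  have t1 : t 1 = 0 := by
    have q : B (x w) b = B (y w) a := by rw [ax, ay, u.2.2]
    rw [← f0, ← f1] at q
    simp only [map_add, map_smul, LinearMap.add_apply, LinearMap.smul_apply, smul_eq_mul, o1,
      sy b a, sy a' b, sy b' a] at q
    exact (mul_eq_zero.1 (show t 1 * (B a b' - B b a') = 0 by
      linear_combination -q)).resolve_right o
  simp only [t0, t1, zero_smul, zero_add] at f0 f1 f2
  have t2 : t 2 = 0 := by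
    by_contra t2
    exact h2 ((t 2)⁻¹ • w) (by rw [map_smul, ← f0, inv_smul_smul₀ t2])
      (by rw [map_smul, ← f1, inv_smul_smul₀ t2])
  simp only [t2, zero_smul, zero_add] at f0 f1 f2
  have t3 : t 3 = 0 := by
    by_contra t3
    exact e2 ((t 3)⁻¹ • w) (by simp [← f0]) (by simp [← f1])
      (by rw [map_smul, ← f2, inv_smul_smul₀ t3])
  funext j
  fin_cases j <;> simp [t0, t1, t2, t3]

end

theorem g5_dual {m : ℕ} (h : g5_Ind m (T 0) (T 1) (T 2)) :
    ∃ (u : Fin m → Fin 3 → V) (l : Fin m → (Fin 3 → V) →ₗ[k] k), (∀ j, cu T (u j) = 0) ∧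
      (∀ i w, l i (fun j => T j w) = 0) ∧ ∀ i j, l i (u j) = if i = j then 1 else 0 := by
  obtain ⟨a, b, c, h1, h2⟩ := h
  let u : Fin m → Fin 3 → V := fun j => ![a j, b j, c j]
  let D : Submodule k (Fin 3 → V) := range (LinearMap.pi T)
  obtain ⟨g, hg⟩ := (D.mkQ ∘ₗ Fintype.linearCombination k u).exists_leftInverse_of_injective (by
    rw [ker_eq_bot']
    intro t ht
    obtain ⟨w, hw⟩ := (Submodule.Quotient.mk_eq_zero D).1 ht
    have e := fun i => congrFun hw i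
    simp only [pi_apply, Fintype.linearCombination_apply, Finset.sum_apply, Pi.smul_apply] at e
    exact h2 t w (e 0).symm (e 1).symm (e 2).symm)
  refine ⟨u, fun i => proj i ∘ₗ g ∘ₗ D.mkQ, fun j => (g5_cu _).2 (h1 j), fun i w => ?_,
    fun i j => ?_⟩
  · have : D.mkQ (fun j => T j w) = 0 := (Submodule.Quotient.mk_eq_zero D).2 ⟨w, rfl⟩
    show g (D.mkQ fun j => T j w) i = 0
    rw [this, map_zero, Pi.zero_apply]
  · have := congr($hg (Pi.single j 1) i)
    simpa [Pi.single_apply] using this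

/-- the exterior product of two linear forms -/
noncomputable def g5_wg {W : Type} [AddCommGroup W] [Module k W] (l l' : W →ₗ[k] k) :
    LinearMap.BilinForm k W := BilinForm.linMulLin l l' - BilinForm.linMulLin l' l

/-- an alternating form on the second Koszul homology that is not a contraction -/
theorem k3 (sy : ∀ u w, B u w = B w u) (a : ∀ i u w, B (T i u) w = B u (T i w))
    (c : ∀ i j, Commute (T i) (T j)) (nil : ∀ i, IsNilpotent (T i))
    (h : ∀ i j, finrank k ↥(range (T i) ⊔ range (T j)) + 2 ≤ finrank k V) :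
    ∃ β : LinearMap.BilinForm k (Fin 3 → V), (∀ u u', β u' u = -β u u') ∧
      (∀ w u, β (fun i => T i w) u = 0) ∧
      ∀ p, ∃ u u', cu T u = 0 ∧ cu T u' = 0 ∧ β u u' + om B p u u' ≠ 0 := by
  by_cases H : g5_Ind 4 (T 0) (T 1) (T 2)
  · obtain ⟨u, l, h1, h2, h3⟩ := g5_dual H
    let f : Fin 3 → Fin 4 → k := fun i => ![om B (Pi.single i 1) (u 0) (u 1),
      om B (Pi.single i 1) (u 0) (u 2), om B (Pi.single i 1) (u 0) (u 3),
      om B (Pi.single i 1) (u 1) (u 2)]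
    obtain ⟨γ, hγ⟩ : ∃ γ, γ ∉ range (Fintype.linearCombination k f) := by
      by_contra H'
      push Not at H'
      have := (Fintype.linearCombination k f).finrank_range_le
      rw [Submodule.eq_top_iff'.2 H'] at this
      simp at this
    refine ⟨-(γ 0 • g5_wg (l 0) (l 1) + γ 1 • g5_wg (l 0) (l 2) + γ 2 • g5_wg (l 0) (l 3) +
      γ 3 • g5_wg (l 1) (l 2)), fun u u' => ?_, fun w u => ?_, fun p => ?_⟩
    · simp [g5_wg]
      ring
    · simp [g5_wg, h2]
    by_contra H'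
    push Not at H'
    have e0 := H' _ _ (h1 0) (h1 1)
    have e1 := H' _ _ (h1 0) (h1 2)
    have e2 := H' _ _ (h1 0) (h1 3)
    have e3 := H' _ _ (h1 1) (h1 2)
    simp [g5_wg, h3, g5_om] at e0 e1 e2 e3
    refine hγ ⟨p, funext fun i => ?_⟩
    fin_cases i <;> simp [f, Fintype.linearCombination_apply, Fin.sum_univ_three, g5_om]
    · linear_combination e0
    · linear_combination e1
    · linear_combination e2
    · linear_combination e3
  obtain ⟨u, l, h1, h2, h3⟩ := g5_dual (g5_two (a 0) (a 1) (a 2) (nil 0) (nil 1) (nil 2) (c 0 1)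
    (c 0 2) (c 1 2) (h 0 1))
  refine ⟨g5_wg (l 0) (l 1), fun u u' => ?_, fun w u => ?_, fun p => ⟨u 0, u 1, h1 0, h1 1, ?_⟩⟩
  · simp [g5_wg]
    ring
  · simp [g5_wg, h2]
  have p0 := (g5_cu _).1 (h1 0)
  have p1 := (g5_cu _).1 (h1 1)
  rw [g5_om, g5_four sy (a 0) (a 1) (a 2) (nil 0) (nil 1) (nil 2) (c 0 1) (c 0 2) (c 1 2) (h 0 1)
      H p0 p1,
    g5_four sy (a 1) (a 2) (a 0) (nil 1) (nil 2) (nil 0) (c 1 2) (c 1 0) (c 2 0) (h 1 2)
      (fun q => H (g5_rot (g5_rot q))) ⟨p0.2.1, p0.2.2, p0.1⟩ ⟨p1.2.1, p1.2.2, p1.1⟩,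
    g5_four sy (a 2) (a 0) (a 1) (nil 2) (nil 0) (nil 1) (c 2 0) (c 2 1) (c 0 1) (h 2 0)
      (fun q => H (g5_rot q)) ⟨p0.2.2, p0.1, p0.2.1⟩ ⟨p1.2.2, p1.1, p1.2.1⟩]
  simp [g5_wg, h3]

end Pool.Agent.Lib.MP_2cea55_ag.Gs
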