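import Pool.Agent.Lib.MP_2cea55_ag.G4D
import Pool.Agent.Lib.MP_2cea55_ag.G5

set_option autoImplicit false
set_option linter.unusedSectionVars false

namespace Pool.Agent.Lib.MP_2cea55_ag.Gs
open Module LinearMap Matrix
open scoped PowerSeries TensorProduct

section
variable {R R' : Type} [CommRing R] [CommRing R'] {d : ℕ} {Y : Fin 3 → Matrix (Fin d) (Fin d) R}

/-- curl with matrix coefficients -/
def cm (Y : Fin 3 → Matrix (Fin d) (Fin d) R) (u : Fin 3 → Fin d → R) : Fin 3 → Fin d → R :=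
  ![Y 1 *ᵥ u 2 - Y 2 *ᵥ u 1, Y 2 *ᵥ u 0 - Y 0 *ᵥ u 2, Y 0 *ᵥ u 1 - Y 1 *ᵥ u 0]

/-- cross product with a triple of scalars -/
def cx (x : Fin 3 → R) (u : Fin 3 → Fin d → R) : Fin 3 → Fin d → R :=
  ![x 1 • u 2 - x 2 • u 1, x 2 • u 0 - x 0 • u 2, x 0 • u 1 - x 1 • u 0]

/-- block matrices -/
def bm (β : Fin 3 → Fin 3 → Matrix (Fin d) (Fin d) R) (u : Fin 3 → Fin d → R) :
    Fin 3 → Fin d → R := fun i => ∑ l, β i l *ᵥ u l

theorem dm {m : Type} [Fintype m] (A : Matrix m m R) (a b : m → R) :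
    (A *ᵥ a) ⬝ᵥ b = a ⬝ᵥ (Aᵀ *ᵥ b) := by
  rw [dotProduct_mulVec, vecMul_transpose]

theorem cm_add (u u' : Fin 3 → Fin d → R) : cm Y (u + u') = cm Y u + cm Y u' := by
  ext1 i
  fin_cases i <;> simp [cm, mulVec_add] <;> abel

theorem cm_smul (c : R) (u : Fin 3 → Fin d → R) : cm Y (c • u) = c • cm Y u := by
  ext1 i
  fin_cases i <;> simp [cm, mulVec_smul, smul_sub]

theorem bm_add (β : Fin 3 → Fin 3 → Matrix (Fin d) (Fin d) R) (u u' : Fin 3 → Fin d → R) :
    bm β (u + u') = bm β u + bm β u' := by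
  ext1 i
  simp [bm, mulVec_add, Finset.sum_add_distrib]

theorem bm_smul (β : Fin 3 → Fin 3 → Matrix (Fin d) (Fin d) R) (c : R) (u : Fin 3 → Fin d → R) :
    bm β (c • u) = c • bm β u := by
  ext1 i
  simp [bm, mulVec_smul, Finset.smul_sum]

theorem cc_map (f : R →+* R') (r : R⟦X⟧) :
    PowerSeries.constantCoeff (PowerSeries.map f r) = f (PowerSeries.constantCoeff r) := by
  rw [← PowerSeries.coeff_zero_eq_constantCoeff_apply, PowerSeries.coeff_map,
    PowerSeries.coeff_zero_eq_constantCoeff_apply]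

theorem cm_skew (sy : ∀ i, (Y i)ᵀ = Y i) (u u' : Fin 3 → Fin d → R) :
    ∑ i, cm Y u i ⬝ᵥ u' i = -∑ i, u i ⬝ᵥ cm Y u' i := by
  simp [cm, Fin.sum_univ_three, dm, sy]
  ring

theorem bm_skew {β : Fin 3 → Fin 3 → Matrix (Fin d) (Fin d) R} (sk : ∀ i l, (β i l)ᵀ = -β l i)
    (u u' : Fin 3 → Fin d → R) : ∑ i, bm β u i ⬝ᵥ u' i = -∑ i, u i ⬝ᵥ bm β u' i := by
  simp [bm, Fin.sum_univ_three, dm, sk, neg_mulVec]
  ring

theorem cm_grad (c : ∀ i j, Y i * Y j = Y j * Y i) (w : Fin d → R) :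
    cm Y (fun i => Y i *ᵥ w) = 0 := by
  ext1 i
  fin_cases i <;> simp [cm, c 1 2, c 2 0, c 0 1]

theorem cm_sk (h2 : IsUnit (2 : R)) {a : Fin 3 → Fin 3 → Fin d → R} (sk : ∀ i j, a j i = -a i j) :
    (fun i => ∑ j, Y j *ᵥ a i j) = cm Y ![a 1 2, a 2 0, a 0 1] := by
  have z : ∀ i, a i i = 0 := fun i => h2.smul_eq_zero.1 (by
    rw [two_smul]; nth_rewrite 1 [sk i i]; exact neg_add_cancel _)
  ext1 i
  fin_cases i <;> simp [cm, Fin.sum_univ_three, z, sk 2 0, sk 0 1, sk 1 2, mulVec_neg] <;> abel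

theorem cm_map (f : R →+* R') (u : Fin 3 → Fin d → R) :
    cm (fun i => (Y i).map f) (fun i j => f (u i j)) = fun i j => f (cm Y u i j) := by
  have : ∀ i l, (Y i).map f *ᵥ (fun j => f (u l j)) = fun j => f ((Y i *ᵥ u l) j) := fun i l =>
    funext fun j => (RingHom.map_mulVec f _ _ j).symm
  ext i j
  fin_cases i <;> simp [cm, this]

theorem bm_map (f : R →+* R') (β : Fin 3 → Fin 3 → Matrix (Fin d) (Fin d) R)
    (u : Fin 3 → Fin d → R) (i j) :
    f (bm β u i j) = bm (fun i l => (β i l).map f) (fun i j => f (u i j)) i j := by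
  simp [bm, mulVec, dotProduct]

theorem cx_map (f : R →+* R') (x : Fin 3 → R) (u : Fin 3 → Fin d → R) (i j) :
    f (cx x u i j) = cx (fun i => f (x i)) (fun i j => f (u i j)) i j := by
  fin_cases i <;> simp [cx]

theorem cx_sum (x : Fin 3 → R) (u : Fin 3 → Fin d → R) :
    cx x u = ∑ i, x i • cx (Pi.single i 1) u := by
  ext1 i
  fin_cases i <;> simp [cx, Fin.sum_univ_three] <;> abel

end

variable {k : Type} [Field k] [IsAlgClosed k] [CharZero k]
  {A : Type} [CommRing A] [Algebra k A] [FiniteDimensional k A]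
  {S : Type} [CommRing S] [Algebra k S] {n d : ℕ} {b : Basis (Fin d) k A}
  {π : S →ₐ[k] A} {σ : Fin d → S}

theorem Ym_comm (x y : S) : Ym b π x * Ym b π y = Ym b π y * Ym b π x := by
  simp only [Ym, sub_mul, mul_sub, smul_mul_assoc, mul_smul_comm, Matrix.one_mul, Matrix.mul_one,
    Lm_mul, mul_comm (π x), smul_sub, smul_comm x y]
  abel

theorem cv_add (a a' : A) : cv b S (a + a') = cv b S a + cv b S a' := by
  ext j
  simp [cv]

theorem cv_sub (a a' : A) : cv b S (a - a') = cv b S a - cv b S a' := by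
  ext j
  simp [cv]

theorem Km.sy {x : Fin n → S} {s : Fin n → Matrix (Fin d) (Fin d) S} (K : Km b π x σ s) (y : S) :
    (Ym b π y)ᵀ = Ym b π y := by
  rw [Ym, transpose_sub, K.symm, transpose_smul, transpose_one]

theorem Km.st {x : Fin n → S} {s : Fin n → Matrix (Fin d) (Fin d) S} (K : Km b π x σ s)
    (w : Fin d → S) : ∑ i, (s i)ᵀ *ᵥ (Ym b π (x i) *ᵥ w) = w - (cv b S 1 ⬝ᵥ w) • σ := by
  have := congrArg (fun A => Aᵀ *ᵥ w) K.spl
  simp only [transpose_sum, transpose_mul, K.sy, sum_mulVec, ← mulVec_mulVec, transpose_sub,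
    transpose_one, sub_mulVec, one_mulVec, transpose_vecMulVec, vecMulVec_mulVec] at this
  simpa using this

/-- lifting a Koszul cycle into the orthogonal of the split part -/
theorem Km.cyc {x : Fin 3 → S} {s : Fin 3 → Matrix (Fin d) (Fin d) S} (K : Km b π x σ s)
    (ε : S →ₐ[k] k) (hε : ∀ i, ε (x i) = 0) {u : Fin 3 → A}
    (h : cu (fun i => Algebra.lmul k A (π (x i))) u = 0) : ∃ (o : Fin 3 → Fin d → S) (w : A),
      ∑ i, (s i)ᵀ *ᵥ o i = 0 ∧ cm (fun i => Ym b π (x i)) o = cx x (fun i => cv b S (u i)) ∧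
      ∀ i j, ε (o i j) = cv b k (u i + π (x i) * w) j := by
  obtain ⟨W, hW⟩ : ∃ W, W = ∑ j, (s j)ᵀ *ᵥ cv b S (u j) := ⟨_, rfl⟩
  refine ⟨fun i => cv b S (u i) - Ym b π (x i) *ᵥ W, b.equivFun.symm fun j => ε (W j), ?_, ?_,
    fun i j => ?_⟩
  · have : cv b S 1 ⬝ᵥ W = 0 := by simp [hW, dotProduct_sum, ← dm, K.sv]
    simp only [mulVec_sub, Finset.sum_sub_distrib, K.st, this, ← hW]
    simp
  · have g := cm_grad (Y := fun i => Ym b π (x i)) (fun i j => Ym_comm _ _) W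
    have c : ∀ i j, π (x i) * u j = π (x j) * u i := by
      have h0 := congrFun h 0
      have h1 := congrFun h 1
      have h2 := congrFun h 2
      simp only [cu, cons_val, Algebra.coe_lmul_eq_mul, LinearMap.mul_apply', Pi.zero_apply,
        sub_eq_zero] at h0 h1 h2
      intro i j
      fin_cases i <;> fin_cases j <;> simp [h0, h1, h2]
    have y : ∀ i j, Ym b π (x i) *ᵥ cv b S (u j) = x i • cv b S (u j) - cv b S (π (x i) * u j) :=
      fun i j => by rw [Ym, sub_mulVec, Lm_cv, smul_mulVec, one_mulVec]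
    rw [← sub_zero (cx _ _), ← g]
    ext1 i
    fin_cases i <;> simp [cm, cx, mulVec_sub, y, c 1 2, c 2 0, c 0 1, -mulVec_mulVec] <;> abel
  · rw [cv_add, ← Lm_cv]
    have : cv b k (b.equivFun.symm fun j => ε (W j)) = fun j => ε (W j) := by
      ext j
      rw [cv, ← b.equivFun_apply, LinearEquiv.apply_symm_apply]
      rfl
    rw [this]
    simp [Ym, sub_mulVec, smul_mulVec, hε, cv, Lm, mulVec, dotProduct]

/-- the blocks of a bilinear form -/
noncomputable def bb (b : Basis (Fin d) k A) (β : LinearMap.BilinForm k (Fin 3 → A)) (i l : Fin 3) :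
    Matrix (Fin d) (Fin d) k := of fun j m => β (Pi.single l (b m)) (Pi.single i (b j))

theorem bb_dot (β : LinearMap.BilinForm k (Fin 3 → A)) (u u' : Fin 3 → A) :
    ∑ i, cv b k (u' i) ⬝ᵥ bm (bb b β) (fun i => cv b k (u i)) i = β u u' := by
  have e : ∀ u : Fin 3 → A, u = ∑ i, ∑ j, b.repr (u i) j • Pi.single i (b j) := fun u => by
    ext i
    simp [Finset.sum_apply, Pi.single_apply]
  conv_rhs => rw [e u', e u]
  simp only [map_sum, map_smul, LinearMap.sum_apply, LinearMap.smul_apply, smul_eq_mul, bm, bb, cv,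
    dotProduct, mulVec, Finset.sum_apply, of_apply, Algebra.algebraMap_self, RingHom.id_apply]
  simp only [mul_comm]

theorem om_dot {φ : A →ₗ[k] k} (o : On φ b) (p : Fin 3 → k) (u u' : Fin 3 → A) :
    ∑ i, cv b k (u' i) ⬝ᵥ cx p (fun i => cv b k (u i)) i =
      om ((LinearMap.mul k A).compr₂ φ) p u u' := by
  simp [om, cu, cx, Fin.sum_univ_three, o.dot, mul_comm, sub_mul, mul_sub]

end Pool.Agent.Lib.MP_2cea55_ag.Gs
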