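import Pool.Agent.Lib.MP_2cea55_ag.G2
import Pool.Agent.Lib.MP_2cea55_ag.G6A

set_option autoImplicit false
set_option linter.unusedSectionVars false
set_option linter.style.haveILetI false

namespace Pool.Agent.Lib.MP_2cea55_ag.Gs
open Module LinearMap Matrix
open scoped PowerSeries TensorProduct
open PowerSeries (X C constantCoeff)
open MvPolynomial (aeval)

section
variable {k : Type} [Field k] [IsAlgClosed k] [CharZero k] {A : Type} [CommRing A] [Algebra k A]
  [FiniteDimensional k A] {a : Fin 3 → A}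

theorem Cu_map {R R' : Type} [CommRing R] [CommRing R'] (f : R →+* R') (y : Fin 3 → R) :
    (Cu y).map f = Cu fun i => f (y i) := by
  ext i j
  fin_cases i <;> fin_cases j <;> simp [Cu]

theorem Cu_dot {R : Type} [CommRing R] (y c : Fin 3 → R) : ∑ i, y i * (Cu y *ᵥ c) i = 0 := by
  simp [Cu, Fin.sum_univ_three, mulVec, dotProduct]
  ring

theorem g3_step [Nontrivial A] (F : Frob k A) (g : Gn k a) (hn : ∀ i, IsNilpotent (a i))
    (h : ∀ i j, finrank k ↥(range (Algebra.lmul k A (a i)) ⊔ range (Algebra.lmul k A (a j))) + 2 ≤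
      finrank k A) : ∃ (E : Type) (_ : CommRing E) (_ : Algebra k⟦X⟧ E) (ρ : E →+* A)
      (x : Fin 3 → E),
      Df k ρ ∧ (∀ i, ρ (x i) = a i) ∧ ∀ p : Fin 3 → KK k,
        (∀ i, IsNilpotent ((1 : KK k) ⊗ₜ[k⟦X⟧] x i - algebraMap (KK k) _ (p i))) →
        rk k (Cu a) < rk (KK k) (Cu fun i => (1 : KK k) ⊗ₜ[k⟦X⟧] x i - algebraMap (KK k) _ (p i)) := by
  obtain ⟨φ, b, o⟩ := F.on
  obtain ⟨σ, s, K⟩ := (kz_poly b g).km o
  have sy : ∀ u w : A, (LinearMap.mul k A).compr₂ φ u w = (LinearMap.mul k A).compr₂ φ w u :=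
    fun u w => by simp [mul_comm]
  have ad : ∀ i (u w : A), (LinearMap.mul k A).compr₂ φ (Algebra.lmul k A (a i) u) w =
      (LinearMap.mul k A).compr₂ φ u (Algebra.lmul k A (a i) w) := fun i u w => by
    simp [mul_comm, mul_left_comm]
  obtain ⟨β, β1, β2, β3⟩ := k3 sy ad (fun i j => (Commute.all (a i) (a j)).map _)
    (fun i => (hn i).map _) h
  let π : P 3 k →ₐ[k] A := aeval a
  let Y : Fin 3 → Matrix _ _ (P 3 k) := fun i => Ym b π (.X i)
  let βS : Fin 3 → Fin 3 → Matrix _ _ (P 3 k) := fun i l => (bb b β i l).map MvPolynomial.C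
  let Θ : (Fin 3 → Fin (finrank k A) → (P 3 k)⟦X⟧) →ₗ[(P 3 k)⟦X⟧] Qm 3 (finrank k A) (P 3 k)⟦X⟧ :=
    { toFun := fun u => (cm (fun i => (Y i).map C) u +
        (X : (P 3 k)⟦X⟧) • bm (fun i l => (βS i l).map C) u, u)
      map_add' := fun u u' => Prod.ext (by simp [cm_add, bm_add]; abel) rfl
      map_smul' := fun c u => Prod.ext (by simp [cm_smul, bm_smul, smul_comm c]) rfl }
  have h2 : ∀ (S : Type) [CommRing S] [Algebra k S], IsUnit (2 : S) := fun S _ _ =>
    map_ofNat (algebraMap k S) 2 ▸ (IsUnit.mk0 (2 : k) two_ne_zero).map _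
  have iso : ∀ u u', Jm (Θ u) (Θ u') = 0 := fun u u' => by
    have e1 := cm_skew (Y := fun i => (Y i).map C)
      (fun i => by rw [← transpose_map, K.sy]) u u'
    have e2 := bm_skew (β := fun i l => (βS i l).map (C : _ →+* (P 3 k)⟦X⟧))
      (fun i l => by ext j m : 1; simp [βS, bb, β1 (Pi.single i (b m))]) u u'
    simp only [Jm, Θ, LinearMap.coe_mk, AddHom.coe_mk, Pi.add_apply, Pi.smul_apply, add_dotProduct,
      dotProduct_add, smul_dotProduct, dotProduct_smul, smul_eq_mul, Finset.sum_add_distrib,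
      ← Finset.mul_sum, e1, e2]
    ring
  obtain ⟨I, ρ, f, D, e, hI, ⟨a0, f1⟩, f2, z, f3⟩ := K.df ((cpl_ps.pi _).pi _) Θ 0
    (fun g h e => ⟨0, PowerSeries.X_mul_injective (by simpa using e.symm)⟩)
    (fun u u' => ⟨0, by simp [iso]⟩) (by simp)
    (fun c => ⟨_, (_, 0), Prod.ext (congrArg (· + _) (cm_grad (fun i j => by
      rw [← Matrix.map_mul, Ym_comm, Matrix.map_mul]) c)) (by simp [Θ, Y, π])⟩)
    (fun a sk => ⟨_, _, congrArg (· + _) (cm_sk (h2 _) sk).symm⟩) ⟨0, 0, by simp⟩
  refine ⟨_, _, _, ρ, fun i => Ideal.Quotient.mk I (C (.X i)), D, fun i => by simp [e], fun p hp => ?_⟩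
  choose r r0 r1 r2 using fun i => D.nil (by simpa [e] using hn i) (hp i)
  choose r' hr using fun i => PowerSeries.X_dvd_iff.2 (r0 i)
  obtain ⟨u, u', c1, c2, ne⟩ := β3 fun i => constantCoeff (r' i)
  let ε : P 3 k →ₐ[k] k := aeval 0
  obtain ⟨o1, w1, a1, a2, a3⟩ := K.cyc ε (by simp [ε]) (u := u) (by simpa using c1)
  obtain ⟨o2, w2, b1, b2, b3⟩ := K.cyc ε (by simp [ε]) (u := u') (by simpa using c2)
  let Φ := (Jl 3 _ _ f).comp (inl (P 3 k)⟦X⟧ _ _)
  have ΦI : ∀ o, Ideal.Quotient.mk I (Φ o) = 0 := fun o =>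
    Ideal.Quotient.eq_zero_iff_mem.2 ((hI _).2 ⟨0, _, by rw [zero_mul, zero_add]; rfl⟩)
  have Φ0 : ∀ o, constantCoeff (Φ o) =
      ∑ i, (Y i *ᵥ σ) ⬝ᵥ fun j => constantCoeff (o i j) := fun o => by
    simp [Φ, f3, Jl, Jm, Y, π, mulVec, dotProduct]
  obtain ⟨U, hU⟩ : ∃ U, U = fun i => cv b (P 3 k)⟦X⟧ (u i) := ⟨_, rfl⟩
  obtain ⟨e', he⟩ : ∃ e', e' = bm (fun i l => (βS i l).map C) (fun i j => C (o1 i j)) +
    cx (fun i => algebraMap k⟦X⟧ (P 3 k)⟦X⟧ (r' i)) U := ⟨_, rfl⟩
  have rel : ∑ i, yv r i * Φ (cx (Pi.single i 1) U) + X * Φ e' = 0 := by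
    have i1 := iso a0 fun i j => C (o1 i j)
    have i2 := f2 (fun i j => C (o1 i j)) (by
      ext1 j
      simpa [mulVec, dotProduct, Finset.sum_apply] using congrArg C (congrFun a1 j))
    have : Θ (fun i j => C (o1 i j)) = (cx (yv r) U + (X : (P 3 k)⟦X⟧) • e', 0) +
        (0, fun i j => C (o1 i j)) := by
      refine Prod.ext ?_ (by simp [Θ])
      simp only [Θ, LinearMap.coe_mk, AddHom.coe_mk, cm_map, Y, π, a2, Prod.fst_add, add_zero, he, hU]
      generalize bm (R := (P 3 k)⟦X⟧) _ _ = Z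
      ext1 i
      ext1 j
      fin_cases i <;> simp [vecHead, vecTail, cx, yv, hr, cv, PowerSeries.algebraMap_apply'',
        PowerSeries.algebraMap_apply] <;> ring
    rw [f1, this] at i1
    change Jl _ _ _ f _ = 0 at i1 i2
    rw [map_add, i2, add_zero] at i1
    have i3 : Φ (cx (yv r) U + (X : (P 3 k)⟦X⟧) • e') = 0 := i1
    simpa only [cx_sum (yv r), map_add, map_sum, map_smul, smul_eq_mul] using i3
  have my : ∀ i, Ideal.Quotient.mk I (yv r i) =
      Ideal.Quotient.mk I (C (.X i)) - algebraMap k⟦X⟧ _ (r i) := fun i => by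
    rw [yv, map_sub]; rfl
  obtain ⟨ρ0, G, hG⟩ := ydiv r0 (Φ e')
  obtain rfl : ρ0 = 0 := by
    have e1 := ΦI e'
    rw [hG, map_add, map_sum, add_eq_zero_iff_eq_neg] at e1
    have : IsNilpotent (algebraMap k⟦X⟧ (_ ⧸ I) ρ0) := by
      refine (show algebraMap k⟦X⟧ (_ ⧸ I) ρ0 = _ from e1) ▸ (isNilpotent_sum fun i _ => ?_).neg
      rw [map_mul, my]
      exact (Commute.all _ _).isNilpotent_mul_right (r2 i)
    exact ((IsNilpotent.map_iff D.inj).1 this).eq_zero
  rw [map_zero, zero_add] at hG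
  obtain ⟨c, hc⟩ := ykos r0 (g := fun i => X * G i + Φ (cx (Pi.single i 1) U)) (by
    rw [← rel, hG, Finset.mul_sum, ← Finset.sum_add_distrib]
    exact Finset.sum_congr rfl fun i _ => by ring)
  have y0 : ∀ i, ρ (Ideal.Quotient.mk I (yv r i)) = a i := fun i => by
    simp [e, yv, PowerSeries.algebraMap_apply'', r0, cc_map]
  have key := D.rk (Cu fun i => Ideal.Quotient.mk I (yv r i)) (fun i => Ideal.Quotient.mk I (c i))
    (fun i => Ideal.Quotient.mk I (G i)) (by
      ext1 i
      have := congrArg (Ideal.Quotient.mk I) (congrFun hc i)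
      rw [RingHom.map_mulVec, Cu_map, map_add, ΦI, add_zero, map_mul] at this
      refine this.symm.trans ?_
      rw [Pi.smul_apply, Algebra.smul_def]
      congr 1
      exact congrArg (Ideal.Quotient.mk I) (PowerSeries.map_X _).symm) fun c' hc' => ne (by
    choose c'' hc'' using fun i => K.surj (c' i)
    rw [Cu_map] at hc'
    simp only [y0, e] at hc'
    choose w hw using fun i => (K.ker (constantCoeff (G i) - (Cu MvPolynomial.X *ᵥ c'') i)).1 (by
      rw [map_sub, ← congrFun hc' i, sub_eq_zero]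
      fin_cases i <;> simp [Cu, mulVec, dotProduct, Fin.sum_univ_three, hc''])
    obtain ⟨c0, a0, sk, e0⟩ := K.ex (fun l => (fun j => constantCoeff (e' l j)) -
        ∑ i, (MvPolynomial.X i : P 3 k) • w i l) (by
      have e1 := Φ0 e'
      have e2 := Cu_dot MvPolynomial.X c''
      rw [hG] at e1
      simp only [dotProduct_sub, dotProduct_sum, dotProduct_smul, Finset.sum_sub_distrib,
        smul_eq_mul]
      rw [Finset.sum_comm]
      simp only [← Finset.mul_sum, ← hw, mul_sub, Finset.sum_sub_distrib, e2]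
      rw [← e1]
      simp [yv, PowerSeries.algebraMap_apply'', r0, cc_map])
    have e1 : ∑ l, o2 l ⬝ᵥ s l *ᵥ c0 = 0 := by
      simp only [dotProduct_comm (o2 _), dm, ← dotProduct_sum, b1, dotProduct_zero]
    have e2 := cm_skew (fun i => K.sy (.X i)) o2 ![a0 1 2, a0 2 0, a0 0 1]
    rw [b2, ← cm_sk (h2 _) sk] at e2
    have e3 := congrArg ε (Finset.sum_congr rfl fun l (_ : l ∈ Finset.univ) =>
      congrArg (o2 l ⬝ᵥ ·) (e0 l))
    simp only [dotProduct_add, Finset.sum_add_distrib, e1, zero_add, dotProduct_sub,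
      Finset.sum_sub_distrib] at e3
    rw [neg_eq_iff_eq_neg.1 e2.symm] at e3
    have e4 : ε (∑ l, o2 l ⬝ᵥ fun j => constantCoeff (e' l j)) = 0 := by
      simpa [ε, cx, Fin.sum_univ_three] using e3
    have e5 : ∀ l j, ε (constantCoeff (e' l j)) = (bm (bb b β) (fun i => cv b k (u i + a i * w1)) +
        cx (fun i => constantCoeff (r' i)) fun i => cv b k (u i)) l j := fun l j => by
      simp only [he, hU, Pi.add_apply, map_add]
      congr 1
      · simp [bm, mulVec, dotProduct, βS, a3]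
      · fin_cases l <;>
          simp [cx, cv, PowerSeries.algebraMap_apply'', PowerSeries.algebraMap_apply, cc_map, ε]
    have e6 := bb_dot (b := b) β (fun i => u i + a i * w1) fun i => u' i + a i * w2
    have e7 := om_dot o (fun i => constantCoeff (r' i)) u fun i => u' i + a i * w2
    have g1 : (fun i => u i + a i * w1) = u + fun i => Algebra.lmul k A (a i) w1 := rfl
    have g2 : (fun i => u' i + a i * w2) = u' + fun i => Algebra.lmul k A (a i) w2 := rfl
    rw [g1, g2, map_add β, LinearMap.add_apply, β2, map_add, β1 (fun i => Algebra.lmul k A (a i) w2) u,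
      β2] at e6
    have e8 := om_grad ad (fun i => constantCoeff (r' i)) w2 c1
    rw [om_alt sy, neg_eq_zero] at e8
    rw [g2, show ∀ (B : LinearMap.BilinForm k A) p u v w, om B p u (v + w) = om B p u v + om B p u w
      by simp [om, Finset.sum_add_distrib], e8] at e7
    simp only [neg_zero, add_zero] at e6 e7
    rw [← e6, ← e7, ← Finset.sum_add_distrib, ← e4]
    simp [dotProduct, e5, b3, mul_add, Finset.sum_add_distrib])
  rw [Cu_map] at key
  simp only [y0] at key
  convert key using 2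
  refine Eq.trans ?_ (Cu_map (Algebra.TensorProduct.includeRight (R := k⟦X⟧)
    (A := KK k)).toRingHom fun i => Ideal.Quotient.mk I (yv r i)).symm
  congr 1
  ext1 i
  simp [my, ← r1, TensorProduct.tmul_sub, Algebra.algebraMap_eq_smul_one,
    Algebra.TensorProduct.one_def]

end

theorem g3_aux (d : ℕ) : ∀ (k : Type) [Field k] [IsAlgClosed k] [CharZero k] (A : Type) [CommRing A]
    [Algebra k A] [FiniteDimensional k A] (a : Fin 3 → A), Frob k A → Gn k a → finrank k A = d →
    SmA k A := by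
  induction d using Nat.strong_induction_on with | _ d ih => ?_
  have key : ∀ (r : ℕ) (k : Type) [Field k] [IsAlgClosed k] [CharZero k] (A : Type) [CommRing A]
      [Algebra k A] [FiniteDimensional k A] [Nontrivial A] (a : Fin 3 → A), Frob k A → Gn k a →
      finrank k A = d → (∀ i, IsNilpotent (a i)) → 3 * d < rk k (Cu a) + r → SmA k A := fun r => by
    induction r with
    | zero =>
      intro k _ _ _ A _ _ _ _ a F g e hn h
      have : rk k (Cu a) ≤ finrank k (Fin 3 → A) := Submodule.finrank_le _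
      simp [finrank_pi_fintype, e] at this
      omega
    | succ r ihr =>
      intro k _ _ _ A _ _ _ _ a F g e hn h
      by_cases h3 : ∀ i j, finrank k ↥(range (Algebra.lmul k A (a i)) ⊔
        range (Algebra.lmul k A (a j))) + 2 ≤ finrank k A
      · obtain ⟨E, _, _, ρ, x, D, e1, e2⟩ := g3_step F g hn h3
        haveI := D.fd
        haveI := kk_char (k := k)
        have g' := D.gn (x := x) (by simpa [e1] using g)
        refine D.sm (SmA.loc (D.frob F) (fun i => 1 ⊗ₜ x i) (fun B _ _ _ π s f l => ih _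
          (by rwa [D.finrank, e] at l) _ B _ f (g'.map π s) rfl) fun p _ hp => ?_)
        have := e2 p hp
        exact ihr _ _ _ (D.frob F) (g'.shift p) (D.finrank.trans e) hp (by omega)
      push Not at h3
      obtain ⟨i, j, h3⟩ := h3
      have m1 : range (Algebra.lmul k A (a i)) ⊔ range (Algebra.lmul k A (a j)) ≤
          (nilradical A).restrictScalars k := sup_le
        (by rintro _ ⟨w, rfl⟩; exact Ideal.mul_mem_right _ _ (hn i))
        (by rintro _ ⟨w, rfl⟩; exact Ideal.mul_mem_right _ _ (hn j))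
      have m2 : finrank k ((nilradical A).restrictScalars k) < finrank k A :=
        Submodule.finrank_lt fun t => not_isNilpotent_one
          (show (1 : A) ∈ (nilradical A).restrictScalars k from t ▸ trivial)
      have m3 := Submodule.eq_of_le_of_finrank_le m1 (by omega)
      have m4 : ∀ w : A, ∃ c : k, w - algebraMap k A c ∈ nilradical A := fun w => by
        obtain ⟨q, rfl⟩ := g.surj w
        refine ⟨q.constantCoeff, ?_⟩
        have := Ideal.mem_map_of_mem (aeval a : P 3 k →ₐ[k] A) (show q - .C q.constantCoeff ∈ M0 3 k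
          from (MvPolynomial.mem_ideal_span_X_image (s := Set.univ)).2 (fun m hm => ?_) |>
            (by rw [M0, ← Set.image_univ]; exact ·))
        · simpa [g.map_M0 hn] using this
        by_contra! z
        obtain rfl : m = 0 := Finsupp.ext fun i => z i trivial
        simp [← MvPolynomial.constantCoeff_eq] at hm
      refine g2 (x := a i) (y := a j) (g.pert hn (fun l => by fin_cases l <;> exact hn _) fun l => ?_)
      obtain ⟨_, ⟨w, rfl⟩, _, ⟨w', rfl⟩, e'⟩ := Submodule.mem_sup.1
        (m3.ge (show a l ∈ (nilradical A).restrictScalars k from hn l))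
      obtain ⟨c, hc⟩ := m4 w
      obtain ⟨c', hc'⟩ := m4 w'
      refine ⟨c • a i + c' • a j, add_mem
        (Submodule.smul_mem _ _ (Submodule.subset_span ⟨0, rfl⟩))
        (Submodule.smul_mem _ _ (Submodule.subset_span ⟨1, rfl⟩)), ?_⟩
      rw [sq]
      convert add_mem (Ideal.mul_mem_mul (mem_nilradical.2 (hn i)) hc)
        (Ideal.mul_mem_mul (mem_nilradical.2 (hn j)) hc') using 1
      rw [← e']
      simp [Algebra.smul_def]
      ring
  intro k _ _ _ A _ _ _ a F g e
  exact SmA.loc F a (fun B _ _ _ π s f l => ih _ (e ▸ l) _ B _ f (g.map π s) rfl) fun p _ hp =>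
    key (3 * d + 1) k A _ F (g.shift p) e hp (by omega)

/-- Gorenstein algebras with three generators are smoothable -/
theorem g3 {k : Type} [Field k] [IsAlgClosed k] [CharZero k] {A : Type} [CommRing A] [Algebra k A]
    [FiniteDimensional k A] (F : Frob k A) {a : Fin 3 → A} (g : Gn k a) : SmA k A :=
  g3_aux _ k A a F g rfl

end Pool.Agent.Lib.MP_2cea55_ag.Gs
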