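import Pool.Agent.Lib.MP_2cea55_ag.G0

set_option autoImplicit false
set_option linter.unusedSectionVars false

namespace Pool.Agent.Lib.MP_2cea55_ag.Gs
open Module LinearMap Matrix
open Pool.Agent.Lib.MP_02ae3d_ag (IsP cl Pol phi)
open scoped PowerSeries TensorProduct

section
variable {m : Type} [Fintype m] [DecidableEq m]

theorem g7_idem {k : Type} [Field k] [CharZero k] (M : Matrix m m k) (h : M * M = M) :
    (∃ n : ℕ, M.trace = n) ∧ (M.trace = 0 → M = 0) := by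
  have he : IsIdempotentElem (Matrix.toLin' M) := by
    unfold IsIdempotentElem
    rw [Module.End.mul_eq_comp, ← Matrix.toLin'_mul, h]
  constructor
  · exact ⟨_, by rw [← Matrix.trace_toLin'_eq, he.isProj_range.trace]⟩
  · intro h0
    rw [← Matrix.trace_toLin'_eq] at h0
    have := LinearMap.IsIdempotentElem.eq_zero_of_trace_eq_zero he h0
    exact Matrix.toLin'.injective (by rw [this, map_zero])

variable {B : Type} [CommRing B]

/-- the bilinear form of a matrix -/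
def g7_om (Ω : Matrix m m B) (a b : m → B) : B := a ⬝ᵥ (Ω *ᵥ b)

theorem g7_adj {Ω T : Matrix m m B} (sa : Tᵀ * Ω = Ω * T) (a b : m → B) :
    g7_om Ω (T *ᵥ a) b = g7_om Ω a (T *ᵥ b) := by
  unfold g7_om
  rw [mulVec_mulVec, ← sa, ← mulVec_mulVec, dotProduct_mulVec a, vecMul_transpose]

theorem g7_skew {Ω : Matrix m m B} (hΩ : Ωᵀ = -Ω) (a b : m → B) :
    g7_om Ω a b = - g7_om Ω b a := by
  unfold g7_om
  rw [dotProduct_mulVec, ← mulVec_transpose, hΩ, neg_mulVec, neg_dotProduct, dotProduct_comm]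

theorem g7_self (h2 : ∀ x : B, 2 * x = 0 → x = 0) {Ω T : Matrix m m B} (hΩ : Ωᵀ = -Ω)
    (sa : Tᵀ * Ω = Ω * T) (a : m → B) : g7_om Ω a (T *ᵥ a) = 0 := by
  apply h2
  have h1 := g7_adj sa a a
  have h3 := g7_skew hΩ (T *ᵥ a) a
  linear_combination h3 - h1

theorem g7_alt (h2 : ∀ x : B, 2 * x = 0 → x = 0) {Ω : Matrix m m B} (hΩ : Ωᵀ = -Ω)
    (a : m → B) : g7_om Ω a a = 0 := by
  apply h2
  linear_combination g7_skew hΩ a a

theorem g7_add (Ω : Matrix m m B) (a b c : m → B) :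
    g7_om Ω (a + b) c = g7_om Ω a c + g7_om Ω b c := by
  unfold g7_om; rw [add_dotProduct]

theorem g7_lin (Ω : Matrix m m B) (a b c : m → B) (s t : B) :
    g7_om Ω a (s • b - t • c) = s * g7_om Ω a b - t * g7_om Ω a c := by
  unfold g7_om
  rw [mulVec_sub, mulVec_smul, mulVec_smul, dotProduct_sub, dotProduct_smul, dotProduct_smul,
    smul_eq_mul, smul_eq_mul]

theorem g7_smul (Ω : Matrix m m B) (a b : m → B) (s : B) :
    g7_om Ω a (s • b) = s * g7_om Ω a b := by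
  unfold g7_om
  rw [mulVec_smul, dotProduct_smul, smul_eq_mul]

theorem g7_addr (Ω : Matrix m m B) (a b c : m → B) :
    g7_om Ω a (b + c) = g7_om Ω a b + g7_om Ω a c := by
  unfold g7_om; rw [mulVec_add, dotProduct_add]

theorem g7_subr (Ω : Matrix m m B) (a b c : m → B) :
    g7_om Ω a (b - c) = g7_om Ω a b - g7_om Ω a c := by
  unfold g7_om; rw [mulVec_sub, dotProduct_sub]

/-- the rank two block -/
theorem g7_blk (h2 : ∀ x : B, 2 * x = 0 → x = 0) {Ω T e : Matrix m m B} (hΩ : Ωᵀ = -Ω)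
    (sa : Tᵀ * Ω = Ω * T) (u u' : m → B) (hu : e *ᵥ u = u) (hu' : e *ᵥ u' = u')
    (h0 : g7_om Ω u u' = 0) (h1 : g7_om Ω u (T *ᵥ u') = 1) :
    ∃ P : Matrix m m B, Pᵀ * Ω = Ω * P ∧ P * P = 0 ∧ P * T * P = P ∧ e * P = P ∧
      (T * P).trace = 2 := by
  set P : Matrix m m B := vecMulVec u (Ω *ᵥ u') - vecMulVec u' (Ω *ᵥ u) with hP
  have key : ∀ x, P *ᵥ x = g7_om Ω x u' • u - g7_om Ω x u • u' := by
    intro x
    rw [hP, sub_mulVec, vecMulVec_mulVec, vecMulVec_mulVec, op_smul_eq_smul, op_smul_eq_smul,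
      dotProduct_comm _ x, dotProduct_comm _ x]
    rfl
  have a1 : g7_om Ω (T *ᵥ u) u' = 1 := by rw [g7_adj sa, h1]
  have a2 : g7_om Ω (T *ᵥ u') u = -1 := by rw [g7_skew hΩ, h1]
  have a3 : g7_om Ω (T *ᵥ u) u = 0 := by rw [g7_adj sa, g7_self h2 hΩ sa]
  have a4 : g7_om Ω (T *ᵥ u') u' = 0 := by rw [g7_adj sa, g7_self h2 hΩ sa]
  have a5 : g7_om Ω u' u = 0 := by rw [g7_skew hΩ, h0, neg_zero]
  have b1 : P *ᵥ u = 0 := by rw [key, h0, g7_alt h2 hΩ]; simp
  have b2 : P *ᵥ u' = 0 := by rw [key, a5, g7_alt h2 hΩ]; simp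
  have b3 : P *ᵥ (T *ᵥ u) = u := by rw [key, a1, a3]; simp
  have b4 : P *ᵥ (T *ᵥ u') = u' := by rw [key, a2, a4]; simp
  refine ⟨P, ?_, ?_, ?_, ?_, ?_⟩
  · have hv : ∀ x : m → B, x ᵥ* Ω = -(Ω *ᵥ x) := by
      intro x; rw [← mulVec_transpose, hΩ, neg_mulVec]
    rw [hP, transpose_sub, transpose_vecMulVec, transpose_vecMulVec, Matrix.sub_mul,
      Matrix.mul_sub, vecMulVec_mul, vecMulVec_mul, mul_vecMulVec, mul_vecMulVec, hv, hv]
    ext i j
    simp only [Matrix.sub_apply, vecMulVec_apply, Pi.neg_apply]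
    ring
  · rw [ext_iff_mulVec]
    intro x
    rw [← mulVec_mulVec, key x, mulVec_sub, mulVec_smul, mulVec_smul, b1, b2]; simp
  · rw [ext_iff_mulVec]
    intro x
    rw [← mulVec_mulVec, ← mulVec_mulVec, key x, mulVec_sub, mulVec_smul, mulVec_smul,
      mulVec_sub, mulVec_smul, mulVec_smul, b3, b4]
  · rw [ext_iff_mulVec]
    intro x
    rw [← mulVec_mulVec, key x, mulVec_sub, mulVec_smul, mulVec_smul, hu, hu']
  · rw [hP, Matrix.mul_sub, mul_vecMulVec, mul_vecMulVec, trace_sub, trace_vecMulVec,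
      trace_vecMulVec]
    change g7_om Ω (T *ᵥ u) u' - g7_om Ω (T *ᵥ u') u = 2
    rw [a1, a2]; ring

variable {k : Type} [Field k] [CharZero k] [Algebra k B]

theorem g7_two (k : Type) [Field k] [CharZero k] [Algebra k B] (x : B) (h : 2 * x = 0) : x = 0 := by
  have : (2 : k) • x = 0 := by rw [two_smul, ← two_mul, h]
  have h3 : ((2 : k)⁻¹ * 2) • x = 0 := by rw [mul_smul, this, smul_zero]
  rwa [inv_mul_cancel₀ two_ne_zero, one_smul] at h3

theorem g7_ent (r : B →+* k) {Ω M : Matrix m m B} (uΩ : IsUnit Ω) (hM : M.map r ≠ 0) :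
    ∃ a b, r (g7_om Ω a (M *ᵥ b)) ≠ 0 := by
  by_contra! h
  apply hM
  have h1 : (Ω * M).map r = 0 := by
    ext i j
    have := h (Pi.single i 1) (Pi.single j 1)
    unfold g7_om at this
    rw [mulVec_mulVec, single_one_dotProduct, mulVec_single_one] at this
    simpa using this
  rw [Matrix.map_mul] at h1
  have h2 : IsUnit (Ω.map r) := uΩ.map r.mapMatrix
  exact (h2.mul_right_eq_zero).1 h1

/-- existence of the block -/
theorem g7_ex (w : B) (r : B →+* k) (h2 : ∀ x : B, 2 * x = 0 → x = 0)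
    (hu : ∀ b, r b ≠ 0 → IsUnit b) (rw0 : r w = 0)
    {Ω T e : Matrix m m B} (hΩ : Ωᵀ = -Ω) (uΩ : IsUnit Ω)
    (sa : Tᵀ * Ω = Ω * T) (se : eᵀ * Ω = Ω * e) (ee : e * e = e) (Te : T * e = T) (eT : e * T = T)
    (N : ℕ) (sq : T * T = w ^ N • e) (tr : T.trace = 0) (hT : T.map r ≠ 0) :
    ∃ P : Matrix m m B, Pᵀ * Ω = Ω * P ∧ P * P = 0 ∧ P * T * P = P ∧ e * P = P ∧
      (T * P).trace = 2 := by
  have hab : ∃ a b, r (g7_om Ω a (T *ᵥ b) ^ 2 - w ^ N * g7_om Ω a (e *ᵥ b) ^ 2) ≠ 0 := by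
    rcases N with _ | N
    · rw [pow_zero, one_smul] at sq
      have tr' : (T.map r).trace = 0 := by rw [← AddMonoidHom.map_trace, tr, map_zero]
      have ee' : e.map r * e.map r = e.map r := by rw [← Matrix.map_mul, ee]
      have hz : (e.map r).trace ≠ 0 := by
        intro h
        apply hT
        rw [← Te, Matrix.map_mul, (g7_idem _ ee').2 h, Matrix.mul_zero]
      have hp : (e + T).map r ≠ 0 := by
        intro h
        apply hz
        have := congrArg Matrix.trace h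
        rwa [Matrix.map_add _ (map_add r), trace_add, tr', add_zero, trace_zero] at this
      have hm : (e - T).map r ≠ 0 := by
        intro h
        apply hz
        have := congrArg Matrix.trace h
        rwa [Matrix.map_sub _ (map_sub r), trace_sub, tr', sub_zero, trace_zero] at this
      obtain ⟨a1, b1, h1⟩ := g7_ent r uΩ hp
      obtain ⟨a2, b2, h3⟩ := g7_ent r uΩ hm
      have sp : (e + T)ᵀ * Ω = Ω * (e + T) := by
        rw [transpose_add, Matrix.add_mul, Matrix.mul_add, sa, se]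
      have sm : (e - T)ᵀ * Ω = Ω * (e - T) := by
        rw [transpose_sub, Matrix.sub_mul, Matrix.mul_sub, sa, se]
      have pp : (e + T) * (e + T) = (2 : B) • (e + T) := by
        rw [Matrix.add_mul, Matrix.mul_add, Matrix.mul_add, ee, eT, Te, sq, two_smul]; abel
      have mm : (e - T) * (e - T) = (2 : B) • (e - T) := by
        rw [Matrix.sub_mul, Matrix.mul_sub, Matrix.mul_sub, ee, eT, Te, sq, two_smul]; abel
      have pm : (e + T) * (e - T) = 0 := by
        rw [Matrix.add_mul, Matrix.mul_sub, Matrix.mul_sub, ee, eT, Te, sq]; abel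
      have mp : (e - T) * (e + T) = 0 := by
        rw [Matrix.sub_mul, Matrix.mul_add, Matrix.mul_add, ee, eT, Te, sq]; abel
      refine ⟨(e + T) *ᵥ a1 + (e - T) *ᵥ a2, (e + T) *ᵥ b1 + (e - T) *ᵥ b2, ?_⟩
      set a := (e + T) *ᵥ a1 + (e - T) *ᵥ a2 with ha
      set b := (e + T) *ᵥ b1 + (e - T) *ᵥ b2 with hb
      have z : ∀ x, g7_om Ω x 0 = 0 := by intro x; simp [g7_om]
      have c1 : g7_om Ω a ((e + T) *ᵥ b) = 4 * g7_om Ω a1 ((e + T) *ᵥ b1) := by
        rw [hb, mulVec_add, mulVec_mulVec, mulVec_mulVec, pp, pm, zero_mulVec, add_zero,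
          smul_mulVec, g7_smul, ha, g7_add, g7_adj sp, g7_adj sm, mulVec_mulVec, mulVec_mulVec,
          pp, mp, zero_mulVec, z, smul_mulVec, g7_smul]
        ring
      have c2 : g7_om Ω a ((e - T) *ᵥ b) = 4 * g7_om Ω a2 ((e - T) *ᵥ b2) := by
        rw [hb, mulVec_add, mulVec_mulVec, mulVec_mulVec, mp, mm, zero_mulVec, zero_add,
          smul_mulVec, g7_smul, ha, g7_add, g7_adj sp, g7_adj sm, mulVec_mulVec, mulVec_mulVec,
          pm, mm, zero_mulVec, z, smul_mulVec, g7_smul]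
        ring
      rw [add_mulVec, g7_addr] at c1
      rw [sub_mulVec, g7_subr] at c2
      have : g7_om Ω a (T *ᵥ b) ^ 2 - w ^ 0 * g7_om Ω a (e *ᵥ b) ^ 2 =
          -(4 * g7_om Ω a1 ((e + T) *ᵥ b1)) * (4 * g7_om Ω a2 ((e - T) *ᵥ b2)) := by
        rw [← c1, ← c2]; ring
      rw [this, map_mul, map_neg, map_mul, map_mul, map_ofNat]
      exact mul_ne_zero (neg_ne_zero.2 (mul_ne_zero (by norm_num) h1))
        (mul_ne_zero (by norm_num) h3)
    · obtain ⟨a, b, h⟩ := g7_ent r uΩ hT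
      refine ⟨a, b, ?_⟩
      rw [map_sub, map_mul, map_pow, map_pow, rw0, zero_pow (Nat.succ_ne_zero N), zero_mul,
        sub_zero]
      exact pow_ne_zero 2 h
  obtain ⟨a, b, h⟩ := hab
  obtain ⟨s, hs⟩ := (hu _ h).exists_left_inv
  set c := g7_om Ω a (T *ᵥ b) with hc
  set α := g7_om Ω a (e *ᵥ b) with hα
  refine g7_blk h2 hΩ sa (e *ᵥ a) ((s * c) • (e *ᵥ b) - (s * α) • (T *ᵥ b)) ?_ ?_ ?_ ?_
  · rw [mulVec_mulVec, ee]
  · rw [mulVec_sub, mulVec_smul, mulVec_smul, mulVec_mulVec, mulVec_mulVec, ee, eT]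
  · rw [g7_lin, g7_adj se, g7_adj se, mulVec_mulVec, mulVec_mulVec, ee, eT, ← hc, ← hα]; ring
  · rw [mulVec_sub, mulVec_smul, mulVec_smul, mulVec_mulVec, mulVec_mulVec, Te, sq, g7_lin,
      g7_adj se, g7_adj se, mulVec_mulVec, mulVec_mulVec, eT, Matrix.mul_smul, ee, smul_mulVec,
      g7_smul, ← hc, ← hα]
    linear_combination hs

/-- ring identities of one splitting step -/
theorem g7_ring {R : Type} [Ring R] [Module B R] [IsScalarTower B R R] [SMulCommClass B R R]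
    {T e P : R} {q : B} (ee : e * e = e) (Te : T * e = T) (eT : e * T = T)
    (sq : T * T = q • e) (PP : P * P = 0) (PTP : P * T * P = P) (eP : e * P = P)
    (Pe : P * e = P) {e0 U : R} (he0 : e0 = T * P + P * T) (hU : U = T * P * T) :
    e0 * e0 = e0 ∧ e * e0 = e0 ∧ e0 * e = e0 ∧ T * e0 = U + q • P ∧ e0 * T = U + q • P ∧
      U * U = 0 ∧ U * P + P * U = e0 ∧ e0 * U = U ∧ U * e0 = U ∧ e0 * P = P ∧ P * e0 = P := by
  have PP' : ∀ x, P * (P * x) = 0 := by intro x; rw [← mul_assoc, PP, zero_mul]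
  have PTP' : ∀ x, P * (T * (P * x)) = P * x := by
    intro x; rw [← mul_assoc, ← mul_assoc, PTP]
  have PTP2 : P * (T * P) = P := by rw [← mul_assoc, PTP]
  have sq' : ∀ x, T * (T * x) = q • (e * x) := by intro x; rw [← mul_assoc, sq, smul_mul_assoc]
  have eP' : ∀ x, e * (P * x) = P * x := by intro x; rw [← mul_assoc, eP]
  have eT' : ∀ x, e * (T * x) = T * x := by intro x; rw [← mul_assoc, eT]
  subst he0 hU
  refine ⟨?_, ?_, ?_, ?_, ?_, ?_, ?_, ?_, ?_, ?_, ?_⟩ <;>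
    simp only [mul_add, add_mul, mul_assoc, PP', PTP', PTP2, sq', eP', eT', PP, sq, eP, Pe, Te,
      mul_zero, mul_smul_comm, smul_zero, add_zero, zero_add, add_comm]

/-- ring identities of gluing orthogonal blocks -/
theorem g7_glue {R : Type} [Ring R] [Module B R] [IsScalarTower B R R] [SMulCommClass B R R]
    {e e0 X Y U P : R} {q : B} (ee : e * e = e) (e00 : e0 * e0 = e0) (ee0 : e * e0 = e0)
    (e0e : e0 * e = e0) (XX : X * X = 0) (YY : Y * Y = 0) (XY : X * Y + Y * X = q • (e - e0))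
    (eX : (e - e0) * X = X) (Xe : X * (e - e0) = X) (eY : (e - e0) * Y = Y) (Ye : Y * (e - e0) = Y)
    (UU : U * U = 0) (PP : P * P = 0) (UP : U * P + P * U = e0) (eU : e0 * U = U)
    (Ue : U * e0 = U) (eP : e0 * P = P) (Pe : P * e0 = P) :
    (X + U) * (X + U) = 0 ∧ (Y + q • P) * (Y + q • P) = 0 ∧
      (X + U) * (Y + q • P) + (Y + q • P) * (X + U) = q • e ∧
      e * (X + U) = X + U ∧ (X + U) * e = X + U ∧
      e * (Y + q • P) = Y + q • P ∧ (Y + q • P) * e = Y + q • P := by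
  have o1 : (e - e0) * e0 = 0 := by rw [sub_mul, ee0, e00, sub_self]
  have o2 : e0 * (e - e0) = 0 := by rw [mul_sub, e0e, e00, sub_self]
  have c1 : ∀ a b : R, a * (e - e0) = a → e0 * b = b → a * b = 0 := by
    intro a b ha hb
    rw [← ha, ← hb, mul_assoc, ← mul_assoc (e - e0), o1, zero_mul, mul_zero]
  have c2 : ∀ a b : R, (e - e0) * a = a → b * e0 = b → b * a = 0 := by
    intro a b ha hb
    rw [← ha, ← hb, mul_assoc, ← mul_assoc e0, o2, zero_mul, mul_zero]
  have l1 : ∀ a : R, (e - e0) * a = a → e * a = a := by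
    intro a ha
    rw [← ha, ← mul_assoc, mul_sub, ee, ee0]
  have l2 : ∀ a : R, a * (e - e0) = a → a * e = a := by
    intro a ha
    rw [← ha, mul_assoc, sub_mul, ee, e0e]
  have l3 : ∀ a : R, e0 * a = a → e * a = a := by
    intro a ha
    rw [← ha, ← mul_assoc, ee0]
  have l4 : ∀ a : R, a * e0 = a → a * e = a := by
    intro a ha
    rw [← ha, mul_assoc, e0e]
  refine ⟨?_, ?_, ?_, ?_, ?_, ?_, ?_⟩
  · simp only [mul_add, add_mul, XX, UU, c1 X U Xe eU, c2 X U eX Ue, add_zero]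
  · simp only [mul_add, add_mul, YY, PP, c1 Y P Ye eP, c2 Y P eY Pe, add_zero, mul_smul_comm,
      smul_mul_assoc, smul_zero]
  · simp only [mul_add, add_mul, c1 X P Xe eP, c2 X P eX Pe, c1 Y U Ye eU, c2 Y U eY Ue,
      add_zero, zero_add, mul_smul_comm, smul_mul_assoc, smul_zero]
    have : q • e = q • (e - e0) + q • e0 := by rw [← smul_add, sub_add_cancel]
    rw [this, ← XY, ← UP, smul_add]; abel
  · rw [mul_add, l1 X eX, l3 U eU]
  · rw [add_mul, l2 X Xe, l4 U Ue]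
  · rw [mul_add, l1 Y eY, mul_smul_comm, l3 P eP]
  · rw [add_mul, l2 Y Ye, smul_mul_assoc, l4 P Pe]

theorem g7_msm {B' : Type} [CommRing B'] (ψ : B →+* B') (c : B) (M : Matrix m m B) :
    (c • M).map ψ = ψ c • M.map ψ := by
  ext i j; simp

theorem g7_sam {B' : Type} [CommRing B'] (ψ : B →+* B') {Ω M : Matrix m m B}
    (h : Mᵀ * Ω = Ω * M) : (M.map ψ)ᵀ * Ω.map ψ = Ω.map ψ * M.map ψ := by
  rw [← Matrix.transpose_map, ← Matrix.map_mul, h, Matrix.map_mul]

theorem g7_main {B' B'' : Type} [CommRing B'] [CommRing B'']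
    (ψ : B →+* B') (ε : B' →+* B'') (w : B) (r : B →+* k) (h2 : ∀ x : B, 2 * x = 0 → x = 0)
    (hr : ∀ b, r b = 0 → w ∣ b) (hu : ∀ b, r b ≠ 0 → IsUnit b) (rw0 : r w = 0)
    (hw : ∀ b, w * b = 0 → b = 0) (μ : ℕ → B') (hμ : ∀ i, ε (μ i) = ε (ψ w))
    (Ω : Matrix m m B) (hΩ : Ωᵀ = -Ω) (uΩ : IsUnit Ω) (s : ℕ) :
    ∀ (N n : ℕ) (T e : Matrix m m B), N + n ≤ s → (e.map r).trace = n → Tᵀ * Ω = Ω * T →
      eᵀ * Ω = Ω * e → e * e = e → T * e = T → e * T = T → T * T = w ^ N • e → T.trace = 0 →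
      ∃ X Y : Matrix m m B', Xᵀ * Ω.map ψ = Ω.map ψ * X ∧ Yᵀ * Ω.map ψ = Ω.map ψ * Y ∧
        X * X = 0 ∧ Y * Y = 0 ∧ X * Y + Y * X = (∏ i ∈ Finset.range N, μ i) • e.map ψ ∧
        e.map ψ * X = X ∧ X * e.map ψ = X ∧ e.map ψ * Y = Y ∧ Y * e.map ψ = Y ∧
        (X + Y).map ε = (T.map ψ).map ε := by
  have canc : ∀ M M' : Matrix m m B, w • M = w • M' → M = M' := by
    intro M M' h
    ext i j
    have := congrFun (congrFun h i) j
    simp only [Matrix.smul_apply, smul_eq_mul] at this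
    exact sub_eq_zero.1 (hw _ (by rw [mul_sub, this, sub_self]))
  induction s using Nat.strong_induction_on with
  | _ s ih =>
  intro N n T e hs hn sa se ee Te eT sq tr
  by_cases he : e.map r = 0
  · have hd : IsUnit (1 - e) := by
      rw [Matrix.isUnit_iff_isUnit_det]
      apply hu
      rw [RingHom.map_det, RingHom.mapMatrix_apply, Matrix.map_sub _ (map_sub r), he, sub_zero,
        Matrix.map_one _ (map_zero r) (map_one r), det_one]
      exact one_ne_zero
    have e0 : e = 0 := (hd.mul_left_eq_zero).1 (by rw [mul_sub, mul_one, ee, sub_self])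
    have T0 : T = 0 := by rw [← Te, e0, mul_zero]
    subst e0 T0
    exact ⟨0, 0, by simp, by simp, by simp, by simp, by simp, by simp, by simp, by simp, by simp,
      by simp⟩
  by_cases hT : T.map r = 0
  · have hdiv : ∀ i j, ∃ c, T i j = w * c := fun i j => hr _ (congrFun (congrFun hT i) j)
    choose T' hT' using hdiv
    set S : Matrix m m B := Matrix.of T' with hS
    have hTS : T = w • S := by ext i j; simp [hS, hT']
    have sq2 : w • w • (S * S) = w ^ N • e := by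
      rw [← sq, hTS, smul_mul_assoc, mul_smul_comm]
    have hz : ∀ M : Matrix m m B, e ≠ w • M := by
      intro M h
      apply he
      rw [h, g7_msm, rw0, zero_smul]
    obtain ⟨N', rfl⟩ : ∃ N', N = N' + 2 := by
      rcases N with _ | _ | N'
      · rw [pow_zero, one_smul] at sq2
        exact absurd sq2.symm (hz _)
      · rw [zero_add, pow_one] at sq2
        exact absurd (canc _ _ sq2).symm (hz _)
      · exact ⟨N', rfl⟩
    have sq3 : S * S = w ^ N' • e := by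
      apply canc; apply canc
      rw [sq2, smul_smul, smul_smul]; congr 1; ring
    obtain ⟨X, Y, sX, sY, XX, YY, XY, eX, Xe, eY, Ye, hε⟩ := ih (N' + n) (by omega) N' n S e le_rfl
      hn (canc _ _ (by rw [← smul_mul_assoc, ← transpose_smul, ← mul_smul_comm, ← hTS, sa]))
      se ee (canc _ _ (by rw [← smul_mul_assoc, ← hTS, Te]))
      (canc _ _ (by rw [← mul_smul_comm, ← hTS, eT])) sq3
      (hw _ (by rw [← smul_eq_mul, ← trace_smul, ← hTS, tr]))
    refine ⟨μ (N' + 1) • X, μ N' • Y, ?_, ?_, ?_, ?_, ?_, ?_, ?_, ?_, ?_, ?_⟩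
    · rw [transpose_smul, smul_mul_assoc, mul_smul_comm, sX]
    · rw [transpose_smul, smul_mul_assoc, mul_smul_comm, sY]
    · rw [smul_mul_assoc, mul_smul_comm, XX, smul_zero, smul_zero]
    · rw [smul_mul_assoc, mul_smul_comm, YY, smul_zero, smul_zero]
    · rw [smul_mul_assoc, mul_smul_comm, smul_mul_assoc, mul_smul_comm, smul_smul, smul_smul,
        mul_comm (μ N'), ← smul_add, XY, smul_smul, Finset.prod_range_succ, Finset.prod_range_succ]
      congr 1; ring
    · rw [mul_smul_comm, eX]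
    · rw [smul_mul_assoc, Xe]
    · rw [mul_smul_comm, eY]
    · rw [smul_mul_assoc, Ye]
    · rw [Matrix.map_add _ (map_add ε), g7_msm, g7_msm, hμ, hμ, ← smul_add,
        ← Matrix.map_add _ (map_add ε), hε, hTS, g7_msm, g7_msm]
  obtain ⟨P, sP, PP, PTP, eP, tP⟩ := g7_ex w r h2 hu rw0 hΩ uΩ sa se ee Te eT N sq tr hT
  have Pe : P * e = P := by
    apply uΩ.mul_left_cancel
    rw [← mul_assoc, ← sP, mul_assoc, ← se, ← mul_assoc, ← transpose_mul, eP]
  obtain ⟨e0, he0⟩ : ∃ e0, e0 = T * P + P * T := ⟨_, rfl⟩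
  obtain ⟨U, hU⟩ : ∃ U, U = T * P * T := ⟨_, rfl⟩
  obtain ⟨e00, ee0, e0e, Te0, e0T, UU, UP, eU, Ue, e0P, Pe0⟩ :=
    g7_ring ee Te eT sq PP PTP eP Pe he0 hU
  have sU : Uᵀ * Ω = Ω * U := by
    rw [hU, transpose_mul, transpose_mul, mul_assoc, mul_assoc, sa, ← mul_assoc Pᵀ, sP,
      ← mul_assoc, ← mul_assoc, sa]
    simp only [mul_assoc]
  have se0 : e0ᵀ * Ω = Ω * e0 := by
    rw [he0, transpose_add, transpose_mul, transpose_mul, add_mul, mul_add, mul_assoc, sa,
      ← mul_assoc, sP, mul_assoc Tᵀ, sP, ← mul_assoc Tᵀ, sa, add_comm]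
    simp only [mul_assoc]
  have tr0 : P.trace = 0 := by
    rw [← PTP, Matrix.trace_mul_cycle, PP, zero_mul, trace_zero]
  have trU : U.trace = 0 := by
    rw [hU, Matrix.trace_mul_cycle, sq, smul_mul_assoc, eP, trace_smul, tr0, smul_zero]
  have e11 : (e - e0) * (e - e0) = e - e0 := by
    rw [mul_sub, sub_mul, sub_mul, ee, e0e, ee0, e00, sub_self, sub_zero]
  obtain ⟨n', hn'⟩ := (g7_idem ((e - e0).map r) (by rw [← Matrix.map_mul, e11])).1
  have hnn : n = n' + 4 := by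
    have h4 : (e0.map r).trace = 4 := by
      rw [← AddMonoidHom.map_trace, he0, trace_add, Matrix.trace_mul_comm P, tP, ← map_ofNat r 4]
      congr 1; ring
    rw [Matrix.map_sub _ (map_sub r), trace_sub, hn, h4] at hn'
    have : (n : k) = ((n' + 4 : ℕ) : k) := by push_cast; linear_combination hn'
    exact_mod_cast this
  have TT0 : T * (T * e0) = w ^ N • e0 := by rw [← mul_assoc, sq, smul_mul_assoc, ee0]
  have cm : e0 * T = T * e0 := by rw [Te0, e0T]
  obtain ⟨X, Y, sX, sY, XX, YY, XY, eX, Xe, eY, Ye, hε⟩ := ih (N + n') (by omega) N n'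
    (T - T * e0) (e - e0) le_rfl hn'
    (by rw [Te0, transpose_sub, transpose_add, transpose_smul, sub_mul, add_mul, smul_mul_assoc,
      sa, sU, sP, mul_sub, mul_add, mul_smul_comm])
    (by rw [transpose_sub, sub_mul, se, se0, mul_sub]) e11
    (by rw [mul_sub, sub_mul, sub_mul, Te, mul_assoc, e0e, mul_assoc, e00, sub_self, sub_zero])
    (by rw [mul_sub, sub_mul, sub_mul, eT, ← mul_assoc, eT, ← mul_assoc, cm, mul_assoc, e00,
      sub_self, sub_zero])
    (by rw [mul_sub, sub_mul, sub_mul, sq, TT0, mul_assoc, cm, TT0, mul_assoc, ← mul_assoc e0, cm,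
      mul_assoc T e0, e00, TT0, sub_self, sub_zero, smul_sub])
    (by rw [Te0, trace_sub, trace_add, trace_smul, tr, trU, tr0, smul_zero, add_zero, sub_zero])
  rw [Matrix.map_sub _ (map_sub ψ)] at XY eX Xe eY Ye
  have mm : ∀ {a b c : Matrix m m B}, a * b = c → a.map ψ * b.map ψ = c.map ψ := by
    intro a b c h; rw [← Matrix.map_mul, h]
  have m0 : ∀ {a b : Matrix m m B}, a * b = 0 → a.map ψ * b.map ψ = 0 := by
    intro a b h; rw [mm h, Matrix.map_zero _ (map_zero ψ)]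
  obtain ⟨g1, g2, g3, g4, g5, g6, g7⟩ := g7_glue (mm ee) (mm e00) (mm ee0) (mm e0e) XX YY XY eX Xe
    eY Ye (m0 UU) (m0 PP)
    (by rw [← Matrix.map_mul, ← Matrix.map_mul, ← Matrix.map_add _ (map_add ψ), UP])
    (mm eU) (mm Ue) (mm e0P) (mm Pe0)
  refine ⟨_, _, ?_, ?_, g1, g2, g3, g4, g5, g6, g7, ?_⟩
  · rw [transpose_add, add_mul, mul_add, sX, g7_sam ψ sU]
  · rw [transpose_add, add_mul, mul_add, sY, transpose_smul, smul_mul_assoc, mul_smul_comm,
      g7_sam ψ sP]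
  · have hq : ε (∏ i ∈ Finset.range N, μ i) = ε (ψ (w ^ N)) := by
      rw [map_prod, Finset.prod_congr rfl (fun i _ => hμ i), Finset.prod_const, Finset.card_range,
        map_pow, map_pow]
    have hT2 : T = (T - T * e0) + (U + w ^ N • P) := by rw [← Te0, sub_add_cancel]
    rw [add_add_add_comm, Matrix.map_add _ (map_add ε), hε, Matrix.map_add _ (map_add ε), g7_msm,
      hq]
    conv_rhs => rw [hT2]
    rw [Matrix.map_add _ (map_add ψ), Matrix.map_add _ (map_add ψ), Matrix.map_add _ (map_add ε),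
      Matrix.map_add _ (map_add ε), g7_msm ψ, g7_msm ε]

end

/-- self adjoint square roots of a power of the uniformiser on a symplectic lattice deform -/
theorem sym {k B B' B'' : Type} [Field k] [CharZero k] [CommRing B] [CommRing B'] [CommRing B'']
    [Algebra k B] (ψ : B →+* B') (ε : B' →+* B'') (w : B) (r : B →ₐ[k] k)
    (hr : ∀ b, r b = 0 → w ∣ b) (hu : ∀ b, r b ≠ 0 → IsUnit b) (rw : r w = 0)
    (hw : ∀ b, w * b = 0 → b = 0) (μ : ℕ → B') (hμ : ∀ i, ε (μ i) = ε (ψ w))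
    {m : Type} [Fintype m] [DecidableEq m] (Ω T : Matrix m m B) (hΩ : Ωᵀ = -Ω) (uΩ : IsUnit Ω)
    (sa : Tᵀ * Ω = Ω * T) (N : ℕ) (sq : T * T = w ^ N • (1 : Matrix m m B)) (tr : T.trace = 0) :
    ∃ T' : Matrix m m B', T'ᵀ * Ω.map ψ = Ω.map ψ * T' ∧
      T' * T' = (∏ i ∈ Finset.range N, μ i) • (1 : Matrix m m B') ∧
      T'.map ε = (T.map ψ).map ε := by
  obtain ⟨X, Y, sX, sY, XX, YY, XY, -, -, -, -, hε⟩ :=
    g7_main ψ ε w (r : B →+* k) (g7_two k) hr hu rw hw μ hμ Ω hΩ uΩ _ N (Fintype.card m) T 1 le_rfl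
      (by rw [Matrix.map_one _ (map_zero _) (map_one _), Matrix.trace_one]) sa
      (by rw [transpose_one, one_mul, mul_one]) (one_mul _) (mul_one _) (one_mul _) sq tr
  refine ⟨X + Y, ?_, ?_, hε⟩
  · rw [transpose_add, add_mul, mul_add, sX, sY]
  · rw [Matrix.map_one _ (map_zero _) (map_one _)] at XY
    rw [add_mul, mul_add, mul_add, XX, YY, zero_add, add_zero, XY]

end Pool.Agent.Lib.MP_2cea55_ag.Gs
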