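import Pool.Agent.Lib.MP_2cea55_ag.G1
import Pool.Agent.Lib.MP_02ae3d_ag.H11L

set_option autoImplicit false
set_option linter.unusedSectionVars false

namespace Pool.Agent.Lib.MP_2cea55_ag.Gs
open Module LinearMap Matrix
open Pool.Agent.Lib.MP_02ae3d_ag (IsP cl Pol phi)
open scoped PowerSeries TensorProduct
open Pool.Agent.Lib.MP_02ae3d_ag.H11 (sm mp p1 dn d1)

variable {k : Type} [Field k] [IsAlgClosed k] [CharZero k]
  {A : Type} [CommRing A] [Algebra k A] [FiniteDimensional k A]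

/-- four elements spanning the cotangent space -/
def g8_Gen (k : Type) [Field k] [Algebra k A] (m : Ideal A) (a b c d : A) : Prop :=
  a ∈ m ∧ b ∈ m ∧ c ∈ m ∧ d ∈ m ∧
  ∀ w ∈ m, ∃ α β γ δ : k, w - (α • a + β • b + γ • c + δ • d) ∈ m ^ 2

section
variable {m : Ideal A} {a b c d : A}

theorem g8_dec (h : g8_Gen k m a b c d) (j : ℕ) : ∀ w ∈ m ^ (j + 1), ∃ s ∈ m ^ j, ∃ t ∈ m ^ j,
    ∃ u ∈ m ^ j, ∃ γ : k, w - (a * s + b * t + c * u + γ • d ^ (j + 1)) ∈ m ^ (j + 2) := by
  induction j with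
  | zero =>
    intro w hw
    obtain ⟨α, β, γ, δ, e⟩ := h.2.2.2.2 w (d1 hw (by omega))
    exact ⟨algebraMap k A α, by simp, algebraMap k A β, by simp, algebraMap k A γ, by simp, δ, by
      convert e using 2; simp [Algebra.smul_def]; ring⟩
  | succ j ih =>
    intro w hw
    rw [pow_succ] at hw
    induction hw using Submodule.mul_induction_on' with
    | mem_mul_mem x hx y hy =>
      obtain ⟨s, s1, t, t1, u, u1, η, f⟩ := ih x hx
      obtain ⟨α, β, γ, δ, e⟩ := h.2.2.2.2 y hy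
      have z : d ^ (j + 1) ∈ m ^ (j + 1) := Ideal.pow_mem_pow h.2.2.2.1 _
      refine ⟨s * y + η • α • d ^ (j + 1), add_mem (mp _ s1 (p1 hy) (by omega)) (sm _ (sm _ z)),
        t * y + η • β • d ^ (j + 1), add_mem (mp _ t1 (p1 hy) (by omega)) (sm _ (sm _ z)),
        u * y + η • γ • d ^ (j + 1), add_mem (mp _ u1 (p1 hy) (by omega)) (sm _ (sm _ z)),
        η * δ, ?_⟩
      convert add_mem (mp (j + 1 + 2) f (p1 hy) (by omega)) (sm η (mp _ z e (by omega))) using 1
      simp only [Algebra.smul_def, map_mul]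
      ring
    | add x _ y _ hx hy =>
      obtain ⟨s, s1, t, t1, u, u1, η, f⟩ := hx
      obtain ⟨s', s1', t', t1', u', u1', η', f'⟩ := hy
      refine ⟨s + s', add_mem s1 s1', t + t', add_mem t1 t1', u + u', add_mem u1 u1', η + η', ?_⟩
      convert add_mem f f' using 1
      simp only [Algebra.smul_def, map_add]
      ring

theorem g8_pert (h : g8_Gen k m a b c d) {a' b' c' : A} {u v : k} (hu : u ≠ 0) (hv : v ≠ 0)
    (e : a' - u • a ∈ m ^ 2) (e' : b' - b ∈ m ^ 2) (e'' : c' - v • c ∈ m ^ 2) :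
    g8_Gen k m a' b' c' d := by
  refine ⟨by simpa using add_mem (d1 e (by omega)) (sm u h.1),
    by simpa using add_mem (d1 e' (by omega)) h.2.1,
    by simpa using add_mem (d1 e'' (by omega)) (sm v h.2.2.1), h.2.2.2.1, fun w hw => ?_⟩
  obtain ⟨α, β, γ, δ, f⟩ := h.2.2.2.2 w hw
  refine ⟨α / u, β, γ / v, δ, ?_⟩
  convert sub_mem (sub_mem (sub_mem f (sm (α / u) e)) (sm β e')) (sm (γ / v) e'') using 1
  rw [smul_sub, smul_smul, div_mul_cancel₀ _ hu, smul_sub, smul_sub, smul_smul,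
    div_mul_cancel₀ _ hv]
  ring

theorem g8_root {K : ℕ} (hK : m ^ K = ⊥) {u : A} {q : k} (q0 : q ≠ 0)
    (e : u - algebraMap k A q ∈ m) :
    ∃ (t : A) (τ : k), τ ≠ 0 ∧ t - algebraMap k A τ ∈ m ∧ t ^ 2 * u = 1 := by
  obtain ⟨τ, hτ⟩ := IsAlgClosed.exists_eq_mul_self q⁻¹
  have t0 : τ ≠ 0 := fun z => inv_ne_zero q0 (by simp [hτ, z])
  have t1 : algebraMap k A τ * algebraMap k A τ * algebraMap k A q = 1 := by
    rw [← map_mul, ← map_mul, ← hτ, inv_mul_cancel₀ q0, map_one]
  have h2 : algebraMap k A 2⁻¹ * 2 = 1 := by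
    rw [← map_ofNat (algebraMap k A) 2, ← map_mul, inv_mul_cancel₀ two_ne_zero, map_one]
  have key : ∀ j, ∃ t, t - algebraMap k A τ ∈ m ∧ t ^ 2 * u - 1 ∈ m ^ (j + 1) := fun j => by
    induction j with
    | zero =>
      refine ⟨algebraMap k A τ, by simp, ?_⟩
      convert p1 (m.mul_mem_left (algebraMap k A τ ^ 2) e) using 1
      linear_combination t1
    | succ j ih =>
      obtain ⟨t, f, f'⟩ := ih
      refine ⟨t - algebraMap k A 2⁻¹ * algebraMap k A τ * (t ^ 2 * u - 1), ?_, ?_⟩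
      · convert sub_mem f (m.mul_mem_left (algebraMap k A 2⁻¹ * algebraMap k A τ)
          (d1 f' (by omega))) using 1
        ring
      · have g : 1 - algebraMap k A τ * t * u ∈ m := by
          convert neg_mem (add_mem (m.mul_mem_left (algebraMap k A τ * t) e)
            (m.mul_mem_left (algebraMap k A τ * algebraMap k A q) f)) using 1
          linear_combination -t1
        convert add_mem (mp (j + 1 + 1) f' (p1 g) (by omega))
          (Ideal.mul_mem_left _ ((algebraMap k A 2⁻¹ * algebraMap k A τ) ^ 2 * u)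
            (mp (j + 1 + 1) f' f' (by omega))) using 1
        linear_combination (-(algebraMap k A τ * t * u * (t ^ 2 * u - 1))) * h2
  obtain ⟨t, f, f'⟩ := key K
  refine ⟨t, τ, t0, f, sub_eq_zero.1 ?_⟩
  simpa [hK] using dn K f' (by omega)

open Polynomial in
theorem g8_split {K : ℕ} (hK : m ^ K = ⊥) (h : g8_Gen k m a b c d) (g : k[X])
    (e : a * b + c ^ 2 - aeval d g ∈ m ^ 3) :
    ∃ x y z N, g8_Gen k m x y z d ∧ x * y + z ^ 2 = d ^ N := by
  have h2 : algebraMap k A 2⁻¹ * 2 = 1 := by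
    rw [← map_ofNat (algebraMap k A) 2, ← map_mul, inv_mul_cancel₀ two_ne_zero, map_one]
  have key : ∀ j, ∃ x y z g, g8_Gen k m x y z d ∧
      x * y + z ^ 2 - aeval d (g : k[X]) ∈ m ^ (j + 3) := fun j => by
    induction j with
    | zero => exact ⟨a, b, c, g, h, e⟩
    | succ j ih =>
      obtain ⟨x, y, z, g, h, e⟩ := ih
      obtain ⟨s, s1, t, t1, u, u1, γ, f⟩ := g8_dec h (j + 2) _ e
      have u2 := Ideal.mul_mem_left _ (algebraMap k A 2⁻¹) u1
      refine ⟨x - t, y - s, z - algebraMap k A 2⁻¹ * u, g + γ • X ^ (j + 3),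
        g8_pert h one_ne_zero one_ne_zero (by simpa using dn 2 t1 (by omega))
          (by simpa using dn 2 s1 (by omega)) (by simpa using dn 2 u2 (by omega)), ?_⟩
      convert add_mem (add_mem f (mp _ s1 t1 (by omega))) (mp _ u2 u2 (by omega)) using 1
      simp only [map_add, map_smul, map_pow, aeval_X]
      linear_combination (-(z * u)) * h2
  obtain ⟨x, y, z, g, h, e⟩ := key K
  have o : ∀ w ∈ m ^ K, w = 0 := fun w hw => by simpa [hK] using hw
  obtain ⟨g, g0, e⟩ : ∃ g : k[X], g ≠ 0 ∧ x * y + z ^ 2 = aeval d g := by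
    have e := sub_eq_zero.1 (o _ (dn K e (by omega)))
    by_cases g0 : g = 0
    · exact ⟨X ^ K, by simp, by simpa [g0, o _ (Ideal.pow_mem_pow h.2.2.2.1 K)] using e⟩
    · exact ⟨g, g0, e⟩
  obtain ⟨q, q1, q2⟩ := exists_eq_pow_rootMultiplicity_mul_and_not_dvd g g0 0
  simp only [map_zero, sub_zero, X_dvd_iff] at q1 q2
  have q3 : aeval d q - algebraMap k A (q.coeff 0) ∈ m := by
    have := congr(aeval d $(X_mul_divX_add q))
    rw [map_add, map_mul, aeval_X, aeval_C] at this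
    rw [← this, add_sub_cancel_right]
    exact m.mul_mem_right _ h.2.2.2.1
  obtain ⟨t, τ, t0, t1, t2⟩ := g8_root hK q2 q3
  refine ⟨t ^ 2 * x, y, t * z, rootMultiplicity 0 g,
    g8_pert h (pow_ne_zero 2 t0) t0 ?_ (by simp) ?_, ?_⟩
  · convert mp 2 (p1 (m.mul_mem_left (t + algebraMap k A τ) t1)) (p1 h.1) (by omega) using 1
    simp only [Algebra.smul_def, map_pow]
    ring
  · convert mp 2 (p1 t1) (p1 h.2.2.1) (by omega) using 1
    simp only [Algebra.smul_def]
    ring
  · have q4 : aeval d g = d ^ rootMultiplicity 0 g * aeval d q := by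
      conv_lhs => rw [q1]
      simp
    linear_combination t ^ 2 * e + t ^ 2 * q4 + d ^ rootMultiplicity 0 g * t2

open Polynomial in
theorem g8_quad {K : ℕ} (hK : m ^ K = ⊥) (h : g8_Gen k m a b c d) {u v w r : k} (hu : u ≠ 0)
    (hv : v ≠ 0) (hw : w ≠ 0) (e : u • a ^ 2 + v • b ^ 2 + w • c ^ 2 + r • d ^ 2 ∈ m ^ 3) :
    ∃ x y z N, g8_Gen k m x y z d ∧ x * y + z ^ 2 = d ^ N := by
  obtain ⟨s, rfl⟩ := IsAlgClosed.exists_eq_mul_self u
  obtain ⟨t, ht⟩ := IsAlgClosed.exists_eq_mul_self (-v)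
  obtain ⟨p, rfl⟩ := IsAlgClosed.exists_eq_mul_self w
  obtain rfl : v = -(t * t) := by rw [← ht, neg_neg]
  have s0 : s ≠ 0 := fun z => hu (by simp [z])
  have t0 : t ≠ 0 := fun z => hv (by simp [z])
  have p0 : p ≠ 0 := fun z => hw (by simp [z])
  refine g8_split (k := k) (a := s • a + t • b) (b := s • a - t • b) (c := p • c) hK
    ⟨add_mem (sm s h.1) (sm t h.2.1), sub_mem (sm s h.1) (sm t h.2.1), sm p h.2.2.1, h.2.2.2.1,
      fun z hz => ?_⟩ (-r • X ^ 2) ?_
  · obtain ⟨α, β, γ, δ, f⟩ := h.2.2.2.2 z hz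
    refine ⟨(α / s + β / t) / 2, (α / s - β / t) / 2, γ / p, δ, ?_⟩
    convert f using 2
    match_scalars <;> field_simp <;> ring
  · convert e using 1
    simp [Algebra.smul_def]
    ring

end

theorem g8_diag {H : Matrix (Fin 4) (Fin 4) k} (h : H.IsSymm) :
    ∃ (P R : Matrix (Fin 4) (Fin 4) k) (w : Fin 4 → k), P * R = 1 ∧
      H = R.transpose * Matrix.diagonal w * R := by
  have s : LinearMap.IsSymm (Matrix.toBilin' H) := ⟨fun x y => by
    simp only [Matrix.toBilin'_apply', RingHom.id_apply]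
    rw [Matrix.dotProduct_mulVec, ← Matrix.mulVec_transpose, h.eq, dotProduct_comm]⟩
  obtain ⟨v, hv⟩ := LinearMap.BilinForm.exists_orthogonal_basis s
  let v' := v.reindex (finCongr (by simp) : _ ≃ Fin 4)
  let e := Pi.basisFun k (Fin 4)
  refine ⟨e.toMatrix v', v'.toMatrix e, fun i => Matrix.toBilin' H (v' i) (v' i),
    e.toMatrix_mul_toMatrix_flip v', ?_⟩
  have : Matrix.diagonal (fun i => Matrix.toBilin' H (v' i) (v' i)) =
      LinearMap.BilinForm.toMatrix v' (Matrix.toBilin' H) := by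
    ext i j
    by_cases e : i = j
    · simp [e]
    · simpa [e, v'] using (hv (i := Fin.cast (by simp) i) (j := Fin.cast (by simp) j)
        (by simpa using e)).symm
  rw [this, LinearMap.BilinForm.toMatrix_mul_basis_toMatrix]
  ext i j
  simp [e, LinearMap.BilinForm.toMatrix_apply]

theorem g8_lin {a : Fin 4 → A} (hn : ∀ i, IsNilpotent (a i)) (g : Gn k a) (w : A) :
    ∃ (α : k) (c : Fin 4 → k), w - (algebraMap k A α + ∑ i, c i • a i) ∈ nilradical A ^ 2 := by
  have hm : ∀ c : Fin 4 → k, ∑ i, c i • a i ∈ nilradical A := fun c =>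
    sum_mem fun i _ => sm _ (hn i)
  have hw : w ∈ Algebra.adjoin k (Set.range a) := by rw [g]; trivial
  induction hw using Algebra.adjoin_induction with
  | mem x hx =>
    obtain ⟨i, rfl⟩ := hx
    exact ⟨0, Pi.single i 1, by simp [Pi.single_apply]⟩
  | algebraMap r => exact ⟨r, 0, by simp⟩
  | add x y _ _ hx hy =>
    obtain ⟨α, c, e⟩ := hx
    obtain ⟨β, c', e'⟩ := hy
    refine ⟨α + β, c + c', ?_⟩
    convert add_mem e e' using 1
    simp only [map_add, Pi.add_apply, add_smul, Finset.sum_add_distrib]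
    ring
  | mul x y _ _ hx hy =>
    obtain ⟨α, c, e⟩ := hx
    obtain ⟨β, c', e'⟩ := hy
    refine ⟨α * β, β • c + α • c', ?_⟩
    convert add_mem (add_mem (Ideal.mul_mem_right y _ e)
      (Ideal.mul_mem_left _ (algebraMap k A α + ∑ i, c i • a i) e'))
      (mp 2 (p1 (hm c)) (p1 (hm c')) (by omega)) using 1
    simp only [map_mul, Pi.add_apply, Pi.smul_apply, smul_eq_mul, add_smul, mul_smul,
      Finset.sum_add_distrib, ← Finset.smul_sum]
    simp only [Algebra.smul_def]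
    ring

/-- splitting lemma -/
theorem morse {a : Fin 4 → A} (hn : ∀ i, IsNilpotent (a i)) (g : Gn k a)
    {H : Matrix (Fin 4) (Fin 4) k} (hs : H.IsSymm) (hr : 3 ≤ H.rank)
    (e : qf H a ∈ nilradical A ^ 3) :
    ∃ (x y z w : A) (N : ℕ), IsNilpotent w ∧ Gn k ![x, y, z, w] ∧ x * y + z ^ 2 = w ^ N := by
  classical
  rcases subsingleton_or_nontrivial A with _ | _
  · exact ⟨0, 0, 0, 0, 0, IsNilpotent.zero, Subsingleton.elim _ _, Subsingleton.elim _ _⟩
  obtain ⟨K, hK⟩ : IsNilpotent (nilradical A) :=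
    haveI := IsArtinianRing.of_finite k A
    IsArtinianRing.isNilpotent_nilradical
  obtain ⟨P, R, w, PR, rfl⟩ := g8_diag hs
  obtain ⟨i0, hi⟩ : ∃ i0 : Fin 4, ∀ j, j ≠ i0 → w j ≠ 0 := by
    have r1 : 3 ≤ Fintype.card {i // w i ≠ 0} := by
      rw [← Matrix.rank_diagonal]
      exact hr.trans ((Matrix.rank_mul_le_left _ _).trans (Matrix.rank_mul_le_right _ _))
    by_contra hc
    push Not at hc
    obtain ⟨i, -, wi⟩ := hc 0
    obtain ⟨j, ji, wj⟩ := hc i
    rw [Fintype.card_subtype] at r1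
    have : (Finset.univ.filter fun l => w l ≠ 0) ⊆ (Finset.univ.erase i).erase j := by
      intro l hl
      simp only [Finset.mem_filter, Finset.mem_univ, true_and] at hl
      simp only [Finset.mem_erase, Finset.mem_univ, and_true]
      exact ⟨fun z => hl (z ▸ wj), fun z => hl (z ▸ wi)⟩
    have := r1.trans (Finset.card_le_card this)
    rw [Finset.card_erase_of_mem (by simp [ji]), Finset.card_erase_of_mem (by simp)] at this
    simp at this
  let b : Fin 4 → A := fun i => ∑ j, R i j • a j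
  let σ := Equiv.swap i0 3
  have hb : ∀ i, b i ∈ nilradical A := fun i => sum_mem fun j _ => sm _ (hn j)
  have ab : ∀ i, a i = ∑ j, P i j • b j := fun i => by
    simp only [b, Finset.smul_sum, smul_smul]
    rw [Finset.sum_comm]
    simp only [← Finset.sum_smul, ← Matrix.mul_apply, PR, Matrix.one_apply]
    simp
  have G : g8_Gen k (nilradical A) (b (σ 0)) (b (σ 1)) (b (σ 2)) (b (σ 3)) := by
    refine ⟨hb _, hb _, hb _, hb _, fun u hu => ?_⟩
    obtain ⟨α, c, f⟩ := g8_lin hn g u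
    have α0 : α = 0 := by
      by_contra α0
      have : algebraMap k A α ∈ nilradical A := by
        convert sub_mem (sub_mem hu (d1 f (by omega)))
          (sum_mem fun i (_ : i ∈ Finset.univ) => sm (c i) (hn i)) using 1
        ring
      exact IsNilpotent.not_isUnit this ((IsUnit.mk0 _ α0).map (algebraMap k A))
    let c' : Fin 4 → k := fun j => ∑ i, c i * P i j
    refine ⟨c' (σ 0), c' (σ 1), c' (σ 2), c' (σ 3), ?_⟩
    convert f using 2
    rw [α0, (algebraMap k A).map_zero, zero_add, ← Fin.sum_univ_four fun j => c' (σ j) • b (σ j),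
      Equiv.sum_comp σ fun j => c' j • b j]
    conv_rhs => simp only [ab]
    simp only [c', Finset.sum_smul, Finset.smul_sum, smul_smul]
    rw [Finset.sum_comm]
  have hσ : ∀ j, j ≠ 3 → w (σ j) ≠ 0 := fun j hj => hi _ fun z => hj (by
    rw [← σ.symm_apply_apply j, z]; simp [σ])
  obtain ⟨x, y, z, N, G', f⟩ := g8_quad hK G (hσ 0 (by decide)) (hσ 1 (by decide))
    (hσ 2 (by decide)) (r := w (σ 3)) (by
      convert e using 1
      rw [← Fin.sum_univ_four fun j => w (σ j) • b (σ j) ^ 2,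
        Equiv.sum_comp σ fun j => w j • b j ^ 2]
      simp only [qf, b, Fin.sum_univ_four, Matrix.mul_apply, Matrix.diagonal_apply,
        Matrix.transpose_apply, Algebra.smul_def]
      simp
      ring)
  refine ⟨x, y, z, _, N, hb _, g.pert hn ?_ fun i => ?_, f⟩
  · intro j
    fin_cases j
    exacts [G'.1, G'.2.1, G'.2.2.1, G'.2.2.2.1]
  · obtain ⟨α, β, γ, δ, f⟩ := G'.2.2.2.2 _ (hn i)
    refine ⟨_, ?_, f⟩
    refine add_mem (add_mem (add_mem ?_ ?_) ?_) ?_ <;>
      refine Submodule.smul_mem _ _ (Submodule.subset_span ?_)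
    exacts [⟨0, rfl⟩, ⟨1, rfl⟩, ⟨2, rfl⟩, ⟨3, rfl⟩]

end Pool.Agent.Lib.MP_2cea55_ag.Gs
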