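import Pool.Agent.Lib.MP_2cea55_ag.G0

set_option autoImplicit false
set_option linter.unusedSectionVars false

namespace Pool.Agent.Lib.MP_2cea55_ag.Gs
open Module LinearMap Matrix
open Pool.Agent.Lib.MP_02ae3d_ag (IsP cl Pol phi)
open scoped PowerSeries TensorProduct

variable {k : Type} [Field k] [IsAlgClosed k] [CharZero k]

/-- congruence as a linear map -/
def q8_cg (C : Matrix (Fin 4) (Fin 4) k) :
    Matrix (Fin 4) (Fin 4) k →ₗ[k] Matrix (Fin 4) (Fin 4) k where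
  toFun H := Cᵀ * H * C
  map_add' a b := by simp [Matrix.mul_add, Matrix.add_mul]
  map_smul' a b := by simp

/-- the conclusion -/
def q8_Q (W : Submodule k (Matrix (Fin 4) (Fin 4) k)) : Prop :=
  ∃ C : Matrix (Fin 4) (Fin 4) k, IsUnit C ∧
      ((∀ H ∈ W, ∀ i j, i ≠ 0 → j ≠ 0 → (Cᵀ * H * C) i j = 0) ∨
        (∀ H ∈ W, ∀ i j : Fin 4, 2 ≤ i.val → (Cᵀ * H * C) i j = 0) ∧
          (∃ H ∈ W, Cᵀ * H * C = Matrix.single 0 0 1) ∧
          ∃ H ∈ W, Cᵀ * H * C = Matrix.single 1 1 1)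

theorem q8_map {W : Submodule k (Matrix (Fin 4) (Fin 4) k)} {C : Matrix (Fin 4) (Fin 4) k}
    (hC : IsUnit C) (h : q8_Q (W.map (q8_cg C))) : q8_Q W := by
  obtain ⟨D, hD, h⟩ := h
  have e : ∀ H, (C * D)ᵀ * H * (C * D) = Dᵀ * q8_cg C H * D := fun H => by
    simp [q8_cg, Matrix.mul_assoc]
  refine ⟨C * D, hC.mul hD, ?_⟩
  simp only [e]
  rcases h with h | ⟨h, ⟨_, ⟨H, hH, rfl⟩, h1⟩, _, ⟨G, hG, rfl⟩, h2⟩
  · exact .inl fun H hH => h _ ⟨H, hH, rfl⟩
  · exact .inr ⟨fun H hH => h _ ⟨H, hH, rfl⟩, ⟨H, hH, h1⟩, G, hG, h2⟩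

theorem q8_symm {W : Submodule k (Matrix (Fin 4) (Fin 4) k)} (C : Matrix (Fin 4) (Fin 4) k)
    (hs : ∀ H ∈ W, H.IsSymm) : ∀ H ∈ W.map (q8_cg C), H.IsSymm := by
  rintro _ ⟨H, hH, rfl⟩
  simp [q8_cg, Matrix.IsSymm, (hs H hH).eq, Matrix.mul_assoc]

theorem q8_rank {W : Submodule k (Matrix (Fin 4) (Fin 4) k)} (C : Matrix (Fin 4) (Fin 4) k)
    {n : ℕ} (hs : ∀ H ∈ W, H.rank ≤ n) : ∀ H ∈ W.map (q8_cg C), H.rank ≤ n := by
  rintro _ ⟨H, hH, rfl⟩
  exact (rank_mul_le_left (Cᵀ * H) C).trans ((rank_mul_le_right Cᵀ H).trans (hs H hH))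

theorem q8_minor {n : ℕ} {H : Matrix (Fin 4) (Fin 4) k} (h : H.rank ≤ n)
    (f g : Fin (n + 1) → Fin 4) : (H.submatrix f g).det = 0 := by
  by_contra e
  have u := rank_of_isUnit _ ((Matrix.isUnit_iff_isUnit_det _).2 (Ne.isUnit e))
  have := rank_submatrix_le H f g
  simp at u
  omega

theorem q8_two {M : Type} [AddCommGroup M] [Module k M] (W : Submodule k M) (p q : M → Prop)
    (hp : ∀ a b, p (a + b) → p b → p a) (hq : ∀ a b, q (a + b) → q a → q b)
    (h : ∀ H ∈ W, p H ∨ q H) : (∀ H ∈ W, p H) ∨ ∀ H ∈ W, q H := by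
  by_contra e
  push Not at e
  obtain ⟨⟨a, ha, pa⟩, b, hb, qb⟩ := e
  rcases h _ (W.add_mem ha hb) with e | e
  · exact pa (hp a b e ((h b hb).resolve_right qb))
  · exact qb (hq a b e ((h a ha).resolve_left pa))

/-- permutation matrices -/
def q8_P (σ : Equiv.Perm (Fin 4)) : Matrix (Fin 4) (Fin 4) k :=
  (1 : Matrix (Fin 4) (Fin 4) k).submatrix id σ

theorem q8_perm (σ : Equiv.Perm (Fin 4)) (H : Matrix (Fin 4) (Fin 4) k) :
    (q8_P σ)ᵀ * H * q8_P σ = H.submatrix σ σ := by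
  ext i j
  simp [q8_P, Matrix.mul_apply, Matrix.one_apply]

theorem q8_unit (σ : Equiv.Perm (Fin 4)) : IsUnit (q8_P σ : Matrix (Fin 4) (Fin 4) k) := by
  have := q8_perm (k := k) σ 1
  rw [Matrix.mul_one, submatrix_one_equiv] at this
  exact IsUnit.of_mul_eq_one_right _ this

theorem q8_sort : ∀ p : Fin 4 → Bool, ∃ σ : Equiv.Perm (Fin 4), ∀ i : Fin 4,
    p (σ i) = decide (i.val < (Finset.univ.filter fun j => p j = true).card) := by
  decide +kernel

theorem q8_nf {H : Matrix (Fin 4) (Fin 4) k} (h : H.IsSymm) :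
    ∃ (C : Matrix (Fin 4) (Fin 4) k) (w : Fin 4 → k), IsUnit C ∧ Cᵀ * H * C = diagonal w ∧
      ∀ i, w i ≠ 0 ↔ i.val < H.rank := by
  classical
  have s : LinearMap.IsSymm (Matrix.toBilin' H) := ⟨fun x y => by
    simp only [Matrix.toBilin'_apply', RingHom.id_apply]
    rw [Matrix.dotProduct_mulVec, ← Matrix.mulVec_transpose, h.eq, dotProduct_comm]⟩
  obtain ⟨v, hv⟩ := LinearMap.BilinForm.exists_orthogonal_basis s
  let v' := v.reindex (finCongr (by simp) : _ ≃ Fin 4)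
  let e := Pi.basisFun k (Fin 4)
  have u : IsUnit (e.toMatrix v') := IsUnit.of_mul_eq_one _ (e.toMatrix_mul_toMatrix_flip v')
  set w : Fin 4 → k := fun i => Matrix.toBilin' H (v' i) (v' i)
  have d : (e.toMatrix v')ᵀ * H * e.toMatrix v' = diagonal w := by
    have : Matrix.diagonal w = LinearMap.BilinForm.toMatrix v' (Matrix.toBilin' H) := by
      ext i j
      by_cases e : i = j
      · simp [e, w]
      · simpa [e, v'] using (hv (i := Fin.cast (by simp) i) (j := Fin.cast (by simp) j)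
          (by simpa using e)).symm
    rw [this, ← LinearMap.BilinForm.toMatrix_mul_basis_toMatrix e v']
    congr 2
    ext i j
    simp [e, LinearMap.BilinForm.toMatrix_apply]
  have r : H.rank = (Finset.univ.filter fun j => decide (w j ≠ 0) = true).card := by
    have u' := (Matrix.isUnit_iff_isUnit_det _).1 u
    rw [← rank_mul_eq_right_of_isUnit_det (e.toMatrix v')ᵀ H (by simpa using u'),
      ← rank_mul_eq_left_of_isUnit_det (e.toMatrix v') _ u', d, Matrix.rank_diagonal,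
      Fintype.card_subtype]
    simp
  obtain ⟨σ, hσ⟩ := q8_sort fun j => decide (w j ≠ 0)
  refine ⟨e.toMatrix v' * q8_P σ, w ∘ σ, u.mul (q8_unit σ), ?_, fun i => ?_⟩
  · rw [← submatrix_diagonal_equiv, ← q8_perm, ← d]
    simp [Matrix.mul_assoc]
  · rw [r]
    exact decide_eq_decide.1 (hσ i)

/-- the hyperbolic plane -/
def q8_hy : Matrix (Fin 4) (Fin 4) k := !![0, 1, 0, 0; 1, 0, 0, 0; 0, 0, 0, 0; 0, 0, 0, 0]

theorem q8_blk {a b : k} (ha : a ≠ 0) (hb : b ≠ 0) :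
    IsUnit !![a⁻¹, a⁻¹, 0, 0; b⁻¹, -b⁻¹, 0, 0; 0, 0, 1, 0; 0, 0, 0, 1] := by
  refine IsUnit.of_mul_eq_one !![a / 2, b / 2, 0, 0; a / 2, -b / 2, 0, 0; 0, 0, 1, 0; 0, 0, 0, 1] ?_
  ext i j
  fin_cases i <;> fin_cases j <;> simp [Matrix.mul_apply, Fin.sum_univ_four] <;> field_simp <;> ring

theorem q8_a {W : Submodule k (Matrix (Fin 4) (Fin 4) k)}
    (h : ∀ H ∈ W, ∀ i j, i ≠ 0 → j ≠ 0 → H i j = 0) : q8_Q W :=
  ⟨1, isUnit_one, .inl (by simpa using h)⟩

theorem q8_rel {W : Submodule k (Matrix (Fin 4) (Fin 4) k)} (hr : ∀ H ∈ W, H.rank ≤ 2)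
    (hy : q8_hy ∈ W) {G : Matrix (Fin 4) (Fin 4) k} (hG : G ∈ W) (s : G.IsSymm) {i j : Fin 4}
    (hi : 2 ≤ i.val) (hj : 2 ≤ j.val) : G i j = 0 ∧ G 1 j * G 0 i + G 0 j * G 1 i = 0 ∧
      G 0 0 * G 1 j * G 1 i + G 1 1 * G 0 j * G 0 i = 0 := by
  have e : ∀ x : k, -G i j * x ^ 2 + x * (G 1 j * G 0 i + G 0 j * G 1 i) + (G 0 0 * G 1 1 * G i j -
      (G 0 0 * G 1 j * G 1 i + G 1 1 * G 0 j * G 0 i)) = 0 := fun x => by
    have := q8_minor (hr _ (W.add_mem hG (W.smul_mem (x - G 0 1) hy))) ![0, 1, i] ![0, 1, j]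
    have z : ∀ l, (q8_hy : Matrix (Fin 4) (Fin 4) k) i l = 0 ∧
        (q8_hy : Matrix (Fin 4) (Fin 4) k) l j = 0 := fun l => by
      fin_cases i <;> fin_cases j <;> fin_cases l <;> simp [q8_hy] at hi hj ⊢
    have z0 : (q8_hy : Matrix (Fin 4) (Fin 4) k) 0 0 = 0 := rfl
    have z1 : (q8_hy : Matrix (Fin 4) (Fin 4) k) 1 1 = 0 := rfl
    have z2 : (q8_hy : Matrix (Fin 4) (Fin 4) k) 0 1 = 1 := rfl
    have z3 : (q8_hy : Matrix (Fin 4) (Fin 4) k) 1 0 = 1 := rfl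
    rw [Matrix.det_fin_three] at this
    simp [z, z0, z1, z2, z3, s.apply 0 1, s.apply 0 i, s.apply 1 i] at this
    linear_combination this
  have a : G i j = 0 := by linear_combination e 0 - (e 1 + e (-1)) / 2
  refine ⟨a, by linear_combination (e 1 - e (-1)) / 2, ?_⟩
  linear_combination -e 0 + G 0 0 * G 1 1 * a

theorem q8_core {W : Submodule k (Matrix (Fin 4) (Fin 4) k)} (hs : ∀ H ∈ W, H.IsSymm)
    (hr : ∀ H ∈ W, H.rank ≤ 2) (hy : q8_hy ∈ W) (h1 : ∀ H ∈ W, H 1 2 = 0 ∧ H 1 3 = 0) :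
    q8_Q W := by
  have R := fun G hG => @q8_rel k _ _ _ W hr hy G hG (hs G hG)
  have ca : (∀ H ∈ W, H 1 1 = 0) → q8_Q W := fun h => q8_a fun H hH i j hi hj => by
    have := h H hH
    have := h1 H hH
    have := (hs H hH).apply 1 2
    have := (hs H hH).apply 1 3
    have := fun i j hi hj => (R H hH (i := i) (j := j) hi hj).1
    fin_cases i <;> fin_cases j <;> simp_all
  rcases q8_two W (fun H => H 1 1 = 0) (fun H => H 0 2 = 0 ∧ H 0 3 = 0)
    (fun a b e f => by simpa [f] using e) (fun a b e f => by simpa [f] using e) (fun H hH => by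
      have a := (R H hH (i := 2) (j := 2) le_rfl le_rfl).2.2
      have b := (R H hH (i := 3) (j := 3) (by decide) (by decide)).2.2
      simp [h1 H hH] at a b
      tauto) with h | h0
  · exact ca h
  have bl : ∀ H ∈ W, ∀ i j : Fin 4, 2 ≤ i.val → H i j = 0 ∧ H j i = 0 := fun H hH i j hi => by
    rw [(hs H hH).apply i j, and_self, ← (hs H hH).apply i j]
    have := h0 H hH
    have := h1 H hH
    have := fun i j hi hj => (R H hH (i := i) (j := j) hi hj).1
    fin_cases i <;> fin_cases j <;> simp_all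
  by_cases e : ∃ G ∈ W, G 0 0 ≠ 0 ∧ G 1 1 ≠ 0
  · obtain ⟨G, hG, g0, g1⟩ := e
    obtain ⟨a, ha⟩ := IsAlgClosed.exists_eq_mul_self (4 * G 0 0)
    obtain ⟨b, hb⟩ := IsAlgClosed.exists_eq_mul_self (4 * G 1 1)
    have a0 : a ≠ 0 := by rintro rfl; simp_all
    have b0 : b ≠ 0 := by rintro rfl; simp_all
    have g0' : G 0 0 = a * a / 4 := by linear_combination ha / 4
    have g1' : G 1 1 = b * b / 4 := by linear_combination hb / 4
    have z2 := fun j => bl G hG 2 j le_rfl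
    have z3 := fun j => bl G hG 3 j (by decide)
    refine ⟨_, q8_blk a0 b0, .inr ⟨fun H hH i j hi => ?_,
      ⟨_, W.add_mem hG (W.smul_mem (a * b / 4 - G 0 1) hy), ?_⟩,
      _, W.add_mem hG (W.smul_mem (-a * b / 4 - G 0 1) hy), ?_⟩⟩
    · have z2 := fun j => bl H hH 2 j le_rfl
      have z3 := fun j => bl H hH 3 j (by decide)
      fin_cases i <;> simp [Matrix.mul_apply, Fin.sum_univ_four, z2, z3] at hi ⊢
    all_goals
      ext i j
      fin_cases i <;> fin_cases j <;> simp [Matrix.mul_apply, Fin.sum_univ_four, z2, z3, q8_hy,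
        g0', g1', (hs G hG).apply 0 1] <;> field_simp <;> ring
  rcases q8_two W (fun H => H 1 1 = 0) (fun H => H 0 0 = 0)
    (fun a b e f => by simpa [f] using e) (fun a b e f => by simpa [f] using e) (fun H hH => by
      by_contra c
      exact e ⟨H, hH, by tauto⟩) with h | h
  · exact ca h
  refine q8_map (q8_unit (Equiv.swap 0 1)) (q8_a ?_)
  rintro _ ⟨H, hH, rfl⟩ i j hi hj
  have := h H hH
  have z2 := fun j => bl H hH 2 j le_rfl
  have z3 := fun j => bl H hH 3 j (by decide)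
  rw [show q8_cg _ H = _ from q8_perm _ H]
  fin_cases i <;> fin_cases j <;> simp_all [Equiv.swap_apply_def]

theorem q8_hyp {W : Submodule k (Matrix (Fin 4) (Fin 4) k)} (hs : ∀ H ∈ W, H.IsSymm)
    (hr : ∀ H ∈ W, H.rank ≤ 2) (hy : q8_hy ∈ W) : q8_Q W := by
  have R := fun G hG => @q8_rel k _ _ _ W hr hy G hG (hs G hG)
  rcases q8_two W (fun H => H 1 2 = 0 ∧ H 1 3 = 0) (fun H => H 0 2 = 0 ∧ H 0 3 = 0)
    (fun a b e f => by simpa [f] using e) (fun a b e f => by simpa [f] using e) (fun H hH => by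
      have a := (R H hH (i := 2) (j := 2) le_rfl le_rfl).2.1
      have b := (R H hH (i := 3) (j := 3) (by decide) (by decide)).2.1
      have c := (R H hH (i := 2) (j := 3) le_rfl (by decide)).2.1
      have a' : H 1 2 * H 0 2 = 0 := by linear_combination a / 2
      have b' : H 1 3 * H 0 3 = 0 := by linear_combination b / 2
      rcases mul_eq_zero.1 a' with a | a <;> rcases mul_eq_zero.1 b' with b | b <;>
        simp [a, b] at c ⊢ <;> tauto) with h | h
  · exact q8_core hs hr hy h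
  refine q8_map (q8_unit (Equiv.swap 0 1)) (q8_core (q8_symm _ hs) (q8_rank _ hr) ⟨_, hy, ?_⟩ ?_)
  · rw [show q8_cg _ q8_hy = _ from q8_perm _ _]
    ext i j
    fin_cases i <;> fin_cases j <;> simp [q8_hy, Equiv.swap_apply_def]
  · rintro _ ⟨H, hH, rfl⟩
    rw [show q8_cg _ H = _ from q8_perm _ H]
    simpa [Equiv.swap_apply_def] using h H hH

/-- spaces of quadrics of rank at most two -/
theorem quad (W : Submodule k (Matrix (Fin 4) (Fin 4) k)) (hs : ∀ H ∈ W, H.IsSymm)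
    (hr : ∀ H ∈ W, H.rank ≤ 2) : ∃ C : Matrix (Fin 4) (Fin 4) k, IsUnit C ∧
      ((∀ H ∈ W, ∀ i j, i ≠ 0 → j ≠ 0 → (Cᵀ * H * C) i j = 0) ∨
        (∀ H ∈ W, ∀ i j : Fin 4, 2 ≤ i.val → (Cᵀ * H * C) i j = 0) ∧
          (∃ H ∈ W, Cᵀ * H * C = Matrix.single 0 0 1) ∧
          ∃ H ∈ W, Cᵀ * H * C = Matrix.single 1 1 1) := by
  show q8_Q W
  by_cases e2 : ∃ H ∈ W, H.rank = 2
  · obtain ⟨H, hH, e⟩ := e2
    obtain ⟨C, w, u, d, r⟩ := q8_nf (hs H hH)
    rw [e] at r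
    obtain ⟨a, ha⟩ := IsAlgClosed.exists_eq_mul_self (2 * w 0)
    obtain ⟨b, hb⟩ := IsAlgClosed.exists_eq_mul_self (-2 * w 1)
    have w0 := (r 0).2 (by decide)
    have w1 := (r 1).2 (by decide)
    have w2 : w 2 = 0 := by simpa using r 2
    have w3 : w 3 = 0 := by simpa using r 3
    have a0 : a ≠ 0 := by rintro rfl; simp [w0] at ha
    have b0 : b ≠ 0 := by rintro rfl; simp [w1] at hb
    have g0 : w 0 = a * a / 2 := by linear_combination ha / 2
    have g1 : w 1 = -b * b / 2 := by linear_combination -hb / 2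
    refine q8_map u (q8_map (q8_blk a0 b0) (q8_hyp (q8_symm _ (q8_symm _ hs))
      (q8_rank _ (q8_rank _ hr)) ⟨_, ⟨H, hH, rfl⟩, ?_⟩))
    rw [show q8_cg C H = _ from d]
    ext i j
    fin_cases i <;> fin_cases j <;> simp [q8_cg, q8_hy, Matrix.mul_apply, Fin.sum_univ_four, w2, w3,
      g0, g1, Matrix.diagonal_apply] <;> field_simp <;> ring
  have r1 : ∀ H ∈ W, H.rank ≤ 1 := fun H hH => by
    have := hr H hH
    have : H.rank ≠ 2 := fun e => e2 ⟨H, hH, e⟩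
    omega
  by_cases e1 : ∃ H ∈ W, H.rank = 1
  · obtain ⟨H, hH, e⟩ := e1
    obtain ⟨C, w, u, d, r⟩ := q8_nf (hs H hH)
    rw [e] at r
    have m : diagonal w ∈ W.map (q8_cg C) := ⟨H, hH, d⟩
    refine q8_map u (q8_a fun G hG i j hi hj => ?_)
    have a := q8_minor (q8_rank C r1 _ hG) ![0, i] ![0, j]
    have b := q8_minor (q8_rank C r1 _ (Submodule.add_mem _ hG m)) ![0, i] ![0, j]
    have wi : w i = 0 := by
      by_contra c
      exact hi (Fin.ext (by simpa using (r i).1 c))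
    rw [Matrix.det_fin_two] at a b
    simp [Matrix.diagonal_apply, hi, hj.symm, wi] at a b
    exact (mul_eq_zero.1 (by linear_combination b - a : w 0 * G i j = 0)).resolve_left
      ((r 0).2 (by decide))
  refine q8_a fun H hH i j _ _ => ?_
  have := r1 H hH
  have : H.rank ≠ 1 := fun e => e1 ⟨H, hH, e⟩
  exact (Matrix.det_fin_one _).symm.trans (q8_minor (n := 0) (H := H) (by omega) ![i] ![j])

end Pool.Agent.Lib.MP_2cea55_ag.Gs
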