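import Pool.Agent.Lib.MP_2cea55_ag.G6A

set_option autoImplicit false
set_option linter.unusedSectionVars false

namespace Pool.Agent.Lib.MP_2cea55_ag.Gs
open Module LinearMap Matrix
open Polynomial (X C)
open scoped Polynomial

section
variable {R : Type} [CommRing R] {d : ℕ}

/-- blocks of a vector -/
def bl (u : Fin 4 × Fin d → R) (a : Fin 4) : Fin d → R := fun j => u (a, j)

/-- a vector from its blocks -/
def ub (α : Fin 4 → Fin d → R) : Fin 4 × Fin d → R := fun q => α q.1 q.2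

/-- coordinates on the odd part of the Koszul complex -/
def ka (r r' : Fin 4 × Fin d → R) : Qm 4 d R :=
  (![bl r' 0, bl r 2, bl r 0 - bl r' 2, bl r 3 - bl r' 1], ![-bl r 1, bl r' 3, bl r' 1, -bl r' 2])

theorem ka_add (r r' s s' : Fin 4 × Fin d → R) : ka (r + s) (r' + s') = ka r r' + ka s s' := by
  ext i j <;> fin_cases i <;> simp [ka, bl] <;> ring

theorem ka_smul (c : R) (r r' : Fin 4 × Fin d → R) : ka (c • r) (c • r') = c • ka r r' := by
  ext i j <;> fin_cases i <;> simp [ka, bl] <;> ring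

/-- the matrix factorisation -/
def Th (x y z : R) (T : Matrix (Fin 4 × Fin d) (Fin 4 × Fin d) R) :
    (Fin 4 × Fin d → R) × (Fin 4 × Fin d → R) →ₗ[R] Qm 4 d R where
  toFun a := ka (z • a.1 + x • a.2 + T *ᵥ a.1) (y • a.1 - z • a.2 + T *ᵥ a.2)
  map_add' a b := by
    rw [← ka_add]
    congr 1 <;> simp only [Prod.fst_add, Prod.snd_add, mulVec_add] <;> module
  map_smul' c a := by
    rw [RingHom.id_apply, ← ka_smul]
    congr 1 <;> simp only [Prod.smul_fst, Prod.smul_snd, mulVec_smul] <;> module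

theorem Th_add (x y z t : R) (T T' : Matrix (Fin 4 × Fin d) (Fin 4 × Fin d) R) (a) :
    Th x y z (T + t • T') a = Th x y z T a + t • ka (T' *ᵥ a.1) (T' *ᵥ a.2) := by
  change ka _ _ = ka _ _ + _
  rw [← ka_smul, ← ka_add]
  simp only [add_mulVec, smul_mulVec, add_assoc]

theorem Th_iso {x y z c : R} {T Ω : Matrix (Fin 4 × Fin d) (Fin 4 × Fin d) R}
    (hΩ : ∀ u v, u ⬝ᵥ Ω *ᵥ v =
      bl u 0 ⬝ᵥ bl v 1 - bl u 1 ⬝ᵥ bl v 0 + bl u 2 ⬝ᵥ bl v 3 - bl u 3 ⬝ᵥ bl v 2)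
    (sa : Tᵀ * Ω = Ω * T) (sq : T * T = c • 1) (a a') :
    ∃ g, Jm (Th x y z T a) (Th x y z T a') = (c - x * y - z ^ 2) * g := by
  have e : ∀ r r' s s' : Fin 4 × Fin d → R, Jm (ka r r') (ka s s') =
      r ⬝ᵥ Ω *ᵥ s' - r' ⬝ᵥ Ω *ᵥ s := fun r r' s s' => by
    simp [hΩ, Jm, ka, Fin.sum_univ_four]
    ring
  have e1 : ∀ u v, (T *ᵥ u) ⬝ᵥ Ω *ᵥ v = u ⬝ᵥ Ω *ᵥ T *ᵥ v := fun u v => by
    rw [dm, mulVec_mulVec, sa, mulVec_mulVec]
  have e2 : ∀ v, T *ᵥ T *ᵥ v = c • v := fun v => by rw [mulVec_mulVec, sq, smul_mulVec, one_mulVec]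
  refine ⟨a.1 ⬝ᵥ Ω *ᵥ a'.2 - a.2 ⬝ᵥ Ω *ᵥ a'.1, (e _ _ _ _).trans ?_⟩
  simp only [add_dotProduct, sub_dotProduct, smul_dotProduct, e1, mulVec_add, mulVec_sub,
    mulVec_smul, e2, dotProduct_add, dotProduct_sub, dotProduct_smul, smul_eq_mul]
  ring

end

variable {k : Type} [Field k] [IsAlgClosed k] [CharZero k]
  {A : Type} [CommRing A] [Algebra k A] [FiniteDimensional k A] {d : ℕ} (b : Basis (Fin d) k A)
  {R R' : Type} [CommRing R] [Algebra k R] [CommRing R'] [Algebra k R']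

/-- polynomials over `A` as matrices -/
noncomputable def La (w : R) : A[X] →+* Matrix (Fin d) (Fin d) R :=
  Polynomial.eval₂RingHom' ((algebraMap k R).mapMatrix.comp (Algebra.leftMulMatrix b).toRingHom)
    (w • 1) fun _ => (Commute.one_right _).smul_right _

/-- block matrices of polynomials over `A` -/
noncomputable def Xi (w : R) :
    Matrix (Fin 4) (Fin 4) A[X] →+* Matrix (Fin 4 × Fin d) (Fin 4 × Fin d) R :=
  (compRingEquiv (Fin 4) (Fin d) R).toRingHom.comp (La b w).mapMatrix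

variable {b}

theorem La_C (w : R) (a : A) : La b w (C a) = Lm b R a := Polynomial.eval₂_C _ _

theorem La_X (w : R) : La b w X = w • 1 := Polynomial.eval₂_X _ _

theorem La_map (f : R →ₐ[k] R') (w : R) (e : A[X]) : (La b w e).map f = La b (f w) e := by
  have : (f : R →+* R').mapMatrix.comp (La b w) = La b (f w) := Polynomial.ringHom_ext
    (fun a => by ext i j; simp [La_C, Lm]) (by ext i j; simp [La_X, one_apply, apply_ite f])
  exact RingHom.congr_fun this e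

theorem La_symm {φ : A →ₗ[k] k} (o : On φ b) (w : R) (e : A[X]) : (La b w e)ᵀ = La b w e := by
  induction e using Polynomial.induction_on' with
  | add p q hp hq => rw [map_add, transpose_add, hp, hq]
  | monomial n a =>
    rw [← Polynomial.C_mul_X_pow_eq_monomial, map_mul, map_pow, La_C, La_X, smul_pow, one_pow,
      Matrix.mul_smul, Matrix.mul_one, transpose_smul, o.symm]

theorem Xi_map (f : R →ₐ[k] R') (w : R) (M) : (Xi b w M).map f = Xi b (f w) M := by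
  ext i j
  exact congrFun₂ (La_map f w (M i.1 j.1)) i.2 j.2

theorem Xi_tr {φ : A →ₗ[k] k} (o : On φ b) (w : R) (M) : (Xi b w M)ᵀ = Xi b w Mᵀ := by
  ext i j
  exact congrFun₂ (La_symm o w (M j.1 i.1)) i.2 j.2

theorem Xi_bl (w : R) (M) (u : Fin 4 × Fin d → R) (a : Fin 4) :
    bl (Xi b w M *ᵥ u) a = ∑ c, La b w (M a c) *ᵥ bl u c := by
  ext j
  simp only [bl, mulVec, dotProduct, Fintype.sum_prod_type, Finset.sum_apply]
  rfl

/-- the symplectic form -/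
def Om (A : Type) [CommRing A] : Matrix (Fin 4) (Fin 4) A :=
  !![0, 1, 0, 0; -1, 0, 0, 0; 0, 0, 0, 1; 0, 0, -1, 0]

/-- the square root -/
noncomputable def Tt (x y z w : A) (h : A[X]) : Matrix (Fin 4) (Fin 4) A[X] :=
  !![C z, 0, C y, -(X - C w); 0, C z, h, C x; C x, X - C w, -C z, 0; -h, C y, 0, -C z]

theorem Xi_Om (w : R) (u v : Fin 4 × Fin d → R) : u ⬝ᵥ Xi b w (Om A[X]) *ᵥ v =
    bl u 0 ⬝ᵥ bl v 1 - bl u 1 ⬝ᵥ bl v 0 + bl u 2 ⬝ᵥ bl v 3 - bl u 3 ⬝ᵥ bl v 2 := by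
  have : ∀ v, u ⬝ᵥ v = ∑ a, bl u a ⬝ᵥ bl v a := fun v => by
    simp only [dotProduct, Fintype.sum_prod_type, bl]
  simp [this, Xi_bl, Om, Fin.sum_univ_four, neg_mulVec]
  ring

theorem Xi_facts {φ : A →ₗ[k] k} (o : On φ b) {x y z w : A} {h : A[X]} {N : ℕ}
    (e : (X - C w) * h + C (x * y + z ^ 2) = X ^ N) (t : R) :
    (Xi b t (Om A[X]))ᵀ = -Xi b t (Om A[X]) ∧ IsUnit (Xi b t (Om A[X])) ∧
      (Xi b t (Tt x y z w h))ᵀ * Xi b t (Om A[X]) = Xi b t (Om A[X]) * Xi b t (Tt x y z w h) ∧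
      Xi b t (Tt x y z w h) * Xi b t (Tt x y z w h) = t ^ N • 1 ∧
      (Xi b t (Tt x y z w h)).trace = 0 := by
  refine ⟨?_, .map _ (IsUnit.of_mul_eq_one (-Om A[X]) ?_), ?_, ?_, ?_⟩
  · rw [Xi_tr o, ← map_neg]
    congr 1
    ext1 i j
    fin_cases i <;> fin_cases j <;> simp [Om]
  · ext1 i j
    fin_cases i <;> fin_cases j <;> simp [Om, Matrix.mul_apply, Fin.sum_univ_four]
  · rw [Xi_tr o, ← map_mul, ← map_mul]
    congr 1
    ext1 i j
    fin_cases i <;> fin_cases j <;> simp [Om, Tt, Matrix.mul_apply, Fin.sum_univ_four]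
  · have : Tt x y z w h * Tt x y z w h = scalar _ (X ^ N) := by
      rw [← e]
      ext1 i j
      fin_cases i <;> fin_cases j <;> simp [Tt, Matrix.mul_apply, Fin.sum_univ_four] <;> ring
    rw [← map_mul, this]
    ext i j
    change La b t (diagonal _ i.1 j.1) i.2 j.2 = _
    by_cases h : i.1 = j.1 <;> simp [h, La_X, one_apply, Prod.ext_iff, smul_pow]
  · have : ∀ M, (Xi b t M).trace = (La b t M.trace).trace := fun M => by
      simp only [Matrix.trace, diag_apply, Fintype.sum_prod_type, map_sum, Matrix.sum_apply]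
      exact Finset.sum_comm
    rw [this, show (Tt x y z w h).trace = 0 by simp [Tt, Matrix.trace, Fin.sum_univ_four]]
    simp

theorem Th_facts {x y z w : A} {h : A[X]} {N : ℕ} (e : (X - C w) * h + C (x * y + z ^ 2) = X ^ N)
    (h2 : IsUnit (2 : R)) (p : Fin 4 → R) {Y : Fin 4 → Matrix (Fin d) (Fin d) R}
    (hY : ∀ i, Y i = p i • 1 - Lm b R (![x, y, z, w] i)) :
    (∀ c, ∃ a, Th (p 0) (p 1) (p 2) (Xi b (p 3) (Tt x y z w h)) a = (0, fun i => Y i *ᵥ c)) ∧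
    (∀ a : Fin 4 → Fin 4 → Fin d → R, (∀ i j, a j i = -a i j) → ∃ u,
      (Th (p 0) (p 1) (p 2) (Xi b (p 3) (Tt x y z w h)) u).1 = fun i => ∑ j, Y j *ᵥ a i j) ∧
    ∃ u, ∑ i, Y i *ᵥ (Th (p 0) (p 1) (p 2) (Xi b (p 3) (Tt x y z w h)) u).1 i =
      (p 3 ^ N - p 0 * p 1 - p 2 ^ 2) • cv b R 1 := by
  have b0 : ∀ (α : Fin 4 → Fin d → R) a, bl (ub α) a = α a := fun _ _ => rfl
  have b1 : ∀ (u v : Fin 4 × Fin d → R) a, bl (u + v) a = bl u a + bl v a := fun _ _ _ => rfl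
  have b2 : ∀ (u v : Fin 4 × Fin d → R) a, bl (u - v) a = bl u a - bl v a := fun _ _ _ => rfl
  have b3 : ∀ (c : R) (u : Fin 4 × Fin d → R) a, bl (c • u) a = c • bl u a := fun _ _ _ => rfl
  have b4 : ∀ a, bl (0 : Fin 4 × Fin d → R) a = 0 := fun _ => rfl
  refine ⟨fun c => ⟨(ub ![0, 0, 0, c], ub ![0, -c, 0, 0]), ?_⟩,
    fun a sk => ⟨(ub ![a 0 1, a 1 3, a 1 2, -a 2 3], ub ![-a 0 2, 0, -a 0 1, -a 0 3]), ?_⟩,
    ⟨(ub ![-cv b R 1, 0, 0, 0], 0), ?_⟩⟩
  · ext i : 2 <;> fin_cases i <;>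
      simp [Th, ka, b0, b1, b2, b3, Xi_bl, Fin.sum_univ_four, Tt, La_C, La_X, hY, sub_mulVec,
        smul_mulVec, neg_mulVec, mulVec_neg] <;> abel
  · have z : ∀ i, a i i = 0 := fun i => h2.smul_eq_zero.1 (by
      rw [two_smul]; nth_rewrite 1 [sk i i]; exact neg_add_cancel _)
    ext1 i
    fin_cases i <;>
      simp [Th, ka, b0, b1, b2, b3, Xi_bl, Fin.sum_univ_four, Tt, La_C, La_X, hY, sub_mulVec,
        smul_mulVec, neg_mulVec, mulVec_neg, z, sk 0 1, sk 0 2, sk 0 3, sk 1 2, sk 1 3, sk 2 3] <;>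
      abel
  · have e3 := congrArg (fun e => La b (p 3) e *ᵥ cv b R 1) e
    simp only [map_add, map_mul, map_sub, map_pow, La_X, La_C, smul_pow, one_pow, smul_mulVec,
      one_mulVec, add_mulVec, ← mulVec_mulVec, sub_mulVec, sq, Lm_cv, mul_one] at e3
    rw [sub_smul, sub_smul, ← e3]
    simp [Th, ka, b0, b1, b2, b3, b4, Xi_bl, Fin.sum_univ_four, Tt, La_C, hY, sub_mulVec,
      smul_mulVec, neg_mulVec, mulVec_neg, mulVec_add, mulVec_smul, Lm_cv, mul_comm y,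
      -mulVec_mulVec]
    module

end Pool.Agent.Lib.MP_2cea55_ag.Gs
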