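import Pool.Agent.Lib.MP_2cea55_ag.G9E
import Pool.Agent.Lib.MP_2cea55_ag.G9A
import Pool.Agent.Lib.MP_2cea55_ag.G7

set_option autoImplicit false
set_option linter.unusedSectionVars false
set_option linter.style.haveILetI false

namespace Pool.Agent.Lib.MP_2cea55_ag.Gs
open Module LinearMap Matrix
open scoped PowerSeries TensorProduct Polynomial
open MvPolynomial (aeval eval pderiv)
open PowerSeries (X C constantCoeff)

variable {k : Type} [Field k] [IsAlgClosed k] [CharZero k]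
  {A : Type} [CommRing A] [Algebra k A] [FiniteDimensional k A]

/-- the local ring of the line at the origin -/
theorem g9_dvr (k : Type) [Field k] : ∃ (B : Type) (_ : CommRing B) (_ : Algebra k B) (w : B)
    (r : B →ₐ[k] k), (∀ b, r b = 0 → w ∣ b) ∧ (∀ b, r b ≠ 0 → IsUnit b) ∧ r w = 0 ∧
      (∀ b, w * b = 0 → b = 0) ∧ ∀ (S : Type) [CommRing S] [Algebra k S] (s : S),
        (∀ g : k[X], g.eval 0 ≠ 0 → IsUnit (Polynomial.aeval s g)) → ∃ ψ : B →ₐ[k] S, ψ w = s := by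
  let M := (IsUnit.submonoid k).comap (Polynomial.evalRingHom (0 : k))
  have hM : ∀ g, g ∈ M ↔ g.eval 0 ≠ 0 := fun g => isUnit_iff_ne_zero
  have nz : M ≤ nonZeroDivisors _ := fun g h => mem_nonZeroDivisors_of_ne_zero fun e =>
    (hM g).1 h (by simp [e])
  haveI := IsLocalization.isDomain_localization nz
  have key : ∀ (S : Type) [CommRing S] [Algebra k S] (s : S),
      (∀ g : k[X], g.eval 0 ≠ 0 → IsUnit (Polynomial.aeval s g)) → ∃ ψ : Localization M →ₐ[k] S,
        ∀ g, ψ (algebraMap k[X] _ g) = Polynomial.aeval s g := fun S _ _ s h =>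
    ⟨IsLocalization.liftAlgHom (M := M) (f := Polynomial.aeval s) fun g => h g ((hM g).1 g.2),
      fun g => IsLocalization.lift_eq _ g⟩
  obtain ⟨r, hr⟩ := key k 0 fun g h => by simpa using h
  have fr : ∀ b : Localization M, ∃ (g : k[X]) (u : Localization M), IsUnit u ∧
      b = algebraMap _ _ g * u := fun b => by
    obtain ⟨⟨g, s⟩, rfl⟩ := IsLocalization.mk'_surjective M b
    exact ⟨g, _, IsUnit.of_mul_eq_one _ (IsLocalization.mk'_spec (Localization M) 1 s |>.trans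
      (map_one _)), IsLocalization.mk'_eq_mul_mk'_one g s⟩
  refine ⟨Localization M, inferInstance, inferInstance, algebraMap k[X] _ .X, r, fun b h => ?_,
    fun b h => ?_, by simp [hr], fun b h => (mul_eq_zero.1 h).resolve_left fun e =>
      Polynomial.X_ne_zero (IsLocalization.injective _ nz (e.trans (map_zero _).symm)),
    fun S _ _ s h => (key S s h).imp fun ψ e => by simp [e]⟩
  · obtain ⟨g, u, hu, rfl⟩ := fr b
    rw [map_mul, (hu.map r).mul_left_eq_zero, hr] at h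
    exact (map_dvd _ (Polynomial.X_dvd_iff.2 (by
      simpa [Polynomial.coeff_zero_eq_eval_zero] using h))).mul_right _
  · obtain ⟨g, u, hu, rfl⟩ := fr b
    refine (IsLocalization.map_units _ (⟨g, (hM g).2 fun e => h ?_⟩ : M)).mul hu
    rw [map_mul, hr]
    simp [e]

theorem g9_X {S : Type} [CommRing S] [Algebra k S] (I : Ideal S⟦X⟧) :
    Ideal.Quotient.mk I X = algebraMap k⟦X⟧ (S⟦X⟧ ⧸ I) X :=
  congrArg (Ideal.Quotient.mk I) (PowerSeries.map_X _).symm

theorem g9_fin {E : Type} [CommRing E] [Algebra k⟦X⟧ E] (x : Fin 4 → E) {N : ℕ}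
    (h : ∏ i ∈ Finset.range N, (x 3 - algebraMap k⟦X⟧ E X * i) - x 0 * x 1 - x 2 ^ 2 = 0) :
    aeval (fun i => (1 : KK k) ⊗ₜ[k⟦X⟧] x i) (∏ i ∈ Finset.range N,
      (.X 3 - .C (algebraMap k⟦X⟧ (KK k) X * i)) - .X 0 * .X 1 - .X 2 ^ 2 : P 4 (KK k)) = 0 := by
  have := congrArg (Algebra.TensorProduct.includeRight (R := k⟦X⟧) (A := KK k)) h
  simp only [map_sub, map_prod, map_mul, map_pow, map_natCast, AlgHom.commutes, map_zero] at this
  simpa [map_prod, ← IsScalarTower.algebraMap_apply] using this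

theorem g9_smooth {N : ℕ} {c : ℕ → k} (hc : c.Injective) (p : Fin 4 → k)
    (h : eval p (∏ i ∈ Finset.range N, (.X 3 - .C (c i)) - .X 0 * .X 1 - .X 2 ^ 2 : P 4 k) = 0) :
    ∃ i, eval p (pderiv i
      (∏ i ∈ Finset.range N, (.X 3 - .C (c i)) - .X 0 * .X 1 - .X 2 ^ 2 : P 4 k)) ≠ 0 := by
  obtain ⟨g, hg⟩ : ∃ g : k[X], g = ∏ i ∈ Finset.range N, (.X - .C (c i)) := ⟨_, rfl⟩
  have sp : g.Separable := hg ▸ Polynomial.separable_prod_X_sub_C_iff'.2 fun _ _ _ _ e => hc e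
  have e : (∏ i ∈ Finset.range N, (.X 3 - .C (c i)) : P 4 k) = Polynomial.aeval (.X 3) g := by
    simp [hg, map_prod]
  have ev : ∀ g : k[X], eval p (Polynomial.aeval (.X 3 : P 4 k) g) = Polynomial.aeval (p 3) g :=
    fun g => by
      change aeval p _ = _
      rw [← Polynomial.aeval_algHom_apply, MvPolynomial.aeval_X]
  rw [e] at h ⊢
  by_contra! a
  have a0 := a 0
  have a2 := a 2
  have a3 := a 3
  simp [ev, MvPolynomial.pderiv_X] at h a0 a2 a3
  exact sp.aeval_derivative_ne_zero (x := p 3) (by simpa [a0, a2] using h) (by simpa using a3)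

/-- Gorenstein subschemes of the threefold singularity of type A -/
theorem an (F : Frob k A) {x y z w : A} {N : ℕ} (hw : IsNilpotent w) (g : Gn k ![x, y, z, w])
    (e : x * y + z ^ 2 = w ^ N) : SmA k A := by
  rcases subsingleton_or_nontrivial A with _ | _
  · exact fun n b => Sm.small (by simp [finrank_zero_of_subsingleton]) _
  obtain ⟨φ, b, o⟩ := F.on
  let π0 : P 4 k →ₐ[k] A := aeval ![x, y, z, w]
  let M := (IsUnit.submonoid A).comap π0
  have nz : M ≤ nonZeroDivisors _ := fun g h => mem_nonZeroDivisors_of_ne_zero fun e =>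
    not_isUnit_zero (show IsUnit (0 : A) from map_zero π0 ▸ e ▸ h)
  haveI := IsLocalization.isDomain_localization nz
  let S := Localization M
  let π : S →ₐ[k] A := IsLocalization.liftAlgHom (M := M) (f := π0) fun g => g.2
  have hπ : ∀ g, π (algebraMap _ S g) = π0 g := fun g => IsLocalization.lift_eq _ g
  let t : Fin 4 → S := fun i => algebraMap (P 4 k) S (.X i)
  have ht : ∀ i, π (t i) = ![x, y, z, w] i := fun i => by simp [t, hπ, π0]
  obtain ⟨σ, s, K⟩ := ((kz_poly b g).loc M S π hπ).km o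
  obtain ⟨B, _, _, u, r, r1, r2, r3, r4, r5⟩ := g9_dvr k
  obtain ⟨ψ, hψ⟩ := r5 S (t 3) fun g h => by
    have : IsUnit (π0 (Polynomial.aeval (.X 3) g)) := by
      obtain ⟨q, hq⟩ := Polynomial.X_dvd_sub_C (p := g)
      rw [← Polynomial.aeval_algHom_apply, sub_eq_iff_eq_add.1 hq, map_add, map_mul,
        Polynomial.aeval_C]
      refine IsNilpotent.isUnit_add_right_of_commute ((Commute.all _ _).isNilpotent_mul_right
        (by simpa [π0] using hw)) ((IsUnit.mk0 _ ?_).map _) (Commute.all _ _)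
      rwa [Polynomial.coeff_zero_eq_eval_zero]
    exact (Polynomial.aeval_algHom_apply (IsScalarTower.toAlgHom k (P 4 k) S) _ g).symm ▸
      IsLocalization.map_units S (⟨_, this⟩ : M)
  obtain ⟨h, hh⟩ : ∃ h : A[X], (.X - .C w) * h + .C (x * y + z ^ 2) = .X ^ N := by
    obtain ⟨h, hh⟩ := sub_dvd_pow_sub_pow (.X : A[X]) (.C w) N
    exact ⟨h, by rw [← hh, e]; simp⟩
  let c : S →ₐ[k] S⟦X⟧ := IsScalarTower.toAlgHom k S S⟦X⟧
  have hc : ∀ a, c a = C a := fun a => rfl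
  obtain ⟨o1, o2, o3, o4, o5⟩ := Xi_facts o hh u
  obtain ⟨T, t1, t2, t3⟩ := sym (c.comp ψ : B →+* S⟦X⟧) constantCoeff u r r1 r2 r3 r4
    (fun i => C (t 3) - X * (i : S⟦X⟧)) (fun i => by simp [hc, hψ]) _ _ o1 o2 o3 N o4 o5
  have xm : ∀ M, (Xi b u M).map (c.comp ψ : B →+* S⟦X⟧) = Xi b (C (t 3)) M := fun M =>
    (Xi_map (c.comp ψ) u M).trans (by simp [hc, hψ])
  rw [xm] at t1 t3
  obtain ⟨T1, rfl⟩ : ∃ T1, T = Xi b (C (t 3)) (Tt x y z w h) + (X : S⟦X⟧) • T1 := by
    choose T1 h1 using fun i j => PowerSeries.X_dvd_iff.2 (show constantCoeff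
      (T i j - Xi b (C (t 3)) (Tt x y z w h) i j) = 0 by
        rw [map_sub, sub_eq_zero]; exact congrFun₂ t3 i j)
    exact ⟨of T1, by ext1 i j; exact eq_add_of_sub_eq' (h1 i j)⟩
  obtain ⟨f1, f2, f3, f4⟩ := Th_facts (b := b) hh (map_ofNat (algebraMap k S⟦X⟧) 2 ▸
    (IsUnit.mk0 (2 : k) two_ne_zero).map _) (fun i => C (t i))
    (Y := fun i => (Ym b π (t i)).map C) fun i => by
      ext1 j l
      simp [Ym, Lm, ht, one_apply, PowerSeries.algebraMap_apply, apply_ite (C : S → _)]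
  obtain ⟨q, hq⟩ : ∃ q : S⟦X⟧, q = ∏ i ∈ Finset.range N, (C (t 3) - X * (i : S⟦X⟧)) -
    C (t 0) * C (t 1) - C (t 2) ^ 2 := ⟨_, rfl⟩
  have q0 : constantCoeff q = t 3 ^ N - t 0 * t 1 - t 2 ^ 2 := by simp [hq, map_prod]
  have q1 : constantCoeff q ≠ 0 := fun a => by
    have := congrArg (eval ![2, 1, 0, 1]) (IsLocalization.injective S nz
      (a₁ := .X 3 ^ N - .X 0 * .X 1 - .X 2 ^ 2) (a₂ := 0) (by simpa [q0, t] using a))
    simp at this
    norm_num at this
  obtain ⟨q', hq'⟩ := PowerSeries.X_dvd_iff.2 (show constantCoeff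
    (C (t 3) ^ N - C (t 0) * C (t 1) - C (t 2) ^ 2 - q) = 0 by simp [q0])
  obtain ⟨I, ρ, f, D, e1, hI, -⟩ := K.df ((cpl_ps.pi _).prod (cpl_ps.pi _))
    (Th (C (t 0)) (C (t 1)) (C (t 2)) _) q
    (fun g h e => by
      obtain ⟨g', rfl⟩ := PowerSeries.X_dvd_iff.2 ((mul_eq_zero.1
        (by simpa using congrArg constantCoeff e)).resolve_left q1)
      exact ⟨g', PowerSeries.X_mul_injective (by simp only [← e]; ring)⟩)
    (fun a a' => hq ▸ Th_iso (Xi_Om _) t1 t2 a a') (by simp [q0, ht, ← e])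
    (fun c => (f1 c).imp fun a e => ⟨_, by rw [Th_add, e]⟩)
    (fun a sk => (f2 a sk).imp fun a e => ⟨_, by rw [Th_add, Prod.fst_add, e]; rfl⟩)
    ⟨f3, q' • cv b _ 1 + ∑ i, (Ym b π (t i)).map C *ᵥ (ka (T1 *ᵥ f3.1) (T1 *ᵥ f3.2)).1 i, by
      simp only [Th_add, Prod.fst_add, Pi.add_apply, mulVec_add, Finset.sum_add_distrib,
        Prod.smul_fst, Pi.smul_apply, mulVec_smul, ← Finset.smul_sum]
      rw [f4, sub_eq_iff_eq_add.1 hq', add_smul, smul_add, smul_smul]
      abel⟩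
  have qI : Ideal.Quotient.mk I q = 0 :=
    Ideal.Quotient.eq_zero_iff_mem.2 ((hI _).2 ⟨1, 0, by simp [Jm]⟩)
  haveI := D.fd
  haveI := kk_char (k := k)
  have τ0 : algebraMap k⟦X⟧ (KK k) X ≠ 0 := by
    simp [IsScalarTower.algebraMap_apply k⟦X⟧ (FractionRing k⟦X⟧) (KK k), PowerSeries.X_ne_zero]
  refine D.sm (smooth (D.frob F) (D.gn (x := fun i => Ideal.Quotient.mk I (C (t i)))
    (by simpa [e1, ht] using g)) ?_ (g9_smooth (N := N)
      (c := fun i => algebraMap k⟦X⟧ (KK k) X * i) fun i j e => by simpa [τ0] using e))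
  exact g9_fin _ (by simpa [hq, map_prod, g9_X (k := k) I] using qI)

end Pool.Agent.Lib.MP_2cea55_ag.Gs
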