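import Pool.Agent.Lib.MP_2cea55_ag.G6

set_option autoImplicit false
set_option linter.unusedSectionVars false

namespace Pool.Agent.Lib.MP_2cea55_ag.Gs
open Module LinearMap Matrix
open Pool.Agent.Lib.MP_02ae3d_ag (IsP cl Pol phi)
open scoped PowerSeries TensorProduct

open MvPolynomial (aeval eval pderiv X C constantCoeff)
open Pool.Agent.Lib.MP_02ae3d_ag.H11 (sm mp p1 dn d1)

variable {k : Type} [Field k] [IsAlgClosed k] [CharZero k]
  {A : Type} [CommRing A] [Algebra k A] [FiniteDimensional k A]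

theorem g9_tay {n : ℕ} {a : Fin n → A} (hn : ∀ i, IsNilpotent (a i)) (g : Gn k a) (q : P n k) :
    aeval a q - (algebraMap k A (constantCoeff q) + ∑ i, gr q i • a i) ∈ nilradical A ^ 2 := by
  have t := Ideal.mem_map_of_mem (aeval a : P n k →ₐ[k] A) (taylor q)
  rw [Ideal.map_pow, g.map_M0 hn] at t
  have h : ∀ i, a i ∈ nilradical A := hn
  convert add_mem (dn 2 t (by omega)) (sm (2 : k)⁻¹ (Ideal.sum_mem _ fun i
    (_ : i ∈ Finset.univ) => Ideal.sum_mem _ fun j (_ : j ∈ Finset.univ) => sm
      (he q i j) (mp 2 (p1 (h i)) (p1 (h j)) (by omega)))) using 1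
  simp [qf]
  ring

theorem g9_c0 [Nontrivial A] {n : ℕ} {a : Fin n → A} (hn : ∀ i, IsNilpotent (a i)) (g : Gn k a)
    {q : P n k} (e : aeval a q = 0) : constantCoeff q = 0 := by
  have t := d1 (g9_tay hn g q) (by omega)
  rw [e, zero_sub, neg_mem_iff, add_mem_cancel_right (Ideal.sum_mem _ fun i _ =>
    sm _ (show a i ∈ nilradical A from hn i))] at t
  exact by_contra fun h => (mem_nilradical.1 t).not_isUnit ((IsUnit.mk0 _ h).map (algebraMap k A))

theorem emb3 (F : Frob k A) {a : Fin 4 → A} (hn : ∀ i, IsNilpotent (a i)) (g : Gn k a)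
    {q : P 4 k} (e : aeval a q = 0) (h : ∃ i, gr q i ≠ 0) : SmA k A := by
  rcases subsingleton_or_nontrivial A with _ | nt
  · exact fun n b => Sm.small (by simp [finrank_zero_of_subsingleton]) _
  obtain ⟨i, hi⟩ := h
  have t := g9_tay hn g q
  rw [e, g9_c0 hn g e, map_zero, zero_add, zero_sub, neg_mem_iff, Fin.sum_univ_succAbove _ i] at t
  refine g3 F (g.pert hn (a' := fun j : Fin 3 => a (i.succAbove j)) (fun j => hn _) fun l => ?_)
  obtain rfl | ⟨j, rfl⟩ := Fin.eq_self_or_eq_succAbove i l
  · refine ⟨-(gr q l)⁻¹ • ∑ j, gr q (l.succAbove j) • a (l.succAbove j), Submodule.smul_mem _ _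
      (Submodule.sum_mem _ fun j _ => Submodule.smul_mem _ _ (Submodule.subset_span ⟨j, rfl⟩)), ?_⟩
    convert sm (gr q l)⁻¹ t using 1
    rw [smul_add, inv_smul_smul₀ hi, neg_smul, sub_neg_eq_add]
  · exact ⟨_, Submodule.subset_span ⟨j, rfl⟩, by simp⟩

theorem g9_shift {n : ℕ} (p : Fin n → k) (q : P n k) (i : Fin n) :
    pderiv i (aeval (fun j => X j + C (p j)) q : P n k) =
      aeval (fun j => X j + C (p j)) (pderiv i q) := by
  induction q using MvPolynomial.induction_on with
  | C c => simp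
  | add f g a b => simp only [map_add, a, b]
  | mul_X f l a =>
    by_cases e : l = i <;>
      simp [a, MvPolynomial.pderiv_X, e, -MvPolynomial.aeval_eq_bind₁]

theorem g9_cc {n : ℕ} (p : Fin n → k) (q : P n k) :
    constantCoeff (aeval (fun j => X j + C (p j)) q : P n k) = eval p q := by
  induction q using MvPolynomial.induction_on with
  | C c => simp
  | add f g a b => simp only [map_add, a, b]
  | mul_X f l a => simp [a, -MvPolynomial.aeval_eq_bind₁]

/-- Gorenstein subschemes of a smooth hypersurface -/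
theorem smooth (F : Frob k A) {a : Fin 4 → A} (g : Gn k a) {q : P 4 k} (e : aeval a q = 0)
    (h : ∀ p, eval p q = 0 → ∃ i, eval p (pderiv i q) ≠ 0) : SmA k A := by
  induction hd : finrank k A using Nat.strong_induction_on generalizing A with | _ d ih => ?_
  subst hd
  refine SmA.loc F a (fun B _ _ _ π s FB l => ih _ l FB (g.map π s) ?_ rfl) fun p _ hn => ?_
  · rw [← MvPolynomial.comp_aeval, AlgHom.comp_apply, e, map_zero]
  · have e' : aeval (fun i => a i - algebraMap k A (p i))
        (aeval (fun j => X j + C (p j)) q : P 4 k) = 0 := by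
      rw [← AlgHom.comp_apply, MvPolynomial.comp_aeval]
      simpa using e
    refine emb3 F hn (g.shift p) e' ?_
    simpa only [gr, g9_shift, g9_cc] using h p (g9_cc p q ▸ g9_c0 hn (g.shift p) e')

end Pool.Agent.Lib.MP_2cea55_ag.Gs
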