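import Pool.Agent.Lib.MP_2cea55_ag.G8
import Pool.Agent.Lib.MP_2cea55_ag.G9

set_option autoImplicit false
set_option linter.unusedSectionVars false

namespace Pool.Agent.Lib.MP_2cea55_ag.Gs
open Module LinearMap Matrix
open Pool.Agent.Lib.MP_02ae3d_ag (IsP cl Pol phi)
open scoped PowerSeries TensorProduct

open MvPolynomial (X C aeval constantCoeff)
open Filter (cofinite)

variable {k : Type} [Field k] [IsAlgClosed k] [CharZero k]
  {A : Type} [CommRing A] [Algebra k A] [FiniteDimensional k A]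

/-- the local criterion -/
theorem crit (F : Frob k A) {a : Fin 4 → A} (hn : ∀ i, IsNilpotent (a i)) (g : Gn k a)
    {q : P 4 k} (e : aeval a q = 0) (h : (∃ i, gr q i ≠ 0) ∨ 3 ≤ (he q).rank) : SmA k A := by
  by_cases h0 : ∃ i, gr q i ≠ 0
  · exact emb3 F hn g e h0
  have hr := h.resolve_left h0
  have h1 : ∀ i, gr q i = 0 := fun i => by_contra fun a => h0 ⟨i, a⟩
  have t := Ideal.mem_map_of_mem (aeval a : P 4 k →ₐ[k] A) (taylor q)
  have t2 : (aeval a : P 4 k →ₐ[k] A) (qf (he q) X) = qf (he q) a := by simp [qf]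
  rw [Ideal.map_pow, g.map_M0 hn, map_sub, e, zero_sub, neg_mem_iff] at t
  simp only [h1, zero_smul, Finset.sum_const_zero, add_zero, map_add, map_smul, t2,
    MvPolynomial.aeval_C] at t
  have t3 : qf (he q) a ∈ nilradical A := Ideal.sum_mem _ fun i _ => Ideal.sum_mem _ fun j _ => by
    rw [Algebra.smul_def]
    exact Ideal.mul_mem_left _ _ (Ideal.mul_mem_left _ _ (hn j))
  have t4 : algebraMap k A (constantCoeff q) ∈ nilradical A := by
    refine (Ideal.add_mem_iff_left _ ?_).1 (Ideal.pow_le_self three_ne_zero t)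
    rw [Algebra.smul_def]
    exact Ideal.mul_mem_left _ _ t3
  have t5 : algebraMap k A (constantCoeff q) = 0 := by
    by_cases c : constantCoeff q = 0
    · rw [c, map_zero]
    · rcases subsingleton_or_nontrivial A with _ | _
      · exact Subsingleton.elim _ _
      · exact absurd t4 ((IsUnit.mk0 _ c).map (algebraMap k A)).not_isNilpotent
  rw [t5, zero_add] at t
  have t6 : qf (he q) a ∈ nilradical A ^ 3 := by
    have := Ideal.mul_mem_left _ (algebraMap k A 2) t
    rwa [← Algebra.smul_def, smul_smul, mul_inv_cancel₀ two_ne_zero, one_smul] at this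
  obtain ⟨x, y, z, w, N, hw, g', e'⟩ := morse hn g (he_symm q) hr t6
  exact an F hw g' e'

variable {V : Type} [AddCommGroup V] [Module k V] [FiniteDimensional k V]

/-- modules that are not local are smoothable -/
def IH (k V : Type) [Field k] [AddCommGroup V] [Module k V] : Prop :=
  ∀ (B : LinearMap.BilinForm k V) (π : P 4 k →ₐ[k] End k V) (v : V), Fm B π v →
    (¬ Sm fun i => π (X i)) → ∃ p : Fin 4 → k, ∀ i, IsNilpotent (π (X i) - p i • 1)

/-- a minimal counterexample -/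
structure Bad (B : LinearMap.BilinForm k V) (π : P 4 k →ₐ[k] End k V) (v : V) : Prop where
  fm : Fm B π v
  ih : IH k V
  ns : ¬ Sm fun i => π (X i)

/-- the vector represents the functional -/
def Rp (B : LinearMap.BilinForm k V) (π : P 4 k →ₐ[k] End k V) (v u : V) (l : P 4 k → k) : Prop :=
  ∀ g, B u (π g v) = l g

/-- value, first derivatives, and second derivatives along a line -/
def Ok (B : LinearMap.BilinForm k V) (π : P 4 k →ₐ[k] End k V) (v u : V) : Prop :=
  Rp B π v u constantCoeff ∨ (∃ p, Rp B π v u fun g => p ⬝ᵥ gr g) ∨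
    ∃ p, Rp B π v u fun g => p ⬝ᵥ he g *ᵥ p

variable {B : LinearMap.BilinForm k V} {π : P 4 k →ₐ[k] End k V} {v : V}

theorem Fm.rp (F : Fm B π v) (l : P 4 k →ₗ[k] k) (h : ∀ g, π g v = 0 → l g = 0) :
    ∃ u, Rp B π v u l := by
  let ev : P 4 k →ₗ[k] V := applyₗ v ∘ₗ π.toLinearMap
  obtain ⟨σ, hσ⟩ := ev.exists_rightInverse_of_surjective (range_eq_top.2 F.cyc)
  have inj : Function.Injective (B : V →ₗ[k] Dual k V) :=
    (injective_iff_map_eq_zero _).2 fun u hu => F.nd u fun w => congr($hu w)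
  obtain ⟨u, hu⟩ := (injective_iff_surjective_of_finrank_eq_finrank
    Subspace.dual_finrank_eq.symm).1 inj (l ∘ₗ σ)
  refine ⟨u, fun g => ?_⟩
  have e : π (σ (π g v)) v = π g v := congr($hσ (π g v))
  have := h (σ (π g v) - g) (by rw [map_sub, LinearMap.sub_apply, e, sub_self])
  rw [map_sub, sub_eq_zero] at this
  exact (congr($hu (π g v))).trans this

theorem Rp.uniq (F : Fm B π v) {u u' : V} {l : P 4 k → k} (h : Rp B π v u l)
    (h' : Rp B π v u' l) : u = u' := by
  refine sub_eq_zero.1 (F.nd _ fun w => ?_)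
  obtain ⟨g, rfl⟩ := F.cyc w
  rw [map_sub, LinearMap.sub_apply, h, h', sub_self]

theorem Rp.mul (F : Fm B π v) {u : V} {l : P 4 k → k} (h : Rp B π v u l) (f : P 4 k) :
    Rp B π v (π f u) fun g => l (f * g) := fun g => by
  rw [F.adj, ← End.mul_apply, ← map_mul, h]

theorem gr_mul {n : ℕ} (f g : P n k) :
    gr (f * g) = constantCoeff f • gr g + constantCoeff g • gr f := by
  ext i
  simp only [gr, MvPolynomial.pderiv_mul, map_add, map_mul, Pi.add_apply, Pi.smul_apply,
    smul_eq_mul]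
  ring

theorem he_mul {n : ℕ} (f g : P n k) : he (f * g) = constantCoeff f • he g +
    constantCoeff g • he f + vecMulVec (gr f) (gr g) + vecMulVec (gr g) (gr f) := by
  ext i j
  simp only [gr, he, MvPolynomial.pderiv_mul, map_add, map_mul, Matrix.add_apply,
    Matrix.smul_apply, smul_eq_mul, of_apply, vecMulVec_apply]
  ring

theorem ga_gr_X {n : ℕ} (i : Fin n) : gr (X i : P n k) = Pi.single i 1 := by
  ext j
  by_cases h : j = i
  · simp [gr, h]
  · simp [gr, h, MvPolynomial.pderiv_X_of_ne (Ne.symm h)]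

theorem ga_he_X {n : ℕ} (i : Fin n) : he (X i : P n k) = 0 := by
  ext j l
  by_cases h : l = i
  · simp [he, h]
  · simp [he, Ne.symm h]

theorem ga_gr_add {n : ℕ} (f g : P n k) : gr (f + g) = gr f + gr g := by
  ext i
  simp [gr]

theorem ga_gr_smul {n : ℕ} (c : k) (f : P n k) : gr (c • f) = c • gr f := by
  ext i
  simp [gr]

theorem ga_adj {n : ℕ} (π : P n k →ₐ[k] End k V) (g : P n k) :
    π g ∈ Algebra.adjoin k (Set.range fun i => π (X i)) := by
  induction g using MvPolynomial.induction_on with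
  | C c => rw [MvPolynomial.algHom_C]; exact Subalgebra.algebraMap_mem _ _
  | add p q a b => rw [map_add]; exact add_mem a b
  | mul_X p i a => rw [map_mul]; exact mul_mem a (Algebra.subset_adjoin ⟨i, rfl⟩)

theorem ga_rel (b : Bad B π v) (nil : ∀ i, IsNilpotent (π (X i))) {q : P 4 k} (h : π q = 0) :
    ¬ ((∃ i, gr q i ≠ 0) ∨ 3 ≤ (he q).rank) := fun hh => b.ns <| b.fm.alg fun F _ => by
  have e : (aeval fun i => Ideal.Quotient.mk (RingHom.ker π) (X i) : P 4 k →ₐ[k] _) =
      Ideal.Quotient.mkₐ k (RingHom.ker π) := MvPolynomial.algHom_ext fun i => by simp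
  refine crit F (a := fun i => Ideal.Quotient.mk _ (X i)) (fun i => ?_) ?_ ?_ hh
  · obtain ⟨n, hn⟩ := nil i
    exact ⟨n, by rw [← map_pow, Ideal.Quotient.eq_zero_iff_mem, RingHom.mem_ker, map_pow, hn]⟩
  · rw [Gn, Algebra.adjoin_range_eq_range_aeval, e, AlgHom.range_eq_top]
    exact Ideal.Quotient.mkₐ_surjective k _
  · rw [e]
    exact Ideal.Quotient.eq_zero_iff_mem.2 h

theorem Bad.rel (b : Bad B π v) (nil : ∀ i, IsNilpotent (π (X i))) {g : P 4 k} (h : π g v = 0) :
    constantCoeff g = 0 ∧ gr g = 0 ∧ (he g).rank ≤ 2 := by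
  have z := b.fm.ann h
  have a := ga_rel b nil z
  refine ⟨by_contra fun c => ga_rel b nil (q := X 0 * g) (by rw [map_mul, z, mul_zero])
    (.inl ⟨0, ?_⟩), funext fun i => by_contra fun c => a (.inl ⟨i, c⟩),
    by_contra fun c => a (.inr (by omega))⟩
  simpa [gr_mul, ga_gr_X] using c

theorem Bad.dim (b : Bad B π v) (nil : ∀ i, IsNilpotent (π (X i))) : 5 ≤ finrank k V := by
  let L : (k × (Fin 4 → k)) →ₗ[k] P 4 k :=
    (Algebra.linearMap k _).coprod (Fintype.linearCombination k X)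
  have inj : Function.Injective ((applyₗ v ∘ₗ π.toLinearMap) ∘ₗ L) := by
    refine (injective_iff_map_eq_zero _).2 fun c hc => ?_
    obtain ⟨h1, h2, -⟩ := b.rel nil (g := L c) hc
    refine Prod.ext ?_ (funext fun i => ?_)
    · simpa [L, Fintype.linearCombination_apply] using h1
    · simpa [L, Fintype.linearCombination_apply, gr, MvPolynomial.pderiv_X, Pi.single_apply]
        using congr($h2 i)
  simpa using LinearMap.finrank_le_finrank_of_injective inj

theorem Bad.subst (b : Bad B π v) (h : Fin 4 → P 4 k)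
    (e : ∀ i, ∃ g, π.comp (aeval h) g = π (X i)) : Bad B (π.comp (aeval h)) v := by
  refine ⟨⟨b.fm.symm, b.fm.nd, fun g => b.fm.adj _, fun u => ?_⟩, b.ih, fun s => b.ns ?_⟩
  · obtain ⟨g, rfl⟩ := b.fm.cyc u
    have : Algebra.adjoin k (Set.range fun i => π (X i)) ≤ (π.comp (aeval h)).range :=
      Algebra.adjoin_le (by rintro _ ⟨i, rfl⟩; exact e i)
    obtain ⟨f, hf⟩ := this (ga_adj π g)
    exact ⟨f, congr($hf v)⟩
  · refine s.adj fun i => ?_
    obtain ⟨g, hg⟩ := e i
    exact hg ▸ ga_adj _ g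

theorem Bad.fam (b : Bad B π v) (E : Fin 4 → End k V) (a : ∀ i u w, B (E i u) w = B u (E i w))
    (c : ∀ (t : k) i j, Commute (π (X i) + t • E i) (π (X j) + t • E j)) :
    ∀ᶠ t : k in cofinite, ∃ π' : P 4 k →ₐ[k] End k V,
      (∀ i, π' (X i) = π (X i) + t • E i) ∧ Bad B π' v :=
  (b.fm.fam E a c b.ns).mono fun _ ⟨π', h1, h2, h3⟩ => ⟨π', h1, h2, b.ih, h3⟩

theorem ga_phi {T E : End k V}
    (h : ∀ᶠ t : k in cofinite, ∃ c : k, IsNilpotent (T + t • E - c • 1)) : phi E = 0 := by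
  have p : IsP k fun t : k => phi (T + t • E) := by
    simp only [phi, sq]
    fun_prop
  have z := p.zero (Set.infinite_of_finite_compl (h.mono fun t ⟨c, a⟩ => by
    rw [← MP_02ae3d_ag.phi_nil a]
    generalize T + t • E = S
    simp [phi, mul_sub, sub_mul]
    ring))
  have := z 0
  have := z 1
  have := z (-1)
  simp only [phi, mul_add, add_mul, smul_mul_assoc, mul_smul_comm, map_add, map_smul,
    smul_eq_mul] at *
  grind

theorem ga_comm {E F G : End k V} {r : Fin 4 → k} (h : ∀ i, π (X i) * E = r i • F)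
    (h' : ∀ i, E * π (X i) = r i • G) (t : k) (i j : Fin 4) :
    Commute (π (X i) + t • r i • E) (π (X j) + t • r j • E) := by
  have := ((Commute.all (X i : P 4 k) (X j)).map π).eq
  simp only [Commute, SemiconjBy, mul_add, add_mul, smul_mul_assoc, mul_smul_comm, h, h', this]
  module

/-- ray families -/
theorem Bad.r1 (b : Bad B π v) (d : 2 ≤ finrank k V) {p : Fin 4 → k} (hp : p ≠ 0) {u u' : V}
    (h : ∀ i, π (X i) u = p i • u') : B u u = 0 := by
  obtain ⟨i, hi⟩ := Function.ne_iff.1 hp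
  have f := b.fam (fun i => p i • (B u).smulRight u)
    (fun i a w => by simp [b.fm.symm a u, mul_comm])
    (ga_comm (F := (B u).smulRight u') (G := (B u').smulRight u)
      (fun i => LinearMap.ext fun w => by simp [h, smul_smul, mul_comm])
      (fun i => LinearMap.ext fun w => by simp [← b.fm.adj, h, smul_smul]))
  have z := ga_phi (T := π (X i)) (E := p i • (B u).smulRight u) (f.mono fun t ⟨π', e, b'⟩ => by
    obtain ⟨c, hc⟩ := b.ih B π' v b'.fm b'.ns
    exact ⟨c i, e i ▸ hc i⟩)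
  have m : (B u).smulRight u * (B u).smulRight u = B u u • (B u).smulRight u :=
    LinearMap.ext fun w => by simp [smul_smul, mul_comm]
  have d' : (finrank k V : k) - 1 ≠ 0 := by
    rw [sub_ne_zero, Ne, Nat.cast_eq_one]
    omega
  simp only [phi, smul_mul_assoc, mul_smul_comm, m, map_smul, trace_smulRight, smul_eq_mul] at z
  have : (finrank k V - 1 : k) * (p i * B u u) ^ 2 = 0 := by linear_combination z
  simpa [d', show p i ≠ 0 from hi] using this

theorem ga_r1 (b : Bad B π v) (d : 2 ≤ finrank k V) (p : Fin 4 → k) {u : V} (u' : V)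
    (h : ∀ i, π (X i) u = p i • u') : B u u = 0 := by
  by_cases hp : p = 0
  · exact b.r1 d (p := 1) one_ne_zero (u' := 0) fun i => by simp [h, hp]
  · exact b.r1 d hp h

theorem ga_pol0 (F : Fm B π v) {u w : V} (h : B u u = 0) (h' : B w w = 0)
    (e : B (u + w) (u + w) = 0) : B u w = 0 := by
  simp only [map_add, LinearMap.add_apply, h, h', F.symm w u] at e
  exact add_self_eq_zero.1 (by linear_combination e)

theorem ga_pol (b : Bad B π v) (d : 2 ≤ finrank k V) (p : Fin 4 → k) {u w : V} (u' w' : V)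
    (h : ∀ i, π (X i) u = p i • u') (h' : ∀ i, π (X i) w = p i • w') : B u w = 0 :=
  ga_pol0 b.fm (ga_r1 b d p u' h) (ga_r1 b d p w' h')
    (ga_r1 b d p (u' + w') fun i => by rw [map_add, h, h', smul_add])

theorem ga_two (b : Bad B π v) (nil : ∀ i, IsNilpotent (π (X i))) : 2 ≤ finrank k V :=
  le_trans (by norm_num) (b.dim nil)

theorem ga_ex0 (b : Bad B π v) (nil : ∀ i, IsNilpotent (π (X i))) :
    ∃ s, Rp B π v s constantCoeff :=
  b.fm.rp ⟨⟨constantCoeff, map_add _⟩, by simp⟩ fun _ h => (b.rel nil h).1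

theorem ga_ex1 (b : Bad B π v) (nil : ∀ i, IsNilpotent (π (X i))) (p : Fin 4 → k) :
    ∃ u, Rp B π v u fun g => p ⬝ᵥ gr g :=
  b.fm.rp ⟨⟨fun g => p ⬝ᵥ gr g, by simp [ga_gr_add]⟩, by simp [ga_gr_smul]⟩ fun _ h => by
    simp [(b.rel nil h).2.1]

theorem ga_x0 (F : Fm B π v) {s : V} (hs : Rp B π v s constantCoeff) (i : Fin 4) :
    π (X i) s = 0 := (hs.mul F (X i)).uniq F fun g => by simp

theorem ga_x1 (F : Fm B π v) {s u : V} {p : Fin 4 → k} (hs : Rp B π v s constantCoeff)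
    (hu : Rp B π v u fun g => p ⬝ᵥ gr g) (i : Fin 4) : π (X i) u = p i • s :=
  (hu.mul F (X i)).uniq F fun g => by simp [hs g, gr_mul, ga_gr_X, mul_comm]

theorem ga_x2 (F : Fm B π v) {u U : V} {p : Fin 4 → k} (hu : Rp B π v u fun g => p ⬝ᵥ gr g)
    (hU : Rp B π v U fun g => p ⬝ᵥ he g *ᵥ p) (i : Fin 4) : π (X i) U = p i • (2 : k) • u :=
  (hU.mul F (X i)).uniq F fun g => by
    simp [hu g, he_mul, ga_gr_X, ga_he_X, add_mulVec, vecMulVec_mulVec, dotProduct_comm _ p]
    ring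

theorem ga_11 (b : Bad B π v) (nil : ∀ i, IsNilpotent (π (X i))) {u w : V} {p r : Fin 4 → k}
    (hu : Rp B π v u fun g => p ⬝ᵥ gr g) (hw : Rp B π v w fun g => r ⬝ᵥ gr g) : B u w = 0 := by
  have d := ga_two b nil
  obtain ⟨s, hs⟩ := ga_ex0 b nil
  have a := ga_x1 b.fm hs hu
  have c := ga_x1 b.fm hs hw
  exact ga_pol0 b.fm (ga_r1 b d p s a) (ga_r1 b d r s c)
    (ga_r1 b d (p + r) s fun i => by simp [a, c, add_smul])

theorem ga_21 (b : Bad B π v) (nil : ∀ i, IsNilpotent (π (X i))) {U w : V} {p r : Fin 4 → k}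
    (hU : Rp B π v U fun g => p ⬝ᵥ he g *ᵥ p) (hw : Rp B π v w fun g => r ⬝ᵥ gr g) :
    B U w = 0 := by
  by_cases hp : p = 0
  · rw [hU.uniq (u' := 0) b.fm fun g => by simp [hp]]
    simp
  have d := ga_two b nil
  obtain ⟨s, hs⟩ := ga_ex0 b nil
  obtain ⟨u, hu⟩ := ga_ex1 b nil p
  obtain ⟨c, hc⟩ : ∃ c : Fin 4 → k, c ⬝ᵥ p = 1 := by
    obtain ⟨i, hi⟩ := Function.ne_iff.1 hp
    exact ⟨Pi.single i (p i)⁻¹, by simpa using inv_mul_cancel₀ hi⟩
  obtain ⟨q, hq⟩ : ∃ q, q = r - (c ⬝ᵥ r) • p := ⟨_, rfl⟩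
  have cq : c ⬝ᵥ q = 0 := by simp [hq, hc]
  obtain ⟨w', hw'⟩ := ga_ex1 b nil q
  have ew : w = w' + (c ⬝ᵥ r) • u := hw.uniq b.fm fun g => by simp [hw' g, hu g, hq]
  have x1 := ga_x1 b.fm hs hu
  have x1' := ga_x1 b.fm hs hw'
  have x2 := ga_x2 b.fm hu hU
  obtain ⟨l, hl⟩ : ∃ l : P 4 k, l = ∑ j, c j • X j := ⟨_, rfl⟩
  have pl : ∀ (a a' : V) (z : Fin 4 → k), (∀ i, π (X i) a = z i • a') → π l a = (c ⬝ᵥ z) • a' :=
    fun a a' z h => by simp [hl, h, smul_smul, dotProduct, Finset.sum_smul]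
  let h : Fin 4 → P 4 k := fun i => X i - (q i / 2) • (l * l)
  have al : aeval h l = l := by
    have : ∑ j, c j • (q j / 2) • (l * l) = 0 := by
      simp only [smul_smul, ← Finset.sum_smul, ← mul_div_assoc, ← Finset.sum_div]
      rw [show ∑ j, c j * q j = 0 from cq, zero_div, zero_smul]
    conv_lhs => rw [hl]
    simp only [map_sum, map_smul, MvPolynomial.aeval_X, h, smul_sub, Finset.sum_sub_distrib, this,
      sub_zero]
    exact hl.symm
  have b' := b.subst h fun i => ⟨X i + (q i / 2) • (l * l), by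
    rw [AlgHom.comp_apply, map_add, map_smul, map_mul, al, MvPolynomial.aeval_X, sub_add_cancel]⟩
  have z := ga_r1 b' d p (u := U + w') ((2 : k) • u) fun i => by
    simp only [AlgHom.comp_apply, MvPolynomial.aeval_X, h, map_sub, map_smul, map_mul, map_add,
      LinearMap.sub_apply, LinearMap.smul_apply, End.mul_apply, pl _ _ _ x2, pl _ _ _ x1',
      pl _ _ _ x1, hc, cq, x2, x1']
    module
  have z1 := ga_pol0 b.fm (ga_r1 b d p _ x2) (ga_r1 b d q _ x1') z
  have z2 := ga_pol b d p _ _ x2 x1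
  simp [ew, z1, z2]

theorem ga_22 (b : Bad B π v) (nil : ∀ i, IsNilpotent (π (X i))) {U W : V} {p r : Fin 4 → k}
    (hU : Rp B π v U fun g => p ⬝ᵥ he g *ᵥ p) (hW : Rp B π v W fun g => r ⬝ᵥ he g *ᵥ r) :
    B U W = 0 := by
  have d := ga_two b nil
  obtain ⟨s, hs⟩ := ga_ex0 b nil
  obtain ⟨u, hu⟩ := ga_ex1 b nil p
  obtain ⟨w, hw⟩ := ga_ex1 b nil r
  have x1 := ga_x1 b.fm hs hw
  have x2 := ga_x2 b.fm hu hU
  have y2 := ga_x2 b.fm hw hW
  have UU := ga_r1 b d p _ x2
  have WW := ga_r1 b d r _ y2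
  have wU := (b.fm.symm _ _).trans (ga_21 b nil hU hw)
  have wW := (b.fm.symm _ _).trans (ga_21 b nil hW hw)
  have f := b.fam (fun i => r i • ((B W).smulRight w + (B w).smulRight W))
    (fun i a z => by simp [b.fm.symm a W, b.fm.symm a w]; ring)
    (ga_comm (F := (B W).smulRight s + (B w).smulRight ((2 : k) • w))
      (G := (B ((2 : k) • w)).smulRight w + (B s).smulRight W)
      (fun i => LinearMap.ext fun z => by simp [x1, y2]; module)
      (fun i => LinearMap.ext fun z => by simp [← b.fm.adj, x1, y2]; module))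
  obtain ⟨t, ⟨π', e, b'⟩, ht⟩ := (f.and (Filter.eventually_cofinite_ne 0)).exists
  have z := ga_r1 b' d p (u := U - (t * B U W / 2) • W) ((2 : k) • u) fun i => by
    simp [e, x2, y2, wU, wW, WW, b.fm.symm W U]
    module
  simp only [map_sub, map_smul, LinearMap.sub_apply, LinearMap.smul_apply, UU, WW,
    b.fm.symm W U, smul_eq_mul] at z
  have : t * B U W ^ 2 = 0 := by linear_combination -z
  simpa [ht] using this

theorem Bad.iso (b : Bad B π v) (nil : ∀ i, IsNilpotent (π (X i))) {u u' : V} (h : Ok B π v u)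
    (h' : Ok B π v u') : B u u' = 0 := by
  have d := ga_two b nil
  obtain ⟨s, hs⟩ := ga_ex0 b nil
  have x0 := ga_x0 b.fm hs
  have s1 : ∀ {p u}, (Rp B π v u fun g => p ⬝ᵥ gr g) → B s u = 0 := fun {p u} hu =>
    ga_pol b d p 0 s (by simp [x0]) (ga_x1 b.fm hs hu)
  have s2 : ∀ {p u}, (Rp B π v u fun g => p ⬝ᵥ he g *ᵥ p) → B s u = 0 := fun {p u} hu => by
    obtain ⟨w, hw⟩ := ga_ex1 b nil p
    exact ga_pol b d p 0 _ (by simp [x0]) (ga_x2 b.fm hw hu)
  rcases h with h | ⟨p, h⟩ | ⟨p, h⟩ <;> rcases h' with h' | ⟨r, h'⟩ | ⟨r, h'⟩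
  · rw [h.uniq b.fm hs, h'.uniq b.fm hs]
    exact ga_r1 b d 0 0 (by simp [x0])
  · exact h.uniq b.fm hs ▸ s1 h'
  · exact h.uniq b.fm hs ▸ s2 h'
  · exact h'.uniq b.fm hs ▸ (b.fm.symm _ _).trans (s1 h)
  · exact ga_11 b nil h h'
  · exact (b.fm.symm _ _).trans (ga_21 b nil h' h)
  · exact h'.uniq b.fm hs ▸ (b.fm.symm _ _).trans (s2 h)
  · exact ga_21 b nil h h'
  · exact ga_22 b nil h h'

end Pool.Agent.Lib.MP_2cea55_ag.Gs
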