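import Pool.Agent.Lib.MP_2cea55_ag.GA

set_option autoImplicit false
set_option linter.unusedSectionVars false

namespace Pool.Agent.Lib.MP_2cea55_ag.Gs
open Module LinearMap Matrix
open Pool.Agent.Lib.MP_02ae3d_ag (IsP cl Pol phi)
open scoped PowerSeries TensorProduct

open MvPolynomial (X C aeval constantCoeff)
open Filter (cofinite)

variable {k : Type} [Field k] [IsAlgClosed k] [CharZero k]
  {V : Type} [AddCommGroup V] [Module k V] [FiniteDimensional k V]
  {B : LinearMap.BilinForm k V} {π : P 4 k →ₐ[k] End k V} {v : V}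

theorem gb_gr_add {n : ℕ} (f g : P n k) : gr (f + g) = gr f + gr g := by
  ext i; simp [gr]

theorem gb_gr_sub {n : ℕ} (f g : P n k) : gr (f - g) = gr f - gr g := by
  ext i; simp [gr]

theorem gb_gr_smul {n : ℕ} (c : k) (g : P n k) : gr (c • g) = c • gr g := by
  ext i; simp [gr]

theorem gb_he_add {n : ℕ} (f g : P n k) : he (f + g) = he f + he g := by
  ext i j; simp [he]

theorem gb_he_sub {n : ℕ} (f g : P n k) : he (f - g) = he f - he g := by
  ext i j; simp [he]

theorem gb_he_smul {n : ℕ} (c : k) (g : P n k) : he (c • g) = c • he g := by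
  ext i j; simp [he]

theorem gb_gr_X {n : ℕ} (i j : Fin n) : gr (X i : P n k) j = if i = j then 1 else 0 := by
  by_cases h : i = j
  · subst h; simp [gr]
  · simp [gr, h, MvPolynomial.pderiv_X_of_ne h]

theorem gb_he_X {n : ℕ} (i : Fin n) : he (X i : P n k) = 0 := by
  ext a c
  by_cases h : i = c
  · subst h; simp [he]
  · simp [he, h]

theorem gb_o1 {n : ℕ} {g : P n k} (h : g ∈ M0 n k) : constantCoeff g = 0 := by
  have : M0 n k ≤ RingHom.ker (constantCoeff : P n k →+* k) := by
    rw [M0, Ideal.span_le]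
    rintro _ ⟨i, rfl⟩
    simp [RingHom.mem_ker]
  exact this h

theorem gb_o2 {n : ℕ} {g : P n k} (h : g ∈ M0 n k ^ 2) : constantCoeff g = 0 ∧ gr g = 0 := by
  rw [pow_two] at h
  refine Submodule.mul_induction_on h ?_ ?_
  · intro f hf g hg
    simp [gr_mul, gb_o1 hf, gb_o1 hg]
  · intro f g hf hg
    simp [gb_gr_add, hf.1, hf.2, hg.1, hg.2]

theorem gb_o3 {n : ℕ} {g : P n k} (h : g ∈ M0 n k ^ 3) :
    constantCoeff g = 0 ∧ gr g = 0 ∧ he g = 0 := by
  have h2 := gb_o2 (Ideal.pow_le_pow_right (by norm_num : 2 ≤ 3) h)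
  refine ⟨h2.1, h2.2, ?_⟩
  rw [pow_succ] at h
  refine Submodule.mul_induction_on h ?_ ?_
  · intro f hf g hg
    simp [he_mul, (gb_o2 hf).1, (gb_o2 hf).2, gb_o1 hg]
  · intro f g hf hg
    simp [gb_he_add, hf, hg]

theorem gb_sq {n : ℕ} (x : Fin n) : constantCoeff (X x * X x : P n k) = 0 ∧
    gr (X x * X x : P n k) = 0 ∧
    ∀ i j, he (X x * X x : P n k) i j = if i = x ∧ j = x then 2 else 0 := by
  refine ⟨by simp, by simp [gr_mul], fun i j => ?_⟩
  rw [he_mul]
  simp only [MvPolynomial.constantCoeff_X, zero_smul, zero_add, Matrix.add_apply,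
    vecMulVec_apply, gb_gr_X]
  by_cases h1 : i = x
  · by_cases h2 : j = x
    · subst h1; subst h2; simp; norm_num
    · simp [h2, Ne.symm h2]
  · simp [h1, Ne.symm h1]

theorem gb_cub {q : P 4 k} {x : Fin 4} (h0 : constantCoeff q = 0) (h1 : gr q = 0)
    (h2 : he q = Matrix.single x x 1) : X x * X x - (2 : k) • q ∈ M0 4 k ^ 3 := by
  have t := taylor q
  have e : qf (Matrix.single x x (1 : k)) (X : Fin 4 → P 4 k) = X x * X x := by
    unfold qf
    rw [Finset.sum_eq_single x, Finset.sum_eq_single x]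
    · simp
    · intro j _ hj; simp [Matrix.single, Ne.symm hj]
    · simp
    · intro i _ hi
      refine Finset.sum_eq_zero fun j _ => ?_
      simp [Matrix.single, Ne.symm hi]
    · simp
  rw [h0, h1, h2, e] at t
  have := Submodule.smul_of_tower_mem _ (-2 : k) t
  convert this using 1
  simp only [map_zero, Pi.zero_apply, zero_smul, Finset.sum_const_zero, zero_add, smul_sub,
    smul_smul]
  norm_num
  abel

theorem gb_mat {x y : Fin 4} (hx : x.val < 2) (hy : y.val < 2) (xy : x ≠ y)
    {G : Matrix (Fin 4) (Fin 4) k} (sy : ∀ i j, G i j = G j i) (g0 : G x x = 0) {s t : k}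
    (hs : s ≠ 0) (st : s ≠ t) (ht : t ≠ 0)
    (h : ∀ r c : k, (r = s ∨ r = t) → ∃ M : Matrix (Fin 4) (Fin 4) k, M.rank ≤ 2 ∧ ∀ i j, M i j =
      (if i = x ∧ j = x then 2 else 0) - r * G i j + c * (if i = y ∧ j = y then 2 else 0)) :
    ∀ i j : Fin 4, 2 ≤ i.val → G i j = 0 := by
  have key : ∀ r c : k, (r = s ∨ r = t) → ∀ i j : Fin 4, 2 ≤ i.val → 2 ≤ j.val →
      2 * (2 * c - r * G y y) * (-(r * G i j)) - 2 * (r * G y j) * (r * G y i)
      + (r * G x y) * (r * G x y) * (r * G i j) - (r * G x y) * (r * G y j) * (r * G x i)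
      - (r * G x j) * (r * G x y) * (r * G y i)
      - (r * G x j) * (2 * c - r * G y y) * (r * G x i) = 0 := by
    intro r c hr i j hi hj
    obtain ⟨M, hM, e⟩ := h r c hr
    have d : (M.submatrix ![x, y, i] ![x, y, j]).det = 0 := by
      by_contra hne
      have h3 := Matrix.rank_of_det_ne_zero hne
      have h4 := Matrix.rank_submatrix_le M ![x, y, i] ![x, y, j]
      simp only [Fintype.card_fin] at h3
      omega
    have ix : i ≠ x := fun h => by subst h; omega
    have iy : i ≠ y := fun h => by subst h; omega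
    have jx : j ≠ x := fun h => by subst h; omega
    have jy : j ≠ y := fun h => by subst h; omega
    rw [Matrix.det_fin_three] at d
    simp only [submatrix_apply, cons_val_zero, cons_val_one, cons_val, e, ix, iy, jx, jy, xy,
      xy.symm, g0, and_self, and_true, and_false, false_and, true_and, if_true, if_false,
      sy y x, sy i x, sy i y] at d
    linear_combination d
  have k1 : ∀ r : k, (r = s ∨ r = t) → ∀ i j : Fin 4, 2 ≤ i.val → 2 ≤ j.val →
      2 * G i j + r * (G x j * G x i) = 0 := by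
    intro r hr i j hi hj
    have r0 : r ≠ 0 := by rcases hr with rfl | rfl <;> assumption
    have : (-2 * r) * (2 * G i j + r * (G x j * G x i)) = 0 := by
      linear_combination key r 1 hr i j hi hj - key r 0 hr i j hi hj
    exact (mul_eq_zero.1 this).resolve_left (mul_ne_zero (by norm_num) r0)
  have k2 : ∀ i : Fin 4, 2 ≤ i.val → G x i = 0 := by
    intro i hi
    have : (s - t) * (G x i * G x i) = 0 := by
      linear_combination k1 s (.inl rfl) i i hi hi - k1 t (.inr rfl) i i hi hi
    exact mul_self_eq_zero.1 ((mul_eq_zero.1 this).resolve_left (sub_ne_zero.2 st))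
  have k3 : ∀ i j : Fin 4, 2 ≤ i.val → 2 ≤ j.val → G i j = 0 := by
    intro i j hi hj
    have := k1 s (.inl rfl) i j hi hj
    rw [k2 i hi] at this
    have e : (2 : k) * G i j = 0 := by linear_combination this
    exact (mul_eq_zero.1 e).resolve_left (by norm_num)
  have k4 : ∀ i : Fin 4, 2 ≤ i.val → G y i = 0 := by
    intro i hi
    have := key s 0 (.inl rfl) i i hi hi
    rw [k2 i hi, k3 i i hi hi] at this
    have e : (2 * s * s) * (G y i * G y i) = 0 := by linear_combination -this
    exact mul_self_eq_zero.1 ((mul_eq_zero.1 e).resolve_left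
      (mul_ne_zero (mul_ne_zero (by norm_num) hs) hs))
  intro i j hi
  by_cases hj : 2 ≤ j.val
  · exact k3 i j hi hj
  · have : j = x ∨ j = y := by
      have : x.val ≠ y.val := fun h => xy (Fin.ext h)
      rw [Fin.ext_iff, Fin.ext_iff]; omega
    rcases this with rfl | rfl
    · rw [sy]; exact k2 i hi
    · rw [sy]; exact k4 i hi

/-- polynomials on which all deformations in the slot `x` act alike -/
noncomputable def gbU (π : P 4 k →ₐ[k] End k V) (v : V) (x : Fin 4) : Submodule k (P 4 k) where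
  carrier := {g | (∀ π' : P 4 k →ₐ[k] End k V, (∀ i, i ≠ x → π' (X i) = π (X i)) →
      π' (X x) v = π (X x) v → π' g v = π g v) ∧
      MvPolynomial.pderiv x (MvPolynomial.pderiv x g) = 0}
  add_mem' := by
    rintro f g ⟨f1, f2⟩ ⟨g1, g2⟩
    refine ⟨fun π' h1 h2 => ?_, by simp [f2, g2]⟩
    simp [f1 π' h1 h2, g1 π' h1 h2]
  zero_mem' := ⟨fun _ _ _ => by simp, by simp⟩
  smul_mem' := by
    rintro c g ⟨g1, g2⟩
    refine ⟨fun π' h1 h2 => ?_, by simp [g2]⟩
    simp [g1 π' h1 h2]

theorem gbU_one (x : Fin 4) : (1 : P 4 k) ∈ gbU π v x := ⟨fun _ _ _ => by simp, by simp⟩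

theorem gbU_X (x : Fin 4) : (X x : P 4 k) ∈ gbU π v x := ⟨fun _ _ h => h, by simp⟩

theorem gbU_mul {x i : Fin 4} (h : i ≠ x) {g : P 4 k} (hg : g ∈ gbU π v x) :
    X i * g ∈ gbU π v x := by
  refine ⟨fun π' h1 h2 => ?_, ?_⟩
  · rw [map_mul, map_mul, Module.End.mul_apply, Module.End.mul_apply, hg.1 π' h1 h2, h1 i h]
  · simp [MvPolynomial.pderiv_X_of_ne h, hg.2]

theorem gbU_mon {x : Fin 4} (m : Fin 4 →₀ ℕ) : m x = 0 → ∀ g ∈ gbU π v x,
    MvPolynomial.monomial m (1 : k) * g ∈ gbU π v x := by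
  induction m using Finsupp.induction_linear with
  | zero => intro _ g hg; simpa using hg
  | add f f' h1 h2 =>
    intro h g hg
    have e : f x = 0 ∧ f' x = 0 := by simpa using h
    have : MvPolynomial.monomial (f + f') (1 : k) =
        MvPolynomial.monomial f 1 * MvPolynomial.monomial f' 1 := by
      simp [MvPolynomial.monomial_mul]
    rw [this, mul_assoc]
    exact h1 e.1 _ (h2 e.2 _ hg)
  | single i n =>
    intro h g hg
    rw [← MvPolynomial.X_pow_eq_monomial]
    by_cases hi : i = x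
    · subst hi
      have : n = 0 := by simpa using h
      subst this
      simpa using hg
    · clear h
      induction n with
      | zero => simpa using hg
      | succ n ih => rw [pow_succ', mul_assoc]; exact gbU_mul hi ih

theorem gbU_low {x : Fin 4} (m : Fin 4 →₀ ℕ) (h : m x ≤ 1) (c : k) :
    MvPolynomial.monomial m c ∈ gbU π v x := by
  have e : MvPolynomial.monomial m c =
      c • (MvPolynomial.monomial (m.erase x) (1 : k) * X x ^ m x) := by
    rw [MvPolynomial.X_pow_eq_monomial, MvPolynomial.monomial_mul, Finsupp.erase_add_single,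
      MvPolynomial.smul_monomial]
    simp
  rw [e]
  refine Submodule.smul_mem _ _ (gbU_mon _ (by simp) _ ?_)
  rcases Nat.le_one_iff_eq_zero_or_eq_one.1 h with h | h
  · rw [h, pow_zero]; exact gbU_one x
  · rw [h, pow_one]; exact gbU_X x

theorem gb_nf (nil : ∀ i, IsNilpotent (π (X i))) {x : Fin 4} {w : P 4 k} (hw : w ∈ M0 4 k ^ 3)
    (e : π (X x * X x) v = π w v) (j : ℕ) :
    ∀ g ∈ M0 4 k ^ j, ∃ g' ∈ M0 4 k ^ j, g' ∈ gbU π v x ∧ π g' v = π g v := by
  obtain ⟨N, hN⟩ : ∃ N, M0 4 k ^ N ≤ RingHom.ker π := by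
    refine Ideal.exists_pow_le_of_le_radical_of_fg ?_ (MvPolynomial.idealOfVars_fg _ _)
    rw [M0, Ideal.span_le]
    rintro _ ⟨i, rfl⟩
    obtain ⟨n, hn⟩ := nil i
    exact ⟨n, by rw [RingHom.mem_ker, map_pow, hn]⟩
  have main : ∀ d j : ℕ, N ≤ j + d →
      ∀ g ∈ M0 4 k ^ j, ∃ g' ∈ M0 4 k ^ j, g' ∈ gbU π v x ∧ π g' v = π g v := by
    intro d
    induction d with
    | zero =>
      intro j hj g hg
      have : π g = 0 := hN (Ideal.pow_le_pow_right hj hg)
      exact ⟨0, zero_mem _, zero_mem _, by simp [this]⟩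
    | succ d ih =>
      intro j hj g hg
      have hs := (MvPolynomial.mem_pow_idealOfVars_iff j g).1 hg
      have mono : ∀ m ∈ g.support, ∃ g' ∈ M0 4 k ^ j, g' ∈ gbU π v x ∧
          π g' v = π (MvPolynomial.monomial m (g.coeff m)) v := by
        intro m hm
        have c0 : g.coeff m ≠ 0 := MvPolynomial.mem_support_iff.1 hm
        by_cases h : m x ≤ 1
        · exact ⟨_, (MvPolynomial.monomial_mem_pow_idealOfVars_iff j m c0).2 (hs m hm),
            gbU_low m h _, rfl⟩
        · obtain ⟨m', rfl⟩ : ∃ m', m = m' + Finsupp.single x 2 :=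
            ⟨m - Finsupp.single x 2, (tsub_add_cancel_of_le (by
              rw [Finsupp.single_le_iff]; omega)).symm⟩
          set c := g.coeff (m' + Finsupp.single x 2) with hc
          have hd : j ≤ Finsupp.degree m' + 2 := by simpa using hs _ hm
          have h1 : MvPolynomial.monomial m' c ∈ M0 4 k ^ Finsupp.degree m' :=
            (MvPolynomial.monomial_mem_pow_idealOfVars_iff _ m' c0).2 le_rfl
          have h2 : MvPolynomial.monomial m' c * w ∈ M0 4 k ^ (j + 1) := by
            refine Ideal.pow_le_pow_right (by omega : j + 1 ≤ Finsupp.degree m' + 3) ?_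
            rw [pow_add]
            exact Ideal.mul_mem_mul h1 hw
          obtain ⟨g', a1, a2, a3⟩ := ih (j + 1) (by omega) _ h2
          refine ⟨g', Ideal.pow_le_pow_right (Nat.le_succ j) a1, a2, ?_⟩
          rw [a3, MvPolynomial.monomial_add_single, pow_two, map_mul, map_mul π _ (X x * X x),
            Module.End.mul_apply, Module.End.mul_apply, e]
      choose! f f1 f2 f3 using mono
      refine ⟨∑ m ∈ g.support, f m, Submodule.sum_mem _ f1, Submodule.sum_mem _ f2, ?_⟩
      conv_rhs => rw [g.as_sum]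
      rw [map_sum, map_sum, LinearMap.sum_apply, LinearMap.sum_apply]
      exact Finset.sum_congr rfl f3
  exact main N j (by omega)

/-- the mixed move -/
theorem Bad.emove (b : Bad B π v) (nil : ∀ i, IsNilpotent (π (X i))) {x y z : Fin 4}
    (hx : x.val < 2) (hy : y.val < 2) (xy : x ≠ y) (hz : 2 ≤ z.val)
    (hW : ∀ g, π g v = 0 → ∀ i j : Fin 4, 2 ≤ i.val → he g i j = 0)
    (h0 : ∃ g, π g v = 0 ∧ he g = Matrix.single x x 1)
    (h1 : ∃ g, π g v = 0 ∧ he g = Matrix.single y y 1)
    {a : V} (ha : Rp B π v a fun g => he g x z) :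
    ∃ g, π g v = a ∧ constantCoeff g = 0 ∧ gr g = 0 ∧
      ∀ i j : Fin 4, 2 ≤ i.val → he g i j = 0 := by
  have F := b.fm
  have xz : x ≠ z := fun h => by subst h; omega
  obtain ⟨s, hs⟩ := F.rp (MvPolynomial.lcoeff k 0) fun g hg => (b.rel nil hg).1
  have hs : Rp B π v s constantCoeff := hs
  have hu : ∀ i : Fin 4, Rp B π v (π (X i) a) fun g =>
      (if i = x then 1 else 0) * gr g z + gr g x * (if i = z then 1 else 0) := by
    intro i g
    rw [Rp.mul F ha (X i) g]
    simp [he_mul, gb_he_X, vecMulVec_apply, gb_gr_X]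
  set u := π (X z) a with hu'
  have ux : Rp B π v u fun g => gr g x := by
    intro g; rw [hu z g]; simp [xz.symm]
  have uz : Rp B π v (π (X x) a) fun g => gr g z := by
    intro g; rw [hu x g]; simp [xz]
  have zero : ∀ {w : V}, (∀ g, B w (π g v) = 0) → w = 0 := fun h =>
    F.nd _ fun w => by obtain ⟨g, rfl⟩ := F.cyc w; exact h g
  have a0 : ∀ i, i ≠ x → i ≠ z → π (X i) a = 0 := fun i h h' =>
    zero fun g => by rw [hu i g]; simp [h, h']
  have u0 : ∀ i, i ≠ x → π (X i) u = 0 := fun i h =>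
    zero fun g => by rw [Rp.mul F ux (X i) g]; simp [gr_mul, gb_gr_X, h]
  have s0 : ∀ i, π (X i) s = 0 := fun i =>
    zero fun g => by rw [Rp.mul F hs (X i) g]; simp
  have sz : π (X z) (π (X x) a) = s := by
    refine Rp.uniq F (l := constantCoeff) (fun g => ?_) hs
    rw [Rp.mul F uz (X z) g]; simp [gr_mul, gb_gr_X]
  have sne : s ≠ 0 := fun h => by simpa [h] using hs 1
  have oks : Ok B π v s := .inl hs
  have okx : Ok B π v u := .inr (.inl ⟨Pi.single x 1, fun g => by rw [ux g]; simp⟩)
  have okz : Ok B π v (π (X x) a) :=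
    .inr (.inl ⟨Pi.single z 1, fun g => by rw [uz g]; simp⟩)
  have us : B u s = 0 := b.iso nil okx oks
  have as : B a s = 0 := by
    rw [← sz, ← F.adj]; exact b.iso nil okx okz
  let E0 : End k V := (B a).smulRight u + (B u).smulRight a
  have E0a : ∀ w, E0 w = B a w • u + B u w • a := fun w => rfl
  have com : ∀ i, i ≠ x → Commute E0 (π (X i)) := by
    intro i hi
    ext w
    simp only [Module.End.mul_apply, E0a, map_add, map_smul, ← F.adj, u0 i hi, map_zero,
      LinearMap.zero_apply, zero_smul, smul_zero, add_zero, zero_add]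
    by_cases h : i = z
    · subst h; rfl
    · simp [a0 i hi h]
  have cp : ∀ i j, Commute (π (X i)) (π (X j)) := fun i j => (Commute.all _ _).map π
  have fam := b.fam (fun i => if i = x then E0 else 0) (by
    intro i w w'
    by_cases h : i = x
    · simp only [h, if_true, E0a, map_add, map_smul, LinearMap.add_apply, LinearMap.smul_apply,
        smul_eq_mul, F.symm w u, F.symm w a]
      ring
    · simp [h]) (by
    intro t i j
    by_cases hi : i = x
    · by_cases hj : j = x
      · rw [hi, hj]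
      · simp only [hi, hj, if_true, if_false, smul_zero, add_zero]
        exact (cp _ _).add_left ((com j hj).smul_left t)
    · by_cases hj : j = x
      · simp only [hi, hj, if_true, if_false, smul_zero, add_zero]
        exact (cp _ _).add_right ((com i hi).symm.smul_right t)
      · simpa [hi, hj] using cp i j)
  obtain ⟨qx, qx0, qx1⟩ := h0
  obtain ⟨qy, qy0, qy1⟩ := h1
  have cx := gb_cub (b.rel nil qx0).1 (b.rel nil qx0).2.1 qx1
  have cy := gb_cub (b.rel nil qy0).1 (b.rel nil qy0).2.1 qy1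
  have ex : π (X x * X x) v = π (X x * X x - (2 : k) • qx) v := by
    rw [map_sub, map_smul, LinearMap.sub_apply, LinearMap.smul_apply, qx0]; simp
  have ey : π (X y * X y) v = π (X y * X y - (2 : k) • qy) v := by
    rw [map_sub, map_smul, LinearMap.sub_apply, LinearMap.smul_apply, qy0]; simp
  obtain ⟨r, r3, rU, rv⟩ := gb_nf nil cx ex 3 _ cx
  obtain ⟨r', r3', rU', rv'⟩ := gb_nf nil cx ex 3 _ cy
  obtain ⟨g₀, hg₀⟩ := F.cyc a
  obtain ⟨g, -, gU, gv⟩ := gb_nf nil cx ex 0 g₀ (by simp)
  rw [hg₀] at gv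
  have yU : (X y * X y : P 4 k) ∈ gbU π v x :=
    gbU_mul xy.symm (by simpa using gbU_mul xy.symm (gbU_one (π := π) (v := v) x))
  have key : ∀ t : k, (∃ π' : P 4 k →ₐ[k] End k V,
      (∀ i, π' (X i) = π (X i) + t • (if i = x then E0 else 0)) ∧ Bad B π' v) → ∀ c : k,
      constantCoeff (X x * X x - r - t • g + c • (X y * X y - r') : P 4 k) = 0 ∧
      gr (X x * X x - r - t • g + c • (X y * X y - r') : P 4 k) = 0 ∧
      (he (X x * X x - r - t • g + c • (X y * X y - r') : P 4 k)).rank ≤ 2 := by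
    rintro t ⟨π', e, b'⟩ c
    have e1 : ∀ i, i ≠ x → π' (X i) = π (X i) := fun i h => by simp [e, h]
    have e2 : ∀ w, π' (X x) w = π (X x) w + t • (B a w • u + B u w • a) := fun w => by
      simp [e, E0a]
    have e3 : π' (X x) v = π (X x) v := by
      have h1 : B a v = 0 := by simpa [he] using ha 1
      have h2 : B u v = 0 := by simpa [gr] using ux 1
      simp [e2, h1, h2]
    have e4 : π' (X x * X x) v = π (X x * X x) v + t • a := by
      have h1 : B a (π (X x) v) = 0 := by rw [ha]; simp [gb_he_X]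
      have h2 : B u (π (X x) v) = 1 := by rw [ux]; simp [gb_gr_X]
      rw [map_mul, map_mul, Module.End.mul_apply, Module.End.mul_apply, e3, e2, h1, h2]
      simp
    have nil' : ∀ i, IsNilpotent (π' (X i)) := by
      obtain ⟨p, hp⟩ := b.ih B π' v b'.fm b'.ns
      intro i
      have k0 : π' (X i) s = 0 := by
        by_cases h : i = x
        · rw [h, e2, s0, as, us]; simp
        · rw [e1 i h, s0]
      obtain ⟨n, hn⟩ := hp i
      have k1 : ∀ n : ℕ, ((π' (X i) - p i • (1 : End k V)) ^ n) s = (-p i) ^ n • s := by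
        intro n
        induction n with
        | zero => simp
        | succ n ih =>
          rw [pow_succ', Module.End.mul_apply, ih, map_smul, pow_succ, mul_smul]
          simp [k0]
      have k2 := k1 n
      rw [hn, LinearMap.zero_apply] at k2
      have k3 : p i = 0 :=
        neg_eq_zero.1 (eq_zero_of_pow_eq_zero ((smul_eq_zero.1 k2.symm).resolve_right sne))
      simpa [k3] using hp i
    refine b'.rel nil' ?_
    rw [map_add, map_sub, map_sub, map_smul, map_smul, map_sub]
    simp only [LinearMap.add_apply, LinearMap.sub_apply, LinearMap.smul_apply]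
    rw [e4, rU.1 π' e1 e3, gU.1 π' e1 e3, rU'.1 π' e1 e3, yU.1 π' e1 e3, rv, rv', gv, ← ex, ← ey]
    simp
  obtain ⟨t₁, f₁, n₁⟩ := (fam.and (Filter.eventually_cofinite_ne 0)).exists
  obtain ⟨t₂, ⟨f₂, n₂⟩, n₃⟩ := ((fam.and (Filter.eventually_cofinite_ne 0)).and
    (Filter.eventually_cofinite_ne t₁)).exists
  obtain ⟨p0, p1, p2⟩ := gb_o3 r3
  obtain ⟨q0, q1, q2⟩ := gb_o3 r3'
  obtain ⟨x0, x1, x2⟩ := gb_sq (k := k) x
  obtain ⟨y0, y1, y2⟩ := gb_sq (k := k) y
  refine ⟨g, gv, ?_, ?_, ?_⟩
  · simpa [p0, q0, n₁] using (key t₁ f₁ 0).1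
  · have := (key t₁ f₁ 0).2.1
    rw [gb_gr_add, gb_gr_sub, gb_gr_sub, gb_gr_smul, gb_gr_smul, x1, p1] at this
    simpa [n₁] using this
  · refine gb_mat hx hy xy (fun i j => (he_symm g).apply j i) (by simp [he, gU.2]) n₁
      (Ne.symm n₃) n₂ fun t c ht => ⟨_, (key t (by rcases ht with rfl | rfl <;> assumption) c).2.2,
        fun i j => ?_⟩
    rw [gb_he_add, gb_he_sub, gb_he_sub, gb_he_smul, gb_he_smul, gb_he_sub, p2, q2]
    simp [x2, y2]

end Pool.Agent.Lib.MP_2cea55_ag.Gs
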