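import Pool.Agent.Lib.MP_2cea55_ag.GB
import Pool.Agent.Lib.MP_2cea55_ag.G8Q

set_option autoImplicit false
set_option linter.unusedSectionVars false

namespace Pool.Agent.Lib.MP_2cea55_ag.Gs
open Module LinearMap Matrix
open Pool.Agent.Lib.MP_02ae3d_ag (IsP cl Pol phi)
open scoped PowerSeries TensorProduct

open MvPolynomial (X C aeval constantCoeff)
open Filter (cofinite)

variable {k : Type} [Field k] [IsAlgClosed k] [CharZero k]
  {V : Type} [AddCommGroup V] [Module k V] [FiniteDimensional k V]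
  {B : LinearMap.BilinForm k V} {π : P 4 k →ₐ[k] End k V} {v : V}

theorem gc_dim (hs : ∀ u w, B u w = B w u) {ι : Type} [Fintype ι] (u w : ι → V)
    (h0 : ∀ i j, B (u i) (u j) = 0) (h1 : ∀ i j, B (u i) (w j) = 0 ↔ i ≠ j) :
    2 * Fintype.card ι ≤ finrank k V := by
  classical
  have e (c : ι → k) (i) (f : ι → ι → k) (h : ∀ j, f i j = 0 ↔ i ≠ j) (z : ∑ j, c j * f i j = 0) :
      c i = 0 := by
    rw [Finset.sum_eq_single i (fun j _ n => by rw [(h j).2 n.symm, mul_zero]) (by simp)] at z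
    exact (mul_eq_zero.1 z).resolve_right fun z => (h i).1 z rfl
  have : LinearIndependent k (Sum.elim u w) := Fintype.linearIndependent_iff.2 fun c z => by
    have a (i) : c (.inr i) = 0 := e (fun j => c (.inr j)) i (fun i j => B (u i) (w j)) (h1 i) (by
      simpa [h0] using congrArg (B (u i)) z)
    rintro (i | i)
    · exact e (fun j => c (.inl j)) i (fun i j => B (w i) (u j))
        (fun j => by rw [hs, h1, ne_comm]) (by simpa [a] using congrArg (B (w i)) z)
    · exact a i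
  simpa [two_mul] using this.fintype_card_le_finrank

theorem gc_cc : IsLinearMap k (constantCoeff : P 4 k → k) := ⟨map_add _, by simp⟩

theorem gc_gr : IsLinearMap k (gr : P 4 k → _) :=
  ⟨fun _ _ => by ext; simp [gr], fun _ _ => by ext; simp [gr]⟩

theorem gc_he : IsLinearMap k (he : P 4 k → _) :=
  ⟨fun _ _ => by ext; simp [he], fun _ _ => by ext; simp [he]⟩

theorem gc_rp (F : Fm B π v) {l : P 4 k → k} (a : IsLinearMap k l) (h : ∀ g, π g v = 0 → l g = 0) :
    ∃ u, Rp B π v u l := F.rp (a.mk' l) h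

theorem gc_grX (i : Fin 4) : gr (X i : P 4 k) = Pi.single i 1 := by
  ext j
  by_cases h : i = j <;> simp [gr, MvPolynomial.pderiv_X, h, eq_comm]

theorem gc_heX (i : Fin 4) : he (X i : P 4 k) = 0 := by
  ext j l
  by_cases h : i = l <;> simp [he, MvPolynomial.pderiv_X, Pi.single_apply, h]

theorem gc_iso (b : Bad B π v) (nil : ∀ i, IsNilpotent (π (X i))) {u u' : V}
    (h : u ∈ Submodule.span k {u | Ok B π v u}) (h' : u' ∈ Submodule.span k {u | Ok B π v u}) :
    B u u' = 0 :=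
  LinearMap.mem_ker.1 (Submodule.span_le.2 (fun _ a => LinearMap.mem_ker.2 ((b.fm.symm _ _).trans
    (LinearMap.mem_ker.1 (Submodule.span_le.2
      (fun _ a' => LinearMap.mem_ker.2 (b.iso nil a a')) h)))) h')

theorem gc_q (p : Fin 4 → k) : IsLinearMap k fun g : P 4 k => p ⬝ᵥ he g *ᵥ p :=
  ⟨fun _ _ => by rw [gc_he.map_add, add_mulVec, dotProduct_add],
    fun _ _ => by rw [gc_he.map_smul, smul_mulVec, dotProduct_smul]⟩

theorem gc_e {H : Matrix (Fin 4) (Fin 4) k} (h : H.IsSymm) (i j : Fin 4) (t : k) :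
    (Pi.single i 1 + Pi.single j t) ⬝ᵥ H *ᵥ (Pi.single i 1 + Pi.single j t) =
      H i i + t * t * H j j + 2 * t * H i j := by
  simp [mulVec_add, h.apply i j]
  ring

theorem gc_mem (F : Fm B π v) {i j : Fin 4}
    (h : ∀ g, π g v = 0 → he g i i = 0 ∧ he g j j = 0 ∧ he g i j = 0) {a : V}
    (ha : Rp B π v a fun g => he g i j) : a ∈ Submodule.span k {u | Ok B π v u} := by
  have e (t : k) (g : P 4 k) := gc_e (he_symm g) i j t
  have r (t : k) : ∃ u ∈ Submodule.span k {u | Ok B π v u}, ∀ g, B u (π g v) =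
      he g i i + t * t * he g j j + 2 * t * he g i j := by
    obtain ⟨u, hu⟩ := gc_rp F (gc_q (Pi.single i 1 + Pi.single j t)) fun g z => by
      rw [e, (h g z).1, (h g z).2.1, (h g z).2.2, mul_zero, mul_zero, add_zero, add_zero]
    exact ⟨u, Submodule.subset_span (.inr (.inr ⟨_, hu⟩)), fun g => (hu g).trans (e t g)⟩
  obtain ⟨u, u1, u2⟩ := r 1
  obtain ⟨w, w1, w2⟩ := r (-1)
  rw [ha.uniq F (u' := (4 : k)⁻¹ • (u - w)) fun g => by
    simp only [map_smul, map_sub, LinearMap.smul_apply, LinearMap.sub_apply, u2, w2, smul_eq_mul]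
    generalize he g = H
    ring]
  exact Submodule.smul_mem _ _ (sub_mem u1 w1)

theorem gc_cnt (b : Bad B π v) (nil : ∀ i, IsNilpotent (π (X i))) {m : ℕ} (f : Fin m → Fin 4 × Fin 4)
    (hf : ∀ a a', f a = f a' ∨ f a = (f a').swap → a = a')
    (hW : ∀ g, π g v = 0 → ∀ a, he g (f a).1 (f a).2 = 0)
    (H : ∀ a u, (Rp B π v u fun g => he g (f a).1 (f a).2) → u ∈ Submodule.span k {u | Ok B π v u} ∨
      ∃ g, π g v = u ∧ constantCoeff g = 0 ∧ gr g = 0 ∧ ∀ a, he g (f a).1 (f a).2 = 0) :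
    2 * (5 + m) ≤ finrank k V := by
  obtain ⟨u0, h0⟩ := gc_rp b.fm gc_cc fun g z => (b.rel nil z).1
  choose u1 h1 using fun i => gc_rp b.fm (l := fun g => gr g i)
    ⟨fun _ _ => by rw [gc_gr.map_add]; rfl, fun _ _ => by rw [gc_gr.map_smul]; rfl⟩
    fun g z => by rw [(b.rel nil z).2.1]; rfl
  choose u2 h2 using fun a => gc_rp b.fm (l := fun g => he g (f a).1 (f a).2)
    ⟨fun _ _ => by rw [gc_he.map_add]; rfl, fun _ _ => by rw [gc_he.map_smul]; rfl⟩
    fun g z => hW g z a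
  have := gc_dim b.fm.symm (Sum.elim (fun _ : Unit => u0) (Sum.elim u1 u2))
    (fun j => π (Sum.elim (fun _ => 1) (Sum.elim X fun a => X (f a).1 * X (f a).2) j) v) ?_ ?_
  · simpa [← add_assoc] using this
  · have A (i) : Sum.elim (fun _ : Unit => u0) (Sum.elim u1 u2) i ∈ Submodule.span k {u | Ok B π v u} ∨
        ∀ j, B (Sum.elim (fun _ : Unit => u0) (Sum.elim u1 u2) j)
          (Sum.elim (fun _ : Unit => u0) (Sum.elim u1 u2) i) = 0 := by
      rcases i with i | i | i
      · exact .inl (Submodule.subset_span (.inl h0))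
      · exact .inl (Submodule.subset_span (.inr (.inl ⟨Pi.single i 1, by simpa using h1 i⟩)))
      · refine (H i _ (h2 i)).imp_right fun ⟨g, g0, g1, g2, g3⟩ j => ?_
        simp only [Sum.elim_inr, ← g0]
        rcases j with j | j | j
        exacts [(h0 g).trans g1, (h1 j g).trans (congrFun g2 j), (h2 j g).trans (g3 j)]
    exact fun i j => (A j).elim (fun a => (A i).elim (gc_iso b nil · a)
      fun a => (b.fm.symm _ _).trans (a j)) (· i)
  · have g1 : gr (1 : P 4 k) = 0 := by ext; simp [gr]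
    have e1 : he (1 : P 4 k) = 0 := by ext; simp [he]
    rintro (i | i | i) (j | j | j) <;>
      simp only [Sum.elim_inl, Sum.elim_inr, h0 _, h1 _ _, h2 _ _, g1, e1, gc_grX, gc_heX, gr_mul,
        he_mul] <;> try simp [Pi.single_apply]
    have := hf i j
    simp only [vecMulVec_apply, Pi.single_apply, Prod.ext_iff, Prod.fst_swap, Prod.snd_swap] at *
    by_cases h : i = j
    · subst h
      by_cases h : (f i).1 = (f i).2 <;> simp [h, eq_comm (a := (f i).2), one_add_one_eq_two]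
    · simp only [h, imp_false, not_or, not_and] at this
      simp only [h, not_false_eq_true, iff_true]
      split_ifs <;> simp_all

theorem Bad.caseP (b : Bad B π v) (nil : ∀ i, IsNilpotent (π (X i)))
    (hW : ∀ g, π g v = 0 → ∀ i j : Fin 4, i ≠ 0 → j ≠ 0 → he g i j = 0) : 22 ≤ finrank k V := by
  have a : ∀ a : Fin 6, (![(1, 1), (1, 2), (1, 3), (2, 2), (2, 3), (3, 3)] a : Fin 4 × Fin 4).1 ≠ 0 ∧
      (![(1, 1), (1, 2), (1, 3), (2, 2), (2, 3), (3, 3)] a : Fin 4 × Fin 4).2 ≠ 0 := by decide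
  exact gc_cnt b nil ![(1, 1), (1, 2), (1, 3), (2, 2), (2, 3), (3, 3)] (by decide)
    (fun g z i => hW g z _ _ (a i).1 (a i).2) fun i u h => .inl (gc_mem b.fm (fun g z =>
      ⟨hW g z _ _ (a i).1 (a i).1, hW g z _ _ (a i).2 (a i).2, hW g z _ _ (a i).1 (a i).2⟩) h)

theorem Bad.caseQ (b : Bad B π v) (nil : ∀ i, IsNilpotent (π (X i)))
    (hW : ∀ g, π g v = 0 → ∀ i j : Fin 4, 2 ≤ i.val → he g i j = 0)
    (h0 : ∃ g, π g v = 0 ∧ he g = Matrix.single 0 0 1)
    (h1 : ∃ g, π g v = 0 ∧ he g = Matrix.single 1 1 1) : 24 ≤ finrank k V := by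
  obtain ⟨f, hf, a⟩ : ∃ f : Fin 7 → Fin 4 × Fin 4, (∀ a a', f a = f a' ∨ f a = (f a').swap → a = a') ∧
      ∀ a, 2 ≤ (f a).2.val :=
    ⟨![(0, 2), (0, 3), (1, 2), (1, 3), (2, 2), (2, 3), (3, 3)], by decide, by decide⟩
  have s {g : P 4 k} (h : ∀ i j : Fin 4, 2 ≤ i.val → he g i j = 0) (i) : he g (f i).1 (f i).2 = 0 :=
    ((he_symm g).apply _ _).trans (h _ _ (a i))
  refine gc_cnt b nil f hf (fun g z => s (hW g z)) fun i u h => ?_
  obtain e | e | e : (f i).1 = 0 ∨ (f i).1 = 1 ∨ 2 ≤ (f i).1.val := by omega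
  · exact .inr ((b.emove nil (by decide) (by decide) zero_ne_one (a i) hW h0 h1 (e ▸ h)).imp
      fun g c => ⟨c.1, c.2.1, c.2.2.1, s c.2.2.2⟩)
  · exact .inr ((b.emove nil (by decide) (by decide) one_ne_zero (a i) hW h1 h0 (e ▸ h)).imp
      fun g c => ⟨c.1, c.2.1, c.2.2.1, s c.2.2.2⟩)
  · exact .inl (gc_mem b.fm (fun g z => ⟨hW g z _ _ e, hW g z _ _ (a i), hW g z _ _ e⟩) h)

/-- linear change of variables -/
noncomputable def gcL (D : Matrix (Fin 4) (Fin 4) k) (i : Fin 4) : P 4 k := ∑ j, D i j • X j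

theorem gc_lin (D : Matrix (Fin 4) (Fin 4) k) (g : P 4 k) :
    he (aeval (gcL D) g : P 4 k) = Dᵀ * he g * D := by
  have c (g : P 4 k) : constantCoeff (aeval (gcL D) g : P 4 k) = constantCoeff g := by
    induction g using MvPolynomial.induction_on <;> simp_all [gcL]
  have d (g : P 4 k) (j) : MvPolynomial.pderiv j (aeval (gcL D) g : P 4 k) =
      ∑ i, D i j • aeval (gcL D) (MvPolynomial.pderiv i g) := by
    induction g using MvPolynomial.induction_on with
    | C => simp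
    | add p q a b => simp only [map_add, a, b, smul_add, Finset.sum_add_distrib]
    | mul_X p i a =>
      have : MvPolynomial.pderiv j (gcL D i) = C (D i j) := by
        simp [gcL, MvPolynomial.pderiv_X, Pi.single_apply, MvPolynomial.smul_eq_C_mul]
      simp [a, this, MvPolynomial.pderiv_X, Pi.single_apply, Finset.sum_add_distrib, Finset.mul_sum,
        MvPolynomial.smul_eq_C_mul, mul_comm, mul_left_comm, apply_ite, add_comm,
        -MvPolynomial.aeval_eq_bind₁]
  ext i j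
  simp [he, d, c, mul_apply, Finset.mul_sum, mul_comm, -MvPolynomial.aeval_eq_bind₁]

theorem gc_inv {C D : Matrix (Fin 4) (Fin 4) k} (h : C * D = 1) (g : P 4 k) :
    aeval (gcL D) (aeval (gcL C) g : P 4 k) = g := by
  refine (AlgHom.congr_fun (?_ : (aeval (gcL D)).comp (aeval (gcL C)) = .id k _) g)
  refine MvPolynomial.algHom_ext fun i => ?_
  have (l : Fin 4) : ∑ j, C i j * D j l = if i = l then 1 else 0 := by rw [← mul_apply, h, one_apply]
  simp only [AlgHom.comp_apply, MvPolynomial.aeval_X, gcL, map_sum, map_smul, Finset.smul_sum,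
    smul_smul, AlgHom.id_apply]
  rw [Finset.sum_comm]
  simp [← Finset.sum_smul, this]

theorem Bad.core (b : Bad B π v) (nil : ∀ i, IsNilpotent (π (X i))) : 22 ≤ finrank k V := by
  obtain ⟨C, hC, h⟩ := quad ((LinearMap.ker (applyₗ v ∘ₗ π.toLinearMap)).map (gc_he.mk' _))
    (by rintro _ ⟨g, -, rfl⟩; exact he_symm g) (by rintro _ ⟨g, z, rfl⟩; exact (b.rel nil z).2.2)
  obtain ⟨⟨C, D, h1, h2⟩, rfl⟩ := hC
  have b' := b.subst (gcL D) fun i => ⟨aeval (gcL C) (X i), congrArg π (gc_inv h1 _)⟩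
  have n' (i) : IsNilpotent (π.comp (aeval (gcL D)) (X i)) := by
    simp only [AlgHom.comp_apply, MvPolynomial.aeval_X, gcL, map_sum, map_smul]
    exact Commute.isNilpotent_sum (fun j _ => (nil j).smul _) fun j l _ _ =>
      (((Commute.all _ _).map π).smul_left _).smul_right _
  have e (g : P 4 k) : Cᵀ * he (aeval (gcL D) g : P 4 k) * C = he g := by
    rw [← gc_lin, gc_inv h2]
  have x {M} (h : ∃ H ∈ (LinearMap.ker (applyₗ v ∘ₗ π.toLinearMap)).map (gc_he.mk' _),
      Cᵀ * H * C = M) : ∃ g, π.comp (aeval (gcL D)) g v = 0 ∧ he g = M := by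
    obtain ⟨_, ⟨g, z, rfl⟩, h⟩ := h
    exact ⟨aeval (gcL C) g, by rw [AlgHom.comp_apply, gc_inv h1]; exact z, (gc_lin C g).trans h⟩
  rcases h with h | ⟨h, h0, h1⟩
  · exact b'.caseP n' fun g z => e g ▸ h _ ⟨_, z, rfl⟩
  · exact le_trans (by norm_num) (b'.caseQ n' (fun g z => e g ▸ h _ ⟨_, z, rfl⟩) (x h0) (x h1))

theorem main21 {A : Type} [CommRing A] [Algebra k A] [FiniteDimensional k A] (F : Frob k A)
    {a : Fin 4 → A} (g : Gn k a) (h : finrank k A ≤ 21) : SmA k A := by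
  induction' hn : finrank k A using Nat.strong_induction_on with n ih generalizing A
  subst hn
  refine F.elim fun φ hφ => SmA.loc F a (fun B _ _ _ ρ s f l => ih _ l f (g.map ρ s) (by omega) rfl)
    fun p _ nil => (g.shift p).sm (by_contra fun ns => ?_)
  have := Bad.core ⟨hφ.fm (g.shift p), fun B π v f s => by_contra fun c => s (f.alg fun f' e => ?_),
    by simpa using ns⟩ fun i => by simpa using (nil i).map (Algebra.lmul k A)
  · omega
  have g' : Gn k fun i => Ideal.Quotient.mkₐ k (RingHom.ker π) (X i) := by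
    rw [Gn, Algebra.adjoin_range_eq_range_aeval, AlgHom.range_eq_top]
    exact MvPolynomial.aeval_unique (Ideal.Quotient.mkₐ k (RingHom.ker π)) ▸
      Ideal.Quotient.mkₐ_surjective k _
  refine SmA.loc f' (fun i => Ideal.Quotient.mkₐ k (RingHom.ker π) (X i))
    (fun B _ _ _ ρ s f l => ih _ (e ▸ l) f (g'.map ρ s) (by omega) rfl)
    fun p _ nil => (c ⟨p, fun i => ?_⟩).elim
  simpa [Algebra.algebraMap_eq_smul_one] using (nil i).map (Ideal.kerLiftAlg π)

end Pool.Agent.Lib.MP_2cea55_ag.Gs
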