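import Pool.Agent.Lib.MP_2cea55_ag.G1
import Pool.Agent.Lib.MP_2cea55_ag.Family

set_option autoImplicit false
set_option linter.unusedSectionVars false
set_option linter.style.haveILetI false
set_option linter.unusedVariables false

namespace Pool.Agent.Lib.MP_2cea55_ag.Gs
open Module LinearMap Matrix
open Pool.Agent.Lib.MP_02ae3d_ag (IsP cl Pol phi)
open scoped PowerSeries TensorProduct

variable {k : Type} [Field k] [IsAlgClosed k] [CharZero k] {d : ℕ}

/-- ideals of sets of distinct points -/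
def Pts (k : Type) [Field k] (d : ℕ) : Set (Ideal (MvPolynomial (Fin 4) k)) :=
  {I | ∃ p : Fin d → Fin 4 → k, p.Injective ∧ ∀ f, f ∈ I ↔ ∀ i, MvPolynomial.eval (p i) f = 0}

theorem gf_frob {A : Type} [CommRing A] [Algebra k A] [FiniteDimensional k A]
    (h : ∀ (m : Ideal A) [m.IsPrime],
      finrank k (IsLocalRing.maximalIdeal (Localization.AtPrime m)).annihilator = 1) :
    Frob k A := by
  haveI : IsArtinianRing A := IsArtinianRing.of_finite k A
  haveI : IsNoetherianRing A := IsNoetherianRing.of_finite k A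
  have key : ∀ m : PrimeSpectrum A, ∃ a : A, ∀ x, (∀ b ∈ m.asIdeal, b * x = 0) →
      ∃ c : k, x = c • a := by
    intro m
    have hm : m.asIdeal.IsMaximal := IsArtinianRing.isMaximal_of_isPrime _
    by_cases e : ∃ a : A, a ≠ 0 ∧ ∀ b ∈ m.asIdeal, b * a = 0
    swap
    · exact ⟨0, fun x hx => ⟨0, by_contra fun h0 => e ⟨x, by simpa using h0, hx⟩⟩⟩
    obtain ⟨a, a0, ha⟩ := e
    let ι := IsScalarTower.toAlgHom k A (Localization.AtPrime m.asIdeal)
    have mem : ∀ x, (∀ b ∈ m.asIdeal, b * x = 0) → ι x ∈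
        (IsLocalRing.maximalIdeal (Localization.AtPrime m.asIdeal)).annihilator := by
      intro x hx
      rw [Submodule.mem_annihilator]
      intro y hy
      rw [← Localization.AtPrime.map_eq_maximalIdeal] at hy
      refine Submodule.span_induction (fun y hy => ?_) (by simp) (fun y z _ _ a b => ?_)
        (fun c y _ h => ?_) hy
      · obtain ⟨b, hb, rfl⟩ := hy
        change algebraMap A _ x * _ = 0
        rw [← map_mul, mul_comm, hx b hb, map_zero]
      · rw [smul_add, a, b, add_zero]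
      · rw [smul_comm, h, smul_zero]
    have inj : ∀ x, (∀ b ∈ m.asIdeal, b * x = 0) → ι x = 0 → x = 0 := by
      intro x hx h0
      obtain ⟨s, hs⟩ := (IsLocalization.map_eq_zero_iff m.asIdeal.primeCompl _ _).1 h0
      obtain ⟨t, i, hi, e⟩ := hm.exists_inv s.2
      calc x = (t * s + i) * x := by rw [e, one_mul]
        _ = 0 := by rw [add_mul, mul_assoc, hs, hx i hi]; simp
    refine ⟨a, fun x hx => ?_⟩
    obtain ⟨c, hc⟩ := (finrank_eq_one_iff_of_nonzero' (K := k) (⟨ι a, mem a ha⟩ :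
      (IsLocalRing.maximalIdeal (Localization.AtPrime m.asIdeal)).annihilator)
      fun h0 => a0 (inj a ha (congrArg Subtype.val h0))).1 (h m.asIdeal) ⟨ι x, mem x hx⟩
    refine ⟨c, sub_eq_zero.1 (inj _ (fun b hb => ?_) ?_)⟩
    · rw [mul_sub, hx b hb, mul_smul_comm, ha b hb, smul_zero, sub_zero]
    · rw [map_sub, map_smul, sub_eq_zero]
      exact (congrArg Subtype.val hc).symm
  choose a ha using key
  obtain ⟨φ, hφ⟩ := Module.exists_dual_forall_apply_ne_zero (K := k)
    (fun m : {m // a m ≠ 0} => a m) fun m => m.2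
  refine ⟨φ, fun x hx => by_contra fun x0 => ?_⟩
  haveI : Nontrivial (Ideal.span {x}) := ⟨⟨x, Ideal.mem_span_singleton_self x⟩, 0,
    fun h0 => x0 (congrArg Subtype.val h0)⟩
  obtain ⟨m, hm⟩ := associatedPrimes.nonempty A (Ideal.span {x})
  obtain ⟨hp, ⟨y, hy⟩, e⟩ := isAssociatedPrime_iff.1 hm
  have e' : ∀ b, b ∈ m ↔ b * y = 0 := fun b => by
    rw [e, Submodule.mem_colon_singleton, Submodule.mem_bot, Subtype.ext_iff]; rfl
  obtain ⟨c, hc⟩ := ha ⟨m, hp⟩ y fun b hb => (e' b).1 hb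
  have y0 : y ≠ 0 := fun h0 => hp.ne_top (Ideal.eq_top_iff_one m |>.2 ((e' 1).2 (by simp [h0])))
  obtain ⟨b, rfl⟩ := Ideal.mem_span_singleton.1 hy
  have := hx b
  rw [hc, map_smul, smul_eq_zero] at this
  rcases this with h0 | h0
  · exact y0 (by rw [hc, h0, zero_smul])
  · exact hφ ⟨⟨m, hp⟩, fun h1 => y0 (by rw [hc, h1, smul_zero])⟩ h0

theorem gor_frob (hd : 1 ≤ d) {I : Ideal (P 4 k)} (h : I ∈ Gor k d) :
    FiniteDimensional k (P 4 k ⧸ I) ∧ Frob k (P 4 k ⧸ I) := by
  haveI : FiniteDimensional k (P 4 k ⧸ I) := Module.finite_of_finrank_pos (by rw [h.1]; exact hd)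
  exact ⟨this, gf_frob h.2⟩

open MvPolynomial (X C eval aeval monomial)

theorem gf_interp {p : Fin d → Fin 4 → k} (hp : p.Injective) (w : Fin d → k) :
    ∃ f : P 4 k, ∀ i, eval (p i) f = w i := by
  classical
  have : ∀ i j : Fin d, ∃ f : P 4 k, eval (p i) f = 1 ∧ (j ≠ i → eval (p j) f = 0) := by
    intro i j
    by_cases h : j = i
    · exact ⟨1, by simp, fun h' => absurd h h'⟩
    obtain ⟨s, hs⟩ := Function.ne_iff.1 (hp.ne h)
    refine ⟨C (p i s - p j s)⁻¹ * (X s - C (p j s)), ?_, fun _ => by simp⟩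
    simp [inv_mul_cancel₀ (sub_ne_zero.2 hs.symm)]
  choose f h1 h0 using this
  refine ⟨∑ i, C (w i) * ∏ j, f i j, fun l => ?_⟩
  rw [map_sum, Finset.sum_eq_single l]
  · simp [h1]
  · intro i _ hi
    rw [map_mul, map_prod, Finset.prod_eq_zero (Finset.mem_univ l) (h0 i l hi.symm), mul_zero]
  · simp

theorem pts_gor : Pts k d ⊆ Gor k d := by
  classical
  rintro I ⟨p, hp, hI⟩
  have e : Id (∑ i, evp (p i)) = I := by
    ext f
    rw [hI, mem_Id]
    simp only [LinearMap.sum_apply, evp_apply, map_mul]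
    refine ⟨fun h i => ?_, fun h g => by simp [h]⟩
    obtain ⟨g, hg⟩ := gf_interp hp (Pi.single i 1)
    simpa [hg, Pi.single_apply] using h g
  let π : R k →ₗ[k] Fin d → k := LinearMap.pi fun i => evp (p i)
  have E := quotEquiv I π fun f => by rw [hI, funext_iff]; rfl
  have hr : range π = ⊤ := range_eq_top.2 fun w => (gf_interp hp w).imp fun f hf => funext hf
  subst e
  haveI := Module.Finite.equiv E.symm
  have := Id_gor (∑ i, evp (p i))
  rwa [E.finrank_eq, hr, finrank_top, finrank_fin_fun] at this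

theorem pts_ne : (Pts k d).Nonempty :=
  ⟨⨅ i : Fin d, RingHom.ker (eval fun _ => ((i : ℕ) : k)), fun i _ => ((i : ℕ) : k),
    fun i j h => Fin.ext (Nat.cast_injective (R := k) (congrFun h 0)), fun f => by simp⟩

section
variable {V : Type} [AddCommGroup V] [Module k V] [FiniteDimensional k V]

/-- the annihilator of a vector -/
def gfAnn (π : P 4 k →ₐ[k] End k V) (v : V) : Ideal (P 4 k) where
  carrier := {f | π f v = 0}
  add_mem' := fun {a b} (ha : _ = _) (hb : _ = _) => by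
    change π _ v = 0
    rw [map_add, LinearMap.add_apply, ha, hb, add_zero]
  zero_mem' := by simp
  smul_mem' := fun c f (hf : _ = _) => by
    change π _ v = 0
    rw [smul_eq_mul, map_mul, End.mul_apply, hf, map_zero]

theorem gf_rep (f : P 4 k) : ∃ G : (Fin 4 → End k V) → End k V, IsP k G ∧
    ∀ π : P 4 k →ₐ[k] End k V, G (fun i => π (X i)) = π f := by
  induction f using MvPolynomial.induction_on with
  | C a => exact ⟨fun _ => algebraMap k _ a, .const _, fun π => (π.commutes a).symm⟩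
  | add p q hp hq =>
    obtain ⟨G, a, b⟩ := hp
    obtain ⟨G', a', b'⟩ := hq
    exact ⟨fun T => G T + G' T, a.add a', fun π => by simp [b, b']⟩
  | mul_X p i hp =>
    obtain ⟨G, a, b⟩ := hp
    exact ⟨fun T => G T * T i, a.mul (IsP.id.ap i), fun π => by simp [b]⟩

theorem gf_basis {B S : Type} [CommRing B] [CommRing S] [Algebra B S] (J : Ideal S)
    (g : Fin d → S) (h : ∀ c : Fin d → B, ∑ j, c j • g j ∈ J → ∀ j, c j = 0)
    (h' : ∀ f, ∃ c : Fin d → B, f - ∑ j, c j • g j ∈ J) : Nonempty (Basis (Fin d) B (S ⧸ J)) := by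
  have li : LinearIndependent B fun j => Ideal.Quotient.mkₐ B J (g j) := by
    refine Fintype.linearIndependent_iff.2 fun c hc => h c ?_
    simp only [← map_smul, ← map_sum] at hc
    exact Ideal.Quotient.eq_zero_iff_mem.1 hc
  refine ⟨Basis.mk li fun x _ => ?_⟩
  obtain ⟨f, rfl⟩ := Ideal.Quotient.mkₐ_surjective B J x
  obtain ⟨c, hc⟩ := h' f
  have : Ideal.Quotient.mkₐ B J f = Ideal.Quotient.mkₐ B J (∑ j, c j • g j) :=
    Ideal.Quotient.eq.2 hc
  rw [this, map_sum]
  exact sum_mem fun j _ => by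
    rw [map_smul]
    exact Submodule.smul_mem _ _ (Submodule.subset_span ⟨j, rfl⟩)

theorem gf_fam {U B : Type} [CommRing B] [Algebra k B] [Algebra.FiniteType k B]
    (ev : U → B →ₐ[k] k) (he : ∀ a, (∀ u, ev u a = 0) → a = 0) (π : U → P 4 k →ₐ[k] End k V)
    (v : V) (g : Fin d → P 4 k) (inj : ∀ u (c : Fin d → k), ∑ j, c j • π u (g j) v = 0 → c = 0)
    (sol : ∀ f, ∃ c : Fin d → B, ∀ u, ∑ j, ev u (c j) • π u (g j) v = π u f v)
    {Z : Set (Ideal (P 4 k))} (z : ZClosed k d Z) :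
    ∃ S : Set B, ∀ u, gfAnn (π u) v ∈ Z ↔ ∀ a ∈ S, ev u a = 0 := by
  let sp : U → MvPolynomial (Fin 4) B →+* P 4 k := fun u => MvPolynomial.map (ev u).toRingHom
  let ι : P 4 k →+* MvPolynomial (Fin 4) B := MvPolynomial.map (algebraMap k B)
  have hι : ∀ u f, sp u (ι f) = f := fun u f => by
    change MvPolynomial.map _ (MvPolynomial.map _ f) = f
    rw [MvPolynomial.map_map]
    have : (ev u).toRingHom.comp (algebraMap k B) = RingHom.id k := by ext x; simp
    rw [this, MvPolynomial.map_id]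
  have hs : ∀ u (a : B) f, sp u (a • f) = ev u a • sp u f := fun u a f => by
    rw [MvPolynomial.smul_eq_C_mul, MvPolynomial.smul_eq_C_mul, map_mul]
    exact congrArg (· * _) (MvPolynomial.map_C _ _)
  let J : Ideal (MvPolynomial (Fin 4) B) := ⨅ u : U, (gfAnn (π u) v).comap (sp u)
  have hJ : ∀ f, f ∈ J ↔ ∀ u : U, π u (sp u f) v = 0 := fun f => Ideal.mem_iInf
  have cmb : ∀ (u : U) (c : Fin d → B), π u (sp u (∑ j, c j • ι (g j))) v =
      ∑ j, ev u (c j) • π u (g j) v := fun u c => by simp [hs, hι]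
  have coef : ∀ f, ∃ c : Fin d → B, f - ∑ j, c j • ι (g j) ∈ J := by
    intro f
    induction f using MvPolynomial.induction_on' with
    | monomial s a =>
      obtain ⟨c, hc⟩ := sol (monomial s 1)
      have e1 : monomial s a = a • ι (monomial s 1) := by
        simp [ι, MvPolynomial.smul_monomial]
      refine ⟨a • c, ?_⟩
      have : ι (monomial s 1) - ∑ j, c j • ι (g j) ∈ J := (hJ _).2 fun u => by
        rw [map_sub, map_sub, LinearMap.sub_apply, cmb, hι, hc, sub_self]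
      have := J.mul_mem_left (C a) this
      rwa [← MvPolynomial.smul_eq_C_mul, smul_sub, ← e1, Finset.smul_sum,
        Finset.sum_congr rfl fun j _ => smul_smul a (c j) _] at this
    | add p q hp hq =>
      obtain ⟨c, a⟩ := hp
      obtain ⟨c', a'⟩ := hq
      refine ⟨c + c', ?_⟩
      have := add_mem a a'
      simp only [Pi.add_apply, add_smul, Finset.sum_add_distrib]
      rwa [add_sub_add_comm]
  obtain ⟨S, hS⟩ := z B J (gf_basis J _ (fun c hc j => he _ fun u =>
    congrFun (inj u _ ((cmb u c).symm.trans ((hJ _).1 hc u))) j) coef)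
  refine ⟨S, fun u => Iff.trans (iff_of_eq (congrArg (· ∈ Z) (Eq.symm ?_))) (hS (ev u))⟩
  change J.map (sp u) = _
  refine le_antisymm (Ideal.map_le_iff_le_comap.2 (iInf_le _ u)) fun f (hf : _ = _) => ?_
  obtain ⟨c, hc⟩ := coef (ι f)
  have h1 := (hJ _).1 hc u
  rw [map_sub, map_sub, LinearMap.sub_apply, cmb, hι, hf, zero_sub, neg_eq_zero] at h1
  have h2 := Ideal.mem_map_of_mem (sp u) hc
  rwa [map_sub, hι, map_sum, Finset.sum_eq_zero fun j _ => by
    rw [hs, congrFun (inj u _ h1) j, Pi.zero_apply, zero_smul], sub_zero] at h2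

theorem gf_ring {U : Type} (τ : U → V) {Δ : V → k} (hΔ : IsP k Δ) (h : ∀ u, Δ (τ u) ≠ 0) :
    ∃ B : Subalgebra k (U → k), Algebra.FiniteType k B ∧
      (∀ F, IsP k F → (fun u => (Δ (τ u))⁻¹ * F (τ u)) ∈ B) ∧
      ∀ a ∈ B, ∃ (N : ℕ) (F : V → k), IsP k F ∧ ∀ u, a u * Δ (τ u) ^ N = F (τ u) := by
  let b := finBasis k V
  refine ⟨Algebra.adjoin k (insert (fun u => (Δ (τ u))⁻¹) (Set.range fun i u => b.coord i (τ u))),
    .adjoin_of_finite ((Set.finite_range _).insert _), fun F hF =>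
      mul_mem (Algebra.subset_adjoin (.inl rfl)) (?_ : (fun u => F (τ u)) ∈ _), fun a ha => ?_⟩
  · rw [MP_02ae3d_ag.isP_iff] at hF
    induction hF using Algebra.adjoin_induction with
    | mem f hf =>
      obtain ⟨φ, rfl⟩ := hf
      have : (fun u => φ (τ u)) = ∑ i, φ (b i) • fun u => b.coord i (τ u) := by
        ext u
        conv_lhs => rw [← b.sum_repr (τ u), map_sum]
        simp [mul_comm]
      rw [this]
      exact sum_mem fun i _ => Subalgebra.smul_mem _ (Algebra.subset_adjoin (.inr ⟨i, rfl⟩)) _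
    | algebraMap c => exact Subalgebra.algebraMap_mem _ c
    | add f g _ _ a b => exact add_mem a b
    | mul f g _ _ a b => exact mul_mem a b
  · induction ha using Algebra.adjoin_induction with
    | mem f hf =>
      rcases hf with rfl | ⟨i, rfl⟩
      · exact ⟨1, fun _ => 1, .const _, fun u => by simpa using inv_mul_cancel₀ (h u)⟩
      · exact ⟨0, _, IsP.id.lin (b.coord i), fun u => by simp⟩
    | algebraMap c => exact ⟨0, fun _ => c, .const _, fun u => by simp⟩
    | add f g _ _ a b =>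
      obtain ⟨N, F, a, a'⟩ := a
      obtain ⟨N', F', b, b'⟩ := b
      exact ⟨N + N', _, (a.mulk (hΔ.powk N')).add (b.mulk (hΔ.powk N)), fun u => by
        simp only [← a', ← b', Pi.add_apply]; ring⟩
    | mul f g _ _ a b =>
      obtain ⟨N, F, a, a'⟩ := a
      obtain ⟨N', F', b, b'⟩ := b
      exact ⟨N + N', _, a.mulk b, fun u => by simp only [← a', ← b', Pi.mul_apply]; ring⟩

theorem gf_chart (hV : finrank k V = d) (v : V) (π0 : P 4 k →ₐ[k] End k V)
    (c0 : ∀ u, ∃ g, π0 g v = u) {Z : Set (Ideal (P 4 k))} (z : ZClosed k d Z)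
    (h0 : gfAnn π0 v ∉ Z) : ∃ F : (Fin 4 → End k V) → k, IsP k F ∧ F (fun i => π0 (X i)) ≠ 0 ∧
      ∀ π : P 4 k →ₐ[k] End k V, F (fun i => π (X i)) ≠ 0 →
        (∀ u, ∃ g, π g v = u) ∧ gfAnn π v ∉ Z := by
  classical
  have e := finBasisOfFinrankEq k V hV
  choose g hg using fun j => c0 (e j)
  choose G hG hG' using gf_rep (k := k) (V := V)
  have hy : ∀ f i, IsP k fun T => e.repr (G f T v) i := fun f i =>
    ((hG f).lin (LinearMap.applyₗ v)).lin (e.coord i)
  obtain ⟨M, hM0⟩ : ∃ M : (Fin 4 → End k V) → Matrix (Fin d) (Fin d) k,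
      ∀ T i j, M T i j = e.repr (G (g j) T v) i := ⟨fun T => of _, fun _ _ _ => rfl⟩
  have hΔ : IsP k fun T => (M T).det := .mdet fun i j => by simpa only [hM0] using hy _ _
  have hM : ∀ (π : P 4 k →ₐ[k] End k V) (c : Fin d → k),
      e.equivFun (∑ j, c j • π (g j) v) = (M fun i => π (X i)) *ᵥ c := by
    intro u c
    ext i
    simp [hM0, hG', mulVec, dotProduct, mul_comm]
  have sol : ∀ (π : P 4 k →ₐ[k] End k V), (M fun i => π (X i)).det ≠ 0 → ∀ w : V,
      ∑ j, ((M fun i => π (X i)).det⁻¹ * ((M fun i => π (X i)).updateCol j (e.equivFun w)).det) •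
        π (g j) v = w := fun u hu w => e.equivFun.injective (by
    rw [hM]
    change _ *ᵥ ((M fun i => u (X i)).det⁻¹ • cramer (M fun i => u (X i)) (e.equivFun w)) = _
    rw [mulVec_smul, mulVec_cramer, smul_smul, inv_mul_cancel₀ hu, one_smul])
  obtain ⟨B, hB, inB, ofB⟩ := gf_ring
    (fun (u : {π : P 4 k →ₐ[k] End k V // (M fun i => π (X i)).det ≠ 0}) i => u.1 (X i)) hΔ
    fun u => u.2
  obtain ⟨S, hS⟩ := gf_fam (fun u => (Pi.evalAlgHom k (fun _ => k) u).comp B.val)
    (fun a h => Subtype.ext (funext h)) Subtype.val v g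
    (fun u c h => eq_zero_of_mulVec_eq_zero u.2 (by rw [← hM, h, map_zero]))
    (fun f => ⟨fun j => ⟨_, inB (fun T => ((M T).updateCol j fun i => e.repr (G f T v) i).det)
      (.mdet fun i l => by
        simp only [updateCol_apply, hM0]
        split_ifs
        exacts [hy _ _, hy _ _])⟩, fun u => by
      rw [← sol u.1 u.2 (u.1 f v)]
      refine Finset.sum_congr rfl fun j _ => ?_
      simp only [AlgHom.comp_apply, Subalgebra.coe_val, Pi.evalAlgHom_apply, hG']
      rfl⟩) z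
  have u0 : (M fun i => π0 (X i)).det ≠ 0 := by
    have : (M fun i => π0 (X i)) = 1 := by
      ext i j
      simp [hM0, hG', hg, one_apply, Finsupp.single_apply, eq_comm]
    rw [this, det_one]
    exact one_ne_zero
  have := mt (hS ⟨π0, u0⟩).2 h0
  push Not at this
  obtain ⟨a, ha, a0⟩ := this
  obtain ⟨N, F, hF, hF'⟩ := ofB a a.2
  refine ⟨_, hF.mulk hΔ, mul_ne_zero ?_ u0, fun π h => ⟨fun w => ?_, fun hz => ?_⟩⟩
  · rw [← hF' ⟨π0, u0⟩]
    exact mul_ne_zero a0 (pow_ne_zero _ u0)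
  · have : ∀ c : Fin d → k, π (∑ j, c j • g j) v = ∑ j, c j • π (g j) v := fun c => by simp
    exact ⟨_, (this _).trans (sol π (right_ne_zero_of_mul h) w)⟩
  · refine left_ne_zero_of_mul h ?_
    rw [← hF' ⟨π, right_ne_zero_of_mul h⟩]
    exact mul_eq_zero_of_left ((hS ⟨π, right_ne_zero_of_mul h⟩).1 hz a ha) _

/-- the diagonal action of a tuple of points -/
noncomputable def gfDiag (b : Basis (Fin d) k V) (p : Fin d → Fin 4 → k) :
    P 4 k →ₐ[k] End k V :=
  (Matrix.toLinAlgEquiv b).toAlgHom.comp ((Matrix.diagonalAlgHom k).comp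
    (AlgHom.pi fun j => aeval (p j)))

theorem gfDiag_repr (b : Basis (Fin d) k V) (p : Fin d → Fin 4 → k) (f : P 4 k) (v : V)
    (j : Fin d) : b.repr (gfDiag b p f v) j = eval (p j) f * b.repr v j := by
  simp [gfDiag, toLinAlgEquiv_apply, mulVec_diagonal, Finsupp.single_apply]

theorem gfDiag_pts (b : Basis (Fin d) k V) (p : Fin d → Fin 4 → k) {v : V}
    (c : ∀ u, ∃ g, gfDiag b p g v = u) : gfAnn (gfDiag b p) v ∈ Pts k d := by
  choose g hg using fun j => c (b j)
  have h : ∀ i j, eval (p j) (g i) * b.repr v j = if i = j then 1 else 0 := fun i j => by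
    rw [← gfDiag_repr, hg]; simp [Finsupp.single_apply]
  have h0 : ∀ j, b.repr v j ≠ 0 := fun j => right_ne_zero_of_mul (by rw [h j j]; simp)
  refine ⟨p, fun i j hij => by_contra fun hn => ?_, fun f => ?_⟩
  · have a := h i i
    have a' := h i j
    rw [if_neg hn, ← hij, mul_eq_zero, or_iff_left (h0 j)] at a'
    simp [a'] at a
  · change gfDiag b p f v = 0 ↔ _
    rw [b.ext_elem_iff]
    simp [gfDiag_repr, h0]

theorem gf_dg (hV : finrank k V = d) {T : Fin 4 → End k V} (h : T ∈ Dg k V (Fin 4)) :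
    ∃ (b : Basis (Fin d) k V) (p : Fin d → Fin 4 → k), T = fun i => gfDiag b p (X i) := by
  obtain ⟨s, hs, h1, h2⟩ := exists_linearIndependent k {v | ∀ i, ∃ a : k, T i v = a • v}
  let b0 := Basis.mk h2 (by rw [Subtype.range_coe, h1]; exact h.ge)
  haveI : Fintype s := FiniteDimensional.fintypeBasisIndex b0
  let E : s ≃ Fin d := Fintype.equivFinOfCardEq (by rw [← finrank_eq_card_basis b0, hV])
  let b := b0.reindex E
  have : ∀ j i, ∃ a : k, T i (b j) = a • b j := fun j => by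
    simpa [b, b0] using hs (E.symm j).2
  choose p hp using this
  refine ⟨b, p, funext fun i => b.ext fun j => b.ext_elem fun l => ?_⟩
  rw [gfDiag_repr, hp]
  by_cases h : j = l <;> simp [h]

end

theorem sm_closed (hd : 1 ≤ d) {I : Ideal (P 4 k)} (h : finrank k (P 4 k ⧸ I) = d)
    (s : SmA k (P 4 k ⧸ I)) {Z : Set (Ideal (P 4 k))} (z : ZClosed k d Z) (p : Pts k d ⊆ Z) :
    I ∈ Z := by
  haveI : FiniteDimensional k (P 4 k ⧸ I) := Module.finite_of_finrank_pos (by rw [h]; exact hd)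
  by_contra h0
  let π0 := (Algebra.lmul k (P 4 k ⧸ I)).comp (Ideal.Quotient.mkₐ k I)
  have e : gfAnn π0 1 = I := by
    ext f
    change π0 f 1 = 0 ↔ _
    simp [π0, Ideal.Quotient.eq_zero_iff_mem]
  obtain ⟨F, h1, h2, h3⟩ := gf_chart h 1 π0 (fun u => by
    obtain ⟨g, rfl⟩ := Ideal.Quotient.mk_surjective u
    exact ⟨g, by simp [π0]⟩) z (by rwa [e])
  refine h2 (s 4 (fun i => Ideal.Quotient.mkₐ k I (X i)) F (MP_02ae3d_ag.isP_iff.1 h1)
    fun T hT => by_contra fun hn => ?_)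
  obtain ⟨b, q, rfl⟩ := gf_dg h hT
  exact (h3 _ hn).2 (p (gfDiag_pts b q (h3 _ hn).1))

theorem pts_irr (hd : 1 ≤ d) {Z Z' : Set (Ideal (P 4 k))} (z : ZClosed k d Z)
    (z' : ZClosed k d Z') (p : Pts k d ⊆ Z ∪ Z') : Pts k d ⊆ Z ∨ Pts k d ⊆ Z' := by
  let b := Pi.basisFun k (Fin d)
  have key : ∀ {Y}, ZClosed k d Y → ¬ Pts k d ⊆ Y → ∃ F : (Fin d → Fin 4 → k) → k, IsP k F ∧
      (∃ q, F q ≠ 0) ∧ ∀ q, F q ≠ 0 → gfAnn (gfDiag b q) 1 ∈ Pts k d \ Y := by
    intro Y y h
    obtain ⟨I, ⟨q, hq, hI⟩, h0⟩ := Set.not_subset.1 h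
    have r : ∀ q f j, gfDiag b q f 1 j = eval (q j) f := fun q f j => by
      simpa [b] using gfDiag_repr b q f 1 j
    have e : gfAnn (gfDiag b q) 1 = I := by
      ext f
      change gfDiag b q f 1 = 0 ↔ _
      simp [hI, funext_iff, r]
    obtain ⟨F, h1, h2, h3⟩ := gf_chart (finrank_fin_fun k) 1 (gfDiag b q)
      (fun u => (gf_interp hq u).imp fun f hf => funext fun j => (r q f j).trans (hf j)) y
      (by rwa [e])
    refine ⟨_, h1.comp (.pi fun i => ?_), ⟨q, h2⟩, fun q hq =>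
      ⟨gfDiag_pts b q (h3 _ hq).1, (h3 _ hq).2⟩⟩
    have : (fun q => gfDiag b q (X i)) = fun q : Fin d → Fin 4 → k =>
        ∑ j, q j i • b.constr k (Pi.single j (b j)) := by
      refine funext fun q => b.ext fun l => b.ext_elem fun m => ?_
      rw [gfDiag_repr]
      by_cases h : l = m <;> simp [Pi.single_apply, h, b]
    rw [this]
    exact .sum _ fun j => ((IsP.id.ap j).ap i).smul (.const _)
  by_contra! a
  obtain ⟨F, h1, ⟨x, h2⟩, h3⟩ := key z a.1
  obtain ⟨F', h1', ⟨y, h2'⟩, h3'⟩ := key z' a.2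
  have γ : IsP k fun t : k => x + t • (y - x) := by fun_prop
  obtain ⟨t, c, e⟩ := (((h1.comp γ).cof (a := 0) (by simpa)).and
    ((h1'.comp γ).cof (a := 1) (by simpa))).exists
  exact (p (h3 _ c).1).elim (h3 _ c).2 (h3' _ e).2

end Pool.Agent.Lib.MP_2cea55_ag.Gs
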