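import Pool.Agent.Lib.MP_2cea55_ag.GC
import Pool.Agent.Lib.MP_2cea55_ag.GF

set_option autoImplicit false
set_option linter.unusedSectionVars false
set_option linter.style.haveILetI false

namespace Pool.Agent.Lib.MP_2cea55_ag.Gs
open Module
open MvPolynomial (aeval eval pderiv X C)

variable {k : Type} [Field k] [IsAlgClosed k] [CharZero k] {d : ℕ}

theorem hess {A : Type} [CommRing A] [Algebra k A] [FiniteDimensional k A] (F : Frob k A)
    {a : Fin 4 → A} (g : Gn k a) (h : ∀ p, (∀ f : P 4 k, aeval a f = 0 → eval p f = 0) →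
      ∃ f : P 4 k, aeval a f = 0 ∧ ((∃ i, eval p (pderiv i f) ≠ 0) ∨
        3 ≤ (Matrix.of fun i j => eval p (pderiv i (pderiv j f))).rank)) : SmA k A := by
  induction hd : finrank k A using Nat.strong_induction_on generalizing A with | _ d ih => ?_
  subst hd
  refine SmA.loc F a (fun B _ _ _ π s FB l => ih _ l FB (g.map π s) (fun p hp => ?_) rfl)
    fun p _ hn => ?_
  · have e : ∀ f : P 4 k, aeval a f = 0 → aeval (fun i => π (a i)) f = 0 := fun f e => by
      rw [← MvPolynomial.comp_aeval, AlgHom.comp_apply, e, map_zero]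
    exact (h p fun f hf => hp f (e f hf)).imp fun f hf => ⟨e f hf.1, hf.2⟩
  · have e : ∀ f : P 4 k, aeval a f = 0 → aeval (fun i => a i - algebraMap k A (p i))
        (aeval (fun j => X j + C (p j)) f : P 4 k) = 0 := fun f e => by
      rw [← AlgHom.comp_apply, MvPolynomial.comp_aeval]
      simpa using e
    obtain ⟨f, h1, h2⟩ := h p fun f hf => g9_cc p f ▸ g9_c0 hn (g.shift p) (e f hf)
    refine crit F hn (g.shift p) (e f h1) ?_
    simpa only [gr, he, g9_shift, g9_cc] using h2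

theorem gn_quot (I : Ideal (P 4 k)) : Gn k fun i => Ideal.Quotient.mk I (X i) := by
  have := AlgHom.map_adjoin (Ideal.Quotient.mkₐ k I) (Set.range X)
  rw [MvPolynomial.adjoin_range_X, Algebra.map_top,
    (AlgHom.range_eq_top _).2 (Ideal.Quotient.mkₐ_surjective k I), ← Set.range_comp] at this
  exact this.symm

theorem irr21 (h1 : 1 ≤ d) (h : d ≤ 21) : (Gor k d).Nonempty ∧
    ∀ A B, ZClosed k d A → ZClosed k d B → Gor k d ⊆ A ∪ B → Gor k d ⊆ A ∨ Gor k d ⊆ B := by
  have key : ∀ A, ZClosed k d A → Pts k d ⊆ A → Gor k d ⊆ A := fun A a p I hI => by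
    obtain ⟨_, F⟩ := gor_frob h1 hI
    exact sm_closed h1 hI.1 (main21 F (gn_quot I) (hI.1.trans_le h)) a p
  exact ⟨pts_ne.mono pts_gor, fun A B a b c =>
    (pts_irr h1 a b (pts_gor.trans c)).imp (key A a) (key B b)⟩

theorem hess3 (h1 : 1 ≤ d) {I : Ideal (P 4 k)} (hI : I ∈ Gor k d)
    (h : ∀ p, (∀ f ∈ I, eval p f = 0) → ∃ f ∈ I, (∃ i, eval p (pderiv i f) ≠ 0) ∨
      3 ≤ (Matrix.of fun i j => eval p (pderiv i (pderiv j f))).rank)
    {Z : Set (Ideal (P 4 k))} (z : ZClosed k d Z) (p : Pts k d ⊆ Z) : I ∈ Z := by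
  obtain ⟨_, F⟩ := gor_frob h1 hI
  have e : ∀ f : P 4 k, aeval (fun i => Ideal.Quotient.mk I (X i)) f = 0 ↔ f ∈ I := fun f => by
    rw [← Ideal.Quotient.eq_zero_iff_mem, ← Ideal.Quotient.mkₐ_eq_mk k, ← MvPolynomial.comp_aeval,
      MvPolynomial.aeval_X_left, AlgHom.comp_id]
  exact sm_closed h1 hI.1 (hess F (gn_quot I) (by simpa only [e] using h)) z p

end Pool.Agent.Lib.MP_2cea55_ag.Gs
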