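import Pool.Agent.Lib.MP_2cea55_ag.Dense

set_option autoImplicit false
set_option linter.unusedSectionVars false
set_option linter.style.haveILetI false

open MvPolynomial Module

namespace Pool.Agent.Lib.MP_2cea55_ag

variable {k : Type} [Field k]

lemma rank_add (l : R k →ₗ[k] k) [FiniteDimensional k (R k ⧸ Id l)] (a : k) (p : Fin 4 → k) :
    FiniteDimensional k (R k ⧸ Id (l + a • evp p)) ∧
      finrank k (R k ⧸ Id (l + a • evp p)) ≤ finrank k (R k ⧸ Id l) + 1 := by
  let π : R k →ₗ[k] (R k ⧸ Id l) × k := (Ideal.Quotient.mkₐ k (Id l)).toLinearMap.prod (evp p)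
  have E := quotEquiv (Id l ⊓ RingHom.ker (eval p)) π fun f => by
    simp [π, Ideal.Quotient.eq_zero_iff_mem]
  haveI := Module.Finite.equiv E.symm
  have hle : Id l ⊓ RingHom.ker (eval p) ≤ Id (l + a • evp p) := fun f hf g => by
    have h2 : eval p f = 0 := hf.2
    simp [hf.1 g, h2]
  have hs : Function.Surjective (Ideal.Quotient.factorₐ k hle).toLinearMap := fun x => by
    obtain ⟨f, rfl⟩ := Ideal.Quotient.mk_surjective x
    exact ⟨Ideal.Quotient.mk _ f, rfl⟩
  refine ⟨Module.Finite.of_surjective _ hs, (LinearMap.finrank_le_finrank_of_surjective hs).trans ?_⟩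
  rw [E.finrank_eq]
  exact (Submodule.finrank_le _).trans (by rw [finrank_prod, finrank_self])

def ex : Option (Fin 4) → T := fun o =>
  o.elim (10, 0, 0, 0) ![(11, 0, 0, 0), (10, 1, 0, 0), (10, 0, 1, 0), (10, 0, 0, 1)]

lemma ex_dg : ∀ o, 10 ≤ dg (ex o) := by decide

lemma ev_toM (p : Fin 4 → k) (t : T) : eval p (monomial (toM t) 1) =
    p 0 ^ t.1 * p 1 ^ t.2.1 * p 2 ^ t.2.2.1 * p 3 ^ t.2.2.2 := by
  rw [eval_monomial, one_mul, Finsupp.prod_fintype _ _ (by simp), Fin.prod_univ_four]; rfl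

theorem dense' [Infinite k] (P : MvPolynomial (Mf ⊕ Option (Fin 4)) k) (hP : P ≠ 0) :
    ∃ l : R k →ₗ[k] k, FiniteDimensional k (R k ⧸ Id l) ∧ finrank k (R k ⧸ Id l) ≤ 139 ∧
      eval (fun j => l (monomial (toM (Sum.elim Subtype.val ex j)) 1)) P ≠ 0 := by
  obtain ⟨y, hy⟩ : ∃ y, eval y (P * (X (Sum.inr none) * X (Sum.inr (some 0)))) ≠ 0 := by
    by_contra h
    push Not at h
    exact mul_ne_zero hP (mul_ne_zero (X_ne_zero _) (X_ne_zero _))
      (MvPolynomial.funext fun y => by rw [h y, map_zero])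
  simp only [map_mul, eval_X, mul_ne_zero_iff] at hy
  obtain ⟨h0, h1, h2⟩ := hy
  set p : Fin 4 → k := fun s => y (Sum.inr (some s)) / y (Sum.inr none) with hp
  have p0 : p 0 ≠ 0 := div_ne_zero h2 h1
  set a := y (Sum.inr none) / p 0 ^ 10 with ha
  let Q : MvPolynomial Mf k := aeval (Sum.elim
    (fun j : Mf => X j + C (a * eval p (monomial (toM j) 1))) fun o => C (y (Sum.inr o))) P
  have hQ : ∀ z : Mf → k, eval z Q = eval (Sum.elim
      (fun j : Mf => z j + a * eval p (monomial (toM j) 1)) fun o => y (Sum.inr o)) P := fun z => by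
    change aeval z Q = aeval _ P
    rw [← AlgHom.comp_apply, comp_aeval]
    congr 2
    ext (j | o) <;> simp
  have hQ0 : Q ≠ 0 := fun h => h0 (by
    have := hQ fun j => y (Sum.inl j) - a * eval p (monomial (toM j) 1)
    rw [h, map_zero] at this
    rw [this]
    congr 2
    ext (j | o) <;> simp)
  obtain ⟨l, r1, r2, r3, r4⟩ := dense Q hQ0
  obtain ⟨s1, s2⟩ := rank_add l a p
  refine ⟨l + a • evp p, s1, by omega, fun h => r3 ?_⟩
  rw [hQ, ← h]
  congr 2
  ext (j | o)
  · simp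
  · simp only [Sum.elim_inr, LinearMap.add_apply, r4 _ (ex_dg o), LinearMap.smul_apply, evp_apply,
      ev_toM, smul_eq_mul, zero_add]
    have e : ∀ s, y (Sum.inr (some s)) = y (Sum.inr none) * p s := fun s => by
      rw [hp]; field_simp
    rcases o with _ | s
    · simp [ex, ha]; field_simp
    · fin_cases s <;> simp [ex, ha, e] <;> field_simp

theorem main [IsAlgClosed k] [CharZero k] (d : ℕ) (hd : d = 138 ∨ d = 139) :
    ∃ A B : Set (Ideal (R k)), ZClosed k d A ∧ ZClosed k d B ∧ Gor k d ⊆ A ∪ B ∧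
      ¬Gor k d ⊆ A ∧ ¬Gor k d ⊆ B := by
  rcases hd with rfl | rfl
  · exact reducible (by norm_num) (fun j : Mf => toM j)
      (by rw [Fintype.card_coe, card_Mf]; norm_num) fun P hP =>
        (dense P hP).imp fun _ h => ⟨h.1, h.2.1, h.2.2.1⟩
  · exact reducible (by norm_num) (fun j : Mf ⊕ Option (Fin 4) => toM (Sum.elim Subtype.val ex j))
      (by rw [Fintype.card_sum, Fintype.card_coe, card_Mf]; norm_num) dense'

end Pool.Agent.Lib.MP_2cea55_ag
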